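import Mathlib

/-!
# Squares near a compact set

If all squares with vertices in a compact set `K` are small, then so are all squares with vertices in a
suitable open neighbourhood of `K`.
-/

namespace Hex

open Set Metric

theorem robust {K : Set ℂ} (hK : IsCompact K) (hne : K.Nonempty) {ε : ℝ}
    (h : ∀ z v : ℂ, z + v ∈ K → z + Complex.I * v ∈ K → z - v ∈ K → z - Complex.I * v ∈ K →
      ‖v‖ < ε) :
    ∃ δ : ℝ, 0 < δ ∧ ∀ z v : ℂ, z + v ∈ thickening δ K → z + Complex.I * v ∈ thickening δ K →
      z - v ∈ thickening δ K → z - Complex.I * v ∈ thickening δ K → ‖v‖ < ε := by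
  classical
  set φ : ℂ × ℂ → ℝ := fun p =>
    max (max (infDist (p.1 + p.2) K) (infDist (p.1 + Complex.I * p.2) K))
      (max (infDist (p.1 - p.2) K) (infDist (p.1 - Complex.I * p.2) K)) with hφ
  have hφc : Continuous φ := by
    have hi : Continuous fun x : ℂ => infDist x K := continuous_infDist_pt K
    have c1 : Continuous fun p : ℂ × ℂ => infDist (p.1 + p.2) K :=
      hi.comp (continuous_fst.add continuous_snd)
    have c2 : Continuous fun p : ℂ × ℂ => infDist (p.1 + Complex.I * p.2) K :=
      hi.comp (continuous_fst.add (continuous_const.mul continuous_snd))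
    have c3 : Continuous fun p : ℂ × ℂ => infDist (p.1 - p.2) K :=
      hi.comp (continuous_fst.sub continuous_snd)
    have c4 : Continuous fun p : ℂ × ℂ => infDist (p.1 - Complex.I * p.2) K :=
      hi.comp (continuous_fst.sub (continuous_const.mul continuous_snd))
    exact (c1.max c2).max (c3.max c4)
  set T : Set (ℂ × ℂ) := {p | ε ≤ ‖p.2‖ ∧ φ p ≤ 1} with hT
  have hTclosed : IsClosed T :=
    (isClosed_le continuous_const continuous_snd.norm).inter (isClosed_le hφc continuous_const)
  obtain ⟨R, hR⟩ := hK.isBounded.exists_norm_le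
  have near : ∀ x : ℂ, infDist x K ≤ 1 → ‖x‖ ≤ R + 1 := by
    intro x hx
    obtain ⟨k, hk, hk'⟩ := hK.exists_infDist_eq_dist hne x
    rw [hk'] at hx
    have h1 := hR k hk
    have h2 : ‖x‖ ≤ ‖k‖ + dist x k := by
      rw [dist_eq_norm]
      calc ‖x‖ = ‖k + (x - k)‖ := by ring_nf
        _ ≤ ‖k‖ + ‖x - k‖ := norm_add_le _ _
    linarith
  have hTcomp : IsCompact T := by
    refine isCompact_of_isClosed_isBounded hTclosed ?_
    refine (isBounded_iff_forall_norm_le).mpr ⟨R + 1, ?_⟩
    rintro ⟨z, v⟩ ⟨-, hp⟩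
    have hp1 : infDist (z + v) K ≤ 1 := ((le_max_left _ _).trans (le_max_left _ _)).trans hp
    have hp3 : infDist (z - v) K ≤ 1 := ((le_max_left _ _).trans (le_max_right _ _)).trans hp
    have n1 := near _ hp1
    have n3 := near _ hp3
    have hz : ‖z‖ ≤ R + 1 := by
      have e : (2 : ℂ) * z = (z + v) + (z - v) := by ring
      have : ‖(2 : ℂ) * z‖ ≤ (R + 1) + (R + 1) := by
        rw [e]; exact (norm_add_le _ _).trans (add_le_add n1 n3)
      rw [norm_mul] at this
      norm_num at this
      linarith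
    have hv : ‖v‖ ≤ R + 1 := by
      have e : (2 : ℂ) * v = (z + v) - (z - v) := by ring
      have : ‖(2 : ℂ) * v‖ ≤ (R + 1) + (R + 1) := by
        rw [e]; exact (norm_sub_le _ _).trans (add_le_add n1 n3)
      rw [norm_mul] at this
      norm_num at this
      linarith
    exact max_le hz hv
  have memK : ∀ x : ℂ, infDist x K ≤ 0 → x ∈ K := by
    intro x hx
    have h0 : infDist x K = 0 := le_antisymm hx infDist_nonneg
    exact (hK.isClosed.mem_iff_infDist_zero hne).mpr h0
  rcases T.eq_empty_or_nonempty with hTe | hTn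
  · refine ⟨1, one_pos, fun z v h0 h1 h2 h3 => ?_⟩
    rw [mem_thickening_iff_infDist_lt hne] at h0 h1 h2 h3
    by_contra hv
    have : (z, v) ∈ T := ⟨not_lt.mp hv, max_le (max_le h0.le h1.le) (max_le h2.le h3.le)⟩
    rw [hTe] at this
    exact this
  · obtain ⟨p0, hp0, hmin⟩ := hTcomp.exists_isMinOn hTn hφc.continuousOn
    have hpos : 0 < φ p0 := by
      by_contra hcon
      have hle : φ p0 ≤ 0 := not_lt.mp hcon
      have k0 : p0.1 + p0.2 ∈ K := memK _ (((le_max_left _ _).trans (le_max_left _ _)).trans hle)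
      have k1 : p0.1 + Complex.I * p0.2 ∈ K :=
        memK _ (((le_max_right _ _).trans (le_max_left _ _)).trans hle)
      have k2 : p0.1 - p0.2 ∈ K := memK _ (((le_max_left _ _).trans (le_max_right _ _)).trans hle)
      have k3 : p0.1 - Complex.I * p0.2 ∈ K :=
        memK _ (((le_max_right _ _).trans (le_max_right _ _)).trans hle)
      exact absurd (h _ _ k0 k1 k2 k3) (not_lt.mpr hp0.1)
    refine ⟨min 1 (φ p0), lt_min one_pos hpos, fun z v h0 h1 h2 h3 => ?_⟩
    rw [mem_thickening_iff_infDist_lt hne] at h0 h1 h2 h3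
    by_contra hv
    have hlt : φ (z, v) < min 1 (φ p0) := max_lt (max_lt h0 h1) (max_lt h2 h3)
    have hmem : (z, v) ∈ T := ⟨not_lt.mp hv, (hlt.trans_le (min_le_left _ _)).le⟩
    have := hmin hmem
    simp only [mem_ofPred_eq] at this
    exact absurd (hlt.trans_le (min_le_right _ _)) (not_lt.mpr this)

end Hex
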