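import Pool.Agent.helper91.HX.Def

/-! Squares inscribed in the hexagon: classes of edge quadruples, part 1. -/

namespace Hex

theorem q0151 {m : ℝ} (hm : 0 ≤ m) : Q m .e0 .e1 .e5 .e1 := by
  intro t0 t1 t2 t3 a0 b0 a1 b1 a2 b2 a3 b3 h1 h2 h3 h4
  simp only [px, py, dx, dy] at h1 h2 h3 h4 ⊢
  exfalso
  have h : (2*m^5 + 40*m^4 + 322*m^3 + 1304*m^2 + 2654*m + 2168)*t0 + (2*m^3 + 24*m^2 + 100*m + 144) = 0 := by
    linear_combination (-m^2 - 8*m - 17)*h2 + (-m^2 - 7*m - 12)*h3 + (-m^2 - 9*m - 20)*h4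
  have h5 : (0:ℝ) ≤ (2*m^5 + 40*m^4 + 322*m^3 + 1304*m^2 + 2654*m + 2168)*t0 := mul_nonneg (by positivity) a0
  have h6 : (0:ℝ) < (2*m^3 + 24*m^2 + 100*m + 144) := by positivity
  linarith

theorem q0152 {m : ℝ} (hm : 0 ≤ m) : Q m .e0 .e1 .e5 .e2 := by
  intro t0 t1 t2 t3 a0 b0 a1 b1 a2 b2 a3 b3 h1 h2 h3 h4
  simp only [px, py, dx, dy] at h1 h2 h3 h4 ⊢
  exfalso
  have h : (4*m^6 + 84*m^5 + 736*m^4 + 3434*m^3 + 8964*m^2 + 12352*m + 6976)*(1 - t1) + (4*m^5 + 74*m^4 + 544*m^3 + 1978*m^2 + 3524*m + 2416) = 0 := by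
    linear_combination (4*m^2 + 29*m + 58)*h2 + (2*m^3 + 24*m^2 + 95*m + 124)*h3 + (-2*m^3 - 18*m^2 - 53*m - 46)*h4
  have h5 : (0:ℝ) ≤ (4*m^6 + 84*m^5 + 736*m^4 + 3434*m^3 + 8964*m^2 + 12352*m + 6976)*(1 - t1) := mul_nonneg (by positivity) (by linarith)
  have h6 : (0:ℝ) < (4*m^5 + 74*m^4 + 544*m^3 + 1978*m^2 + 3524*m + 2416) := by positivity
  linarith

theorem q0153 {m : ℝ} (hm : 0 ≤ m) : Q m .e0 .e1 .e5 .e3 := by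
  intro t0 t1 t2 t3 a0 b0 a1 b1 a2 b2 a3 b3 h1 h2 h3 h4
  simp only [px, py, dx, dy] at h1 h2 h3 h4 ⊢
  exfalso
  have h : (4*m^7 + 108*m^6 + 1264*m^5 + 8312*m^4 + 33152*m^3 + 80124*m^2 + 108512*m + 63424)*(1 - t1) + (4*m^6 + 98*m^5 + 1012*m^4 + 5648*m^3 + 17989*m^2 + 31020*m + 22624) = 0 := by
    linear_combination (-7*m^2 - 63*m - 142)*h2 + (2*m^4 + 32*m^3 + 191*m^2 + 500*m + 480)*h3 + (-2*m^4 - 30*m^3 - 175*m^2 - 474*m - 506)*h4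
  have h5 : (0:ℝ) ≤ (4*m^7 + 108*m^6 + 1264*m^5 + 8312*m^4 + 33152*m^3 + 80124*m^2 + 108512*m + 63424)*(1 - t1) := mul_nonneg (by positivity) (by linarith)
  have h6 : (0:ℝ) < (4*m^6 + 98*m^5 + 1012*m^4 + 5648*m^3 + 17989*m^2 + 31020*m + 22624) := by positivity
  linarith

theorem q0154 {m : ℝ} (hm : 0 ≤ m) : Q m .e0 .e1 .e5 .e4 := by
  intro t0 t1 t2 t3 a0 b0 a1 b1 a2 b2 a3 b3 h1 h2 h3 h4
  simp only [px, py, dx, dy] at h1 h2 h3 h4 ⊢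
  exfalso
  have h : (4*m^6 + 94*m^5 + 924*m^4 + 4856*m^3 + 14367*m^2 + 22650*m + 14842)*t3 + (2*m^5 + 38*m^4 + 294*m^3 + 1157*m^2 + 2310*m + 1862) = 0 := by
    linear_combination (2*m^3 + 23*m^2 + 91*m + 122)*h2 + (2*m^3 + 23*m^2 + 90*m + 118)*h3 + (m^2 + 8*m + 16)*h4
  have h5 : (0:ℝ) ≤ (4*m^6 + 94*m^5 + 924*m^4 + 4856*m^3 + 14367*m^2 + 22650*m + 14842)*t3 := mul_nonneg (by positivity) a3
  have h6 : (0:ℝ) < (2*m^5 + 38*m^4 + 294*m^3 + 1157*m^2 + 2310*m + 1862) := by positivity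
  linarith

theorem q0155 {m : ℝ} (hm : 0 ≤ m) : Q m .e0 .e1 .e5 .e5 := by
  intro t0 t1 t2 t3 a0 b0 a1 b1 a2 b2 a3 b3 h1 h2 h3 h4
  simp only [px, py, dx, dy] at h1 h2 h3 h4 ⊢
  exfalso
  have h : (2*m^4 + 31*m^3 + 182*m^2 + 478*m + 472)*t0 + (m^3 + 12*m^2 + 50*m + 72) = 0 := by
    linear_combination (-1)*h2 + (-m - 4)*h4
  have h5 : (0:ℝ) ≤ (2*m^4 + 31*m^3 + 182*m^2 + 478*m + 472)*t0 := mul_nonneg (by positivity) a0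
  have h6 : (0:ℝ) < (m^3 + 12*m^2 + 50*m + 72) := by positivity
  linarith

theorem q0202 {m : ℝ} (hm : 0 ≤ m) : Q m .e0 .e2 .e0 .e2 := by
  intro t0 t1 t2 t3 a0 b0 a1 b1 a2 b2 a3 b3 h1 h2 h3 h4
  simp only [px, py, dx, dy] at h1 h2 h3 h4 ⊢
  exfalso
  have h : (32*m^9 + 1120*m^8 + 17512*m^7 + 160504*m^6 + 950060*m^5 + 3765408*m^4 + 9989780*m^3 + 17103092*m^2 + 17141712*m + 7660800)*t1 + (16*m^8 + 504*m^7 + 6992*m^6 + 55784*m^5 + 279864*m^4 + 903792*m^3 + 1834032*m^2 + 2137216*m + 1094400) = 0 := by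
    linear_combination (8*m^4 + 122*m^3 + 716*m^2 + 1914*m + 1972)*h1 + (4*m^3 + 45*m^2 + 174*m + 232)*h2 + (8*m^6 + 192*m^5 + 1942*m^4 + 10586*m^3 + 32779*m^2 + 54642*m + 38304)*h3 + (-8*m^6 - 184*m^5 - 1786*m^4 - 9354*m^3 - 27861*m^2 - 44730*m - 30240)*h4
  have h5 : (0:ℝ) ≤ (32*m^9 + 1120*m^8 + 17512*m^7 + 160504*m^6 + 950060*m^5 + 3765408*m^4 + 9989780*m^3 + 17103092*m^2 + 17141712*m + 7660800)*t1 := mul_nonneg (by positivity) a1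
  have h6 : (0:ℝ) < (16*m^8 + 504*m^7 + 6992*m^6 + 55784*m^5 + 279864*m^4 + 903792*m^3 + 1834032*m^2 + 2137216*m + 1094400) := by positivity
  linarith

theorem q0203 {m : ℝ} (hm : 0 ≤ m) : Q m .e0 .e2 .e0 .e3 := by
  intro t0 t1 t2 t3 a0 b0 a1 b1 a2 b2 a3 b3 h1 h2 h3 h4
  simp only [px, py, dx, dy] at h1 h2 h3 h4 ⊢
  exfalso
  have h : (32*m^9 + 1120*m^8 + 17496*m^7 + 160000*m^6 + 943344*m^5 + 3716062*m^4 + 9773146*m^3 + 16533639*m^2 + 16310696*m + 7141028)*(1 - t3) + (16*m^8 + 520*m^7 + 7496*m^6 + 62500*m^5 + 329210*m^4 + 1120426*m^3 + 2403485*m^2 + 2968232*m + 1614172) = 0 := by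
    linear_combination (-16*m^6 - 376*m^5 - 3720*m^4 - 19818*m^3 - 59924*m^2 - 97458*m - 66572)*h1 + (-8*m^5 - 156*m^4 - 1228*m^3 - 4873*m^2 - 9738*m - 7832)*h2 + (-8*m^6 - 192*m^5 - 1942*m^4 - 10586*m^3 - 32779*m^2 - 54642*m - 38304)*h3 + (8*m^6 + 184*m^5 + 1786*m^4 + 9354*m^3 + 27861*m^2 + 44730*m + 30240)*h4
  have h5 : (0:ℝ) ≤ (32*m^9 + 1120*m^8 + 17496*m^7 + 160000*m^6 + 943344*m^5 + 3716062*m^4 + 9773146*m^3 + 16533639*m^2 + 16310696*m + 7141028)*(1 - t3) := mul_nonneg (by positivity) (by linarith)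
  have h6 : (0:ℝ) < (16*m^8 + 520*m^7 + 7496*m^6 + 62500*m^5 + 329210*m^4 + 1120426*m^3 + 2403485*m^2 + 2968232*m + 1614172) := by positivity
  linarith

theorem q0204 {m : ℝ} (hm : 0 ≤ m) : Q m .e0 .e2 .e0 .e4 := by
  intro t0 t1 t2 t3 a0 b0 a1 b1 a2 b2 a3 b3 h1 h2 h3 h4
  simp only [px, py, dx, dy] at h1 h2 h3 h4 ⊢
  exfalso
  have h : (16*m^9 + 560*m^8 + 8708*m^7 + 78872*m^6 + 457962*m^5 + 1764922*m^4 + 4504978*m^3 + 7323067*m^2 + 6851272*m + 2793956)*t3 + (16*m^8 + 520*m^7 + 7496*m^6 + 62500*m^5 + 329210*m^4 + 1120426*m^3 + 2403485*m^2 + 2968232*m + 1614172) = 0 := by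
    linear_combination (-16*m^6 - 376*m^5 - 3720*m^4 - 19818*m^3 - 59924*m^2 - 97458*m - 66572)*h1 + (-8*m^5 - 156*m^4 - 1228*m^3 - 4873*m^2 - 9738*m - 7832)*h2 + (-8*m^6 - 192*m^5 - 1942*m^4 - 10586*m^3 - 32779*m^2 - 54642*m - 38304)*h3 + (8*m^6 + 184*m^5 + 1786*m^4 + 9354*m^3 + 27861*m^2 + 44730*m + 30240)*h4
  have h5 : (0:ℝ) ≤ (16*m^9 + 560*m^8 + 8708*m^7 + 78872*m^6 + 457962*m^5 + 1764922*m^4 + 4504978*m^3 + 7323067*m^2 + 6851272*m + 2793956)*t3 := mul_nonneg (by positivity) a3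
  have h6 : (0:ℝ) < (16*m^8 + 520*m^7 + 7496*m^6 + 62500*m^5 + 329210*m^4 + 1120426*m^3 + 2403485*m^2 + 2968232*m + 1614172) := by positivity
  linarith

theorem q0205 {m : ℝ} (hm : 0 ≤ m) : Q m .e0 .e2 .e0 .e5 := by
  intro t0 t1 t2 t3 a0 b0 a1 b1 a2 b2 a3 b3 h1 h2 h3 h4
  simp only [px, py, dx, dy] at h1 h2 h3 h4 ⊢
  exfalso
  have h : (8*m^7 + 216*m^6 + 2514*m^5 + 16344*m^4 + 64073*m^3 + 151396*m^2 + 199532*m + 113072)*t1 + (4*m^5 + 80*m^4 + 650*m^3 + 2680*m^2 + 5608*m + 4768) = 0 := by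
    linear_combination (4*m^4 + 66*m^3 + 416*m^2 + 1186*m + 1292)*h1 + (2*m^3 + 25*m^2 + 106*m + 152)*h2 + (4*m^4 + 66*m^3 + 416*m^2 + 1186*m + 1292)*h3 + (-4*m^4 - 62*m^3 - 368*m^2 - 990*m - 1020)*h4
  have h5 : (0:ℝ) ≤ (8*m^7 + 216*m^6 + 2514*m^5 + 16344*m^4 + 64073*m^3 + 151396*m^2 + 199532*m + 113072)*t1 := mul_nonneg (by positivity) a1
  have h6 : (0:ℝ) < (4*m^5 + 80*m^4 + 650*m^3 + 2680*m^2 + 5608*m + 4768) := by positivity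
  linarith

theorem q0211 {m : ℝ} (hm : 0 ≤ m) : Q m .e0 .e2 .e1 .e1 := by
  intro t0 t1 t2 t3 a0 b0 a1 b1 a2 b2 a3 b3 h1 h2 h3 h4
  simp only [px, py, dx, dy] at h1 h2 h3 h4 ⊢
  exfalso
  have h : (4*m^7 + 112*m^6 + 1356*m^5 + 9199*m^4 + 37755*m^3 + 93731*m^2 + 130314*m + 78264)*t1 + (2*m^6 + 48*m^5 + 486*m^4 + 2656*m^3 + 8260*m^2 + 13856*m + 9792) = 0 := by
    linear_combination (-2*m^4 - 33*m^3 - 207*m^2 - 586*m - 632)*h1 + (-2*m^3 - 25*m^2 - 107*m - 158)*h2 + (-m^3 - 12*m^2 - 50*m - 72)*h3 + (-m^2 - 8*m - 18)*h4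
  have h5 : (0:ℝ) ≤ (4*m^7 + 112*m^6 + 1356*m^5 + 9199*m^4 + 37755*m^3 + 93731*m^2 + 130314*m + 78264)*t1 := mul_nonneg (by positivity) a1
  have h6 : (0:ℝ) < (2*m^6 + 48*m^5 + 486*m^4 + 2656*m^3 + 8260*m^2 + 13856*m + 9792) := by positivity
  linarith

theorem q0212 {m : ℝ} (hm : 0 ≤ m) : Q m .e0 .e2 .e1 .e2 := by
  intro t0 t1 t2 t3 a0 b0 a1 b1 a2 b2 a3 b3 h1 h2 h3 h4
  simp only [px, py, dx, dy] at h1 h2 h3 h4 ⊢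
  exfalso
  have h : (16*m^8 + 496*m^7 + 6760*m^6 + 52880*m^5 + 259556*m^4 + 818203*m^3 + 1616848*m^2 + 1830250*m + 908136)*t1 + (8*m^7 + 220*m^6 + 2614*m^5 + 17386*m^4 + 69868*m^3 + 169540*m^2 + 229856*m + 134208) = 0 := by
    linear_combination (4*m^3 + 45*m^2 + 174*m + 232)*h1 + (4*m^2 + 29*m + 58)*h2 + (4*m^5 + 80*m^4 + 648*m^3 + 2653*m^2 + 5483*m + 4572)*h3 + (-4*m^5 - 76*m^4 - 586*m^3 - 2286*m^2 - 4505*m - 3582)*h4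
  have h5 : (0:ℝ) ≤ (16*m^8 + 496*m^7 + 6760*m^6 + 52880*m^5 + 259556*m^4 + 818203*m^3 + 1616848*m^2 + 1830250*m + 908136)*t1 := mul_nonneg (by positivity) a1
  have h6 : (0:ℝ) < (8*m^7 + 220*m^6 + 2614*m^5 + 17386*m^4 + 69868*m^3 + 169540*m^2 + 229856*m + 134208) := by positivity
  linarith

theorem q0213 {m : ℝ} (hm : 0 ≤ m) : Q m .e0 .e2 .e1 .e3 := by
  intro t0 t1 t2 t3 a0 b0 a1 b1 a2 b2 a3 b3 h1 h2 h3 h4
  simp only [px, py, dx, dy] at h1 h2 h3 h4 ⊢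
  exfalso
  have h : (16*m^8 + 496*m^7 + 6752*m^6 + 52668*m^5 + 257248*m^4 + 804935*m^3 + 1574279*m^2 + 1757919*m + 857294)*(1 - t3) + (4*m^6 + 114*m^5 + 1298*m^4 + 7664*m^3 + 24917*m^2 + 42411*m + 29530) = 0 := by
    linear_combination (-8*m^5 - 156*m^4 - 1228*m^3 - 4873*m^2 - 9738*m - 7832)*h1 + (-8*m^4 - 124*m^3 - 732*m^2 - 1945*m - 1958)*h2 + (-4*m^5 - 84*m^4 - 710*m^3 - 3022*m^2 - 6479*m - 5598)*h3 + (4*m^5 + 76*m^4 + 584*m^3 + 2265*m^2 + 4429*m + 3492)*h4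
  have h5 : (0:ℝ) ≤ (16*m^8 + 496*m^7 + 6752*m^6 + 52668*m^5 + 257248*m^4 + 804935*m^3 + 1574279*m^2 + 1757919*m + 857294)*(1 - t3) := mul_nonneg (by positivity) (by linarith)
  have h6 : (0:ℝ) < (4*m^6 + 114*m^5 + 1298*m^4 + 7664*m^3 + 24917*m^2 + 42411*m + 29530) := by positivity
  linarith

theorem q0214 {m : ℝ} (hm : 0 ≤ m) : Q m .e0 .e2 .e1 .e4 := by
  intro t0 t1 t2 t3 a0 b0 a1 b1 a2 b2 a3 b3 h1 h2 h3 h4
  simp only [px, py, dx, dy] at h1 h2 h3 h4 ⊢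
  exfalso
  have h : (8*m^8 + 240*m^7 + 3132*m^6 + 23146*m^5 + 105490*m^4 + 301758*m^3 + 524115*m^2 + 497393*m + 191510)*t3 + (4*m^6 + 114*m^5 + 1298*m^4 + 7664*m^3 + 24917*m^2 + 42411*m + 29530) = 0 := by
    linear_combination (-8*m^5 - 156*m^4 - 1228*m^3 - 4873*m^2 - 9738*m - 7832)*h1 + (-8*m^4 - 124*m^3 - 732*m^2 - 1945*m - 1958)*h2 + (-4*m^5 - 84*m^4 - 710*m^3 - 3022*m^2 - 6479*m - 5598)*h3 + (4*m^5 + 76*m^4 + 584*m^3 + 2265*m^2 + 4429*m + 3492)*h4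
  have h5 : (0:ℝ) ≤ (8*m^8 + 240*m^7 + 3132*m^6 + 23146*m^5 + 105490*m^4 + 301758*m^3 + 524115*m^2 + 497393*m + 191510)*t3 := mul_nonneg (by positivity) a3
  have h6 : (0:ℝ) < (4*m^6 + 114*m^5 + 1298*m^4 + 7664*m^3 + 24917*m^2 + 42411*m + 29530) := by positivity
  linarith

theorem q0215 {m : ℝ} (hm : 0 ≤ m) : Q m .e0 .e2 .e1 .e5 := by
  intro t0 t1 t2 t3 a0 b0 a1 b1 a2 b2 a3 b3 h1 h2 h3 h4
  simp only [px, py, dx, dy] at h1 h2 h3 h4 ⊢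
  exfalso
  have h : (4*m^6 + 88*m^5 + 806*m^4 + 3923*m^3 + 10663*m^2 + 15270*m + 8936)*t1 + (2*m^5 + 42*m^4 + 356*m^3 + 1522*m^2 + 3280*m + 2848) = 0 := by
    linear_combination (2*m^3 + 25*m^2 + 106*m + 152)*h1 + (2*m^2 + 17*m + 38)*h2 + (2*m^3 + 25*m^2 + 106*m + 152)*h3 + (-2*m^3 - 22*m^2 - 82*m - 102)*h4
  have h5 : (0:ℝ) ≤ (4*m^6 + 88*m^5 + 806*m^4 + 3923*m^3 + 10663*m^2 + 15270*m + 8936)*t1 := mul_nonneg (by positivity) a1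
  have h6 : (0:ℝ) < (2*m^5 + 42*m^4 + 356*m^3 + 1522*m^2 + 3280*m + 2848) := by positivity
  linarith

theorem q0221 {m : ℝ} (hm : 0 ≤ m) : Q m .e0 .e2 .e2 .e1 := by
  intro t0 t1 t2 t3 a0 b0 a1 b1 a2 b2 a3 b3 h1 h2 h3 h4
  simp only [px, py, dx, dy] at h1 h2 h3 h4 ⊢
  exfalso
  have h : (8*m^8 + 260*m^7 + 3712*m^6 + 30406*m^5 + 156282*m^4 + 516067*m^3 + 1069025*m^2 + 1269886*m + 662184)*t1 + (4*m^6 + 98*m^5 + 1010*m^4 + 5604*m^3 + 17652*m^2 + 29920*m + 21312) = 0 := by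
    linear_combination (4*m^5 + 82*m^4 + 676*m^3 + 2803*m^2 + 5845*m + 4898)*h1 + (-4*m^5 - 78*m^4 - 616*m^3 - 2464*m^2 - 4994*m - 4108)*h2 + (4*m^4 + 64*m^3 + 389*m^2 + 1063*m + 1098)*h3 + (-4*m^5 - 82*m^4 - 678*m^3 - 2828*m^2 - 5952*m - 5058)*h4
  have h5 : (0:ℝ) ≤ (8*m^8 + 260*m^7 + 3712*m^6 + 30406*m^5 + 156282*m^4 + 516067*m^3 + 1069025*m^2 + 1269886*m + 662184)*t1 := mul_nonneg (by positivity) a1
  have h6 : (0:ℝ) < (4*m^6 + 98*m^5 + 1010*m^4 + 5604*m^3 + 17652*m^2 + 29920*m + 21312) := by positivity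
  linarith

theorem q0222 {m : ℝ} (hm : 0 ≤ m) : Q m .e0 .e2 .e2 .e2 := by
  intro t0 t1 t2 t3 a0 b0 a1 b1 a2 b2 a3 b3 h1 h2 h3 h4
  simp only [px, py, dx, dy] at h1 h2 h3 h4 ⊢
  exfalso
  have h : (4*m^5 + 78*m^4 + 616*m^3 + 2459*m^2 + 4956*m + 4032)*t0 + (2*m^4 + 28*m^3 + 147*m^2 + 340*m + 288) = 0 := by
    linear_combination (-2*m^2 - 16*m - 31)*h1 + (2*m^2 + 14*m + 26)*h2
  have h5 : (0:ℝ) ≤ (4*m^5 + 78*m^4 + 616*m^3 + 2459*m^2 + 4956*m + 4032)*t0 := mul_nonneg (by positivity) a0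
  have h6 : (0:ℝ) < (2*m^4 + 28*m^3 + 147*m^2 + 340*m + 288) := by positivity
  linarith

theorem q0223 {m : ℝ} (hm : 0 ≤ m) : Q m .e0 .e2 .e2 .e3 := by
  intro t0 t1 t2 t3 a0 b0 a1 b1 a2 b2 a3 b3 h1 h2 h3 h4
  simp only [px, py, dx, dy] at h1 h2 h3 h4 ⊢
  exfalso
  have h : (32*m^9 + 1104*m^8 + 16960*m^7 + 152120*m^6 + 876968*m^5 + 3365906*m^4 + 8589452*m^3 + 14031827*m^2 + 13291067*m + 5549246)*(1 - t3) + (16*m^8 + 544*m^7 + 8160*m^6 + 70420*m^5 + 381878*m^4 + 1330884*m^3 + 2907848*m^2 + 3638193*m + 1994050) = 0 := by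
    linear_combination (-16*m^6 - 376*m^5 - 3696*m^4 - 19446*m^3 - 57728*m^2 - 91623*m - 60698)*h1 + (16*m^6 + 360*m^5 + 3408*m^4 + 17362*m^3 + 50178*m^2 + 77982*m + 50908)*h2 + (8*m^6 + 180*m^5 + 1708*m^4 + 8738*m^3 + 25402*m^2 + 39774*m + 26208)*h3 + (8*m^6 + 188*m^5 + 1852*m^4 + 9784*m^3 + 29216*m^2 + 46725*m + 31248)*h4
  have h5 : (0:ℝ) ≤ (32*m^9 + 1104*m^8 + 16960*m^7 + 152120*m^6 + 876968*m^5 + 3365906*m^4 + 8589452*m^3 + 14031827*m^2 + 13291067*m + 5549246)*(1 - t3) := mul_nonneg (by positivity) (by linarith)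
  have h6 : (0:ℝ) < (16*m^8 + 544*m^7 + 8160*m^6 + 70420*m^5 + 381878*m^4 + 1330884*m^3 + 2907848*m^2 + 3638193*m + 1994050) := by positivity
  linarith

theorem q0224 {m : ℝ} (hm : 0 ≤ m) : Q m .e0 .e2 .e2 .e4 := by
  intro t0 t1 t2 t3 a0 b0 a1 b1 a2 b2 a3 b3 h1 h2 h3 h4
  simp only [px, py, dx, dy] at h1 h2 h3 h4 ⊢
  exfalso
  have h : (48*m^9 + 1688*m^8 + 26424*m^7 + 241528*m^6 + 1419768*m^5 + 5562498*m^4 + 14515580*m^3 + 24311070*m^2 + 23694223*m + 10230110)*t3 + (16*m^8 + 544*m^7 + 8160*m^6 + 70420*m^5 + 381878*m^4 + 1330884*m^3 + 2907848*m^2 + 3638193*m + 1994050) = 0 := by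
    linear_combination (-16*m^6 - 376*m^5 - 3696*m^4 - 19446*m^3 - 57728*m^2 - 91623*m - 60698)*h1 + (16*m^6 + 360*m^5 + 3408*m^4 + 17362*m^3 + 50178*m^2 + 77982*m + 50908)*h2 + (8*m^6 + 180*m^5 + 1708*m^4 + 8738*m^3 + 25402*m^2 + 39774*m + 26208)*h3 + (8*m^6 + 188*m^5 + 1852*m^4 + 9784*m^3 + 29216*m^2 + 46725*m + 31248)*h4
  have h5 : (0:ℝ) ≤ (48*m^9 + 1688*m^8 + 26424*m^7 + 241528*m^6 + 1419768*m^5 + 5562498*m^4 + 14515580*m^3 + 24311070*m^2 + 23694223*m + 10230110)*t3 := mul_nonneg (by positivity) a3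
  have h6 : (0:ℝ) < (16*m^8 + 544*m^7 + 8160*m^6 + 70420*m^5 + 381878*m^4 + 1330884*m^3 + 2907848*m^2 + 3638193*m + 1994050) := by positivity
  linarith

theorem q0225 {m : ℝ} (hm : 0 ≤ m) : Q m .e0 .e2 .e2 .e5 := by
  intro t0 t1 t2 t3 a0 b0 a1 b1 a2 b2 a3 b3 h1 h2 h3 h4
  simp only [px, py, dx, dy] at h1 h2 h3 h4 ⊢
  exfalso
  have h : (24*m^7 + 652*m^6 + 7628*m^5 + 49800*m^4 + 195866*m^3 + 463917*m^2 + 612494*m + 347624)*t0 + (4*m^6 + 88*m^5 + 804*m^4 + 3900*m^3 + 10573*m^2 + 15148*m + 8928) = 0 := by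
    linear_combination (-4*m^4 - 60*m^3 - 338*m^2 - 850*m - 806)*h1 + (4*m^4 + 56*m^3 + 300*m^2 + 728*m + 676)*h2 + (-4*m^4 - 60*m^3 - 338*m^2 - 850*m - 806)*h3 + (-4*m^4 - 64*m^3 - 380*m^2 - 992*m - 961)*h4
  have h5 : (0:ℝ) ≤ (24*m^7 + 652*m^6 + 7628*m^5 + 49800*m^4 + 195866*m^3 + 463917*m^2 + 612494*m + 347624)*t0 := mul_nonneg (by positivity) a0
  have h6 : (0:ℝ) < (4*m^6 + 88*m^5 + 804*m^4 + 3900*m^3 + 10573*m^2 + 15148*m + 8928) := by positivity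
  linarith

theorem q0231 {m : ℝ} (hm : 0 ≤ m) : Q m .e0 .e2 .e3 .e1 := by
  intro t0 t1 t2 t3 a0 b0 a1 b1 a2 b2 a3 b3 h1 h2 h3 h4
  simp only [px, py, dx, dy] at h1 h2 h3 h4 ⊢
  exfalso
  have h : (8*m^9 + 292*m^8 + 4736*m^7 + 44778*m^6 + 271796*m^5 + 1097377*m^4 + 2943827*m^3 + 5052337*m^2 + 5024502*m + 2200712)*t1 + (12*m^7 + 342*m^6 + 4206*m^5 + 28892*m^4 + 119553*m^3 + 297549*m^2 + 411678*m + 243688) = 0 := by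
    linear_combination (4*m^6 + 98*m^5 + 1004*m^4 + 5499*m^3 + 16957*m^2 + 27850*m + 18960)*h1 + (-4*m^6 - 94*m^5 - 924*m^4 - 4852*m^3 - 14311*m^2 - 22377*m - 14378)*h2 + (4*m^5 + 80*m^4 + 643*m^3 + 2586*m^2 + 5178*m + 4096)*h3 + (-4*m^6 - 98*m^5 - 1002*m^4 - 5464*m^3 - 16719*m^2 - 27116*m - 18094)*h4
  have h5 : (0:ℝ) ≤ (8*m^9 + 292*m^8 + 4736*m^7 + 44778*m^6 + 271796*m^5 + 1097377*m^4 + 2943827*m^3 + 5052337*m^2 + 5024502*m + 2200712)*t1 := mul_nonneg (by positivity) a1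
  have h6 : (0:ℝ) < (12*m^7 + 342*m^6 + 4206*m^5 + 28892*m^4 + 119553*m^3 + 297549*m^2 + 411678*m + 243688) := by positivity
  linarith

theorem q0232 {m : ℝ} (hm : 0 ≤ m) : Q m .e0 .e2 .e3 .e2 := by
  intro t0 t1 t2 t3 a0 b0 a1 b1 a2 b2 a3 b3 h1 h2 h3 h4
  simp only [px, py, dx, dy] at h1 h2 h3 h4 ⊢
  exfalso
  have h : (32*m^9 + 1104*m^8 + 17008*m^7 + 153464*m^6 + 893220*m^5 + 3475710*m^4 + 9036392*m^3 + 15126173*m^2 + 14781376*m + 6418738)*(1 - t2) + (16*m^8 + 496*m^7 + 6816*m^6 + 54168*m^5 + 272074*m^4 + 883944*m^3 + 1813502*m^2 + 2147884*m + 1124558) = 0 := by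
    linear_combination (-8*m^5 - 136*m^4 - 924*m^3 - 3110*m^2 - 5124*m - 3242)*h1 + (16*m^6 + 368*m^5 + 3552*m^4 + 18408*m^3 + 53992*m^2 + 84933*m + 55948)*h2 + (16*m^6 + 368*m^5 + 3560*m^4 + 18522*m^3 + 54618*m^2 + 86499*m + 57456)*h3 + (8*m^5 + 144*m^4 + 1046*m^3 + 3814*m^2 + 6951*m + 5040)*h4
  have h5 : (0:ℝ) ≤ (32*m^9 + 1104*m^8 + 17008*m^7 + 153464*m^6 + 893220*m^5 + 3475710*m^4 + 9036392*m^3 + 15126173*m^2 + 14781376*m + 6418738)*(1 - t2) := mul_nonneg (by positivity) (by linarith)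
  have h6 : (0:ℝ) < (16*m^8 + 496*m^7 + 6816*m^6 + 54168*m^5 + 272074*m^4 + 883944*m^3 + 1813502*m^2 + 2147884*m + 1124558) := by positivity
  linarith

theorem q0233 {m : ℝ} (hm : 0 ≤ m) : Q m .e0 .e2 .e3 .e3 := by
  intro t0 t1 t2 t3 a0 b0 a1 b1 a2 b2 a3 b3 h1 h2 h3 h4
  simp only [px, py, dx, dy] at h1 h2 h3 h4 ⊢
  exfalso
  have h : (32*m^10 + 1232*m^9 + 21376*m^8 + 219912*m^7 + 1484192*m^6 + 6859690*m^5 + 21965620*m^4 + 48066739*m^3 + 68714177*m^2 + 57882067*m + 21793822)*(1 - t2) + (16*m^9 + 592*m^8 + 9816*m^7 + 95572*m^6 + 601162*m^5 + 2529178*m^4 + 7104282*m^3 + 12822477*m^2 + 13464085*m + 6250466) = 0 := by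
    linear_combination (-8*m^6 - 184*m^5 - 1792*m^4 - 9464*m^3 - 28588*m^2 - 46813*m - 32438)*h1 + (16*m^7 + 432*m^6 + 5016*m^5 + 32420*m^4 + 125776*m^3 + 292367*m^2 + 376223*m + 206214)*h2 + (16*m^7 + 432*m^6 + 5016*m^5 + 32406*m^4 + 125552*m^3 + 291019*m^2 + 372597*m + 202522)*h3 + (8*m^6 + 184*m^5 + 1778*m^4 + 9226*m^3 + 27079*m^2 + 42588*m + 28036)*h4
  have h5 : (0:ℝ) ≤ (32*m^10 + 1232*m^9 + 21376*m^8 + 219912*m^7 + 1484192*m^6 + 6859690*m^5 + 21965620*m^4 + 48066739*m^3 + 68714177*m^2 + 57882067*m + 21793822)*(1 - t2) := mul_nonneg (by positivity) (by linarith)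
  have h6 : (0:ℝ) < (16*m^9 + 592*m^8 + 9816*m^7 + 95572*m^6 + 601162*m^5 + 2529178*m^4 + 7104282*m^3 + 12822477*m^2 + 13464085*m + 6250466) := by positivity
  linarith

theorem q0234 {m : ℝ} (hm : 0 ≤ m) : Q m .e0 .e2 .e3 .e4 := by
  intro t0 t1 t2 t3 a0 b0 a1 b1 a2 b2 a3 b3 h1 h2 h3 h4
  simp only [px, py, dx, dy] at h1 h2 h3 h4 ⊢
  exfalso
  have h : (48*m^10 + 1880*m^9 + 33144*m^8 + 346096*m^7 + 2368612*m^6 + 11091442*m^5 + 35954330*m^4 + 79582932*m^3 + 114973121*m^2 + 97764781*m + 37100998)*t3 + (16*m^9 + 576*m^8 + 9296*m^7 + 88124*m^6 + 539826*m^5 + 2211836*m^4 + 6048928*m^3 + 10621232*m^2 + 10833473*m + 4872674) = 0 := by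
    linear_combination (-16*m^7 - 440*m^6 - 5200*m^5 - 34198*m^4 - 135016*m^3 - 319607*m^2 - 419410*m - 234960)*h1 + (16*m^7 + 424*m^6 + 4832*m^5 + 30642*m^4 + 116550*m^3 + 265288*m^2 + 333635*m + 178178)*h2 + (8*m^7 + 212*m^6 + 2412*m^5 + 15230*m^4 + 57448*m^3 + 128902*m^2 + 158397*m + 81562)*h3 + (8*m^7 + 220*m^6 + 2604*m^5 + 17172*m^4 + 68038*m^3 + 161703*m^2 + 213045*m + 119764)*h4
  have h5 : (0:ℝ) ≤ (48*m^10 + 1880*m^9 + 33144*m^8 + 346096*m^7 + 2368612*m^6 + 11091442*m^5 + 35954330*m^4 + 79582932*m^3 + 114973121*m^2 + 97764781*m + 37100998)*t3 := mul_nonneg (by positivity) a3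
  have h6 : (0:ℝ) < (16*m^9 + 576*m^8 + 9296*m^7 + 88124*m^6 + 539826*m^5 + 2211836*m^4 + 6048928*m^3 + 10621232*m^2 + 10833473*m + 4872674) := by positivity
  linarith

theorem q0235 {m : ℝ} (hm : 0 ≤ m) : Q m .e0 .e2 .e3 .e5 := by
  intro t0 t1 t2 t3 a0 b0 a1 b1 a2 b2 a3 b3 h1 h2 h3 h4
  simp only [px, py, dx, dy] at h1 h2 h3 h4 ⊢
  exfalso
  have h : (24*m^7 + 652*m^6 + 7612*m^5 + 49428*m^4 + 192464*m^3 + 448509*m^2 + 577807*m + 316522)*(1 - t2) + (4*m^6 + 124*m^5 + 1576*m^4 + 10522*m^3 + 39018*m^2 + 76371*m + 61742) = 0 := by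
    linear_combination (8*m^4 + 126*m^3 + 754*m^2 + 2027*m + 2062)*h1 + (4*m^4 + 64*m^3 + 388*m^2 + 1053*m + 1074)*h2 + (8*m^4 + 126*m^3 + 754*m^2 + 2027*m + 2062)*h3 + (-4*m^4 - 60*m^3 - 344*m^2 - 892*m - 884)*h4
  have h5 : (0:ℝ) ≤ (24*m^7 + 652*m^6 + 7612*m^5 + 49428*m^4 + 192464*m^3 + 448509*m^2 + 577807*m + 316522)*(1 - t2) := mul_nonneg (by positivity) (by linarith)
  have h6 : (0:ℝ) < (4*m^6 + 124*m^5 + 1576*m^4 + 10522*m^3 + 39018*m^2 + 76371*m + 61742) := by positivity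
  linarith

theorem q0241 {m : ℝ} (hm : 0 ≤ m) : Q m .e0 .e2 .e4 .e1 := by
  intro t0 t1 t2 t3 a0 b0 a1 b1 a2 b2 a3 b3 h1 h2 h3 h4
  simp only [px, py, dx, dy] at h1 h2 h3 h4 ⊢
  exfalso
  have h : (16*m^9 + 580*m^8 + 9356*m^7 + 88108*m^6 + 533552*m^5 + 2153308*m^4 + 5787540*m^3 + 9981083*m^2 + 10011926*m + 4445096)*t1 + (4*m^8 + 132*m^7 + 1896*m^6 + 15470*m^5 + 78294*m^4 + 250982*m^3 + 495422*m^2 + 546492*m + 254608) = 0 := by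
    linear_combination (-4*m^4 - 74*m^3 - 514*m^2 - 1600*m - 1896)*h1 + (-4*m^6 - 98*m^5 - 1002*m^4 - 5464*m^3 - 16725*m^2 - 27157*m - 18170)*h2 + (2*m^5 + 40*m^4 + 316*m^3 + 1221*m^2 + 2272*m + 1576)*h3 + (-4*m^6 - 98*m^5 - 1000*m^4 - 5428*m^3 - 16479*m^2 - 26406*m - 17302)*h4
  have h5 : (0:ℝ) ≤ (16*m^9 + 580*m^8 + 9356*m^7 + 88108*m^6 + 533552*m^5 + 2153308*m^4 + 5787540*m^3 + 9981083*m^2 + 10011926*m + 4445096)*t1 := mul_nonneg (by positivity) a1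
  have h6 : (0:ℝ) < (4*m^8 + 132*m^7 + 1896*m^6 + 15470*m^5 + 78294*m^4 + 250982*m^3 + 495422*m^2 + 546492*m + 254608) := by positivity
  linarith

theorem q0242 {m : ℝ} (hm : 0 ≤ m) : Q m .e0 .e2 .e4 .e2 := by
  intro t0 t1 t2 t3 a0 b0 a1 b1 a2 b2 a3 b3 h1 h2 h3 h4
  simp only [px, py, dx, dy] at h1 h2 h3 h4 ⊢
  exfalso
  have h : (16*m^9 + 560*m^8 + 8776*m^7 + 80788*m^6 + 481304*m^5 + 1924236*m^4 + 5162644*m^3 + 8964636*m^2 + 9144606*m + 4176824)*t1 + (8*m^8 + 260*m^7 + 3728*m^6 + 30804*m^5 + 160462*m^4 + 539780*m^3 + 1145654*m^2 + 1403692*m + 760912) = 0 := by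
    linear_combination (8*m^3 + 106*m^2 + 464*m + 696)*h1 + (8*m^5 + 154*m^4 + 1188*m^3 + 4578*m^2 + 8787*m + 6670)*h2 + (4*m^6 + 104*m^5 + 1130*m^4 + 6562*m^3 + 21484*m^2 + 37633*m + 27604)*h3 + (-4*m^6 - 92*m^5 - 894*m^4 - 4694*m^3 - 14068*m^2 - 22891*m - 15898)*h4
  have h5 : (0:ℝ) ≤ (16*m^9 + 560*m^8 + 8776*m^7 + 80788*m^6 + 481304*m^5 + 1924236*m^4 + 5162644*m^3 + 8964636*m^2 + 9144606*m + 4176824)*t1 := mul_nonneg (by positivity) a1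
  have h6 : (0:ℝ) < (8*m^8 + 260*m^7 + 3728*m^6 + 30804*m^5 + 160462*m^4 + 539780*m^3 + 1145654*m^2 + 1403692*m + 760912) := by positivity
  linarith

theorem q0243 {m : ℝ} (hm : 0 ≤ m) : Q m .e0 .e2 .e4 .e3 := by
  intro t0 t1 t2 t3 a0 b0 a1 b1 a2 b2 a3 b3 h1 h2 h3 h4
  simp only [px, py, dx, dy] at h1 h2 h3 h4 ⊢
  exfalso
  have h : (16*m^9 + 592*m^8 + 9808*m^7 + 95368*m^6 + 598952*m^5 + 2516026*m^4 + 7058066*m^3 + 12727404*m^2 + 13359771*m + 6204938)*t3 + (8*m^8 + 268*m^7 + 3940*m^6 + 33148*m^5 + 174354*m^4 + 586576*m^3 + 1231666*m^2 + 1474726*m + 770424) = 0 := by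
    linear_combination (16*m^5 + 344*m^4 + 2952*m^3 + 12674*m^2 + 27256*m + 23496)*h1 + (16*m^7 + 440*m^6 + 5192*m^5 + 34034*m^4 + 133664*m^3 + 314002*m^2 + 407727*m + 225170)*h2 + (16*m^7 + 444*m^6 + 5292*m^5 + 35082*m^4 + 139546*m^3 + 332648*m^2 + 439405*m + 247738)*h3 + (4*m^6 + 88*m^5 + 786*m^4 + 3602*m^3 + 8704*m^2 + 9913*m + 3412)*h4
  have h5 : (0:ℝ) ≤ (16*m^9 + 592*m^8 + 9808*m^7 + 95368*m^6 + 598952*m^5 + 2516026*m^4 + 7058066*m^3 + 12727404*m^2 + 13359771*m + 6204938)*t3 := mul_nonneg (by positivity) a3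
  have h6 : (0:ℝ) < (8*m^8 + 268*m^7 + 3940*m^6 + 33148*m^5 + 174354*m^4 + 586576*m^3 + 1231666*m^2 + 1474726*m + 770424) := by positivity
  linarith

theorem q0244 {m : ℝ} (hm : 0 ≤ m) : Q m .e0 .e2 .e4 .e4 := by
  intro t0 t1 t2 t3 a0 b0 a1 b1 a2 b2 a3 b3 h1 h2 h3 h4
  simp only [px, py, dx, dy] at h1 h2 h3 h4 ⊢
  exfalso
  have h : (32*m^10 + 1272*m^9 + 22744*m^8 + 240740*m^7 + 1669344*m^6 + 7918060*m^5 + 25997480*m^4 + 58297266*m^3 + 85380028*m^2 + 73693167*m + 28448926)*t3 + (16*m^9 + 600*m^8 + 10076*m^7 + 99308*m^6 + 632100*m^5 + 2690380*m^4 + 7644642*m^3 + 13959070*m^2 + 14834497*m + 6975362) = 0 := by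
    linear_combination (16*m^5 + 344*m^4 + 2952*m^3 + 12674*m^2 + 27256*m + 23496)*h1 + (16*m^7 + 440*m^6 + 5192*m^5 + 34034*m^4 + 133664*m^3 + 314002*m^2 + 407727*m + 225170)*h2 + (16*m^7 + 444*m^6 + 5292*m^5 + 35082*m^4 + 139546*m^3 + 332648*m^2 + 439405*m + 247738)*h3 + (4*m^6 + 88*m^5 + 786*m^4 + 3602*m^3 + 8704*m^2 + 9913*m + 3412)*h4
  have h5 : (0:ℝ) ≤ (32*m^10 + 1272*m^9 + 22744*m^8 + 240740*m^7 + 1669344*m^6 + 7918060*m^5 + 25997480*m^4 + 58297266*m^3 + 85380028*m^2 + 73693167*m + 28448926)*t3 := mul_nonneg (by positivity) a3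
  have h6 : (0:ℝ) < (16*m^9 + 600*m^8 + 10076*m^7 + 99308*m^6 + 632100*m^5 + 2690380*m^4 + 7644642*m^3 + 13959070*m^2 + 14834497*m + 6975362) := by positivity
  linarith

theorem q0245 {m : ℝ} (hm : 0 ≤ m) : Q m .e0 .e2 .e4 .e5 := by
  intro t0 t1 t2 t3 a0 b0 a1 b1 a2 b2 a3 b3 h1 h2 h3 h4
  simp only [px, py, dx, dy] at h1 h2 h3 h4 ⊢
  exfalso
  have h : (16*m^7 + 444*m^6 + 5276*m^5 + 34738*m^4 + 136594*m^3 + 319974*m^2 + 412149*m + 224242)*t2 + (4*m^6 + 124*m^5 + 1576*m^4 + 10522*m^3 + 39018*m^2 + 76371*m + 61742) = 0 := by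
    linear_combination (8*m^4 + 126*m^3 + 754*m^2 + 2027*m + 2062)*h1 + (4*m^4 + 64*m^3 + 388*m^2 + 1053*m + 1074)*h2 + (8*m^4 + 126*m^3 + 754*m^2 + 2027*m + 2062)*h3 + (-4*m^4 - 60*m^3 - 344*m^2 - 892*m - 884)*h4
  have h5 : (0:ℝ) ≤ (16*m^7 + 444*m^6 + 5276*m^5 + 34738*m^4 + 136594*m^3 + 319974*m^2 + 412149*m + 224242)*t2 := mul_nonneg (by positivity) a2
  have h6 : (0:ℝ) < (4*m^6 + 124*m^5 + 1576*m^4 + 10522*m^3 + 39018*m^2 + 76371*m + 61742) := by positivity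
  linarith

theorem q0251 {m : ℝ} (hm : 0 ≤ m) : Q m .e0 .e2 .e5 .e1 := by
  intro t0 t1 t2 t3 a0 b0 a1 b1 a2 b2 a3 b3 h1 h2 h3 h4
  simp only [px, py, dx, dy] at h1 h2 h3 h4 ⊢
  exfalso
  have h : (8*m^6 + 194*m^5 + 1970*m^4 + 10724*m^3 + 33005*m^2 + 54442*m + 37592)*t1 + (2*m^5 + 46*m^4 + 422*m^3 + 1938*m^2 + 4468*m + 4144) = 0 := by
    linear_combination (-2*m^3 - 25*m^2 - 107*m - 158)*h2 + (m^2 + 8*m + 16)*h3 + (-2*m^3 - 25*m^2 - 106*m - 154)*h4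
  have h5 : (0:ℝ) ≤ (8*m^6 + 194*m^5 + 1970*m^4 + 10724*m^3 + 33005*m^2 + 54442*m + 37592)*t1 := mul_nonneg (by positivity) a1
  have h6 : (0:ℝ) < (2*m^5 + 46*m^4 + 422*m^3 + 1938*m^2 + 4468*m + 4144) := by positivity
  linarith

theorem q0252 {m : ℝ} (hm : 0 ≤ m) : Q m .e0 .e2 .e5 .e2 := by
  intro t0 t1 t2 t3 a0 b0 a1 b1 a2 b2 a3 b3 h1 h2 h3 h4
  simp only [px, py, dx, dy] at h1 h2 h3 h4 ⊢
  exfalso
  have h : (8*m^6 + 168*m^5 + 1468*m^4 + 6806*m^3 + 17564*m^2 + 23738*m + 12968)*t1 + (4*m^5 + 74*m^4 + 544*m^3 + 1978*m^2 + 3524*m + 2416) = 0 := by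
    linear_combination (4*m^2 + 29*m + 58)*h2 + (2*m^3 + 24*m^2 + 95*m + 124)*h3 + (-2*m^3 - 18*m^2 - 53*m - 46)*h4
  have h5 : (0:ℝ) ≤ (8*m^6 + 168*m^5 + 1468*m^4 + 6806*m^3 + 17564*m^2 + 23738*m + 12968)*t1 := mul_nonneg (by positivity) a1
  have h6 : (0:ℝ) < (4*m^5 + 74*m^4 + 544*m^3 + 1978*m^2 + 3524*m + 2416) := by positivity
  linarith

theorem q0253 {m : ℝ} (hm : 0 ≤ m) : Q m .e0 .e2 .e5 .e3 := by
  intro t0 t1 t2 t3 a0 b0 a1 b1 a2 b2 a3 b3 h1 h2 h3 h4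
  simp only [px, py, dx, dy] at h1 h2 h3 h4 ⊢
  exfalso
  have h : (8*m^6 + 184*m^5 + 1792*m^4 + 9464*m^3 + 28588*m^2 + 46813*m + 32438)*t3 + (4*m^5 + 78*m^4 + 618*m^3 + 2486*m^2 + 5074*m + 4200) = 0 := by
    linear_combination (8*m^4 + 124*m^3 + 732*m^2 + 1945*m + 1958)*h2 + (8*m^4 + 126*m^3 + 754*m^2 + 2027*m + 2062)*h3 + (2*m^3 + 24*m^2 + 95*m + 124)*h4
  have h5 : (0:ℝ) ≤ (8*m^6 + 184*m^5 + 1792*m^4 + 9464*m^3 + 28588*m^2 + 46813*m + 32438)*t3 := mul_nonneg (by positivity) a3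
  have h6 : (0:ℝ) < (4*m^5 + 78*m^4 + 618*m^3 + 2486*m^2 + 5074*m + 4200) := by positivity
  linarith

theorem q0254 {m : ℝ} (hm : 0 ≤ m) : Q m .e0 .e2 .e5 .e4 := by
  intro t0 t1 t2 t3 a0 b0 a1 b1 a2 b2 a3 b3 h1 h2 h3 h4
  simp only [px, py, dx, dy] at h1 h2 h3 h4 ⊢
  exfalso
  have h : (16*m^7 + 444*m^6 + 5300*m^5 + 35254*m^4 + 141018*m^3 + 338932*m^2 + 452801*m + 259138)*t3 + (8*m^6 + 188*m^5 + 1870*m^4 + 10082*m^3 + 31074*m^2 + 51887*m + 36638) = 0 := by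
    linear_combination (8*m^4 + 124*m^3 + 732*m^2 + 1945*m + 1958)*h2 + (8*m^4 + 126*m^3 + 754*m^2 + 2027*m + 2062)*h3 + (2*m^3 + 24*m^2 + 95*m + 124)*h4
  have h5 : (0:ℝ) ≤ (16*m^7 + 444*m^6 + 5300*m^5 + 35254*m^4 + 141018*m^3 + 338932*m^2 + 452801*m + 259138)*t3 := mul_nonneg (by positivity) a3
  have h6 : (0:ℝ) < (8*m^6 + 188*m^5 + 1870*m^4 + 10082*m^3 + 31074*m^2 + 51887*m + 36638) := by positivity
  linarith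

theorem q0255 {m : ℝ} (hm : 0 ≤ m) : Q m .e0 .e2 .e5 .e5 := by
  intro t0 t1 t2 t3 a0 b0 a1 b1 a2 b2 a3 b3 h1 h2 h3 h4
  simp only [px, py, dx, dy] at h1 h2 h3 h4 ⊢
  exfalso
  have h : (8*m^5 + 158*m^4 + 1258*m^3 + 5043*m^2 + 10170*m + 8248)*t0 + (2*m^4 + 28*m^3 + 147*m^2 + 340*m + 288) = 0 := by
    linear_combination (2*m^2 + 14*m + 26)*h2 + (-2*m^2 - 16*m - 31)*h4
  have h5 : (0:ℝ) ≤ (8*m^5 + 158*m^4 + 1258*m^3 + 5043*m^2 + 10170*m + 8248)*t0 := mul_nonneg (by positivity) a0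
  have h6 : (0:ℝ) < (2*m^4 + 28*m^3 + 147*m^2 + 340*m + 288) := by positivity
  linarith

theorem q0303 {m : ℝ} (hm : 0 ≤ m) : Q m .e0 .e3 .e0 .e3 := by
  intro t0 t1 t2 t3 a0 b0 a1 b1 a2 b2 a3 b3 h1 h2 h3 h4
  simp only [px, py, dx, dy] at h1 h2 h3 h4 ⊢
  exfalso
  have h : (32*m^10 + 1248*m^9 + 21960*m^8 + 229416*m^7 + 1574612*m^6 + 7413276*m^5 + 24224416*m^4 + 54199254*m^3 + 79375744*m^2 + 68626404*m + 26561968)*(1 - t1) + (16*m^9 + 600*m^8 + 10096*m^7 + 99912*m^6 + 640044*m^5 + 2749216*m^4 + 7908964*m^3 + 14677344*m^2 + 15924220*m + 7684688) = 0 := by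
    linear_combination (-14*m^4 - 238*m^3 - 1530*m^2 - 4414*m - 4828)*h1 + (-7*m^3 - 91*m^2 - 394*m - 568)*h2 + (8*m^7 + 224*m^6 + 2702*m^5 + 18170*m^4 + 73425*m^3 + 177878*m^2 + 238446*m + 135812)*h3 + (-8*m^7 - 216*m^6 - 2514*m^5 - 16322*m^4 - 63727*m^3 - 149318*m^2 - 193890*m - 107220)*h4
  have h5 : (0:ℝ) ≤ (32*m^10 + 1248*m^9 + 21960*m^8 + 229416*m^7 + 1574612*m^6 + 7413276*m^5 + 24224416*m^4 + 54199254*m^3 + 79375744*m^2 + 68626404*m + 26561968)*(1 - t1) := mul_nonneg (by positivity) (by linarith)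
  have h6 : (0:ℝ) < (16*m^9 + 600*m^8 + 10096*m^7 + 99912*m^6 + 640044*m^5 + 2749216*m^4 + 7908964*m^3 + 14677344*m^2 + 15924220*m + 7684688) := by positivity
  linarith

theorem q0304 {m : ℝ} (hm : 0 ≤ m) : Q m .e0 .e3 .e0 .e4 := by
  intro t0 t1 t2 t3 a0 b0 a1 b1 a2 b2 a3 b3 h1 h2 h3 h4
  simp only [px, py, dx, dy] at h1 h2 h3 h4 ⊢
  exfalso
  have h : (16*m^10 + 624*m^9 + 10948*m^8 + 113688*m^7 + 773058*m^6 + 3592786*m^5 + 11543406*m^4 + 25281957*m^3 + 36063940*m^2 + 30198632*m + 11248960)*t3 + (16*m^9 + 600*m^8 + 10096*m^7 + 99912*m^6 + 640044*m^5 + 2749216*m^4 + 7908964*m^3 + 14677344*m^2 + 15924220*m + 7684688) = 0 := by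
    linear_combination (-16*m^7 - 440*m^6 - 5216*m^5 - 34506*m^4 - 137390*m^3 - 328726*m^2 - 436750*m - 247860)*h1 + (-8*m^6 - 188*m^5 - 1848*m^4 - 9705*m^3 - 28651*m^2 - 44950*m - 29160)*h2 + (-8*m^7 - 224*m^6 - 2702*m^5 - 18170*m^4 - 73425*m^3 - 177878*m^2 - 238446*m - 135812)*h3 + (8*m^7 + 216*m^6 + 2514*m^5 + 16322*m^4 + 63727*m^3 + 149318*m^2 + 193890*m + 107220)*h4
  have h5 : (0:ℝ) ≤ (16*m^10 + 624*m^9 + 10948*m^8 + 113688*m^7 + 773058*m^6 + 3592786*m^5 + 11543406*m^4 + 25281957*m^3 + 36063940*m^2 + 30198632*m + 11248960)*t3 := mul_nonneg (by positivity) a3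
  have h6 : (0:ℝ) < (16*m^9 + 600*m^8 + 10096*m^7 + 99912*m^6 + 640044*m^5 + 2749216*m^4 + 7908964*m^3 + 14677344*m^2 + 15924220*m + 7684688) := by positivity
  linarith

theorem q0305 {m : ℝ} (hm : 0 ≤ m) : Q m .e0 .e3 .e0 .e5 := by
  intro t0 t1 t2 t3 a0 b0 a1 b1 a2 b2 a3 b3 h1 h2 h3 h4
  simp only [px, py, dx, dy] at h1 h2 h3 h4 ⊢
  exfalso
  have h : (8*m^7 + 216*m^6 + 2514*m^5 + 16336*m^4 + 63965*m^3 + 150848*m^2 + 198304*m + 112048)*(1 - t1) + (4*m^5 + 88*m^4 + 758*m^3 + 3228*m^2 + 6836*m + 5792) = 0 := by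
    linear_combination (4*m^4 + 66*m^3 + 416*m^2 + 1186*m + 1292)*h1 + (2*m^3 + 25*m^2 + 106*m + 152)*h2 + (4*m^4 + 66*m^3 + 416*m^2 + 1186*m + 1292)*h3 + (-4*m^4 - 62*m^3 - 368*m^2 - 990*m - 1020)*h4
  have h5 : (0:ℝ) ≤ (8*m^7 + 216*m^6 + 2514*m^5 + 16336*m^4 + 63965*m^3 + 150848*m^2 + 198304*m + 112048)*(1 - t1) := mul_nonneg (by positivity) (by linarith)
  have h6 : (0:ℝ) < (4*m^5 + 88*m^4 + 758*m^3 + 3228*m^2 + 6836*m + 5792) := by positivity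
  linarith

theorem q0311 {m : ℝ} (hm : 0 ≤ m) : Q m .e0 .e3 .e1 .e1 := by
  intro t0 t1 t2 t3 a0 b0 a1 b1 a2 b2 a3 b3 h1 h2 h3 h4
  simp only [px, py, dx, dy] at h1 h2 h3 h4 ⊢
  exfalso
  have h : (4*m^7 + 112*m^6 + 1352*m^5 + 9107*m^4 + 36906*m^3 + 89787*m^2 + 121064*m + 69470)*(1 - t1) + (2*m^6 + 52*m^5 + 578*m^4 + 3505*m^3 + 12204*m^2 + 23106*m + 18586) = 0 := by
    linear_combination (-2*m^4 - 33*m^3 - 207*m^2 - 586*m - 632)*h1 + (-2*m^3 - 25*m^2 - 107*m - 158)*h2 + (-m^3 - 12*m^2 - 50*m - 72)*h3 + (-m^2 - 8*m - 18)*h4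
  have h5 : (0:ℝ) ≤ (4*m^7 + 112*m^6 + 1352*m^5 + 9107*m^4 + 36906*m^3 + 89787*m^2 + 121064*m + 69470)*(1 - t1) := mul_nonneg (by positivity) (by linarith)
  have h6 : (0:ℝ) < (2*m^6 + 52*m^5 + 578*m^4 + 3505*m^3 + 12204*m^2 + 23106*m + 18586) := by positivity
  linarith

theorem q0312 {m : ℝ} (hm : 0 ≤ m) : Q m .e0 .e3 .e1 .e2 := by
  intro t0 t1 t2 t3 a0 b0 a1 b1 a2 b2 a3 b3 h1 h2 h3 h4
  simp only [px, py, dx, dy] at h1 h2 h3 h4 ⊢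
  exfalso
  have h : (16*m^8 + 496*m^7 + 6752*m^6 + 52660*m^5 + 257084*m^4 + 803563*m^3 + 1568457*m^2 + 1745431*m + 846530)*(1 - t1) + (8*m^7 + 228*m^6 + 2834*m^5 + 19858*m^4 + 84508*m^3 + 217931*m^2 + 314675*m + 195814) = 0 := by
    linear_combination (4*m^3 + 45*m^2 + 174*m + 232)*h1 + (4*m^2 + 29*m + 58)*h2 + (4*m^5 + 80*m^4 + 648*m^3 + 2653*m^2 + 5483*m + 4572)*h3 + (-4*m^5 - 76*m^4 - 586*m^3 - 2286*m^2 - 4505*m - 3582)*h4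
  have h5 : (0:ℝ) ≤ (16*m^8 + 496*m^7 + 6752*m^6 + 52660*m^5 + 257084*m^4 + 803563*m^3 + 1568457*m^2 + 1745431*m + 846530)*(1 - t1) := mul_nonneg (by positivity) (by linarith)
  have h6 : (0:ℝ) < (8*m^7 + 228*m^6 + 2834*m^5 + 19858*m^4 + 84508*m^3 + 217931*m^2 + 314675*m + 195814) := by positivity
  linarith

theorem q0313 {m : ℝ} (hm : 0 ≤ m) : Q m .e0 .e3 .e1 .e3 := by
  intro t0 t1 t2 t3 a0 b0 a1 b1 a2 b2 a3 b3 h1 h2 h3 h4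
  simp only [px, py, dx, dy] at h1 h2 h3 h4 ⊢
  exfalso
  have h : (16*m^9 + 560*m^8 + 8728*m^7 + 79424*m^6 + 464568*m^5 + 1809419*m^4 + 4687408*m^3 + 7778793*m^2 + 7494016*m + 3188830)*(1 - t1) + (8*m^8 + 268*m^7 + 3970*m^6 + 33892*m^5 + 182014*m^4 + 628477*m^3 + 1360039*m^2 + 1683346*m + 910634) = 0 := by
    linear_combination (-7*m^3 - 91*m^2 - 394*m - 568)*h1 + (-7*m^2 - 63*m - 142)*h2 + (4*m^6 + 96*m^5 + 964*m^4 + 5169*m^3 + 15554*m^2 + 24786*m + 16232)*h3 + (-4*m^6 - 92*m^5 - 886*m^4 - 4560*m^3 - 13191*m^2 - 20272*m - 12882)*h4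
  have h5 : (0:ℝ) ≤ (16*m^9 + 560*m^8 + 8728*m^7 + 79424*m^6 + 464568*m^5 + 1809419*m^4 + 4687408*m^3 + 7778793*m^2 + 7494016*m + 3188830)*(1 - t1) := mul_nonneg (by positivity) (by linarith)
  have h6 : (0:ℝ) < (8*m^8 + 268*m^7 + 3970*m^6 + 33892*m^5 + 182014*m^4 + 628477*m^3 + 1360039*m^2 + 1683346*m + 910634) := by positivity
  linarith

theorem q0314 {m : ℝ} (hm : 0 ≤ m) : Q m .e0 .e3 .e1 .e4 := by
  intro t0 t1 t2 t3 a0 b0 a1 b1 a2 b2 a3 b3 h1 h2 h3 h4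
  simp only [px, py, dx, dy] at h1 h2 h3 h4 ⊢
  exfalso
  have h : (8*m^9 + 272*m^8 + 4092*m^7 + 35670*m^6 + 198024*m^5 + 723722*m^4 + 1734185*m^3 + 2613284*m^2 + 2231190*m + 814150)*t3 + (12*m^7 + 362*m^6 + 4664*m^5 + 33282*m^4 + 142079*m^3 + 362823*m^2 + 513126*m + 310010) = 0 := by
    linear_combination (-8*m^6 - 188*m^5 - 1848*m^4 - 9705*m^3 - 28651*m^2 - 44950*m - 29160)*h1 + (-8*m^5 - 156*m^4 - 1224*m^3 - 4809*m^2 - 9415*m - 7290)*h2 + (-4*m^6 - 100*m^5 - 1042*m^4 - 5784*m^3 - 17993*m^2 - 29624*m - 20030)*h3 + (4*m^6 + 92*m^5 + 884*m^4 + 4529*m^3 + 13006*m^2 + 19770*m + 12360)*h4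
  have h5 : (0:ℝ) ≤ (8*m^9 + 272*m^8 + 4092*m^7 + 35670*m^6 + 198024*m^5 + 723722*m^4 + 1734185*m^3 + 2613284*m^2 + 2231190*m + 814150)*t3 := mul_nonneg (by positivity) a3
  have h6 : (0:ℝ) < (12*m^7 + 362*m^6 + 4664*m^5 + 33282*m^4 + 142079*m^3 + 362823*m^2 + 513126*m + 310010) := by positivity
  linarith

theorem q0315 {m : ℝ} (hm : 0 ≤ m) : Q m .e0 .e3 .e1 .e5 := by
  intro t0 t1 t2 t3 a0 b0 a1 b1 a2 b2 a3 b3 h1 h2 h3 h4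
  simp only [px, py, dx, dy] at h1 h2 h3 h4 ⊢
  exfalso
  have h : (4*m^6 + 88*m^5 + 806*m^4 + 3921*m^3 + 10658*m^2 + 15326*m + 9130)*(1 - t1) + (2*m^5 + 42*m^4 + 358*m^3 + 1527*m^2 + 3224*m + 2654) = 0 := by
    linear_combination (2*m^3 + 25*m^2 + 106*m + 152)*h1 + (2*m^2 + 17*m + 38)*h2 + (2*m^3 + 25*m^2 + 106*m + 152)*h3 + (-2*m^3 - 22*m^2 - 82*m - 102)*h4
  have h5 : (0:ℝ) ≤ (4*m^6 + 88*m^5 + 806*m^4 + 3921*m^3 + 10658*m^2 + 15326*m + 9130)*(1 - t1) := mul_nonneg (by positivity) (by linarith)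
  have h6 : (0:ℝ) < (2*m^5 + 42*m^4 + 358*m^3 + 1527*m^2 + 3224*m + 2654) := by positivity
  linarith

theorem q0321 {m : ℝ} (hm : 0 ≤ m) : Q m .e0 .e3 .e2 .e1 := by
  intro t0 t1 t2 t3 a0 b0 a1 b1 a2 b2 a3 b3 h1 h2 h3 h4
  simp only [px, py, dx, dy] at h1 h2 h3 h4 ⊢
  exfalso
  have h : (8*m^8 + 260*m^7 + 3712*m^6 + 30390*m^5 + 155950*m^4 + 513271*m^3 + 1057074*m^2 + 1243947*m + 639280)*(1 - t1) + (4*m^6 + 114*m^5 + 1342*m^4 + 8400*m^3 + 29603*m^2 + 55859*m + 44216) = 0 := by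
    linear_combination (4*m^5 + 82*m^4 + 676*m^3 + 2803*m^2 + 5845*m + 4898)*h1 + (-4*m^5 - 78*m^4 - 616*m^3 - 2464*m^2 - 4994*m - 4108)*h2 + (4*m^4 + 64*m^3 + 389*m^2 + 1063*m + 1098)*h3 + (-4*m^5 - 82*m^4 - 678*m^3 - 2828*m^2 - 5952*m - 5058)*h4
  have h5 : (0:ℝ) ≤ (8*m^8 + 260*m^7 + 3712*m^6 + 30390*m^5 + 155950*m^4 + 513271*m^3 + 1057074*m^2 + 1243947*m + 639280)*(1 - t1) := mul_nonneg (by positivity) (by linarith)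
  have h6 : (0:ℝ) < (4*m^6 + 114*m^5 + 1342*m^4 + 8400*m^3 + 29603*m^2 + 55859*m + 44216) := by positivity
  linarith

theorem q0322 {m : ℝ} (hm : 0 ≤ m) : Q m .e0 .e3 .e2 .e2 := by
  intro t0 t1 t2 t3 a0 b0 a1 b1 a2 b2 a3 b3 h1 h2 h3 h4
  simp only [px, py, dx, dy] at h1 h2 h3 h4 ⊢
  exfalso
  have h : (32*m^9 + 1104*m^8 + 16992*m^7 + 153016*m^6 + 887824*m^5 + 3439530*m^4 + 8890796*m^3 + 14775127*m^2 + 14312717*m + 6152030)*(1 - t1) + (16*m^8 + 512*m^7 + 7264*m^6 + 59564*m^5 + 308254*m^4 + 1029540*m^3 + 2164548*m^2 + 2616543*m + 1391266) = 0 := by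
    linear_combination (8*m^4 + 122*m^3 + 704*m^2 + 1827*m + 1798)*h1 + (-8*m^4 - 114*m^3 - 626*m^2 - 1566*m - 1508)*h2 + (8*m^6 + 188*m^5 + 1852*m^4 + 9784*m^3 + 29216*m^2 + 46725*m + 31248)*h3 + (-8*m^6 - 180*m^5 - 1708*m^4 - 8738*m^3 - 25402*m^2 - 39774*m - 26208)*h4
  have h5 : (0:ℝ) ≤ (32*m^9 + 1104*m^8 + 16992*m^7 + 153016*m^6 + 887824*m^5 + 3439530*m^4 + 8890796*m^3 + 14775127*m^2 + 14312717*m + 6152030)*(1 - t1) := mul_nonneg (by positivity) (by linarith)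
  have h6 : (0:ℝ) < (16*m^8 + 512*m^7 + 7264*m^6 + 59564*m^5 + 308254*m^4 + 1029540*m^3 + 2164548*m^2 + 2616543*m + 1391266) := by positivity
  linarith

theorem q0323 {m : ℝ} (hm : 0 ≤ m) : Q m .e0 .e3 .e2 .e3 := by
  intro t0 t1 t2 t3 a0 b0 a1 b1 a2 b2 a3 b3 h1 h2 h3 h4
  simp only [px, py, dx, dy] at h1 h2 h3 h4 ⊢
  exfalso
  have h : (32*m^10 + 1232*m^9 + 21360*m^8 + 219400*m^7 + 1476988*m^6 + 6801542*m^5 + 21671372*m^4 + 47111409*m^3 + 66771564*m^2 + 55620657*m + 20640280)*(1 - t1) + (16*m^9 + 592*m^8 + 9808*m^7 + 95328*m^6 + 597974*m^5 + 2506084*m^4 + 7004258*m^3 + 12563845*m^2 + 13094883*m + 6026216) = 0 := by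
    linear_combination (-14*m^4 - 238*m^3 - 1509*m^2 - 4225*m - 4402)*h1 + (14*m^4 + 224*m^3 + 1348*m^2 + 3626*m + 3692)*h2 + (8*m^7 + 220*m^6 + 2596*m^5 + 17008*m^4 + 66674*m^3 + 155981*m^2 + 200985*m + 109598)*h3 + (-8*m^7 - 212*m^6 - 2412*m^5 - 15234*m^4 - 57514*m^3 - 129316*m^2 - 159552*m - 82758)*h4
  have h5 : (0:ℝ) ≤ (32*m^10 + 1232*m^9 + 21360*m^8 + 219400*m^7 + 1476988*m^6 + 6801542*m^5 + 21671372*m^4 + 47111409*m^3 + 66771564*m^2 + 55620657*m + 20640280)*(1 - t1) := mul_nonneg (by positivity) (by linarith)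
  have h6 : (0:ℝ) < (16*m^9 + 592*m^8 + 9808*m^7 + 95328*m^6 + 597974*m^5 + 2506084*m^4 + 7004258*m^3 + 12563845*m^2 + 13094883*m + 6026216) := by positivity
  linarith

theorem q0324 {m : ℝ} (hm : 0 ≤ m) : Q m .e0 .e3 .e2 .e4 := by
  intro t0 t1 t2 t3 a0 b0 a1 b1 a2 b2 a3 b3 h1 h2 h3 h4
  simp only [px, py, dx, dy] at h1 h2 h3 h4 ⊢
  exfalso
  have h : (48*m^10 + 1880*m^9 + 33160*m^8 + 346632*m^7 + 2376516*m^6 + 11158374*m^5 + 36309886*m^4 + 80794672*m^3 + 117556833*m^2 + 100911635*m + 38774800)*t3 + (16*m^9 + 624*m^8 + 10848*m^7 + 110224*m^6 + 720646*m^5 + 3140768*m^4 + 9114966*m^3 + 16966335*m^2 + 18356107*m + 8781800) = 0 := by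
    linear_combination (-16*m^7 - 440*m^6 - 5192*m^5 - 34038*m^4 - 133718*m^3 - 314299*m^2 - 408505*m - 225990)*h1 + (16*m^7 + 424*m^6 + 4840*m^5 + 30810*m^4 + 117980*m^3 + 271424*m^2 + 346850*m + 189540)*h2 + (8*m^7 + 212*m^6 + 2428*m^5 + 15562*m^4 + 60242*m^3 + 140760*m^2 + 183672*m + 103090)*h3 + (8*m^7 + 220*m^6 + 2596*m^5 + 17016*m^4 + 66806*m^3 + 156809*m^2 + 203295*m + 111990)*h4
  have h5 : (0:ℝ) ≤ (48*m^10 + 1880*m^9 + 33160*m^8 + 346632*m^7 + 2376516*m^6 + 11158374*m^5 + 36309886*m^4 + 80794672*m^3 + 117556833*m^2 + 100911635*m + 38774800)*t3 := mul_nonneg (by positivity) a3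
  have h6 : (0:ℝ) < (16*m^9 + 624*m^8 + 10848*m^7 + 110224*m^6 + 720646*m^5 + 3140768*m^4 + 9114966*m^3 + 16966335*m^2 + 18356107*m + 8781800) := by positivity
  linarith

theorem q0325 {m : ℝ} (hm : 0 ≤ m) : Q m .e0 .e3 .e2 .e5 := by
  intro t0 t1 t2 t3 a0 b0 a1 b1 a2 b2 a3 b3 h1 h2 h3 h4
  simp only [px, py, dx, dy] at h1 h2 h3 h4 ⊢
  exfalso
  have h : (24*m^7 + 652*m^6 + 7620*m^5 + 49600*m^4 + 193960*m^3 + 455059*m^2 + 592177*m + 329080)*(1 - t1) + (8*m^6 + 204*m^5 + 2214*m^4 + 13010*m^3 + 43482*m^2 + 78169*m + 58976) = 0 := by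
    linear_combination (4*m^4 + 66*m^3 + 410*m^2 + 1135*m + 1178)*h1 + (-4*m^4 - 62*m^3 - 366*m^2 - 974*m - 988)*h2 + (4*m^4 + 66*m^3 + 410*m^2 + 1135*m + 1178)*h3 + (-8*m^4 - 124*m^3 - 730*m^2 - 1932*m - 1938)*h4
  have h5 : (0:ℝ) ≤ (24*m^7 + 652*m^6 + 7620*m^5 + 49600*m^4 + 193960*m^3 + 455059*m^2 + 592177*m + 329080)*(1 - t1) := mul_nonneg (by positivity) (by linarith)
  have h6 : (0:ℝ) < (8*m^6 + 204*m^5 + 2214*m^4 + 13010*m^3 + 43482*m^2 + 78169*m + 58976) := by positivity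
  linarith

theorem q0331 {m : ℝ} (hm : 0 ≤ m) : Q m .e0 .e3 .e3 .e1 := by
  intro t0 t1 t2 t3 a0 b0 a1 b1 a2 b2 a3 b3 h1 h2 h3 h4
  simp only [px, py, dx, dy] at h1 h2 h3 h4 ⊢
  exfalso
  have h : (8*m^9 + 292*m^8 + 4736*m^7 + 44762*m^6 + 271408*m^5 + 1093457*m^4 + 2922778*m^3 + 4989311*m^2 + 4925556*m + 2138074)*(1 - t1) + (12*m^7 + 358*m^6 + 4594*m^5 + 32812*m^4 + 140602*m^3 + 360575*m^2 + 510624*m + 306326) = 0 := by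
    linear_combination (4*m^6 + 98*m^5 + 1004*m^4 + 5499*m^3 + 16957*m^2 + 27850*m + 18960)*h1 + (-4*m^6 - 94*m^5 - 924*m^4 - 4852*m^3 - 14311*m^2 - 22377*m - 14378)*h2 + (4*m^5 + 80*m^4 + 643*m^3 + 2586*m^2 + 5178*m + 4096)*h3 + (-4*m^6 - 98*m^5 - 1002*m^4 - 5464*m^3 - 16719*m^2 - 27116*m - 18094)*h4
  have h5 : (0:ℝ) ≤ (8*m^9 + 292*m^8 + 4736*m^7 + 44762*m^6 + 271408*m^5 + 1093457*m^4 + 2922778*m^3 + 4989311*m^2 + 4925556*m + 2138074)*(1 - t1) := mul_nonneg (by positivity) (by linarith)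
  have h6 : (0:ℝ) < (12*m^7 + 358*m^6 + 4594*m^5 + 32812*m^4 + 140602*m^3 + 360575*m^2 + 510624*m + 306326) := by positivity
  linarith

theorem q0332 {m : ℝ} (hm : 0 ≤ m) : Q m .e0 .e3 .e3 .e2 := by
  intro t0 t1 t2 t3 a0 b0 a1 b1 a2 b2 a3 b3 h1 h2 h3 h4
  simp only [px, py, dx, dy] at h1 h2 h3 h4 ⊢
  exfalso
  have h : (32*m^10 + 1232*m^9 + 21408*m^8 + 220936*m^7 + 1498600*m^6 + 6975874*m^5 + 22551708*m^4 + 49956535*m^3 + 72508703*m^2 + 62207987*m + 23931074)*(1 - t1) + (16*m^9 + 576*m^8 + 9312*m^7 + 88612*m^6 + 546314*m^5 + 2260432*m^4 + 6269840*m^3 + 11229196*m^2 + 11768777*m + 5491006) = 0 := by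
    linear_combination (8*m^5 + 154*m^4 + 1192*m^3 + 4627*m^2 + 8990*m + 6960)*h1 + (-8*m^5 - 146*m^4 - 1074*m^3 - 3960*m^2 - 7279*m - 5278)*h2 + (8*m^7 + 220*m^6 + 2604*m^5 + 17180*m^4 + 68170*m^3 + 162531*m^2 + 215355*m + 122156)*h3 + (-8*m^7 - 212*m^6 - 2428*m^5 - 15558*m^4 - 60176*m^3 - 140346*m^2 - 182517*m - 101894)*h4
  have h5 : (0:ℝ) ≤ (32*m^10 + 1232*m^9 + 21408*m^8 + 220936*m^7 + 1498600*m^6 + 6975874*m^5 + 22551708*m^4 + 49956535*m^3 + 72508703*m^2 + 62207987*m + 23931074)*(1 - t1) := mul_nonneg (by positivity) (by linarith)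
  have h6 : (0:ℝ) < (16*m^9 + 576*m^8 + 9312*m^7 + 88612*m^6 + 546314*m^5 + 2260432*m^4 + 6269840*m^3 + 11229196*m^2 + 11768777*m + 5491006) := by positivity
  linarith

theorem q0333 {m : ℝ} (hm : 0 ≤ m) : Q m .e0 .e3 .e3 .e3 := by
  intro t0 t1 t2 t3 a0 b0 a1 b1 a2 b2 a3 b3 h1 h2 h3 h4
  simp only [px, py, dx, dy] at h1 h2 h3 h4 ⊢
  exfalso
  have h : (4*m^6 + 94*m^5 + 924*m^4 + 4849*m^3 + 14280*m^2 + 22278*m + 14296)*t0 + (2*m^5 + 40*m^4 + 325*m^3 + 1342*m^2 + 2813*m + 2388) = 0 := by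
    linear_combination (-2*m^3 - 24*m^2 - 95*m - 120)*h1 + (2*m^3 + 22*m^2 + 80*m + 91)*h2
  have h5 : (0:ℝ) ≤ (4*m^6 + 94*m^5 + 924*m^4 + 4849*m^3 + 14280*m^2 + 22278*m + 14296)*t0 := mul_nonneg (by positivity) a0
  have h6 : (0:ℝ) < (2*m^5 + 40*m^4 + 325*m^3 + 1342*m^2 + 2813*m + 2388) := by positivity
  linarith

theorem q0334 {m : ℝ} (hm : 0 ≤ m) : Q m .e0 .e3 .e3 .e4 := by
  intro t0 t1 t2 t3 a0 b0 a1 b1 a2 b2 a3 b3 h1 h2 h3 h4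
  simp only [px, py, dx, dy] at h1 h2 h3 h4 ⊢
  exfalso
  have h : (48*m^11 + 2072*m^10 + 40648*m^9 + 478016*m^8 + 3741280*m^7 + 20445798*m^6 + 79539952*m^5 + 220066806*m^4 + 423938103*m^3 + 540983686*m^2 + 411129386*m + 140818030)*t3 + (16*m^10 + 656*m^9 + 12176*m^8 + 134536*m^7 + 978570*m^6 + 4888716*m^5 + 16961544*m^4 + 40289108*m^3 + 62591040*m^2 + 57319384*m + 23452154) = 0 := by
    linear_combination (-16*m^8 - 504*m^7 - 6952*m^6 - 54774*m^5 - 269246*m^4 - 844275*m^3 - 1646465*m^2 - 1822350*m - 874800)*h1 + (16*m^8 + 488*m^7 + 6520*m^6 + 49754*m^5 + 236744*m^4 + 717814*m^3 + 1351199*m^2 + 1439965*m + 663390)*h2 + (8*m^8 + 244*m^7 + 3260*m^6 + 24870*m^5 + 118232*m^4 + 357792*m^3 + 671199*m^2 + 711436*m + 325234)*h3 + (8*m^8 + 252*m^7 + 3476*m^6 + 27380*m^5 + 134476*m^4 + 420907*m^3 + 818116*m^2 + 900650*m + 428880)*h4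
  have h5 : (0:ℝ) ≤ (48*m^11 + 2072*m^10 + 40648*m^9 + 478016*m^8 + 3741280*m^7 + 20445798*m^6 + 79539952*m^5 + 220066806*m^4 + 423938103*m^3 + 540983686*m^2 + 411129386*m + 140818030)*t3 := mul_nonneg (by positivity) a3
  have h6 : (0:ℝ) < (16*m^10 + 656*m^9 + 12176*m^8 + 134536*m^7 + 978570*m^6 + 4888716*m^5 + 16961544*m^4 + 40289108*m^3 + 62591040*m^2 + 57319384*m + 23452154) := by positivity
  linarith

theorem q0335 {m : ℝ} (hm : 0 ≤ m) : Q m .e0 .e3 .e3 .e5 := by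
  intro t0 t1 t2 t3 a0 b0 a1 b1 a2 b2 a3 b3 h1 h2 h3 h4
  simp only [px, py, dx, dy] at h1 h2 h3 h4 ⊢
  exfalso
  have h : (24*m^8 + 748*m^7 + 10212*m^6 + 79644*m^5 + 387478*m^4 + 1202067*m^3 + 2317664*m^2 + 2533786*m + 1200034)*(1 - t1) + (8*m^7 + 244*m^6 + 3226*m^5 + 23862*m^4 + 106246*m^3 + 283732*m^2 + 419114*m + 262766) = 0 := by
    linear_combination (4*m^5 + 82*m^4 + 674*m^3 + 2767*m^2 + 5650*m + 4560)*h1 + (-4*m^5 - 78*m^4 - 610*m^3 - 2378*m^2 - 4587*m - 3458)*h2 + (4*m^5 + 82*m^4 + 674*m^3 + 2767*m^2 + 5650*m + 4560)*h3 + (-8*m^5 - 156*m^4 - 1222*m^3 - 4786*m^2 - 9326*m - 7174)*h4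
  have h5 : (0:ℝ) ≤ (24*m^8 + 748*m^7 + 10212*m^6 + 79644*m^5 + 387478*m^4 + 1202067*m^3 + 2317664*m^2 + 2533786*m + 1200034)*(1 - t1) := mul_nonneg (by positivity) (by linarith)
  have h6 : (0:ℝ) < (8*m^7 + 244*m^6 + 3226*m^5 + 23862*m^4 + 106246*m^3 + 283732*m^2 + 419114*m + 262766) := by positivity
  linarith

theorem q0341 {m : ℝ} (hm : 0 ≤ m) : Q m .e0 .e3 .e4 .e1 := by
  intro t0 t1 t2 t3 a0 b0 a1 b1 a2 b2 a3 b3 h1 h2 h3 h4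
  simp only [px, py, dx, dy] at h1 h2 h3 h4 ⊢
  exfalso
  have h : (16*m^9 + 580*m^8 + 9348*m^7 + 87844*m^6 + 529870*m^5 + 2125084*m^4 + 5658908*m^3 + 9632378*m^2 + 9491736*m + 4116538)*(1 - t1) + (4*m^8 + 140*m^7 + 2160*m^6 + 19152*m^5 + 106518*m^4 + 379614*m^3 + 844127*m^2 + 1066682*m + 583166) = 0 := by
    linear_combination (-4*m^4 - 74*m^3 - 514*m^2 - 1600*m - 1896)*h1 + (-4*m^6 - 98*m^5 - 1002*m^4 - 5464*m^3 - 16725*m^2 - 27157*m - 18170)*h2 + (2*m^5 + 40*m^4 + 316*m^3 + 1221*m^2 + 2272*m + 1576)*h3 + (-4*m^6 - 98*m^5 - 1000*m^4 - 5428*m^3 - 16479*m^2 - 26406*m - 17302)*h4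
  have h5 : (0:ℝ) ≤ (16*m^9 + 580*m^8 + 9348*m^7 + 87844*m^6 + 529870*m^5 + 2125084*m^4 + 5658908*m^3 + 9632378*m^2 + 9491736*m + 4116538)*(1 - t1) := mul_nonneg (by positivity) (by linarith)
  have h6 : (0:ℝ) < (4*m^8 + 140*m^7 + 2160*m^6 + 19152*m^5 + 106518*m^4 + 379614*m^3 + 844127*m^2 + 1066682*m + 583166) := by positivity
  linarith

theorem q0342 {m : ℝ} (hm : 0 ≤ m) : Q m .e0 .e3 .e4 .e2 := by
  intro t0 t1 t2 t3 a0 b0 a1 b1 a2 b2 a3 b3 h1 h2 h3 h4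
  simp only [px, py, dx, dy] at h1 h2 h3 h4 ⊢
  exfalso
  have h : (16*m^9 + 560*m^8 + 8768*m^7 + 80536*m^6 + 477936*m^5 + 1899338*m^4 + 5052306*m^3 + 8670652*m^2 + 8707267*m + 3895462)*(1 - t1) + (8*m^8 + 268*m^7 + 3980*m^6 + 34172*m^5 + 185360*m^4 + 650118*m^3 + 1439638*m^2 + 1841031*m + 1042274) = 0 := by
    linear_combination (8*m^3 + 106*m^2 + 464*m + 696)*h1 + (8*m^5 + 154*m^4 + 1188*m^3 + 4578*m^2 + 8787*m + 6670)*h2 + (4*m^6 + 104*m^5 + 1130*m^4 + 6562*m^3 + 21484*m^2 + 37633*m + 27604)*h3 + (-4*m^6 - 92*m^5 - 894*m^4 - 4694*m^3 - 14068*m^2 - 22891*m - 15898)*h4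
  have h5 : (0:ℝ) ≤ (16*m^9 + 560*m^8 + 8768*m^7 + 80536*m^6 + 477936*m^5 + 1899338*m^4 + 5052306*m^3 + 8670652*m^2 + 8707267*m + 3895462)*(1 - t1) := mul_nonneg (by positivity) (by linarith)
  have h6 : (0:ℝ) < (8*m^8 + 268*m^7 + 3980*m^6 + 34172*m^5 + 185360*m^4 + 650118*m^3 + 1439638*m^2 + 1841031*m + 1042274) := by positivity
  linarith

theorem q0343 {m : ℝ} (hm : 0 ≤ m) : Q m .e0 .e3 .e4 .e3 := by
  intro t0 t1 t2 t3 a0 b0 a1 b1 a2 b2 a3 b3 h1 h2 h3 h4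
  simp only [px, py, dx, dy] at h1 h2 h3 h4 ⊢
  exfalso
  have h : (16*m^10 + 656*m^9 + 12168*m^8 + 134300*m^7 + 975520*m^6 + 4866100*m^5 + 16855856*m^4 + 39968428*m^3 + 61969280*m^2 + 56609064*m + 23083322)*(1 - t1) + (8*m^9 + 316*m^8 + 5604*m^7 + 58472*m^6 + 394998*m^5 + 1788842*m^4 + 5421830*m^3 + 10584062*m^2 + 12044490*m + 6066478) = 0 := by
    linear_combination (-14*m^3 - 210*m^2 - 1040*m - 1704)*h1 + (-14*m^5 - 294*m^4 - 2454*m^3 - 10135*m^2 - 20593*m - 16330)*h2 + (4*m^7 + 120*m^6 + 1546*m^5 + 11066*m^4 + 47436*m^3 + 121487*m^2 + 171540*m + 102456)*h3 + (-4*m^7 - 116*m^6 - 1458*m^5 - 10270*m^4 - 43668*m^3 - 111697*m^2 - 158374*m - 95318)*h4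
  have h5 : (0:ℝ) ≤ (16*m^10 + 656*m^9 + 12168*m^8 + 134300*m^7 + 975520*m^6 + 4866100*m^5 + 16855856*m^4 + 39968428*m^3 + 61969280*m^2 + 56609064*m + 23083322)*(1 - t1) := mul_nonneg (by positivity) (by linarith)
  have h6 : (0:ℝ) < (8*m^9 + 316*m^8 + 5604*m^7 + 58472*m^6 + 394998*m^5 + 1788842*m^4 + 5421830*m^3 + 10584062*m^2 + 12044490*m + 6066478) := by positivity
  linarith

theorem q0344 {m : ℝ} (hm : 0 ≤ m) : Q m .e0 .e3 .e4 .e4 := by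
  intro t0 t1 t2 t3 a0 b0 a1 b1 a2 b2 a3 b3 h1 h2 h3 h4
  simp only [px, py, dx, dy] at h1 h2 h3 h4 ⊢
  exfalso
  have h : (32*m^11 + 1400*m^10 + 27816*m^9 + 331068*m^8 + 2620768*m^7 + 14476796*m^6 + 56892448*m^5 + 158922610*m^4 + 308948712*m^3 + 397701373*m^2 + 304819262*m + 105293710)*(1 - t1) + (8*m^10 + 336*m^9 + 6376*m^8 + 71896*m^7 + 532760*m^6 + 2706896*m^5 + 9535522*m^4 + 22958644*m^3 + 36098398*m^2 + 33420768*m + 13823546) = 0 := by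
    linear_combination (-8*m^6 - 212*m^5 - 2336*m^4 - 13700*m^3 - 45062*m^2 - 78664*m - 56760)*h1 + (-8*m^8 - 260*m^7 - 3696*m^6 - 29980*m^5 - 151564*m^4 - 488244*m^3 - 976928*m^2 - 1107825*m - 543950)*h2 + (-8*m^6 - 208*m^5 - 2240*m^4 - 12776*m^3 - 40608*m^2 - 67916*m - 46344)*h3 + (-8*m^8 - 256*m^7 - 3576*m^6 - 28436*m^5 - 140544*m^4 - 441220*m^3 - 857212*m^2 - 939868*m - 444130)*h4
  have h5 : (0:ℝ) ≤ (32*m^11 + 1400*m^10 + 27816*m^9 + 331068*m^8 + 2620768*m^7 + 14476796*m^6 + 56892448*m^5 + 158922610*m^4 + 308948712*m^3 + 397701373*m^2 + 304819262*m + 105293710)*(1 - t1) := mul_nonneg (by positivity) (by linarith)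
  have h6 : (0:ℝ) < (8*m^10 + 336*m^9 + 6376*m^8 + 71896*m^7 + 532760*m^6 + 2706896*m^5 + 9535522*m^4 + 22958644*m^3 + 36098398*m^2 + 33420768*m + 13823546) := by positivity
  linarith

end Hex
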