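import Pool.Agent.helper91.HX.Def

/-! Squares inscribed in the hexagon: classes of edge quadruples, part 2. -/

namespace Hex

theorem q0345 {m : ℝ} (hm : 0 ≤ m) : Q m .e0 .e3 .e4 .e5 := by
  intro t0 t1 t2 t3 a0 b0 a1 b1 a2 b2 a3 b3 h1 h2 h3 h4
  simp only [px, py, dx, dy] at h1 h2 h3 h4 ⊢
  exfalso
  have h : (16*m^8 + 508*m^7 + 7044*m^6 + 55614*m^5 + 272898*m^4 + 850254*m^3 + 1638029*m^2 + 1778206*m + 829858)*(1 - t1) + (4*m^7 + 120*m^6 + 1552*m^5 + 11166*m^4 + 47996*m^3 + 122332*m^2 + 169252*m + 96086) = 0 := by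
    linear_combination (-4*m^3 - 58*m^2 - 280*m - 456)*h1 + (-4*m^5 - 82*m^4 - 672*m^3 - 2740*m^2 - 5527*m - 4370)*h2 + (-4*m^3 - 58*m^2 - 280*m - 456)*h3 + (-4*m^5 - 80*m^4 - 636*m^3 - 2494*m^2 - 4776*m - 3502)*h4
  have h5 : (0:ℝ) ≤ (16*m^8 + 508*m^7 + 7044*m^6 + 55614*m^5 + 272898*m^4 + 850254*m^3 + 1638029*m^2 + 1778206*m + 829858)*(1 - t1) := mul_nonneg (by positivity) (by linarith)
  have h6 : (0:ℝ) < (4*m^7 + 120*m^6 + 1552*m^5 + 11166*m^4 + 47996*m^3 + 122332*m^2 + 169252*m + 96086) := by positivity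
  linarith

theorem q0351 {m : ℝ} (hm : 0 ≤ m) : Q m .e0 .e3 .e5 .e1 := by
  intro t0 t1 t2 t3 a0 b0 a1 b1 a2 b2 a3 b3 h1 h2 h3 h4
  simp only [px, py, dx, dy] at h1 h2 h3 h4 ⊢
  exfalso
  have h : (8*m^6 + 194*m^5 + 1966*m^4 + 10640*m^3 + 32364*m^2 + 52296*m + 34894)*(1 - t1) + (2*m^5 + 50*m^4 + 506*m^3 + 2579*m^2 + 6614*m + 6842) = 0 := by
    linear_combination (-2*m^3 - 25*m^2 - 107*m - 158)*h2 + (m^2 + 8*m + 16)*h3 + (-2*m^3 - 25*m^2 - 106*m - 154)*h4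
  have h5 : (0:ℝ) ≤ (8*m^6 + 194*m^5 + 1966*m^4 + 10640*m^3 + 32364*m^2 + 52296*m + 34894)*(1 - t1) := mul_nonneg (by positivity) (by linarith)
  have h6 : (0:ℝ) < (2*m^5 + 50*m^4 + 506*m^3 + 2579*m^2 + 6614*m + 6842) := by positivity
  linarith

theorem q0352 {m : ℝ} (hm : 0 ≤ m) : Q m .e0 .e3 .e5 .e2 := by
  intro t0 t1 t2 t3 a0 b0 a1 b1 a2 b2 a3 b3 h1 h2 h3 h4
  simp only [px, py, dx, dy] at h1 h2 h3 h4 ⊢
  exfalso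
  have h : (8*m^6 + 168*m^5 + 1464*m^4 + 6736*m^3 + 17144*m^2 + 22693*m + 12106)*(1 - t1) + (4*m^5 + 78*m^4 + 614*m^3 + 2398*m^2 + 4569*m + 3278) = 0 := by
    linear_combination (4*m^2 + 29*m + 58)*h2 + (2*m^3 + 24*m^2 + 95*m + 124)*h3 + (-2*m^3 - 18*m^2 - 53*m - 46)*h4
  have h5 : (0:ℝ) ≤ (8*m^6 + 168*m^5 + 1464*m^4 + 6736*m^3 + 17144*m^2 + 22693*m + 12106)*(1 - t1) := mul_nonneg (by positivity) (by linarith)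
  have h6 : (0:ℝ) < (4*m^5 + 78*m^4 + 614*m^3 + 2398*m^2 + 4569*m + 3278) := by positivity
  linarith

theorem q0353 {m : ℝ} (hm : 0 ≤ m) : Q m .e0 .e3 .e5 .e3 := by
  intro t0 t1 t2 t3 a0 b0 a1 b1 a2 b2 a3 b3 h1 h2 h3 h4
  simp only [px, py, dx, dy] at h1 h2 h3 h4 ⊢
  exfalso
  have h : (8*m^7 + 216*m^6 + 2524*m^5 + 16538*m^4 + 65576*m^3 + 157150*m^2 + 210264*m + 120686)*(1 - t1) + (4*m^6 + 102*m^5 + 1106*m^4 + 6516*m^3 + 22004*m^2 + 40446*m + 31690) = 0 := by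
    linear_combination (-7*m^2 - 63*m - 142)*h2 + (2*m^4 + 32*m^3 + 191*m^2 + 500*m + 480)*h3 + (-2*m^4 - 30*m^3 - 175*m^2 - 474*m - 506)*h4
  have h5 : (0:ℝ) ≤ (8*m^7 + 216*m^6 + 2524*m^5 + 16538*m^4 + 65576*m^3 + 157150*m^2 + 210264*m + 120686)*(1 - t1) := mul_nonneg (by positivity) (by linarith)
  have h6 : (0:ℝ) < (4*m^6 + 102*m^5 + 1106*m^4 + 6516*m^3 + 22004*m^2 + 40446*m + 31690) := by positivity
  linarith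

theorem q0354 {m : ℝ} (hm : 0 ≤ m) : Q m .e0 .e3 .e5 .e4 := by
  intro t0 t1 t2 t3 a0 b0 a1 b1 a2 b2 a3 b3 h1 h2 h3 h4
  simp only [px, py, dx, dy] at h1 h2 h3 h4 ⊢
  exfalso
  have h : (16*m^8 + 508*m^7 + 7068*m^6 + 56226*m^5 + 279378*m^4 + 886720*m^3 + 1752941*m^2 + 1970066*m + 961930)*(1 - t1) + (4*m^7 + 128*m^6 + 1776*m^5 + 13790*m^4 + 64500*m^3 + 181240*m^2 + 282576*m + 188078) = 0 := by
    linear_combination (-4*m^5 - 82*m^4 - 676*m^3 - 2794*m^2 - 5767*m - 4730)*h2 + (2*m^2 + 20*m + 48)*h3 + (-4*m^5 - 80*m^4 - 644*m^3 - 2604*m^2 - 5276*m - 4270)*h4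
  have h5 : (0:ℝ) ≤ (16*m^8 + 508*m^7 + 7068*m^6 + 56226*m^5 + 279378*m^4 + 886720*m^3 + 1752941*m^2 + 1970066*m + 961930)*(1 - t1) := mul_nonneg (by positivity) (by linarith)
  have h6 : (0:ℝ) < (4*m^7 + 128*m^6 + 1776*m^5 + 13790*m^4 + 64500*m^3 + 181240*m^2 + 282576*m + 188078) := by positivity
  linarith

theorem q0355 {m : ℝ} (hm : 0 ≤ m) : Q m .e0 .e3 .e5 .e5 := by
  intro t0 t1 t2 t3 a0 b0 a1 b1 a2 b2 a3 b3 h1 h2 h3 h4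
  simp only [px, py, dx, dy] at h1 h2 h3 h4 ⊢
  exfalso
  have h : (8*m^5 + 158*m^4 + 1254*m^3 + 4977*m^2 + 9826*m + 7654)*(1 - t1) + (2*m^4 + 40*m^3 + 310*m^2 + 1084*m + 1442) = 0 := by
    linear_combination (-2*m^2 - 17*m - 38)*h2 + (-2*m^2 - 16*m - 34)*h4
  have h5 : (0:ℝ) ≤ (8*m^5 + 158*m^4 + 1254*m^3 + 4977*m^2 + 9826*m + 7654)*(1 - t1) := mul_nonneg (by positivity) (by linarith)
  have h6 : (0:ℝ) < (2*m^4 + 40*m^3 + 310*m^2 + 1084*m + 1442) := by positivity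
  linarith

theorem q0404 {m : ℝ} (hm : 0 ≤ m) : Q m .e0 .e4 .e0 .e4 := by
  intro t0 t1 t2 t3 a0 b0 a1 b1 a2 b2 a3 b3 h1 h2 h3 h4
  simp only [px, py, dx, dy] at h1 h2 h3 h4 ⊢
  exfalso
  have h : (16*m^9 + 608*m^8 + 10288*m^7 + 101640*m^6 + 645504*m^5 + 2730376*m^4 + 7684072*m^3 + 13857464*m^2 + 14508500*m + 6704432)*t3 + (8*m^8 + 288*m^7 + 4592*m^6 + 42300*m^5 + 245976*m^4 + 923860*m^3 + 2187320*m^2 + 2983532*m + 1795024) = 0 := by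
    linear_combination (8*m^7 + 220*m^6 + 2592*m^5 + 16920*m^4 + 65898*m^3 + 152496*m^2 + 192914*m + 101796)*h1 + (4*m^6 + 94*m^5 + 916*m^4 + 4718*m^3 + 13473*m^2 + 20054*m + 11976)*h2 + (8*m^7 + 228*m^6 + 2792*m^5 + 19016*m^4 + 77668*m^3 + 189820*m^2 + 256262*m + 146756)*h3 + (-8*m^7 - 220*m^6 - 2600*m^5 - 17096*m^4 - 67452*m^3 - 159404*m^2 - 208410*m - 115860)*h4
  have h5 : (0:ℝ) ≤ (16*m^9 + 608*m^8 + 10288*m^7 + 101640*m^6 + 645504*m^5 + 2730376*m^4 + 7684072*m^3 + 13857464*m^2 + 14508500*m + 6704432)*t3 := mul_nonneg (by positivity) a3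
  have h6 : (0:ℝ) < (8*m^8 + 288*m^7 + 4592*m^6 + 42300*m^5 + 245976*m^4 + 923860*m^3 + 2187320*m^2 + 2983532*m + 1795024) := by positivity
  linarith

theorem q0405 {m : ℝ} (hm : 0 ≤ m) : Q m .e0 .e4 .e0 .e5 := by
  intro t0 t1 t2 t3 a0 b0 a1 b1 a2 b2 a3 b3 h1 h2 h3 h4
  simp only [px, py, dx, dy] at h1 h2 h3 h4 ⊢
  exfalso
  have h : (8*m^7 + 232*m^6 + 2896*m^5 + 20154*m^4 + 84404*m^3 + 212644*m^2 + 298352*m + 179840)*t0 + (8*m^6 + 208*m^5 + 2246*m^4 + 12912*m^3 + 41736*m^2 + 72000*m + 51840) = 0 := by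
    linear_combination (4*m^5 + 80*m^4 + 640*m^3 + 2550*m^2 + 5036*m + 3910)*h1 + (2*m^4 + 32*m^3 + 190*m^2 + 491*m + 460)*h2 + (4*m^5 + 80*m^4 + 640*m^3 + 2550*m^2 + 5036*m + 3910)*h3 + (-4*m^5 - 80*m^4 - 644*m^3 - 2604*m^2 - 5276*m - 4270)*h4
  have h5 : (0:ℝ) ≤ (8*m^7 + 232*m^6 + 2896*m^5 + 20154*m^4 + 84404*m^3 + 212644*m^2 + 298352*m + 179840)*t0 := mul_nonneg (by positivity) a0
  have h6 : (0:ℝ) < (8*m^6 + 208*m^5 + 2246*m^4 + 12912*m^3 + 41736*m^2 + 72000*m + 51840) := by positivity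
  linarith

theorem q0411 {m : ℝ} (hm : 0 ≤ m) : Q m .e0 .e4 .e1 .e1 := by
  intro t0 t1 t2 t3 a0 b0 a1 b1 a2 b2 a3 b3 h1 h2 h3 h4
  simp only [px, py, dx, dy] at h1 h2 h3 h4 ⊢
  exfalso
  have h : (4*m^7 + 114*m^6 + 1396*m^5 + 9510*m^4 + 38865*m^3 + 95086*m^2 + 128554*m + 73718)*t1 + (2*m^6 + 52*m^5 + 578*m^4 + 3505*m^3 + 12204*m^2 + 23106*m + 18586) = 0 := by
    linear_combination (-2*m^4 - 33*m^3 - 207*m^2 - 586*m - 632)*h1 + (-2*m^3 - 25*m^2 - 107*m - 158)*h2 + (-m^3 - 12*m^2 - 50*m - 72)*h3 + (-m^2 - 8*m - 18)*h4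
  have h5 : (0:ℝ) ≤ (4*m^7 + 114*m^6 + 1396*m^5 + 9510*m^4 + 38865*m^3 + 95086*m^2 + 128554*m + 73718)*t1 := mul_nonneg (by positivity) a1
  have h6 : (0:ℝ) < (2*m^6 + 52*m^5 + 578*m^4 + 3505*m^3 + 12204*m^2 + 23106*m + 18586) := by positivity
  linarith

theorem q0412 {m : ℝ} (hm : 0 ≤ m) : Q m .e0 .e4 .e1 .e2 := by
  intro t0 t1 t2 t3 a0 b0 a1 b1 a2 b2 a3 b3 h1 h2 h3 h4
  simp only [px, py, dx, dy] at h1 h2 h3 h4 ⊢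
  exfalso
  have h : (8*m^8 + 248*m^7 + 3356*m^6 + 25846*m^5 + 123638*m^4 + 375154*m^3 + 702533*m^2 + 738489*m + 331082)*t1 + (8*m^7 + 228*m^6 + 2834*m^5 + 19858*m^4 + 84508*m^3 + 217931*m^2 + 314675*m + 195814) = 0 := by
    linear_combination (4*m^3 + 45*m^2 + 174*m + 232)*h1 + (4*m^2 + 29*m + 58)*h2 + (4*m^5 + 80*m^4 + 648*m^3 + 2653*m^2 + 5483*m + 4572)*h3 + (-4*m^5 - 76*m^4 - 586*m^3 - 2286*m^2 - 4505*m - 3582)*h4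
  have h5 : (0:ℝ) ≤ (8*m^8 + 248*m^7 + 3356*m^6 + 25846*m^5 + 123638*m^4 + 375154*m^3 + 702533*m^2 + 738489*m + 331082)*t1 := mul_nonneg (by positivity) a1
  have h6 : (0:ℝ) < (8*m^7 + 228*m^6 + 2834*m^5 + 19858*m^4 + 84508*m^3 + 217931*m^2 + 314675*m + 195814) := by positivity
  linarith

theorem q0413 {m : ℝ} (hm : 0 ≤ m) : Q m .e0 .e4 .e1 .e3 := by
  intro t0 t1 t2 t3 a0 b0 a1 b1 a2 b2 a3 b3 h1 h2 h3 h4
  simp only [px, py, dx, dy] at h1 h2 h3 h4 ⊢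
  exfalso
  have h : (8*m^9 + 280*m^8 + 4348*m^7 + 39266*m^6 + 226956*m^5 + 869382*m^4 + 2203447*m^3 + 3556404*m^2 + 3309954*m + 1350262)*t1 + (8*m^8 + 268*m^7 + 3970*m^6 + 33892*m^5 + 182014*m^4 + 628477*m^3 + 1360039*m^2 + 1683346*m + 910634) = 0 := by
    linear_combination (-7*m^3 - 91*m^2 - 394*m - 568)*h1 + (-7*m^2 - 63*m - 142)*h2 + (4*m^6 + 96*m^5 + 964*m^4 + 5169*m^3 + 15554*m^2 + 24786*m + 16232)*h3 + (-4*m^6 - 92*m^5 - 886*m^4 - 4560*m^3 - 13191*m^2 - 20272*m - 12882)*h4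
  have h5 : (0:ℝ) ≤ (8*m^9 + 280*m^8 + 4348*m^7 + 39266*m^6 + 226956*m^5 + 869382*m^4 + 2203447*m^3 + 3556404*m^2 + 3309954*m + 1350262)*t1 := mul_nonneg (by positivity) a1
  have h6 : (0:ℝ) < (8*m^8 + 268*m^7 + 3970*m^6 + 33892*m^5 + 182014*m^4 + 628477*m^3 + 1360039*m^2 + 1683346*m + 910634) := by positivity
  linarith

theorem q0414 {m : ℝ} (hm : 0 ≤ m) : Q m .e0 .e4 .e1 .e4 := by
  intro t0 t1 t2 t3 a0 b0 a1 b1 a2 b2 a3 b3 h1 h2 h3 h4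
  simp only [px, py, dx, dy] at h1 h2 h3 h4 ⊢
  exfalso
  have h : (12*m^8 + 400*m^7 + 5840*m^6 + 48700*m^5 + 253288*m^4 + 839820*m^3 + 1729927*m^2 + 2018776*m + 1018370)*t3 + (4*m^8 + 132*m^7 + 1924*m^6 + 16196*m^5 + 86222*m^4 + 297602*m^3 + 650945*m^2 + 825252*m + 464110) = 0 := by
    linear_combination (4*m^6 + 94*m^5 + 916*m^4 + 4718*m^3 + 13473*m^2 + 20054*m + 11976)*h1 + (4*m^5 + 78*m^4 + 604*m^3 + 2302*m^2 + 4265*m + 2994)*h2 + (4*m^6 + 100*m^5 + 1040*m^4 + 5746*m^3 + 17728*m^2 + 28810*m + 19094)*h3 + (-4*m^6 - 94*m^5 - 920*m^4 - 4790*m^3 - 13959*m^2 - 21522*m - 13656)*h4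
  have h5 : (0:ℝ) ≤ (12*m^8 + 400*m^7 + 5840*m^6 + 48700*m^5 + 253288*m^4 + 839820*m^3 + 1729927*m^2 + 2018776*m + 1018370)*t3 := mul_nonneg (by positivity) a3
  have h6 : (0:ℝ) < (4*m^8 + 132*m^7 + 1924*m^6 + 16196*m^5 + 86222*m^4 + 297602*m^3 + 650945*m^2 + 825252*m + 464110) := by positivity
  linarith

theorem q0415 {m : ℝ} (hm : 0 ≤ m) : Q m .e0 .e4 .e1 .e5 := by
  intro t0 t1 t2 t3 a0 b0 a1 b1 a2 b2 a3 b3 h1 h2 h3 h4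
  simp only [px, py, dx, dy] at h1 h2 h3 h4 ⊢
  exfalso
  have h : (6*m^6 + 148*m^5 + 1524*m^4 + 8367*m^3 + 25776*m^2 + 42142*m + 28472)*t0 + (2*m^6 + 52*m^5 + 568*m^4 + 3317*m^3 + 10868*m^2 + 18854*m + 13464) = 0 := by
    linear_combination (2*m^4 + 32*m^3 + 190*m^2 + 491*m + 460)*h1 + (2*m^3 + 24*m^2 + 94*m + 115)*h2 + (2*m^4 + 32*m^3 + 190*m^2 + 491*m + 460)*h3 + (-2*m^4 - 32*m^3 - 192*m^2 - 509*m - 496)*h4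
  have h5 : (0:ℝ) ≤ (6*m^6 + 148*m^5 + 1524*m^4 + 8367*m^3 + 25776*m^2 + 42142*m + 28472)*t0 := mul_nonneg (by positivity) a0
  have h6 : (0:ℝ) < (2*m^6 + 52*m^5 + 568*m^4 + 3317*m^3 + 10868*m^2 + 18854*m + 13464) := by positivity
  linarith

theorem q0421 {m : ℝ} (hm : 0 ≤ m) : Q m .e0 .e4 .e2 .e1 := by
  intro t0 t1 t2 t3 a0 b0 a1 b1 a2 b2 a3 b3 h1 h2 h3 h4
  simp only [px, py, dx, dy] at h1 h2 h3 h4 ⊢
  exfalso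
  have h : (4*m^6 + 114*m^5 + 1342*m^4 + 8398*m^3 + 29577*m^2 + 55751*m + 44072)*(1 - t1) + (2*m^3 + 26*m^2 + 108*m + 144) = 0 := by
    linear_combination (4*m^5 + 82*m^4 + 676*m^3 + 2803*m^2 + 5845*m + 4898)*h1 + (-4*m^5 - 78*m^4 - 616*m^3 - 2464*m^2 - 4994*m - 4108)*h2 + (4*m^4 + 64*m^3 + 389*m^2 + 1063*m + 1098)*h3 + (-4*m^5 - 82*m^4 - 678*m^3 - 2828*m^2 - 5952*m - 5058)*h4
  have h5 : (0:ℝ) ≤ (4*m^6 + 114*m^5 + 1342*m^4 + 8398*m^3 + 29577*m^2 + 55751*m + 44072)*(1 - t1) := mul_nonneg (by positivity) (by linarith)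
  have h6 : (0:ℝ) < (2*m^3 + 26*m^2 + 108*m + 144) := by positivity
  linarith

theorem q0422 {m : ℝ} (hm : 0 ≤ m) : Q m .e0 .e4 .e2 .e2 := by
  intro t0 t1 t2 t3 a0 b0 a1 b1 a2 b2 a3 b3 h1 h2 h3 h4
  simp only [px, py, dx, dy] at h1 h2 h3 h4 ⊢
  exfalso
  have h : (16*m^9 + 552*m^8 + 8456*m^7 + 75400*m^6 + 430704*m^5 + 1631934*m^4 + 4093540*m^3 + 6538442*m^2 + 6013441*m + 2414078)*t1 + (16*m^8 + 512*m^7 + 7264*m^6 + 59564*m^5 + 308254*m^4 + 1029540*m^3 + 2164548*m^2 + 2616543*m + 1391266) = 0 := by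
    linear_combination (8*m^4 + 122*m^3 + 704*m^2 + 1827*m + 1798)*h1 + (-8*m^4 - 114*m^3 - 626*m^2 - 1566*m - 1508)*h2 + (8*m^6 + 188*m^5 + 1852*m^4 + 9784*m^3 + 29216*m^2 + 46725*m + 31248)*h3 + (-8*m^6 - 180*m^5 - 1708*m^4 - 8738*m^3 - 25402*m^2 - 39774*m - 26208)*h4
  have h5 : (0:ℝ) ≤ (16*m^9 + 552*m^8 + 8456*m^7 + 75400*m^6 + 430704*m^5 + 1631934*m^4 + 4093540*m^3 + 6538442*m^2 + 6013441*m + 2414078)*t1 := mul_nonneg (by positivity) a1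
  have h6 : (0:ℝ) < (16*m^8 + 512*m^7 + 7264*m^6 + 59564*m^5 + 308254*m^4 + 1029540*m^3 + 2164548*m^2 + 2616543*m + 1391266) := by positivity
  linarith

theorem q0423 {m : ℝ} (hm : 0 ≤ m) : Q m .e0 .e4 .e2 .e3 := by
  intro t0 t1 t2 t3 a0 b0 a1 b1 a2 b2 a3 b3 h1 h2 h3 h4
  simp only [px, py, dx, dy] at h1 h2 h3 h4 ⊢
  exfalso
  have h : (16*m^10 + 616*m^9 + 10648*m^8 + 108696*m^7 + 724732*m^6 + 3293250*m^5 + 10312734*m^4 + 21937332*m^3 + 30281439*m^2 + 24447275*m + 8752528)*t1 + (16*m^9 + 592*m^8 + 9808*m^7 + 95328*m^6 + 597974*m^5 + 2506084*m^4 + 7004258*m^3 + 12563845*m^2 + 13094883*m + 6026216) = 0 := by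
    linear_combination (-14*m^4 - 238*m^3 - 1509*m^2 - 4225*m - 4402)*h1 + (14*m^4 + 224*m^3 + 1348*m^2 + 3626*m + 3692)*h2 + (8*m^7 + 220*m^6 + 2596*m^5 + 17008*m^4 + 66674*m^3 + 155981*m^2 + 200985*m + 109598)*h3 + (-8*m^7 - 212*m^6 - 2412*m^5 - 15234*m^4 - 57514*m^3 - 129316*m^2 - 159552*m - 82758)*h4
  have h5 : (0:ℝ) ≤ (16*m^10 + 616*m^9 + 10648*m^8 + 108696*m^7 + 724732*m^6 + 3293250*m^5 + 10312734*m^4 + 21937332*m^3 + 30281439*m^2 + 24447275*m + 8752528)*t1 := mul_nonneg (by positivity) a1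
  have h6 : (0:ℝ) < (16*m^9 + 592*m^8 + 9808*m^7 + 95328*m^6 + 597974*m^5 + 2506084*m^4 + 7004258*m^3 + 12563845*m^2 + 13094883*m + 6026216) := by positivity
  linarith

theorem q0424 {m : ℝ} (hm : 0 ≤ m) : Q m .e0 .e4 .e2 .e4 := by
  intro t0 t1 t2 t3 a0 b0 a1 b1 a2 b2 a3 b3 h1 h2 h3 h4
  simp only [px, py, dx, dy] at h1 h2 h3 h4 ⊢
  exfalso
  have h : (16*m^10 + 616*m^9 + 10624*m^8 + 107908*m^7 + 713400*m^6 + 3200024*m^5 + 9832800*m^4 + 20353818*m^3 + 27010476*m^2 + 20578429*m + 6745480)*t1 + (16*m^9 + 584*m^8 + 9540*m^7 + 91404*m^6 + 565168*m^5 + 2334824*m^4 + 6432902*m^3 + 11375358*m^2 + 11687643*m + 5301560) = 0 := by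
    linear_combination (8*m^7 + 228*m^6 + 2788*m^5 + 18946*m^4 + 77194*m^3 + 188346*m^2 + 254457*m + 146630)*h1 + (-8*m^7 - 220*m^6 - 2604*m^5 - 17184*m^4 - 68226*m^3 - 162842*m^2 - 216162*m - 122980)*h2 + (8*m^7 + 228*m^6 + 2780*m^5 + 18774*m^4 + 75722*m^3 + 182062*m^2 + 241061*m + 135230)*h3 + (-16*m^7 - 440*m^6 - 5196*m^5 - 34124*m^4 - 134464*m^3 - 317554*m^2 - 415632*m - 232230)*h4
  have h5 : (0:ℝ) ≤ (16*m^10 + 616*m^9 + 10624*m^8 + 107908*m^7 + 713400*m^6 + 3200024*m^5 + 9832800*m^4 + 20353818*m^3 + 27010476*m^2 + 20578429*m + 6745480)*t1 := mul_nonneg (by positivity) a1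
  have h6 : (0:ℝ) < (16*m^9 + 584*m^8 + 9540*m^7 + 91404*m^6 + 565168*m^5 + 2334824*m^4 + 6432902*m^3 + 11375358*m^2 + 11687643*m + 5301560) := by positivity
  linarith

theorem q0425 {m : ℝ} (hm : 0 ≤ m) : Q m .e0 .e4 .e2 .e5 := by
  intro t0 t1 t2 t3 a0 b0 a1 b1 a2 b2 a3 b3 h1 h2 h3 h4
  simp only [px, py, dx, dy] at h1 h2 h3 h4 ⊢
  exfalso
  have h : (8*m^7 + 212*m^6 + 2392*m^5 + 14834*m^4 + 54310*m^3 + 116428*m^2 + 133455*m + 61408)*t1 + (8*m^6 + 204*m^5 + 2214*m^4 + 13010*m^3 + 43482*m^2 + 78169*m + 58976) = 0 := by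
    linear_combination (4*m^4 + 66*m^3 + 410*m^2 + 1135*m + 1178)*h1 + (-4*m^4 - 62*m^3 - 366*m^2 - 974*m - 988)*h2 + (4*m^4 + 66*m^3 + 410*m^2 + 1135*m + 1178)*h3 + (-8*m^4 - 124*m^3 - 730*m^2 - 1932*m - 1938)*h4
  have h5 : (0:ℝ) ≤ (8*m^7 + 212*m^6 + 2392*m^5 + 14834*m^4 + 54310*m^3 + 116428*m^2 + 133455*m + 61408)*t1 := mul_nonneg (by positivity) a1
  have h6 : (0:ℝ) < (8*m^6 + 204*m^5 + 2214*m^4 + 13010*m^3 + 43482*m^2 + 78169*m + 58976) := by positivity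
  linarith

theorem q0431 {m : ℝ} (hm : 0 ≤ m) : Q m .e0 .e4 .e3 .e1 := by
  intro t0 t1 t2 t3 a0 b0 a1 b1 a2 b2 a3 b3 h1 h2 h3 h4
  simp only [px, py, dx, dy] at h1 h2 h3 h4 ⊢
  exfalso
  have h : (12*m^7 + 362*m^6 + 4688*m^5 + 33738*m^4 + 145479*m^3 + 375024*m^2 + 533422*m + 321278)*t2 + (2*m^6 + 54*m^5 + 600*m^4 + 3533*m^3 + 11663*m^2 + 20480*m + 14928) = 0 := by
    linear_combination (4*m^6 + 98*m^5 + 996*m^4 + 5356*m^3 + 15993*m^2 + 24938*m + 15622)*h1 + (-4*m^6 - 94*m^5 - 922*m^4 - 4826*m^3 - 14205*m^2 - 22273*m - 14524)*h2 + (4*m^5 + 80*m^4 + 638*m^3 + 2520*m^2 + 4884*m + 3646)*h3 + (-4*m^6 - 98*m^5 - 1000*m^4 - 5430*m^3 - 16507*m^2 - 26538*m - 17518)*h4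
  have h5 : (0:ℝ) ≤ (12*m^7 + 362*m^6 + 4688*m^5 + 33738*m^4 + 145479*m^3 + 375024*m^2 + 533422*m + 321278)*t2 := mul_nonneg (by positivity) a2
  have h6 : (0:ℝ) < (2*m^6 + 54*m^5 + 600*m^4 + 3533*m^3 + 11663*m^2 + 20480*m + 14928) := by positivity
  linarith

theorem q0432 {m : ℝ} (hm : 0 ≤ m) : Q m .e0 .e4 .e3 .e2 := by
  intro t0 t1 t2 t3 a0 b0 a1 b1 a2 b2 a3 b3 h1 h2 h3 h4
  simp only [px, py, dx, dy] at h1 h2 h3 h4 ⊢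
  exfalso
  have h : (16*m^10 + 616*m^9 + 10664*m^8 + 109200*m^7 + 731660*m^6 + 3347334*m^5 + 10573866*m^4 + 22731352*m^3 + 31754479*m^2 + 25952925*m + 9388202)*t1 + (16*m^9 + 576*m^8 + 9312*m^7 + 88612*m^6 + 546314*m^5 + 2260432*m^4 + 6269840*m^3 + 11229196*m^2 + 11768777*m + 5491006) = 0 := by
    linear_combination (8*m^5 + 154*m^4 + 1192*m^3 + 4627*m^2 + 8990*m + 6960)*h1 + (-8*m^5 - 146*m^4 - 1074*m^3 - 3960*m^2 - 7279*m - 5278)*h2 + (8*m^7 + 220*m^6 + 2604*m^5 + 17180*m^4 + 68170*m^3 + 162531*m^2 + 215355*m + 122156)*h3 + (-8*m^7 - 212*m^6 - 2428*m^5 - 15558*m^4 - 60176*m^3 - 140346*m^2 - 182517*m - 101894)*h4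
  have h5 : (0:ℝ) ≤ (16*m^10 + 616*m^9 + 10664*m^8 + 109200*m^7 + 731660*m^6 + 3347334*m^5 + 10573866*m^4 + 22731352*m^3 + 31754479*m^2 + 25952925*m + 9388202)*t1 := mul_nonneg (by positivity) a1
  have h6 : (0:ℝ) < (16*m^9 + 576*m^8 + 9312*m^7 + 88612*m^6 + 546314*m^5 + 2260432*m^4 + 6269840*m^3 + 11229196*m^2 + 11768777*m + 5491006) := by positivity
  linarith

theorem q0433 {m : ℝ} (hm : 0 ≤ m) : Q m .e0 .e4 .e3 .e3 := by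
  intro t0 t1 t2 t3 a0 b0 a1 b1 a2 b2 a3 b3 h1 h2 h3 h4
  simp only [px, py, dx, dy] at h1 h2 h3 h4 ⊢
  exfalso
  have h : (16*m^11 + 680*m^10 + 13112*m^9 + 151264*m^8 + 1158792*m^7 + 6182682*m^6 + 23415256*m^5 + 62865906*m^4 + 117105161*m^3 + 143954046*m^2 + 104975046*m + 34370014)*t1 + (16*m^10 + 656*m^9 + 12176*m^8 + 134536*m^7 + 978570*m^6 + 4888716*m^5 + 16961544*m^4 + 40289108*m^3 + 62591040*m^2 + 57319384*m + 23452154) = 0 := by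
    linear_combination (-14*m^5 - 294*m^4 - 2461*m^3 - 10233*m^2 - 21050*m - 17040)*h1 + (14*m^5 + 280*m^4 + 2230*m^3 + 8801*m^2 + 17093*m + 12922)*h2 + (8*m^8 + 252*m^7 + 3476*m^6 + 27380*m^5 + 134476*m^4 + 420907*m^3 + 818116*m^2 + 900650*m + 428880)*h3 + (-8*m^8 - 244*m^7 - 3260*m^6 - 24870*m^5 - 118232*m^4 - 357792*m^3 - 671199*m^2 - 711436*m - 325234)*h4
  have h5 : (0:ℝ) ≤ (16*m^11 + 680*m^10 + 13112*m^9 + 151264*m^8 + 1158792*m^7 + 6182682*m^6 + 23415256*m^5 + 62865906*m^4 + 117105161*m^3 + 143954046*m^2 + 104975046*m + 34370014)*t1 := mul_nonneg (by positivity) a1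
  have h6 : (0:ℝ) < (16*m^10 + 656*m^9 + 12176*m^8 + 134536*m^7 + 978570*m^6 + 4888716*m^5 + 16961544*m^4 + 40289108*m^3 + 62591040*m^2 + 57319384*m + 23452154) := by positivity
  linarith

theorem q0434 {m : ℝ} (hm : 0 ≤ m) : Q m .e0 .e4 .e3 .e4 := by
  intro t0 t1 t2 t3 a0 b0 a1 b1 a2 b2 a3 b3 h1 h2 h3 h4
  simp only [px, py, dx, dy] at h1 h2 h3 h4 ⊢
  exfalso
  have h : (16*m^11 + 680*m^10 + 13072*m^9 + 149788*m^8 + 1134568*m^7 + 5950784*m^6 + 21989392*m^5 + 57031642*m^4 + 101235584*m^3 + 116317535*m^2 + 77056700*m + 21928294)*(1 - t2) + (8*m^10 + 336*m^9 + 6376*m^8 + 71896*m^7 + 532760*m^6 + 2706896*m^5 + 9535522*m^4 + 22958644*m^3 + 36098398*m^2 + 33420768*m + 13823546) = 0 := by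
    linear_combination (8*m^8 + 256*m^7 + 3576*m^6 + 28432*m^5 + 140448*m^4 + 440296*m^3 + 852758*m^2 + 929120*m + 433714)*h1 + (-4*m^7 - 128*m^6 - 1752*m^5 - 13260*m^4 - 59800*m^3 - 160324*m^2 - 235873*m - 146164)*h2 + (8*m^8 + 256*m^7 + 3568*m^6 + 28228*m^5 + 138304*m^4 + 428444*m^3 + 816604*m^2 + 871952*m + 397786)*h3 + (-8*m^8 - 256*m^7 - 3584*m^6 - 28644*m^5 - 142784*m^4 - 453996*m^3 - 897820*m^2 - 1007784*m - 490474)*h4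
  have h5 : (0:ℝ) ≤ (16*m^11 + 680*m^10 + 13072*m^9 + 149788*m^8 + 1134568*m^7 + 5950784*m^6 + 21989392*m^5 + 57031642*m^4 + 101235584*m^3 + 116317535*m^2 + 77056700*m + 21928294)*(1 - t2) := mul_nonneg (by positivity) (by linarith)
  have h6 : (0:ℝ) < (8*m^10 + 336*m^9 + 6376*m^8 + 71896*m^7 + 532760*m^6 + 2706896*m^5 + 9535522*m^4 + 22958644*m^3 + 36098398*m^2 + 33420768*m + 13823546) := by positivity
  linarith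

theorem q0435 {m : ℝ} (hm : 0 ≤ m) : Q m .e0 .e4 .e3 .e5 := by
  intro t0 t1 t2 t3 a0 b0 a1 b1 a2 b2 a3 b3 h1 h2 h3 h4
  simp only [px, py, dx, dy] at h1 h2 h3 h4 ⊢
  exfalso
  have h : (8*m^8 + 244*m^7 + 3232*m^6 + 24190*m^5 + 111342*m^4 + 320560*m^3 + 558251*m^2 + 529576*m + 204394)*(1 - t2) + (4*m^7 + 128*m^6 + 1764*m^5 + 13502*m^4 + 61712*m^3 + 167636*m^2 + 249124*m + 154838) = 0 := by
    linear_combination (4*m^5 + 80*m^4 + 636*m^3 + 2492*m^2 + 4756*m + 3454)*h1 + (-2*m^4 - 36*m^3 - 248*m^2 - 771*m - 916)*h2 + (4*m^5 + 80*m^4 + 636*m^3 + 2492*m^2 + 4756*m + 3454)*h3 + (-4*m^5 - 80*m^4 - 640*m^3 - 2550*m^2 - 5036*m - 3910)*h4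
  have h5 : (0:ℝ) ≤ (8*m^8 + 244*m^7 + 3232*m^6 + 24190*m^5 + 111342*m^4 + 320560*m^3 + 558251*m^2 + 529576*m + 204394)*(1 - t2) := mul_nonneg (by positivity) (by linarith)
  have h6 : (0:ℝ) < (4*m^7 + 128*m^6 + 1764*m^5 + 13502*m^4 + 61712*m^3 + 167636*m^2 + 249124*m + 154838) := by positivity
  linarith

theorem q0441 {m : ℝ} (hm : 0 ≤ m) : Q m .e0 .e4 .e4 .e1 := by
  intro t0 t1 t2 t3 a0 b0 a1 b1 a2 b2 a3 b3 h1 h2 h3 h4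
  simp only [px, py, dx, dy] at h1 h2 h3 h4 ⊢
  exfalso
  have h : (8*m^9 + 292*m^8 + 4728*m^7 + 44524*m^6 + 268396*m^5 + 1072428*m^4 + 2835360*m^3 + 4773301*m^2 + 4632662*m + 1970818)*t2 + (12*m^7 + 364*m^6 + 4742*m^5 + 34338*m^4 + 149012*m^3 + 386687*m^2 + 553902*m + 336206) = 0 := by
    linear_combination (4*m^6 + 98*m^5 + 996*m^4 + 5356*m^3 + 15993*m^2 + 24938*m + 15622)*h1 + (-4*m^6 - 94*m^5 - 922*m^4 - 4826*m^3 - 14205*m^2 - 22273*m - 14524)*h2 + (4*m^5 + 80*m^4 + 638*m^3 + 2520*m^2 + 4884*m + 3646)*h3 + (-4*m^6 - 98*m^5 - 1000*m^4 - 5430*m^3 - 16507*m^2 - 26538*m - 17518)*h4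
  have h5 : (0:ℝ) ≤ (8*m^9 + 292*m^8 + 4728*m^7 + 44524*m^6 + 268396*m^5 + 1072428*m^4 + 2835360*m^3 + 4773301*m^2 + 4632662*m + 1970818)*t2 := mul_nonneg (by positivity) a2
  have h6 : (0:ℝ) < (12*m^7 + 364*m^6 + 4742*m^5 + 34338*m^4 + 149012*m^3 + 386687*m^2 + 553902*m + 336206) := by positivity
  linarith

theorem q0442 {m : ℝ} (hm : 0 ≤ m) : Q m .e0 .e4 .e4 .e2 := by
  intro t0 t1 t2 t3 a0 b0 a1 b1 a2 b2 a3 b3 h1 h2 h3 h4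
  simp only [px, py, dx, dy] at h1 h2 h3 h4 ⊢
  exfalso
  have h : (8*m^9 + 280*m^8 + 4364*m^7 + 39696*m^6 + 231900*m^5 + 900776*m^4 + 2321670*m^3 + 3818052*m^2 + 3620073*m + 1497022)*t1 + (8*m^8 + 268*m^7 + 3980*m^6 + 34172*m^5 + 185360*m^4 + 650118*m^3 + 1439638*m^2 + 1841031*m + 1042274) = 0 := by
    linear_combination (8*m^3 + 106*m^2 + 464*m + 696)*h1 + (8*m^5 + 154*m^4 + 1188*m^3 + 4578*m^2 + 8787*m + 6670)*h2 + (4*m^6 + 104*m^5 + 1130*m^4 + 6562*m^3 + 21484*m^2 + 37633*m + 27604)*h3 + (-4*m^6 - 92*m^5 - 894*m^4 - 4694*m^3 - 14068*m^2 - 22891*m - 15898)*h4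
  have h5 : (0:ℝ) ≤ (8*m^9 + 280*m^8 + 4364*m^7 + 39696*m^6 + 231900*m^5 + 900776*m^4 + 2321670*m^3 + 3818052*m^2 + 3620073*m + 1497022)*t1 := mul_nonneg (by positivity) a1
  have h6 : (0:ℝ) < (8*m^8 + 268*m^7 + 3980*m^6 + 34172*m^5 + 185360*m^4 + 650118*m^3 + 1439638*m^2 + 1841031*m + 1042274) := by positivity
  linarith

theorem q0443 {m : ℝ} (hm : 0 ≤ m) : Q m .e0 .e4 .e4 .e3 := by
  intro t0 t1 t2 t3 a0 b0 a1 b1 a2 b2 a3 b3 h1 h2 h3 h4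
  simp only [px, py, dx, dy] at h1 h2 h3 h4 ⊢
  exfalso
  have h : (8*m^10 + 328*m^9 + 6068*m^8 + 66608*m^7 + 479676*m^6 + 2363792*m^5 + 8055654*m^4 + 18700744*m^3 + 28219019*m^2 + 24909510*m + 9732098)*t1 + (8*m^9 + 316*m^8 + 5604*m^7 + 58472*m^6 + 394998*m^5 + 1788842*m^4 + 5421830*m^3 + 10584062*m^2 + 12044490*m + 6066478) = 0 := by
    linear_combination (-14*m^3 - 210*m^2 - 1040*m - 1704)*h1 + (-14*m^5 - 294*m^4 - 2454*m^3 - 10135*m^2 - 20593*m - 16330)*h2 + (4*m^7 + 120*m^6 + 1546*m^5 + 11066*m^4 + 47436*m^3 + 121487*m^2 + 171540*m + 102456)*h3 + (-4*m^7 - 116*m^6 - 1458*m^5 - 10270*m^4 - 43668*m^3 - 111697*m^2 - 158374*m - 95318)*h4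
  have h5 : (0:ℝ) ≤ (8*m^10 + 328*m^9 + 6068*m^8 + 66608*m^7 + 479676*m^6 + 2363792*m^5 + 8055654*m^4 + 18700744*m^3 + 28219019*m^2 + 24909510*m + 9732098)*t1 := mul_nonneg (by positivity) a1
  have h6 : (0:ℝ) < (8*m^9 + 316*m^8 + 5604*m^7 + 58472*m^6 + 394998*m^5 + 1788842*m^4 + 5421830*m^3 + 10584062*m^2 + 12044490*m + 6066478) := by positivity
  linarith

theorem q0444 {m : ℝ} (hm : 0 ≤ m) : Q m .e0 .e4 .e4 .e4 := by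
  intro t0 t1 t2 t3 a0 b0 a1 b1 a2 b2 a3 b3 h1 h2 h3 h4
  simp only [px, py, dx, dy] at h1 h2 h3 h4 ⊢
  exfalso
  have h : (16*m^11 + 704*m^10 + 14048*m^9 + 167680*m^8 + 1329152*m^7 + 7340232*m^6 + 28791956*m^5 + 80142496*m^4 + 154997848*m^3 + 198209220*m^2 + 150740720*m + 51631078)*t3 + (8*m^10 + 336*m^9 + 6376*m^8 + 71896*m^7 + 532760*m^6 + 2706896*m^5 + 9535522*m^4 + 22958644*m^3 + 36098398*m^2 + 33420768*m + 13823546) = 0 := by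
    linear_combination (8*m^6 + 204*m^5 + 2144*m^4 + 11852*m^3 + 36154*m^2 + 57168*m + 35928)*h1 + (8*m^8 + 252*m^7 + 3456*m^6 + 26892*m^5 + 129524*m^4 + 394196*m^3 + 737496*m^2 + 771911*m + 344310)*h2 + (8*m^8 + 256*m^7 + 3576*m^6 + 28436*m^5 + 140544*m^4 + 441220*m^3 + 857212*m^2 + 939868*m + 444130)*h3 + (-8*m^6 - 208*m^5 - 2240*m^4 - 12776*m^3 - 40608*m^2 - 67916*m - 46344)*h4
  have h5 : (0:ℝ) ≤ (16*m^11 + 704*m^10 + 14048*m^9 + 167680*m^8 + 1329152*m^7 + 7340232*m^6 + 28791956*m^5 + 80142496*m^4 + 154997848*m^3 + 198209220*m^2 + 150740720*m + 51631078)*t3 := mul_nonneg (by positivity) a3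
  have h6 : (0:ℝ) < (8*m^10 + 336*m^9 + 6376*m^8 + 71896*m^7 + 532760*m^6 + 2706896*m^5 + 9535522*m^4 + 22958644*m^3 + 36098398*m^2 + 33420768*m + 13823546) := by positivity
  linarith

theorem q0445 {m : ℝ} (hm : 0 ≤ m) : Q m .e0 .e4 .e4 .e5 := by
  intro t0 t1 t2 t3 a0 b0 a1 b1 a2 b2 a3 b3 h1 h2 h3 h4
  simp only [px, py, dx, dy] at h1 h2 h3 h4 ⊢
  exfalso
  have h : (8*m^9 + 288*m^8 + 4592*m^7 + 42504*m^6 + 251328*m^5 + 982968*m^4 + 2538530*m^3 + 4166932*m^2 + 3939002*m + 1632808)*t0 + (8*m^5 + 196*m^4 + 1904*m^3 + 9168*m^2 + 21888*m + 20736) = 0 := by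
    linear_combination (4*m^4 + 72*m^3 + 476*m^2 + 1358*m + 1380)*h1 + (4*m^6 + 96*m^5 + 952*m^4 + 4972*m^3 + 14356*m^2 + 21620*m + 13225)*h2 + (4*m^4 + 72*m^3 + 476*m^2 + 1358*m + 1380)*h3 + (-4*m^2 - 48*m - 144)*h4
  have h5 : (0:ℝ) ≤ (8*m^9 + 288*m^8 + 4592*m^7 + 42504*m^6 + 251328*m^5 + 982968*m^4 + 2538530*m^3 + 4166932*m^2 + 3939002*m + 1632808)*t0 := mul_nonneg (by positivity) a0
  have h6 : (0:ℝ) < (8*m^5 + 196*m^4 + 1904*m^3 + 9168*m^2 + 21888*m + 20736) := by positivity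
  linarith

theorem q0451 {m : ℝ} (hm : 0 ≤ m) : Q m .e0 .e4 .e5 .e1 := by
  intro t0 t1 t2 t3 a0 b0 a1 b1 a2 b2 a3 b3 h1 h2 h3 h4
  simp only [px, py, dx, dy] at h1 h2 h3 h4 ⊢
  exfalso
  have h : (4*m^6 + 98*m^5 + 996*m^4 + 5356*m^3 + 15993*m^2 + 24938*m + 15622)*t1 + (2*m^5 + 50*m^4 + 506*m^3 + 2579*m^2 + 6614*m + 6842) = 0 := by
    linear_combination (-2*m^3 - 25*m^2 - 107*m - 158)*h2 + (m^2 + 8*m + 16)*h3 + (-2*m^3 - 25*m^2 - 106*m - 154)*h4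
  have h5 : (0:ℝ) ≤ (4*m^6 + 98*m^5 + 996*m^4 + 5356*m^3 + 15993*m^2 + 24938*m + 15622)*t1 := mul_nonneg (by positivity) a1
  have h6 : (0:ℝ) < (2*m^5 + 50*m^4 + 506*m^3 + 2579*m^2 + 6614*m + 6842) := by positivity
  linarith

theorem q0452 {m : ℝ} (hm : 0 ≤ m) : Q m .e0 .e4 .e5 .e2 := by
  intro t0 t1 t2 t3 a0 b0 a1 b1 a2 b2 a3 b3 h1 h2 h3 h4
  simp only [px, py, dx, dy] at h1 h2 h3 h4 ⊢
  exfalso
  have h : (4*m^6 + 84*m^5 + 722*m^4 + 3222*m^3 + 7784*m^2 + 9495*m + 4498)*t1 + (4*m^5 + 78*m^4 + 614*m^3 + 2398*m^2 + 4569*m + 3278) = 0 := by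
    linear_combination (4*m^2 + 29*m + 58)*h2 + (2*m^3 + 24*m^2 + 95*m + 124)*h3 + (-2*m^3 - 18*m^2 - 53*m - 46)*h4
  have h5 : (0:ℝ) ≤ (4*m^6 + 84*m^5 + 722*m^4 + 3222*m^3 + 7784*m^2 + 9495*m + 4498)*t1 := mul_nonneg (by positivity) a1
  have h6 : (0:ℝ) < (4*m^5 + 78*m^4 + 614*m^3 + 2398*m^2 + 4569*m + 3278) := by positivity
  linarith

theorem q0453 {m : ℝ} (hm : 0 ≤ m) : Q m .e0 .e4 .e5 .e3 := by
  intro t0 t1 t2 t3 a0 b0 a1 b1 a2 b2 a3 b3 h1 h2 h3 h4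
  simp only [px, py, dx, dy] at h1 h2 h3 h4 ⊢
  exfalso
  have h : (4*m^7 + 108*m^6 + 1254*m^5 + 8110*m^4 + 31508*m^3 + 73323*m^2 + 94074*m + 50726)*t1 + (4*m^6 + 102*m^5 + 1106*m^4 + 6516*m^3 + 22004*m^2 + 40446*m + 31690) = 0 := by
    linear_combination (-7*m^2 - 63*m - 142)*h2 + (2*m^4 + 32*m^3 + 191*m^2 + 500*m + 480)*h3 + (-2*m^4 - 30*m^3 - 175*m^2 - 474*m - 506)*h4
  have h5 : (0:ℝ) ≤ (4*m^7 + 108*m^6 + 1254*m^5 + 8110*m^4 + 31508*m^3 + 73323*m^2 + 94074*m + 50726)*t1 := mul_nonneg (by positivity) a1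
  have h6 : (0:ℝ) < (4*m^6 + 102*m^5 + 1106*m^4 + 6516*m^3 + 22004*m^2 + 40446*m + 31690) := by positivity
  linarith

theorem q0454 {m : ℝ} (hm : 0 ≤ m) : Q m .e0 .e4 .e5 .e4 := by
  intro t0 t1 t2 t3 a0 b0 a1 b1 a2 b2 a3 b3 h1 h2 h3 h4
  simp only [px, py, dx, dy] at h1 h2 h3 h4 ⊢
  exfalso
  have h : (8*m^8 + 256*m^7 + 3576*m^6 + 28432*m^5 + 140448*m^4 + 440296*m^3 + 852758*m^2 + 929120*m + 433714)*t3 + (4*m^7 + 112*m^6 + 1352*m^5 + 9118*m^4 + 37068*m^3 + 90632*m^2 + 122832*m + 70574) = 0 := by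
    linear_combination (4*m^5 + 78*m^4 + 604*m^3 + 2302*m^2 + 4265*m + 2994)*h2 + (4*m^5 + 80*m^4 + 636*m^3 + 2492*m^2 + 4756*m + 3454)*h3 + (-2*m^2 - 20*m - 48)*h4
  have h5 : (0:ℝ) ≤ (8*m^8 + 256*m^7 + 3576*m^6 + 28432*m^5 + 140448*m^4 + 440296*m^3 + 852758*m^2 + 929120*m + 433714)*t3 := mul_nonneg (by positivity) a3
  have h6 : (0:ℝ) < (4*m^7 + 112*m^6 + 1352*m^5 + 9118*m^4 + 37068*m^3 + 90632*m^2 + 122832*m + 70574) := by positivity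
  linarith

theorem q0455 {m : ℝ} (hm : 0 ≤ m) : Q m .e0 .e4 .e5 .e5 := by
  intro t0 t1 t2 t3 a0 b0 a1 b1 a2 b2 a3 b3 h1 h2 h3 h4
  simp only [px, py, dx, dy] at h1 h2 h3 h4 ⊢
  exfalso
  have h : (4*m^5 + 80*m^4 + 636*m^3 + 2492*m^2 + 4756*m + 3454)*t1 + (2*m^4 + 40*m^3 + 310*m^2 + 1084*m + 1442) = 0 := by
    linear_combination (-2*m^2 - 17*m - 38)*h2 + (-2*m^2 - 16*m - 34)*h4
  have h5 : (0:ℝ) ≤ (4*m^5 + 80*m^4 + 636*m^3 + 2492*m^2 + 4756*m + 3454)*t1 := mul_nonneg (by positivity) a1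
  have h6 : (0:ℝ) < (2*m^4 + 40*m^3 + 310*m^2 + 1084*m + 1442) := by positivity
  linarith

theorem q0505 {m : ℝ} (hm : 0 ≤ m) : Q m .e0 .e5 .e0 .e5 := by
  intro t0 t1 t2 t3 a0 b0 a1 b1 a2 b2 a3 b3 h1 h2 h3 h4
  simp only [px, py, dx, dy] at h1 h2 h3 h4 ⊢
  have wx : (2*m + 8)*((2*m^3 + 24*m^2 + 96*m + 128) + t1*(-2*m^3 - 25*m^2 - 104*m - 144) - ((-m^2 - 8*m - 16) + t0*(-m^2 - 8*m - 16))) = 0 := by
    linear_combination (-2*m^2 - 16*m - 34)*h1 + (-m - 4)*h2 + (-2*m^2 - 16*m - 34)*h3 + (2*m^2 + 14*m + 26)*h4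
  have Dx : (0:ℝ) < (2*m + 8) := by positivity
  have wy : (2*m + 8)*((0) + t1*(0) - ((0) + t0*(2*m^3 + 24*m^2 + 98*m + 136))) = 0 := by
    linear_combination (-2*m^2 - 16*m - 34)*h1 + (-m - 4)*h2 + (-2*m^2 - 16*m - 34)*h3 + (2*m^2 + 16*m + 34)*h4
  have Dy : (0:ℝ) < (2*m + 8) := by positivity
  refine ⟨abs_le.mpr ⟨?_, ?_⟩, abs_le.mpr ⟨?_, ?_⟩⟩
  · refine le_of_mul_le_mul_left ?_ Dx
    rw [wx]
    have : (0:ℝ) ≤ (10*m^2 + 80*m + 160) := by positivity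
    linarith
  · refine le_of_mul_le_mul_left ?_ Dx
    rw [wx]
    have : (0:ℝ) ≤ (10*m^2 + 80*m + 160) := by positivity
    linarith
  · refine le_of_mul_le_mul_left ?_ Dy
    rw [wy]
    have : (0:ℝ) ≤ (10*m^2 + 80*m + 160) := by positivity
    linarith
  · refine le_of_mul_le_mul_left ?_ Dy
    rw [wy]
    have : (0:ℝ) ≤ (10*m^2 + 80*m + 160) := by positivity
    linarith

theorem q0511 {m : ℝ} (hm : 0 ≤ m) : Q m .e0 .e5 .e1 .e1 := by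
  intro t0 t1 t2 t3 a0 b0 a1 b1 a2 b2 a3 b3 h1 h2 h3 h4
  simp only [px, py, dx, dy] at h1 h2 h3 h4 ⊢
  exfalso
  have h : (4*m^6 + 98*m^5 + 1008*m^4 + 5572*m^3 + 17460*m^2 + 29408*m + 20800)*(1 - t2) + (2*m^4 + 34*m^3 + 218*m^2 + 628*m + 688) = 0 := by
    linear_combination (-2*m^3 - 25*m^2 - 106*m - 154)*h1 + (2*m^3 + 23*m^2 + 91*m + 124)*h2 + (-2*m^2 - 16*m - 34)*h3 + (2*m^3 + 25*m^2 + 106*m + 154)*h4
  have h5 : (0:ℝ) ≤ (4*m^6 + 98*m^5 + 1008*m^4 + 5572*m^3 + 17460*m^2 + 29408*m + 20800)*(1 - t2) := mul_nonneg (by positivity) (by linarith)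
  have h6 : (0:ℝ) < (2*m^4 + 34*m^3 + 218*m^2 + 628*m + 688) := by positivity
  linarith

theorem q0512 {m : ℝ} (hm : 0 ≤ m) : Q m .e0 .e5 .e1 .e2 := by
  intro t0 t1 t2 t3 a0 b0 a1 b1 a2 b2 a3 b3 h1 h2 h3 h4
  simp only [px, py, dx, dy] at h1 h2 h3 h4 ⊢
  exfalso
  have h : (8*m^7 + 216*m^6 + 2508*m^5 + 16226*m^4 + 63142*m^3 + 147708*m^2 + 192192*m + 107200)*(1 - t2) + (4*m^6 + 92*m^5 + 892*m^4 + 4656*m^3 + 13774*m^2 + 21860*m + 14512) = 0 := by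
    linear_combination (-2*m^3 - 18*m^2 - 53*m - 46)*h1 + (4*m^4 + 60*m^3 + 340*m^2 + 863*m + 826)*h2 + (4*m^4 + 60*m^3 + 344*m^2 + 892*m + 884)*h3 + (2*m^3 + 18*m^2 + 53*m + 46)*h4
  have h5 : (0:ℝ) ≤ (8*m^7 + 216*m^6 + 2508*m^5 + 16226*m^4 + 63142*m^3 + 147708*m^2 + 192192*m + 107200)*(1 - t2) := mul_nonneg (by positivity) (by linarith)
  have h6 : (0:ℝ) < (4*m^6 + 92*m^5 + 892*m^4 + 4656*m^3 + 13774*m^2 + 21860*m + 14512) := by positivity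
  linarith

theorem q0513 {m : ℝ} (hm : 0 ≤ m) : Q m .e0 .e5 .e1 .e3 := by
  intro t0 t1 t2 t3 a0 b0 a1 b1 a2 b2 a3 b3 h1 h2 h3 h4
  simp only [px, py, dx, dy] at h1 h2 h3 h4 ⊢
  exfalso
  have h : (8*m^8 + 248*m^7 + 3372*m^6 + 26254*m^5 + 127988*m^4 + 399988*m^3 + 782580*m^2 + 876512*m + 430400)*(1 - t2) + (4*m^7 + 116*m^6 + 1448*m^5 + 10080*m^4 + 42226*m^3 + 106347*m^2 + 148962*m + 89432) = 0 := by
    linear_combination (-2*m^4 - 30*m^3 - 175*m^2 - 474*m - 506)*h1 + (4*m^5 + 76*m^4 + 580*m^3 + 2217*m^2 + 4239*m + 3236)*h2 + (4*m^5 + 76*m^4 + 580*m^3 + 2210*m^2 + 4176*m + 3094)*h3 + (2*m^4 + 30*m^3 + 175*m^2 + 474*m + 506)*h4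
  have h5 : (0:ℝ) ≤ (8*m^8 + 248*m^7 + 3372*m^6 + 26254*m^5 + 127988*m^4 + 399988*m^3 + 782580*m^2 + 876512*m + 430400)*(1 - t2) := mul_nonneg (by positivity) (by linarith)
  have h6 : (0:ℝ) < (4*m^7 + 116*m^6 + 1448*m^5 + 10080*m^4 + 42226*m^3 + 106347*m^2 + 148962*m + 89432) := by positivity
  linarith

theorem q0514 {m : ℝ} (hm : 0 ≤ m) : Q m .e0 .e5 .e1 .e4 := by
  intro t0 t1 t2 t3 a0 b0 a1 b1 a2 b2 a3 b3 h1 h2 h3 h4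
  simp only [px, py, dx, dy] at h1 h2 h3 h4 ⊢
  exfalso
  have h : (6*m^5 + 124*m^4 + 1032*m^3 + 4311*m^2 + 9020*m + 7550)*t3 + (2*m^5 + 38*m^4 + 290*m^3 + 1121*m^2 + 2216*m + 1810) = 0 := by
    linear_combination (2*m^3 + 23*m^2 + 90*m + 120)*h1 + (2*m^2 + 15*m + 30)*h2 + (2*m^3 + 26*m^2 + 114*m + 170)*h3 + (-2*m^3 - 23*m^2 - 90*m - 120)*h4
  have h5 : (0:ℝ) ≤ (6*m^5 + 124*m^4 + 1032*m^3 + 4311*m^2 + 9020*m + 7550)*t3 := mul_nonneg (by positivity) a3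
  have h6 : (0:ℝ) < (2*m^5 + 38*m^4 + 290*m^3 + 1121*m^2 + 2216*m + 1810) := by positivity
  linarith

theorem q0515 {m : ℝ} (hm : 0 ≤ m) : Q m .e0 .e5 .e1 .e5 := by
  intro t0 t1 t2 t3 a0 b0 a1 b1 a2 b2 a3 b3 h1 h2 h3 h4
  simp only [px, py, dx, dy] at h1 h2 h3 h4 ⊢
  exfalso
  have h : (3*m^3 + 36*m^2 + 146*m + 200)*t0 + (m^3 + 12*m^2 + 50*m + 72) = 0 := by
    linear_combination (m + 4)*h1 + 1*h2 + (m + 4)*h3 + (-m - 4)*h4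
  have h5 : (0:ℝ) ≤ (3*m^3 + 36*m^2 + 146*m + 200)*t0 := mul_nonneg (by positivity) a0
  have h6 : (0:ℝ) < (m^3 + 12*m^2 + 50*m + 72) := by positivity
  linarith

theorem q0521 {m : ℝ} (hm : 0 ≤ m) : Q m .e0 .e5 .e2 .e1 := by
  intro t0 t1 t2 t3 a0 b0 a1 b1 a2 b2 a3 b3 h1 h2 h3 h4
  simp only [px, py, dx, dy] at h1 h2 h3 h4 ⊢
  exfalso
  have h : (2*m^4 + 33*m^3 + 207*m^2 + 588*m + 640)*t0 + (m^3 + 13*m^2 + 54*m + 72) = 0 := by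
    linear_combination (-2*m^2 - 16*m - 31)*h1 + (2*m^2 + 14*m + 26)*h2 + (-3*m - 11)*h3 + (2*m^2 + 16*m + 31)*h4
  have h5 : (0:ℝ) ≤ (2*m^4 + 33*m^3 + 207*m^2 + 588*m + 640)*t0 := mul_nonneg (by positivity) a0
  have h6 : (0:ℝ) < (m^3 + 13*m^2 + 54*m + 72) := by positivity
  linarith

theorem q0522 {m : ℝ} (hm : 0 ≤ m) : Q m .e0 .e5 .e2 .e2 := by
  intro t0 t1 t2 t3 a0 b0 a1 b1 a2 b2 a3 b3 h1 h2 h3 h4
  simp only [px, py, dx, dy] at h1 h2 h3 h4 ⊢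
  exfalso
  have h : (8*m^7 + 212*m^6 + 2420*m^5 + 15416*m^4 + 59162*m^3 + 136739*m^2 + 176198*m + 97640)*t2 + (4*m^6 + 92*m^5 + 892*m^4 + 4656*m^3 + 13774*m^2 + 21860*m + 14512) = 0 := by
    linear_combination (-2*m^3 - 18*m^2 - 53*m - 46)*h1 + (4*m^4 + 60*m^3 + 340*m^2 + 863*m + 826)*h2 + (4*m^4 + 60*m^3 + 344*m^2 + 892*m + 884)*h3 + (2*m^3 + 18*m^2 + 53*m + 46)*h4
  have h5 : (0:ℝ) ≤ (8*m^7 + 212*m^6 + 2420*m^5 + 15416*m^4 + 59162*m^3 + 136739*m^2 + 176198*m + 97640)*t2 := mul_nonneg (by positivity) a2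
  have h6 : (0:ℝ) < (4*m^6 + 92*m^5 + 892*m^4 + 4656*m^3 + 13774*m^2 + 21860*m + 14512) := by positivity
  linarith

theorem q0523 {m : ℝ} (hm : 0 ≤ m) : Q m .e0 .e5 .e2 .e3 := by
  intro t0 t1 t2 t3 a0 b0 a1 b1 a2 b2 a3 b3 h1 h2 h3 h4
  simp only [px, py, dx, dy] at h1 h2 h3 h4 ⊢
  exfalso
  have h : (8*m^7 + 212*m^6 + 2412*m^5 + 15248*m^4 + 57752*m^3 + 130825*m^2 + 163777*m + 87160)*(1 - t3) + (12*m^5 + 250*m^4 + 2082*m^3 + 8674*m^2 + 18113*m + 15200) = 0 := by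
    linear_combination (-4*m^4 - 62*m^3 - 362*m^2 - 945*m - 930)*h1 + (4*m^4 + 58*m^3 + 322*m^2 + 810*m + 780)*h2 + (-4*m^3 - 42*m^2 - 148*m - 170)*h3 + (4*m^4 + 62*m^3 + 362*m^2 + 945*m + 930)*h4
  have h5 : (0:ℝ) ≤ (8*m^7 + 212*m^6 + 2412*m^5 + 15248*m^4 + 57752*m^3 + 130825*m^2 + 163777*m + 87160)*(1 - t3) := mul_nonneg (by positivity) (by linarith)
  have h6 : (0:ℝ) < (12*m^5 + 250*m^4 + 2082*m^3 + 8674*m^2 + 18113*m + 15200) := by positivity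
  linarith

theorem q0524 {m : ℝ} (hm : 0 ≤ m) : Q m .e0 .e5 .e2 .e4 := by
  intro t0 t1 t2 t3 a0 b0 a1 b1 a2 b2 a3 b3 h1 h2 h3 h4
  simp only [px, py, dx, dy] at h1 h2 h3 h4 ⊢
  exfalso
  have h : (8*m^7 + 212*m^6 + 2408*m^5 + 15178*m^4 + 57270*m^3 + 129208*m^2 + 161175*m + 85600)*t3 + (12*m^5 + 250*m^4 + 2082*m^3 + 8674*m^2 + 18113*m + 15200) = 0 := by
    linear_combination (-4*m^4 - 62*m^3 - 362*m^2 - 945*m - 930)*h1 + (4*m^4 + 58*m^3 + 322*m^2 + 810*m + 780)*h2 + (-4*m^3 - 42*m^2 - 148*m - 170)*h3 + (4*m^4 + 62*m^3 + 362*m^2 + 945*m + 930)*h4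
  have h5 : (0:ℝ) ≤ (8*m^7 + 212*m^6 + 2408*m^5 + 15178*m^4 + 57270*m^3 + 129208*m^2 + 161175*m + 85600)*t3 := mul_nonneg (by positivity) a3
  have h6 : (0:ℝ) < (12*m^5 + 250*m^4 + 2082*m^3 + 8674*m^2 + 18113*m + 15200) := by positivity
  linarith

theorem q0525 {m : ℝ} (hm : 0 ≤ m) : Q m .e0 .e5 .e2 .e5 := by
  intro t0 t1 t2 t3 a0 b0 a1 b1 a2 b2 a3 b3 h1 h2 h3 h4
  simp only [px, py, dx, dy] at h1 h2 h3 h4 ⊢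
  exfalso
  have h : (4*m^5 + 74*m^4 + 552*m^3 + 2077*m^2 + 3948*m + 3040)*t2 + (2*m^4 + 32*m^3 + 192*m^2 + 512*m + 512) = 0 := by
    linear_combination (2*m^2 + 16*m + 34)*h1 + (-m - 4)*h2 + (2*m^2 + 16*m + 34)*h3 + (-2*m^2 - 16*m - 34)*h4
  have h5 : (0:ℝ) ≤ (4*m^5 + 74*m^4 + 552*m^3 + 2077*m^2 + 3948*m + 3040)*t2 := mul_nonneg (by positivity) a2
  have h6 : (0:ℝ) < (2*m^4 + 32*m^3 + 192*m^2 + 512*m + 512) := by positivity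
  linarith

theorem q0531 {m : ℝ} (hm : 0 ≤ m) : Q m .e0 .e5 .e3 .e1 := by
  intro t0 t1 t2 t3 a0 b0 a1 b1 a2 b2 a3 b3 h1 h2 h3 h4
  simp only [px, py, dx, dy] at h1 h2 h3 h4 ⊢
  exfalso
  have h : (2*m^5 + 43*m^4 + 378*m^3 + 1686*m^2 + 3802*m + 3464)*t0 + (m^4 + 16*m^3 + 100*m^2 + 283*m + 300) = 0 := by
    linear_combination (2*m^3 + 24*m^2 + 95*m + 120)*h1 + (-2*m^3 - 22*m^2 - 80*m - 91)*h2 + (m^2 + 6*m + 4)*h3 + (-2*m^3 - 24*m^2 - 95*m - 120)*h4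
  have h5 : (0:ℝ) ≤ (2*m^5 + 43*m^4 + 378*m^3 + 1686*m^2 + 3802*m + 3464)*t0 := mul_nonneg (by positivity) a0
  have h6 : (0:ℝ) < (m^4 + 16*m^3 + 100*m^2 + 283*m + 300) := by positivity
  linarith

theorem q0532 {m : ℝ} (hm : 0 ≤ m) : Q m .e0 .e5 .e3 .e2 := by
  intro t0 t1 t2 t3 a0 b0 a1 b1 a2 b2 a3 b3 h1 h2 h3 h4
  simp only [px, py, dx, dy] at h1 h2 h3 h4 ⊢
  exfalso
  have h : (8*m^7 + 212*m^6 + 2420*m^5 + 15404*m^4 + 58984*m^3 + 135719*m^2 + 173527*m + 94934)*(1 - t2) + (4*m^6 + 92*m^5 + 904*m^4 + 4834*m^3 + 14794*m^2 + 24531*m + 17218) = 0 := by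
    linear_combination (-2*m^3 - 18*m^2 - 53*m - 46)*h1 + (4*m^4 + 60*m^3 + 340*m^2 + 863*m + 826)*h2 + (4*m^4 + 60*m^3 + 344*m^2 + 892*m + 884)*h3 + (2*m^3 + 18*m^2 + 53*m + 46)*h4
  have h5 : (0:ℝ) ≤ (8*m^7 + 212*m^6 + 2420*m^5 + 15404*m^4 + 58984*m^3 + 135719*m^2 + 173527*m + 94934)*(1 - t2) := mul_nonneg (by positivity) (by linarith)
  have h6 : (0:ℝ) < (4*m^6 + 92*m^5 + 904*m^4 + 4834*m^3 + 14794*m^2 + 24531*m + 17218) := by positivity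
  linarith

theorem q0533 {m : ℝ} (hm : 0 ≤ m) : Q m .e0 .e5 .e3 .e3 := by
  intro t0 t1 t2 t3 a0 b0 a1 b1 a2 b2 a3 b3 h1 h2 h3 h4
  simp only [px, py, dx, dy] at h1 h2 h3 h4 ⊢
  exfalso
  have h : (8*m^8 + 244*m^7 + 3260*m^6 + 24884*m^5 + 118526*m^4 + 360253*m^3 + 681432*m^2 + 732486*m + 342274)*(1 - t2) + (4*m^7 + 116*m^6 + 1460*m^5 + 10298*m^4 + 43806*m^3 + 111992*m^2 + 158744*m + 95798) = 0 := by
    linear_combination (-2*m^4 - 30*m^3 - 175*m^2 - 474*m - 506)*h1 + (4*m^5 + 76*m^4 + 580*m^3 + 2217*m^2 + 4239*m + 3236)*h2 + (4*m^5 + 76*m^4 + 580*m^3 + 2210*m^2 + 4176*m + 3094)*h3 + (2*m^4 + 30*m^3 + 175*m^2 + 474*m + 506)*h4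
  have h5 : (0:ℝ) ≤ (8*m^8 + 244*m^7 + 3260*m^6 + 24884*m^5 + 118526*m^4 + 360253*m^3 + 681432*m^2 + 732486*m + 342274)*(1 - t2) := mul_nonneg (by positivity) (by linarith)
  have h6 : (0:ℝ) < (4*m^7 + 116*m^6 + 1460*m^5 + 10298*m^4 + 43806*m^3 + 111992*m^2 + 158744*m + 95798) := by positivity
  linarith

theorem q0534 {m : ℝ} (hm : 0 ≤ m) : Q m .e0 .e5 .e3 .e4 := by
  intro t0 t1 t2 t3 a0 b0 a1 b1 a2 b2 a3 b3 h1 h2 h3 h4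
  simp only [px, py, dx, dy] at h1 h2 h3 h4 ⊢
  exfalso
  have h : (8*m^8 + 244*m^7 + 3248*m^6 + 24598*m^5 + 115662*m^4 + 344852*m^3 + 634579*m^2 + 656096*m + 290170)*t3 + (4*m^6 + 102*m^5 + 1054*m^4 + 5658*m^3 + 16580*m^2 + 24894*m + 14606) = 0 := by
    linear_combination (-4*m^5 - 78*m^4 - 610*m^3 - 2385*m^2 - 4650*m - 3600)*h1 + (4*m^5 + 74*m^4 + 550*m^3 + 2042*m^2 + 3765*m + 2730)*h2 + (-4*m^4 - 62*m^3 - 366*m^2 - 974*m - 986)*h3 + (4*m^5 + 78*m^4 + 610*m^3 + 2385*m^2 + 4650*m + 3600)*h4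
  have h5 : (0:ℝ) ≤ (8*m^8 + 244*m^7 + 3248*m^6 + 24598*m^5 + 115662*m^4 + 344852*m^3 + 634579*m^2 + 656096*m + 290170)*t3 := mul_nonneg (by positivity) a3
  have h6 : (0:ℝ) < (4*m^6 + 102*m^5 + 1054*m^4 + 5658*m^3 + 16580*m^2 + 24894*m + 14606) := by positivity
  linarith

theorem q0535 {m : ℝ} (hm : 0 ≤ m) : Q m .e0 .e5 .e3 .e5 := by
  intro t0 t1 t2 t3 a0 b0 a1 b1 a2 b2 a3 b3 h1 h2 h3 h4
  simp only [px, py, dx, dy] at h1 h2 h3 h4 ⊢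
  exfalso
  have h : (4*m^5 + 74*m^4 + 548*m^3 + 2019*m^2 + 3676*m + 2614)*(1 - t2) + (2*m^4 + 36*m^3 + 250*m^2 + 784*m + 938) = 0 := by
    linear_combination (2*m^2 + 16*m + 34)*h1 + (-m - 4)*h2 + (2*m^2 + 16*m + 34)*h3 + (-2*m^2 - 16*m - 34)*h4
  have h5 : (0:ℝ) ≤ (4*m^5 + 74*m^4 + 548*m^3 + 2019*m^2 + 3676*m + 2614)*(1 - t2) := mul_nonneg (by positivity) (by linarith)
  have h6 : (0:ℝ) < (2*m^4 + 36*m^3 + 250*m^2 + 784*m + 938) := by positivity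
  linarith

theorem q0541 {m : ℝ} (hm : 0 ≤ m) : Q m .e0 .e5 .e4 .e1 := by
  intro t0 t1 t2 t3 a0 b0 a1 b1 a2 b2 a3 b3 h1 h2 h3 h4
  simp only [px, py, dx, dy] at h1 h2 h3 h4 ⊢
  exfalso
  have h : (4*m^6 + 98*m^5 + 1004*m^4 + 5502*m^3 + 16993*m^2 + 28006*m + 19198)*t2 + (2*m^4 + 34*m^3 + 227*m^2 + 694*m + 818) = 0 := by
    linear_combination (2*m^3 + 25*m^2 + 106*m + 154)*h1 + (-2*m^3 - 23*m^2 - 91*m - 124)*h2 + (2*m^2 + 16*m + 34)*h3 + (-2*m^3 - 25*m^2 - 106*m - 154)*h4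
  have h5 : (0:ℝ) ≤ (4*m^6 + 98*m^5 + 1004*m^4 + 5502*m^3 + 16993*m^2 + 28006*m + 19198)*t2 := mul_nonneg (by positivity) a2
  have h6 : (0:ℝ) < (2*m^4 + 34*m^3 + 227*m^2 + 694*m + 818) := by positivity
  linarith

theorem q0542 {m : ℝ} (hm : 0 ≤ m) : Q m .e0 .e5 .e4 .e2 := by
  intro t0 t1 t2 t3 a0 b0 a1 b1 a2 b2 a3 b3 h1 h2 h3 h4
  simp only [px, py, dx, dy] at h1 h2 h3 h4 ⊢
  exfalso
  have h : (4*m^6 + 92*m^5 + 894*m^4 + 4686*m^3 + 13962*m^2 + 22427*m + 15202)*(1 - t2) + (10*m^4 + 148*m^3 + 832*m^2 + 2104*m + 2016) = 0 := by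
    linear_combination (-2*m^3 - 18*m^2 - 53*m - 46)*h1 + (4*m^4 + 60*m^3 + 340*m^2 + 863*m + 826)*h2 + (4*m^4 + 60*m^3 + 344*m^2 + 892*m + 884)*h3 + (2*m^3 + 18*m^2 + 53*m + 46)*h4
  have h5 : (0:ℝ) ≤ (4*m^6 + 92*m^5 + 894*m^4 + 4686*m^3 + 13962*m^2 + 22427*m + 15202)*(1 - t2) := mul_nonneg (by positivity) (by linarith)
  have h6 : (0:ℝ) < (10*m^4 + 148*m^3 + 832*m^2 + 2104*m + 2016) := by positivity
  linarith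

theorem q0543 {m : ℝ} (hm : 0 ≤ m) : Q m .e0 .e5 .e4 .e3 := by
  intro t0 t1 t2 t3 a0 b0 a1 b1 a2 b2 a3 b3 h1 h2 h3 h4
  simp only [px, py, dx, dy] at h1 h2 h3 h4 ⊢
  exfalso
  have h : (4*m^7 + 116*m^6 + 1458*m^5 + 10270*m^4 + 43682*m^3 + 111907*m^2 + 159414*m + 97022)*t3 + (4*m^6 + 102*m^5 + 1088*m^4 + 6194*m^3 + 19817*m^2 + 33750*m + 23880) = 0 := by
    linear_combination (4*m^3 + 54*m^2 + 240*m + 360)*h1 + (4*m^5 + 78*m^4 + 608*m^3 + 2360*m^2 + 4545*m + 3450)*h2 + (4*m^5 + 80*m^4 + 644*m^3 + 2606*m^2 + 5296*m + 4318)*h3 + (-4*m^3 - 54*m^2 - 240*m - 360)*h4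
  have h5 : (0:ℝ) ≤ (4*m^7 + 116*m^6 + 1458*m^5 + 10270*m^4 + 43682*m^3 + 111907*m^2 + 159414*m + 97022)*t3 := mul_nonneg (by positivity) a3
  have h6 : (0:ℝ) < (4*m^6 + 102*m^5 + 1088*m^4 + 6194*m^3 + 19817*m^2 + 33750*m + 23880) := by positivity
  linarith

theorem q0544 {m : ℝ} (hm : 0 ≤ m) : Q m .e0 .e5 .e4 .e4 := by
  intro t0 t1 t2 t3 a0 b0 a1 b1 a2 b2 a3 b3 h1 h2 h3 h4
  simp only [px, py, dx, dy] at h1 h2 h3 h4 ⊢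
  exfalso
  have h : (8*m^8 + 256*m^7 + 3584*m^6 + 28648*m^5 + 142880*m^4 + 454920*m^3 + 902274*m^2 + 1018532*m + 500890)*t3 + (4*m^7 + 120*m^6 + 1560*m^5 + 11358*m^4 + 49876*m^3 + 131724*m^2 + 193164*m + 120902) = 0 := by
    linear_combination (4*m^3 + 54*m^2 + 240*m + 360)*h1 + (4*m^5 + 78*m^4 + 608*m^3 + 2360*m^2 + 4545*m + 3450)*h2 + (4*m^5 + 80*m^4 + 644*m^3 + 2606*m^2 + 5296*m + 4318)*h3 + (-4*m^3 - 54*m^2 - 240*m - 360)*h4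
  have h5 : (0:ℝ) ≤ (8*m^8 + 256*m^7 + 3584*m^6 + 28648*m^5 + 142880*m^4 + 454920*m^3 + 902274*m^2 + 1018532*m + 500890)*t3 := mul_nonneg (by positivity) a3
  have h6 : (0:ℝ) < (4*m^7 + 120*m^6 + 1560*m^5 + 11358*m^4 + 49876*m^3 + 131724*m^2 + 193164*m + 120902) := by positivity
  linarith

theorem q0545 {m : ℝ} (hm : 0 ≤ m) : Q m .e0 .e5 .e4 .e5 := by
  intro t0 t1 t2 t3 a0 b0 a1 b1 a2 b2 a3 b3 h1 h2 h3 h4
  simp only [px, py, dx, dy] at h1 h2 h3 h4 ⊢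
  exfalso
  have h : (4*m^5 + 80*m^4 + 640*m^3 + 2552*m^2 + 5056*m + 3958)*t2 + (2*m^4 + 36*m^3 + 250*m^2 + 784*m + 938) = 0 := by
    linear_combination (2*m^2 + 16*m + 34)*h1 + (-m - 4)*h2 + (2*m^2 + 16*m + 34)*h3 + (-2*m^2 - 16*m - 34)*h4
  have h5 : (0:ℝ) ≤ (4*m^5 + 80*m^4 + 640*m^3 + 2552*m^2 + 5056*m + 3958)*t2 := mul_nonneg (by positivity) a2
  have h6 : (0:ℝ) < (2*m^4 + 36*m^3 + 250*m^2 + 784*m + 938) := by positivity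
  linarith

theorem q0551 {m : ℝ} (hm : 0 ≤ m) : Q m .e0 .e5 .e5 .e1 := by
  intro t0 t1 t2 t3 a0 b0 a1 b1 a2 b2 a3 b3 h1 h2 h3 h4
  simp only [px, py, dx, dy] at h1 h2 h3 h4 ⊢
  exfalso
  have h : (4*m^6 + 100*m^5 + 1045*m^4 + 5846*m^3 + 18474*m^2 + 31280*m + 22176)*(1 - t1) + (m^4 + 16*m^3 + 98*m^2 + 272*m + 288) = 0 := by
    linear_combination (-2*m^3 - 25*m^2 - 107*m - 158)*h2 + (m^2 + 8*m + 16)*h3 + (-2*m^3 - 25*m^2 - 106*m - 154)*h4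
  have h5 : (0:ℝ) ≤ (4*m^6 + 100*m^5 + 1045*m^4 + 5846*m^3 + 18474*m^2 + 31280*m + 22176)*(1 - t1) := mul_nonneg (by positivity) (by linarith)
  have h6 : (0:ℝ) < (m^4 + 16*m^3 + 98*m^2 + 272*m + 288) := by positivity
  linarith

theorem q0552 {m : ℝ} (hm : 0 ≤ m) : Q m .e0 .e5 .e5 .e2 := by
  intro t0 t1 t2 t3 a0 b0 a1 b1 a2 b2 a3 b3 h1 h2 h3 h4
  simp only [px, py, dx, dy] at h1 h2 h3 h4 ⊢
  exfalso
  have h : (2*m^4 + 26*m^3 + 125*m^2 + 258*m + 184)*(1 - t0) + (2*m^3 + 22*m^2 + 82*m + 104) = 0 := by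
    linear_combination (2*m^2 + 14*m + 26)*h2 + (2*m^2 + 16*m + 31)*h3
  have h5 : (0:ℝ) ≤ (2*m^4 + 26*m^3 + 125*m^2 + 258*m + 184)*(1 - t0) := mul_nonneg (by positivity) (by linarith)
  have h6 : (0:ℝ) < (2*m^3 + 22*m^2 + 82*m + 104) := by positivity
  linarith

end Hex
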