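import Pool.Agent.helper91.HX.Def

/-! Squares inscribed in the hexagon: classes of edge quadruples, part 3. -/

namespace Hex

theorem q0553 {m : ℝ} (hm : 0 ≤ m) : Q m .e0 .e5 .e5 .e3 := by
  intro t0 t1 t2 t3 a0 b0 a1 b1 a2 b2 a3 b3 h1 h2 h3 h4
  simp only [px, py, dx, dy] at h1 h2 h3 h4 ⊢
  exfalso
  have h : (2*m^4 + 30*m^3 + 175*m^2 + 474*m + 506)*t3 + (2*m^3 + 23*m^2 + 90*m + 120) = 0 := by
    linear_combination (2*m^2 + 15*m + 30)*h2 + (2*m^2 + 16*m + 34)*h3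
  have h5 : (0:ℝ) ≤ (2*m^4 + 30*m^3 + 175*m^2 + 474*m + 506)*t3 := mul_nonneg (by positivity) a3
  have h6 : (0:ℝ) < (2*m^3 + 23*m^2 + 90*m + 120) := by positivity
  linarith

theorem q0554 {m : ℝ} (hm : 0 ≤ m) : Q m .e0 .e5 .e5 .e4 := by
  intro t0 t1 t2 t3 a0 b0 a1 b1 a2 b2 a3 b3 h1 h2 h3 h4
  simp only [px, py, dx, dy] at h1 h2 h3 h4 ⊢
  exfalso
  have h : (4*m^5 + 80*m^4 + 644*m^3 + 2604*m^2 + 5276*m + 4270)*t3 + (2*m^4 + 32*m^3 + 198*m^2 + 564*m + 626) = 0 := by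
    linear_combination (2*m^2 + 15*m + 30)*h2 + (2*m^2 + 16*m + 34)*h3
  have h5 : (0:ℝ) ≤ (4*m^5 + 80*m^4 + 644*m^3 + 2604*m^2 + 5276*m + 4270)*t3 := mul_nonneg (by positivity) a3
  have h6 : (0:ℝ) < (2*m^4 + 32*m^3 + 198*m^2 + 564*m + 626) := by positivity
  linarith

theorem q0555 {m : ℝ} (hm : 0 ≤ m) : Q m .e0 .e5 .e5 .e5 := by
  intro t0 t1 t2 t3 a0 b0 a1 b1 a2 b2 a3 b3 h1 h2 h3 h4
  simp only [px, py, dx, dy] at h1 h2 h3 h4 ⊢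
  have wx : 1*((2*m^3 + 24*m^2 + 96*m + 128) + t1*(-2*m^3 - 25*m^2 - 104*m - 144) - ((-m^2 - 8*m - 16) + t0*(-m^2 - 8*m - 16))) = 0 := by
    linear_combination (-1)*h2 + (-1)*h4
  have Dx : (0:ℝ) < 1 := by positivity
  have wy : 1*((0) + t1*(0) - ((0) + t0*(2*m^3 + 24*m^2 + 98*m + 136))) = 0 := by
    linear_combination (-1)*h2
  have Dy : (0:ℝ) < 1 := by positivity
  refine ⟨abs_le.mpr ⟨?_, ?_⟩, abs_le.mpr ⟨?_, ?_⟩⟩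
  · refine le_of_mul_le_mul_left ?_ Dx
    rw [wx]
    have : (0:ℝ) ≤ (5*m + 20) := by positivity
    linarith
  · refine le_of_mul_le_mul_left ?_ Dx
    rw [wx]
    have : (0:ℝ) ≤ (5*m + 20) := by positivity
    linarith
  · refine le_of_mul_le_mul_left ?_ Dy
    rw [wy]
    have : (0:ℝ) ≤ (5*m + 20) := by positivity
    linarith
  · refine le_of_mul_le_mul_left ?_ Dy
    rw [wy]
    have : (0:ℝ) ≤ (5*m + 20) := by positivity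
    linarith

theorem q1111 {m : ℝ} (hm : 0 ≤ m) : Q m .e1 .e1 .e1 .e1 := by
  refine sing hm ?_
  have h : dx m .e1 ^ 2 + dy m .e1 ^ 2 = (2*m^2 + 16*m + 32)^2 + (-2*m^3 - 24*m^2 - 96*m - 128)^2 := by
    simp only [dx, dy] <;> ring
  rw [h]; positivity

theorem q1112 {m : ℝ} (hm : 0 ≤ m) : Q m .e1 .e1 .e1 .e2 := by
  intro t0 t1 t2 t3 a0 b0 a1 b1 a2 b2 a3 b3 h1 h2 h3 h4
  simp only [px, py, dx, dy] at h1 h2 h3 h4 ⊢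
  have wx : (m^2 + 8*m + 17)*((-2*m^2 - 16*m - 32) + t1*(2*m^2 + 16*m + 32) - ((-2*m^2 - 16*m - 32) + t0*(2*m^2 + 16*m + 32))) = 0 := by
    linear_combination (-m - 4)*h1 + (-1)*h2 + (-m - 4)*h3 + (-1)*h4
  have Dx : (0:ℝ) < (m^2 + 8*m + 17) := by positivity
  have wy : (m^2 + 8*m + 17)*((2*m^3 + 24*m^2 + 98*m + 136) + t1*(-2*m^3 - 24*m^2 - 96*m - 128) - ((2*m^3 + 24*m^2 + 98*m + 136) + t0*(-2*m^3 - 24*m^2 - 96*m - 128))) = 0 := by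
    linear_combination (m^2 + 8*m + 16)*h1 + (m + 4)*h2 + (m^2 + 8*m + 16)*h3 + (m + 4)*h4
  have Dy : (0:ℝ) < (m^2 + 8*m + 17) := by positivity
  refine ⟨abs_le.mpr ⟨?_, ?_⟩, abs_le.mpr ⟨?_, ?_⟩⟩
  · refine le_of_mul_le_mul_left ?_ Dx
    rw [wx]
    have : (0:ℝ) ≤ (5*m^3 + 60*m^2 + 245*m + 340) := by positivity
    linarith
  · refine le_of_mul_le_mul_left ?_ Dx
    rw [wx]
    have : (0:ℝ) ≤ (5*m^3 + 60*m^2 + 245*m + 340) := by positivity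
    linarith
  · refine le_of_mul_le_mul_left ?_ Dy
    rw [wy]
    have : (0:ℝ) ≤ (5*m^3 + 60*m^2 + 245*m + 340) := by positivity
    linarith
  · refine le_of_mul_le_mul_left ?_ Dy
    rw [wy]
    have : (0:ℝ) ≤ (5*m^3 + 60*m^2 + 245*m + 340) := by positivity
    linarith

theorem q1113 {m : ℝ} (hm : 0 ≤ m) : Q m .e1 .e1 .e1 .e3 := by
  intro t0 t1 t2 t3 a0 b0 a1 b1 a2 b2 a3 b3 h1 h2 h3 h4
  simp only [px, py, dx, dy] at h1 h2 h3 h4 ⊢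
  exfalso
  have h : (2*m^4 + 32*m^3 + 192*m^2 + 506*m + 484)*(1 - t3) + (2*m^2 + 21*m + 56) = 0 := by
    linear_combination (-m - 4)*h1 + (-1)*h2
  have h5 : (0:ℝ) ≤ (2*m^4 + 32*m^3 + 192*m^2 + 506*m + 484)*(1 - t3) := mul_nonneg (by positivity) (by linarith)
  have h6 : (0:ℝ) < (2*m^2 + 21*m + 56) := by positivity
  linarith

theorem q1114 {m : ℝ} (hm : 0 ≤ m) : Q m .e1 .e1 .e1 .e4 := by
  intro t0 t1 t2 t3 a0 b0 a1 b1 a2 b2 a3 b3 h1 h2 h3 h4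
  simp only [px, py, dx, dy] at h1 h2 h3 h4 ⊢
  exfalso
  have h : (2*m^4 + 32*m^3 + 190*m^2 + 489*m + 448)*t3 + (2*m^2 + 21*m + 56) = 0 := by
    linear_combination (-m - 4)*h1 + (-1)*h2
  have h5 : (0:ℝ) ≤ (2*m^4 + 32*m^3 + 190*m^2 + 489*m + 448)*t3 := mul_nonneg (by positivity) a3
  have h6 : (0:ℝ) < (2*m^2 + 21*m + 56) := by positivity
  linarith

theorem q1115 {m : ℝ} (hm : 0 ≤ m) : Q m .e1 .e1 .e1 .e5 := by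
  intro t0 t1 t2 t3 a0 b0 a1 b1 a2 b2 a3 b3 h1 h2 h3 h4
  simp only [px, py, dx, dy] at h1 h2 h3 h4 ⊢
  exfalso
  have h : (2*m^5 + 40*m^4 + 322*m^3 + 1304*m^2 + 2656*m + 2176)*(1 - t0) + (2*m^3 + 24*m^2 + 98*m + 136) = 0 := by
    linear_combination (m + 4)*h1 + 1*h2 + (m + 4)*h3 + (-m^2 - 8*m - 16)*h4
  have h5 : (0:ℝ) ≤ (2*m^5 + 40*m^4 + 322*m^3 + 1304*m^2 + 2656*m + 2176)*(1 - t0) := mul_nonneg (by positivity) (by linarith)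
  have h6 : (0:ℝ) < (2*m^3 + 24*m^2 + 98*m + 136) := by positivity
  linarith

theorem q1122 {m : ℝ} (hm : 0 ≤ m) : Q m .e1 .e1 .e2 .e2 := by
  intro t0 t1 t2 t3 a0 b0 a1 b1 a2 b2 a3 b3 h1 h2 h3 h4
  simp only [px, py, dx, dy] at h1 h2 h3 h4 ⊢
  have wx : (2*m^3 + 24*m^2 + 98*m + 135)*((-2*m^2 - 16*m - 32) + t1*(2*m^2 + 16*m + 32) - ((-2*m^2 - 16*m - 32) + t0*(2*m^2 + 16*m + 32))) = 0 := by
    linear_combination (-2*m^2 - 16*m - 31)*h1 + (2*m^2 + 14*m + 26)*h2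
  have Dx : (0:ℝ) < (2*m^3 + 24*m^2 + 98*m + 135) := by positivity
  have wy : (2*m^3 + 24*m^2 + 98*m + 135)*((2*m^3 + 24*m^2 + 98*m + 136) + t1*(-2*m^3 - 24*m^2 - 96*m - 128) - ((2*m^3 + 24*m^2 + 98*m + 136) + t0*(-2*m^3 - 24*m^2 - 96*m - 128))) = 0 := by
    linear_combination (2*m^3 + 24*m^2 + 95*m + 124)*h1 + (-2*m^3 - 22*m^2 - 82*m - 104)*h2
  have Dy : (0:ℝ) < (2*m^3 + 24*m^2 + 98*m + 135) := by positivity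
  refine ⟨abs_le.mpr ⟨?_, ?_⟩, abs_le.mpr ⟨?_, ?_⟩⟩
  · refine le_of_mul_le_mul_left ?_ Dx
    rw [wx]
    have : (0:ℝ) ≤ (10*m^4 + 160*m^3 + 970*m^2 + 2635*m + 2700) := by positivity
    linarith
  · refine le_of_mul_le_mul_left ?_ Dx
    rw [wx]
    have : (0:ℝ) ≤ (10*m^4 + 160*m^3 + 970*m^2 + 2635*m + 2700) := by positivity
    linarith
  · refine le_of_mul_le_mul_left ?_ Dy
    rw [wy]
    have : (0:ℝ) ≤ (10*m^4 + 160*m^3 + 970*m^2 + 2635*m + 2700) := by positivity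
    linarith
  · refine le_of_mul_le_mul_left ?_ Dy
    rw [wy]
    have : (0:ℝ) ≤ (10*m^4 + 160*m^3 + 970*m^2 + 2635*m + 2700) := by positivity
    linarith

theorem q1123 {m : ℝ} (hm : 0 ≤ m) : Q m .e1 .e1 .e2 .e3 := by
  intro t0 t1 t2 t3 a0 b0 a1 b1 a2 b2 a3 b3 h1 h2 h3 h4
  simp only [px, py, dx, dy] at h1 h2 h3 h4 ⊢
  exfalso
  have h : (4*m^7 + 112*m^6 + 1344*m^5 + 8944*m^4 + 35566*m^3 + 84263*m^2 + 109712*m + 60257)*(1 - t3) + (8*m^5 + 172*m^4 + 1494*m^3 + 6533*m^2 + 14353*m + 12643) = 0 := by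
    linear_combination (-2*m^4 - 32*m^3 - 193*m^2 - 520*m - 527)*h1 + (2*m^4 + 30*m^3 + 172*m^2 + 446*m + 442)*h2 + (2*m^4 + 32*m^3 + 194*m^2 + 527*m + 540)*h3 + (2*m^3 + 24*m^2 + 98*m + 135)*h4
  have h5 : (0:ℝ) ≤ (4*m^7 + 112*m^6 + 1344*m^5 + 8944*m^4 + 35566*m^3 + 84263*m^2 + 109712*m + 60257)*(1 - t3) := mul_nonneg (by positivity) (by linarith)
  have h6 : (0:ℝ) < (8*m^5 + 172*m^4 + 1494*m^3 + 6533*m^2 + 14353*m + 12643) := by positivity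
  linarith

theorem q1124 {m : ℝ} (hm : 0 ≤ m) : Q m .e1 .e1 .e2 .e4 := by
  intro t0 t1 t2 t3 a0 b0 a1 b1 a2 b2 a3 b3 h1 h2 h3 h4
  simp only [px, py, dx, dy] at h1 h2 h3 h4 ⊢
  exfalso
  have h : (8*m^7 + 224*m^6 + 2690*m^5 + 17938*m^4 + 71632*m^3 + 171003*m^2 + 225493*m + 126389)*t3 + (8*m^5 + 172*m^4 + 1494*m^3 + 6533*m^2 + 14353*m + 12643) = 0 := by
    linear_combination (-2*m^4 - 32*m^3 - 193*m^2 - 520*m - 527)*h1 + (2*m^4 + 30*m^3 + 172*m^2 + 446*m + 442)*h2 + (2*m^4 + 32*m^3 + 194*m^2 + 527*m + 540)*h3 + (2*m^3 + 24*m^2 + 98*m + 135)*h4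
  have h5 : (0:ℝ) ≤ (8*m^7 + 224*m^6 + 2690*m^5 + 17938*m^4 + 71632*m^3 + 171003*m^2 + 225493*m + 126389)*t3 := mul_nonneg (by positivity) a3
  have h6 : (0:ℝ) < (8*m^5 + 172*m^4 + 1494*m^3 + 6533*m^2 + 14353*m + 12643) := by positivity
  linarith

theorem q1125 {m : ℝ} (hm : 0 ≤ m) : Q m .e1 .e1 .e2 .e5 := by
  intro t0 t1 t2 t3 a0 b0 a1 b1 a2 b2 a3 b3 h1 h2 h3 h4
  simp only [px, py, dx, dy] at h1 h2 h3 h4 ⊢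
  exfalso
  have h : (4*m^5 + 80*m^4 + 643*m^3 + 2595*m^2 + 5255*m + 4268)*t2 + (2*m^3 + 24*m^2 + 98*m + 136) = 0 := by
    linear_combination (m^2 + 8*m + 16)*h1 + (m^2 + 9*m + 21)*h2 + (m^2 + 8*m + 16)*h3 + (m + 4)*h4
  have h5 : (0:ℝ) ≤ (4*m^5 + 80*m^4 + 643*m^3 + 2595*m^2 + 5255*m + 4268)*t2 := mul_nonneg (by positivity) a2
  have h6 : (0:ℝ) < (2*m^3 + 24*m^2 + 98*m + 136) := by positivity
  linarith

theorem q1132 {m : ℝ} (hm : 0 ≤ m) : Q m .e1 .e1 .e3 .e2 := by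
  intro t0 t1 t2 t3 a0 b0 a1 b1 a2 b2 a3 b3 h1 h2 h3 h4
  simp only [px, py, dx, dy] at h1 h2 h3 h4 ⊢
  exfalso
  have h : (4*m^7 + 112*m^6 + 1352*m^5 + 9108*m^4 + 36930*m^3 + 89985*m^2 + 121772*m + 70423)*(1 - t2) + (8*m^4 + 130*m^3 + 811*m^2 + 2293*m + 2477) = 0 := by
    linear_combination (m^2 + 7*m + 13)*h1 + (2*m^4 + 32*m^3 + 196*m^2 + 544*m + 577)*h2 + (2*m^4 + 32*m^3 + 194*m^2 + 527*m + 540)*h3 + (2*m^3 + 24*m^2 + 98*m + 135)*h4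
  have h5 : (0:ℝ) ≤ (4*m^7 + 112*m^6 + 1352*m^5 + 9108*m^4 + 36930*m^3 + 89985*m^2 + 121772*m + 70423)*(1 - t2) := mul_nonneg (by positivity) (by linarith)
  have h6 : (0:ℝ) < (8*m^4 + 130*m^3 + 811*m^2 + 2293*m + 2477) := by positivity
  linarith

theorem q1133 {m : ℝ} (hm : 0 ≤ m) : Q m .e1 .e1 .e3 .e3 := by
  intro t0 t1 t2 t3 a0 b0 a1 b1 a2 b2 a3 b3 h1 h2 h3 h4
  simp only [px, py, dx, dy] at h1 h2 h3 h4 ⊢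
  exfalso
  have h : (4*m^8 + 128*m^7 + 1792*m^6 + 14312*m^5 + 71184*m^4 + 225280*m^3 + 441892*m^2 + 489808*m + 234256)*(1 - t2) + (4*m^6 + 106*m^5 + 1168*m^4 + 6836*m^3 + 22346*m^2 + 38500*m + 27104) = 0 := by
    linear_combination (-m^3 - 14*m^2 - 67*m - 104)*h1 + (2*m^5 + 40*m^4 + 322*m^3 + 1297*m^2 + 2594*m + 2031)*h2 + (2*m^5 + 40*m^4 + 320*m^3 + 1274*m^2 + 2508*m + 1936)*h3 + (2*m^4 + 32*m^3 + 192*m^2 + 506*m + 484)*h4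
  have h5 : (0:ℝ) ≤ (4*m^8 + 128*m^7 + 1792*m^6 + 14312*m^5 + 71184*m^4 + 225280*m^3 + 441892*m^2 + 489808*m + 234256)*(1 - t2) := mul_nonneg (by positivity) (by linarith)
  have h6 : (0:ℝ) < (4*m^6 + 106*m^5 + 1168*m^4 + 6836*m^3 + 22346*m^2 + 38500*m + 27104) := by positivity
  linarith

theorem q1134 {m : ℝ} (hm : 0 ≤ m) : Q m .e1 .e1 .e3 .e4 := by
  intro t0 t1 t2 t3 a0 b0 a1 b1 a2 b2 a3 b3 h1 h2 h3 h4
  simp only [px, py, dx, dy] at h1 h2 h3 h4 ⊢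
  exfalso
  have h : (8*m^8 + 256*m^7 + 3582*m^6 + 28584*m^5 + 142056*m^4 + 449409*m^3 + 881976*m^2 + 979399*m + 469996)*t3 + (4*m^6 + 106*m^5 + 1168*m^4 + 6836*m^3 + 22346*m^2 + 38500*m + 27104) = 0 := by
    linear_combination (-2*m^5 - 40*m^4 - 321*m^3 - 1288*m^2 - 2575*m - 2040)*h1 + (2*m^5 + 38*m^4 + 290*m^3 + 1105*m^2 + 2088*m + 1547)*h2 + (2*m^5 + 40*m^4 + 320*m^3 + 1274*m^2 + 2508*m + 1936)*h3 + (2*m^4 + 32*m^3 + 192*m^2 + 506*m + 484)*h4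
  have h5 : (0:ℝ) ≤ (8*m^8 + 256*m^7 + 3582*m^6 + 28584*m^5 + 142056*m^4 + 449409*m^3 + 881976*m^2 + 979399*m + 469996)*t3 := mul_nonneg (by positivity) a3
  have h6 : (0:ℝ) < (4*m^6 + 106*m^5 + 1168*m^4 + 6836*m^3 + 22346*m^2 + 38500*m + 27104) := by positivity
  linarith

theorem q1135 {m : ℝ} (hm : 0 ≤ m) : Q m .e1 .e1 .e3 .e5 := by
  intro t0 t1 t2 t3 a0 b0 a1 b1 a2 b2 a3 b3 h1 h2 h3 h4
  simp only [px, py, dx, dy] at h1 h2 h3 h4 ⊢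
  exfalso
  have h : (4*m^5 + 80*m^4 + 641*m^3 + 2562*m^2 + 5083*m + 3976)*(1 - t2) + (4*m^3 + 57*m^2 + 270*m + 428) = 0 := by
    linear_combination (m^2 + 8*m + 16)*h1 + (m^2 + 9*m + 21)*h2 + (m^2 + 8*m + 16)*h3 + (m + 4)*h4
  have h5 : (0:ℝ) ≤ (4*m^5 + 80*m^4 + 641*m^3 + 2562*m^2 + 5083*m + 3976)*(1 - t2) := mul_nonneg (by positivity) (by linarith)
  have h6 : (0:ℝ) < (4*m^3 + 57*m^2 + 270*m + 428) := by positivity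
  linarith

theorem q1142 {m : ℝ} (hm : 0 ≤ m) : Q m .e1 .e1 .e4 .e2 := by
  intro t0 t1 t2 t3 a0 b0 a1 b1 a2 b2 a3 b3 h1 h2 h3 h4
  simp only [px, py, dx, dy] at h1 h2 h3 h4 ⊢
  exfalso
  have h : (4*m^7 + 132*m^6 + 1840*m^5 + 14118*m^4 + 64606*m^3 + 176698*m^2 + 267824*m + 173728)*(1 - t1) + (16*m^5 + 336*m^4 + 2848*m^3 + 12174*m^2 + 26234*m + 22792) = 0 := by
    linear_combination (4*m^3 + 58*m^2 + 278*m + 444)*h1 + (4*m^5 + 82*m^4 + 670*m^3 + 2716*m^2 + 5433*m + 4255)*h2 + (4*m^5 + 84*m^4 + 710*m^3 + 3014*m^2 + 6420*m + 5497)*h3 + (2*m^4 + 26*m^3 + 118*m^2 + 187*m + 17)*h4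
  have h5 : (0:ℝ) ≤ (4*m^7 + 132*m^6 + 1840*m^5 + 14118*m^4 + 64606*m^3 + 176698*m^2 + 267824*m + 173728)*(1 - t1) := mul_nonneg (by positivity) (by linarith)
  have h6 : (0:ℝ) < (16*m^5 + 336*m^4 + 2848*m^3 + 12174*m^2 + 26234*m + 22792) := by positivity
  linarith

theorem q1143 {m : ℝ} (hm : 0 ≤ m) : Q m .e1 .e1 .e4 .e3 := by
  intro t0 t1 t2 t3 a0 b0 a1 b1 a2 b2 a3 b3 h1 h2 h3 h4
  simp only [px, py, dx, dy] at h1 h2 h3 h4 ⊢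
  exfalso
  have h : (12*m^8 + 408*m^7 + 6064*m^6 + 51410*m^5 + 271608*m^4 + 914398*m^3 + 1912392*m^2 + 2266784*m + 1162624)*(1 - t1) + (8*m^7 + 252*m^6 + 3384*m^5 + 25090*m^4 + 110766*m^3 + 290552*m^2 + 418055*m + 253468) = 0 := by
    linear_combination (4*m^4 + 70*m^3 + 448*m^2 + 1222*m + 1140)*h1 + (4*m^6 + 94*m^5 + 912*m^4 + 4646*m^3 + 13009*m^2 + 18820*m + 10925)*h2 + (4*m^6 + 100*m^5 + 1046*m^4 + 5842*m^3 + 18310*m^2 + 30387*m + 20700)*h3 + (-2*m^5 - 48*m^4 - 450*m^3 - 2063*m^2 - 4594*m - 3908)*h4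
  have h5 : (0:ℝ) ≤ (12*m^8 + 408*m^7 + 6064*m^6 + 51410*m^5 + 271608*m^4 + 914398*m^3 + 1912392*m^2 + 2266784*m + 1162624)*(1 - t1) := mul_nonneg (by positivity) (by linarith)
  have h6 : (0:ℝ) < (8*m^7 + 252*m^6 + 3384*m^5 + 25090*m^4 + 110766*m^3 + 290552*m^2 + 418055*m + 253468) := by positivity
  linarith

theorem q1144 {m : ℝ} (hm : 0 ≤ m) : Q m .e1 .e1 .e4 .e4 := by
  intro t0 t1 t2 t3 a0 b0 a1 b1 a2 b2 a3 b3 h1 h2 h3 h4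
  simp only [px, py, dx, dy] at h1 h2 h3 h4 ⊢
  exfalso
  have h : (4*m^8 + 128*m^7 + 1784*m^6 + 14116*m^5 + 69188*m^4 + 214492*m^3 + 409361*m^2 + 438144*m + 200704)*t3 + (4*m^6 + 106*m^5 + 1164*m^4 + 6760*m^3 + 21805*m^2 + 36792*m + 25088) = 0 := by
    linear_combination (2*m^3 + 28*m^2 + 130*m + 204)*h1 + (2*m^5 + 40*m^4 + 320*m^3 + 1275*m^2 + 2518*m + 1955)*h2 + (2*m^5 + 40*m^4 + 318*m^3 + 1249*m^2 + 2404*m + 1792)*h3 + (2*m^4 + 32*m^3 + 190*m^2 + 489*m + 448)*h4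
  have h5 : (0:ℝ) ≤ (4*m^8 + 128*m^7 + 1784*m^6 + 14116*m^5 + 69188*m^4 + 214492*m^3 + 409361*m^2 + 438144*m + 200704)*t3 := mul_nonneg (by positivity) a3
  have h6 : (0:ℝ) < (4*m^6 + 106*m^5 + 1164*m^4 + 6760*m^3 + 21805*m^2 + 36792*m + 25088) := by positivity
  linarith

theorem q1145 {m : ℝ} (hm : 0 ≤ m) : Q m .e1 .e1 .e4 .e5 := by
  intro t0 t1 t2 t3 a0 b0 a1 b1 a2 b2 a3 b3 h1 h2 h3 h4
  simp only [px, py, dx, dy] at h1 h2 h3 h4 ⊢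
  exfalso
  have h : (2*m^5 + 40*m^4 + 316*m^3 + 1221*m^2 + 2274*m + 1588)*t2 + (4*m^3 + 57*m^2 + 270*m + 428) = 0 := by
    linear_combination (m^2 + 8*m + 16)*h1 + (m^2 + 9*m + 21)*h2 + (m^2 + 8*m + 16)*h3 + (m + 4)*h4
  have h5 : (0:ℝ) ≤ (2*m^5 + 40*m^4 + 316*m^3 + 1221*m^2 + 2274*m + 1588)*t2 := mul_nonneg (by positivity) a2
  have h6 : (0:ℝ) < (4*m^3 + 57*m^2 + 270*m + 428) := by positivity
  linarith

theorem q1152 {m : ℝ} (hm : 0 ≤ m) : Q m .e1 .e1 .e5 .e2 := by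
  intro t0 t1 t2 t3 a0 b0 a1 b1 a2 b2 a3 b3 h1 h2 h3 h4
  simp only [px, py, dx, dy] at h1 h2 h3 h4 ⊢
  exfalso
  have h : (m^3 + 11*m^2 + 41*m + 52)*(1 - t3) + (m^3 + 13*m^2 + 57*m + 84) = 0 := by
    linear_combination (-m^2 - 8*m - 17)*h2 + (-m^2 - 8*m - 16)*h3 + (-m - 4)*h4
  have h5 : (0:ℝ) ≤ (m^3 + 11*m^2 + 41*m + 52)*(1 - t3) := mul_nonneg (by positivity) (by linarith)
  have h6 : (0:ℝ) < (m^3 + 13*m^2 + 57*m + 84) := by positivity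
  linarith

theorem q1153 {m : ℝ} (hm : 0 ≤ m) : Q m .e1 .e1 .e5 .e3 := by
  intro t0 t1 t2 t3 a0 b0 a1 b1 a2 b2 a3 b3 h1 h2 h3 h4
  simp only [px, py, dx, dy] at h1 h2 h3 h4 ⊢
  exfalso
  have h : (2*m^5 + 44*m^4 + 390*m^3 + 1728*m^2 + 3808*m + 3328)*(1 - t1) + (4*m^3 + 58*m^2 + 277*m + 436) = 0 := by
    linear_combination (2*m^3 + 23*m^2 + 86*m + 95)*h2 + (2*m^3 + 24*m^2 + 95*m + 120)*h3 + (m^2 + 6*m + 4)*h4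
  have h5 : (0:ℝ) ≤ (2*m^5 + 44*m^4 + 390*m^3 + 1728*m^2 + 3808*m + 3328)*(1 - t1) := mul_nonneg (by positivity) (by linarith)
  have h6 : (0:ℝ) < (4*m^3 + 58*m^2 + 277*m + 436) := by positivity
  linarith

theorem q1154 {m : ℝ} (hm : 0 ≤ m) : Q m .e1 .e1 .e5 .e4 := by
  intro t0 t1 t2 t3 a0 b0 a1 b1 a2 b2 a3 b3 h1 h2 h3 h4
  simp only [px, py, dx, dy] at h1 h2 h3 h4 ⊢
  exfalso
  have h : (2*m^5 + 40*m^4 + 320*m^3 + 1277*m^2 + 2534*m + 1996)*t3 + (m^2 + 10*m + 20) = 0 := by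
    linear_combination (m^2 + 8*m + 17)*h2 + (m^2 + 8*m + 16)*h3 + (m + 4)*h4
  have h5 : (0:ℝ) ≤ (2*m^5 + 40*m^4 + 320*m^3 + 1277*m^2 + 2534*m + 1996)*t3 := mul_nonneg (by positivity) a3
  have h6 : (0:ℝ) < (m^2 + 10*m + 20) := by positivity
  linarith

theorem q1155 {m : ℝ} (hm : 0 ≤ m) : Q m .e1 .e1 .e5 .e5 := by
  intro t0 t1 t2 t3 a0 b0 a1 b1 a2 b2 a3 b3 h1 h2 h3 h4
  simp only [px, py, dx, dy] at h1 h2 h3 h4 ⊢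
  exfalso
  have h : (2*m^4 + 32*m^3 + 192*m^2 + 512*m + 512)*(1 - t0) + (2*m^2 + 16*m + 32) = 0 := by
    linear_combination (-1)*h2 + (-m - 4)*h4
  have h5 : (0:ℝ) ≤ (2*m^4 + 32*m^3 + 192*m^2 + 512*m + 512)*(1 - t0) := mul_nonneg (by positivity) (by linarith)
  have h6 : (0:ℝ) < (2*m^2 + 16*m + 32) := by positivity
  linarith

theorem q1212 {m : ℝ} (hm : 0 ≤ m) : Q m .e1 .e2 .e1 .e2 := by
  intro t0 t1 t2 t3 a0 b0 a1 b1 a2 b2 a3 b3 h1 h2 h3 h4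
  simp only [px, py, dx, dy] at h1 h2 h3 h4 ⊢
  have wx : (4*m^3 + 44*m^2 + 162*m + 196)*((0) + t1*(2*m^3 + 22*m^2 + 82*m + 104) - ((-2*m^2 - 16*m - 32) + t0*(2*m^2 + 16*m + 32))) = 0 := by
    linear_combination (-2*m^2 - 13*m - 20)*h1 + (-2*m - 5)*h2 + (2*m^3 + 20*m^2 + 66*m + 73)*h3 + (-2*m^3 - 20*m^2 - 70*m - 83)*h4
  have Dx : (0:ℝ) < (4*m^3 + 44*m^2 + 162*m + 196) := by positivity
  have wy : (4*m^3 + 44*m^2 + 162*m + 196)*((2*m + 8) + t1*(2*m^3 + 24*m^2 + 95*m + 124) - ((2*m^3 + 24*m^2 + 98*m + 136) + t0*(-2*m^3 - 24*m^2 - 96*m - 128))) = 0 := by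
    linear_combination (4*m^3 + 46*m^2 + 177*m + 228)*h1 + (4*m^2 + 30*m + 57)*h2 + (6*m^3 + 72*m^2 + 288*m + 383)*h3 + (-2*m^3 - 20*m^2 - 66*m - 73)*h4
  have Dy : (0:ℝ) < (4*m^3 + 44*m^2 + 162*m + 196) := by positivity
  refine ⟨abs_le.mpr ⟨?_, ?_⟩, abs_le.mpr ⟨?_, ?_⟩⟩
  · refine le_of_mul_le_mul_left ?_ Dx
    rw [wx]
    have : (0:ℝ) ≤ (20*m^4 + 300*m^3 + 1690*m^2 + 4220*m + 3920) := by positivity
    linarith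
  · refine le_of_mul_le_mul_left ?_ Dx
    rw [wx]
    have : (0:ℝ) ≤ (20*m^4 + 300*m^3 + 1690*m^2 + 4220*m + 3920) := by positivity
    linarith
  · refine le_of_mul_le_mul_left ?_ Dy
    rw [wy]
    have : (0:ℝ) ≤ (20*m^4 + 300*m^3 + 1690*m^2 + 4220*m + 3920) := by positivity
    linarith
  · refine le_of_mul_le_mul_left ?_ Dy
    rw [wy]
    have : (0:ℝ) ≤ (20*m^4 + 300*m^3 + 1690*m^2 + 4220*m + 3920) := by positivity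
    linarith

theorem q1213 {m : ℝ} (hm : 0 ≤ m) : Q m .e1 .e2 .e1 .e3 := by
  intro t0 t1 t2 t3 a0 b0 a1 b1 a2 b2 a3 b3 h1 h2 h3 h4
  simp only [px, py, dx, dy] at h1 h2 h3 h4 ⊢
  exfalso
  have h : (8*m^7 + 216*m^6 + 2504*m^5 + 16130*m^4 + 62258*m^3 + 143761*m^2 + 183614*m + 99947)*(1 - t3) + (4*m^5 + 90*m^4 + 790*m^3 + 3397*m^2 + 7158*m + 5893) = 0 := by
    linear_combination (-4*m^4 - 62*m^3 - 363*m^2 - 949*m - 932)*h1 + (-4*m^3 - 46*m^2 - 179*m - 233)*h2 + (-2*m^4 - 34*m^3 - 218*m^2 - 625*m - 675)*h3 + (2*m^4 + 30*m^3 + 170*m^2 + 429*m + 405)*h4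
  have h5 : (0:ℝ) ≤ (8*m^7 + 216*m^6 + 2504*m^5 + 16130*m^4 + 62258*m^3 + 143761*m^2 + 183614*m + 99947)*(1 - t3) := mul_nonneg (by positivity) (by linarith)
  have h6 : (0:ℝ) < (4*m^5 + 90*m^4 + 790*m^3 + 3397*m^2 + 7158*m + 5893) := by positivity
  linarith

theorem q1214 {m : ℝ} (hm : 0 ≤ m) : Q m .e1 .e2 .e1 .e4 := by
  intro t0 t1 t2 t3 a0 b0 a1 b1 a2 b2 a3 b3 h1 h2 h3 h4
  simp only [px, py, dx, dy] at h1 h2 h3 h4 ⊢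
  exfalso
  have h : (4*m^7 + 104*m^6 + 1146*m^5 + 6898*m^4 + 24300*m^3 + 49491*m^2 + 52846*m + 21899)*t3 + (4*m^5 + 90*m^4 + 790*m^3 + 3397*m^2 + 7158*m + 5893) = 0 := by
    linear_combination (-4*m^4 - 62*m^3 - 363*m^2 - 949*m - 932)*h1 + (-4*m^3 - 46*m^2 - 179*m - 233)*h2 + (-2*m^4 - 34*m^3 - 218*m^2 - 625*m - 675)*h3 + (2*m^4 + 30*m^3 + 170*m^2 + 429*m + 405)*h4
  have h5 : (0:ℝ) ≤ (4*m^7 + 104*m^6 + 1146*m^5 + 6898*m^4 + 24300*m^3 + 49491*m^2 + 52846*m + 21899)*t3 := mul_nonneg (by positivity) a3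
  have h6 : (0:ℝ) < (4*m^5 + 90*m^4 + 790*m^3 + 3397*m^2 + 7158*m + 5893) := by positivity
  linarith

theorem q1215 {m : ℝ} (hm : 0 ≤ m) : Q m .e1 .e2 .e1 .e5 := by
  intro t0 t1 t2 t3 a0 b0 a1 b1 a2 b2 a3 b3 h1 h2 h3 h4
  simp only [px, py, dx, dy] at h1 h2 h3 h4 ⊢
  exfalso
  have h : (2*m^5 + 36*m^4 + 257*m^3 + 904*m^2 + 1553*m + 1028)*t1 + (2*m^3 + 24*m^2 + 98*m + 136) = 0 := by
    linear_combination (m^2 + 9*m + 20)*h1 + (m + 5)*h2 + (m^2 + 9*m + 20)*h3 + (-m^2 - 7*m - 12)*h4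
  have h5 : (0:ℝ) ≤ (2*m^5 + 36*m^4 + 257*m^3 + 904*m^2 + 1553*m + 1028)*t1 := mul_nonneg (by positivity) a1
  have h6 : (0:ℝ) < (2*m^3 + 24*m^2 + 98*m + 136) := by positivity
  linarith

theorem q1222 {m : ℝ} (hm : 0 ≤ m) : Q m .e1 .e2 .e2 .e2 := by
  intro t0 t1 t2 t3 a0 b0 a1 b1 a2 b2 a3 b3 h1 h2 h3 h4
  simp only [px, py, dx, dy] at h1 h2 h3 h4 ⊢
  have wx : (8*m^4 + 120*m^3 + 680*m^2 + 1720*m + 1637)*((0) + t1*(2*m^3 + 22*m^2 + 82*m + 104) - ((-2*m^2 - 16*m - 32) + t0*(2*m^2 + 16*m + 32))) = 0 := by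
    linear_combination (-4*m^3 - 42*m^2 - 142*m - 155)*h1 + (4*m^3 + 38*m^2 + 122*m + 130)*h2 + (4*m^4 + 60*m^3 + 338*m^2 + 850*m + 806)*h3 + (-4*m^4 - 56*m^3 - 300*m^2 - 728*m - 676)*h4
  have Dx : (0:ℝ) < (8*m^4 + 120*m^3 + 680*m^2 + 1720*m + 1637) := by positivity
  have wy : (8*m^4 + 120*m^3 + 680*m^2 + 1720*m + 1637)*((2*m + 8) + t1*(2*m^3 + 24*m^2 + 95*m + 124) - ((2*m^3 + 24*m^2 + 98*m + 136) + t0*(-2*m^3 - 24*m^2 - 96*m - 128))) = 0 := by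
    linear_combination (8*m^4 + 124*m^3 + 718*m^2 + 1842*m + 1767)*h1 + (-8*m^4 - 116*m^3 - 638*m^2 - 1578*m - 1482)*h2 + (4*m^4 + 64*m^3 + 380*m^2 + 992*m + 961)*h3 + (-4*m^4 - 60*m^3 - 338*m^2 - 850*m - 806)*h4
  have Dy : (0:ℝ) < (8*m^4 + 120*m^3 + 680*m^2 + 1720*m + 1637) := by positivity
  refine ⟨abs_le.mpr ⟨?_, ?_⟩, abs_le.mpr ⟨?_, ?_⟩⟩
  · refine le_of_mul_le_mul_left ?_ Dx
    rw [wx]
    have : (0:ℝ) ≤ (40*m^5 + 760*m^4 + 5800*m^3 + 22200*m^2 + 42585*m + 32740) := by positivity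
    linarith
  · refine le_of_mul_le_mul_left ?_ Dx
    rw [wx]
    have : (0:ℝ) ≤ (40*m^5 + 760*m^4 + 5800*m^3 + 22200*m^2 + 42585*m + 32740) := by positivity
    linarith
  · refine le_of_mul_le_mul_left ?_ Dy
    rw [wy]
    have : (0:ℝ) ≤ (40*m^5 + 760*m^4 + 5800*m^3 + 22200*m^2 + 42585*m + 32740) := by positivity
    linarith
  · refine le_of_mul_le_mul_left ?_ Dy
    rw [wy]
    have : (0:ℝ) ≤ (40*m^5 + 760*m^4 + 5800*m^3 + 22200*m^2 + 42585*m + 32740) := by positivity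
    linarith

theorem q1223 {m : ℝ} (hm : 0 ≤ m) : Q m .e1 .e2 .e2 .e3 := by
  intro t0 t1 t2 t3 a0 b0 a1 b1 a2 b2 a3 b3 h1 h2 h3 h4
  simp only [px, py, dx, dy] at h1 h2 h3 h4 ⊢
  exfalso
  have h : (16*m^8 + 496*m^7 + 6728*m^6 + 52092*m^5 + 251446*m^4 + 773610*m^3 + 1478846*m^2 + 1602610*m + 751943)*(1 - t3) + (24*m^6 + 604*m^5 + 6348*m^4 + 35614*m^3 + 112372*m^2 + 188889*m + 132037) = 0 := by
    linear_combination (-8*m^5 - 156*m^4 - 1218*m^3 - 4756*m^2 - 9277*m - 7223)*h1 + (8*m^5 + 148*m^4 + 1106*m^3 + 4168*m^2 + 7916*m + 6058)*h2 + (4*m^5 + 76*m^4 + 584*m^3 + 2266*m^2 + 4438*m + 3510)*h3 + (4*m^5 + 80*m^4 + 642*m^3 + 2582*m^2 + 5198*m + 4185)*h4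
  have h5 : (0:ℝ) ≤ (16*m^8 + 496*m^7 + 6728*m^6 + 52092*m^5 + 251446*m^4 + 773610*m^3 + 1478846*m^2 + 1602610*m + 751943)*(1 - t3) := mul_nonneg (by positivity) (by linarith)
  have h6 : (0:ℝ) < (24*m^6 + 604*m^5 + 6348*m^4 + 35614*m^3 + 112372*m^2 + 188889*m + 132037) := by positivity
  linarith

theorem q1224 {m : ℝ} (hm : 0 ≤ m) : Q m .e1 .e2 .e2 .e4 := by
  intro t0 t1 t2 t3 a0 b0 a1 b1 a2 b2 a3 b3 h1 h2 h3 h4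
  simp only [px, py, dx, dy] at h1 h2 h3 h4 ⊢
  exfalso
  have h : (24*m^8 + 752*m^7 + 10308*m^6 + 80664*m^5 + 393770*m^4 + 1226664*m^3 + 2378800*m^2 + 2622489*m + 1256771)*t3 + (24*m^6 + 604*m^5 + 6348*m^4 + 35614*m^3 + 112372*m^2 + 188889*m + 132037) = 0 := by
    linear_combination (-8*m^5 - 156*m^4 - 1218*m^3 - 4756*m^2 - 9277*m - 7223)*h1 + (8*m^5 + 148*m^4 + 1106*m^3 + 4168*m^2 + 7916*m + 6058)*h2 + (4*m^5 + 76*m^4 + 584*m^3 + 2266*m^2 + 4438*m + 3510)*h3 + (4*m^5 + 80*m^4 + 642*m^3 + 2582*m^2 + 5198*m + 4185)*h4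
  have h5 : (0:ℝ) ≤ (24*m^8 + 752*m^7 + 10308*m^6 + 80664*m^5 + 393770*m^4 + 1226664*m^3 + 2378800*m^2 + 2622489*m + 1256771)*t3 := mul_nonneg (by positivity) a3
  have h6 : (0:ℝ) < (24*m^6 + 604*m^5 + 6348*m^4 + 35614*m^3 + 112372*m^2 + 188889*m + 132037) := by positivity
  linarith

theorem q1225 {m : ℝ} (hm : 0 ≤ m) : Q m .e1 .e2 .e2 .e5 := by
  intro t0 t1 t2 t3 a0 b0 a1 b1 a2 b2 a3 b3 h1 h2 h3 h4
  simp only [px, py, dx, dy] at h1 h2 h3 h4 ⊢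
  exfalso
  have h : (12*m^6 + 280*m^5 + 2730*m^4 + 14230*m^3 + 41803*m^2 + 65593*m + 42932)*t2 + (8*m^4 + 124*m^3 + 726*m^2 + 1898*m + 1864) = 0 := by
    linear_combination (4*m^3 + 48*m^2 + 193*m + 259)*h1 + (2*m^3 + 24*m^2 + 97*m + 129)*h2 + (4*m^3 + 48*m^2 + 193*m + 259)*h3 + (-2*m^3 - 22*m^2 - 82*m - 104)*h4
  have h5 : (0:ℝ) ≤ (12*m^6 + 280*m^5 + 2730*m^4 + 14230*m^3 + 41803*m^2 + 65593*m + 42932)*t2 := mul_nonneg (by positivity) a2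
  have h6 : (0:ℝ) < (8*m^4 + 124*m^3 + 726*m^2 + 1898*m + 1864) := by positivity
  linarith

theorem q1232 {m : ℝ} (hm : 0 ≤ m) : Q m .e1 .e2 .e3 .e2 := by
  intro t0 t1 t2 t3 a0 b0 a1 b1 a2 b2 a3 b3 h1 h2 h3 h4
  simp only [px, py, dx, dy] at h1 h2 h3 h4 ⊢
  exfalso
  have h : (16*m^8 + 496*m^7 + 6752*m^6 + 52664*m^5 + 257170*m^4 + 804280*m^3 + 1571368*m^2 + 1751184*m + 850912)*(1 - t2) + (32*m^5 + 624*m^4 + 4944*m^3 + 19850*m^2 + 40315*m + 33068) = 0 := by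
    linear_combination (8*m^3 + 92*m^2 + 359*m + 472)*h1 + (8*m^5 + 152*m^4 + 1164*m^3 + 4484*m^2 + 8676*m + 6733)*h2 + (8*m^5 + 156*m^4 + 1226*m^3 + 4848*m^2 + 9636*m + 7695)*h3 + (4*m^4 + 58*m^3 + 316*m^2 + 760*m + 675)*h4
  have h5 : (0:ℝ) ≤ (16*m^8 + 496*m^7 + 6752*m^6 + 52664*m^5 + 257170*m^4 + 804280*m^3 + 1571368*m^2 + 1751184*m + 850912)*(1 - t2) := mul_nonneg (by positivity) (by linarith)
  have h6 : (0:ℝ) < (32*m^5 + 624*m^4 + 4944*m^3 + 19850*m^2 + 40315*m + 33068) := by positivity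
  linarith

theorem q1233 {m : ℝ} (hm : 0 ≤ m) : Q m .e1 .e2 .e3 .e3 := by
  intro t0 t1 t2 t3 a0 b0 a1 b1 a2 b2 a3 b3 h1 h2 h3 h4
  simp only [px, py, dx, dy] at h1 h2 h3 h4 ⊢
  exfalso
  have h : (16*m^9 + 560*m^8 + 8712*m^7 + 78972*m^6 + 459078*m^5 + 1772338*m^4 + 4537372*m^3 + 7416247*m^2 + 7011468*m + 2917219)*(1 - t2) + (16*m^7 + 480*m^6 + 6144*m^5 + 43466*m^4 + 183312*m^3 + 459970*m^2 + 634114*m + 369221) = 0 := by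
    linear_combination (-8*m^3 - 107*m^2 - 467*m - 671)*h1 + (8*m^6 + 184*m^5 + 1768*m^4 + 9058*m^3 + 26018*m^2 + 39582*m + 24819)*h2 + (8*m^6 + 188*m^5 + 1842*m^4 + 9604*m^3 + 28010*m^2 + 43148*m + 27289)*h3 + (4*m^5 + 78*m^4 + 610*m^3 + 2386*m^2 + 4653*m + 3616)*h4
  have h5 : (0:ℝ) ≤ (16*m^9 + 560*m^8 + 8712*m^7 + 78972*m^6 + 459078*m^5 + 1772338*m^4 + 4537372*m^3 + 7416247*m^2 + 7011468*m + 2917219)*(1 - t2) := mul_nonneg (by positivity) (by linarith)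
  have h6 : (0:ℝ) < (16*m^7 + 480*m^6 + 6144*m^5 + 43466*m^4 + 183312*m^3 + 459970*m^2 + 634114*m + 369221) := by positivity
  linarith

theorem q1234 {m : ℝ} (hm : 0 ≤ m) : Q m .e1 .e2 .e3 .e4 := by
  intro t0 t1 t2 t3 a0 b0 a1 b1 a2 b2 a3 b3 h1 h2 h3 h4
  simp only [px, py, dx, dy] at h1 h2 h3 h4 ⊢
  exfalso
  have h : (24*m^9 + 848*m^8 + 13300*m^7 + 121392*m^6 + 709702*m^5 + 2752426*m^4 + 7070622*m^3 + 11582203*m^2 + 10958376*m + 4554259)*t3 + (8*m^7 + 252*m^6 + 3340*m^5 + 24212*m^4 + 103718*m^3 + 262186*m^2 + 360981*m + 207761) = 0 := by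
    linear_combination (-8*m^6 - 188*m^5 - 1842*m^4 - 9612*m^3 - 28117*m^2 - 43615*m - 27960)*h1 + (8*m^6 + 180*m^5 + 1690*m^4 + 8448*m^3 + 23632*m^2 + 34929*m + 21203)*h2 + (4*m^6 + 92*m^5 + 880*m^4 + 4462*m^3 + 12580*m^2 + 18563*m + 11089)*h3 + (4*m^6 + 96*m^5 + 962*m^4 + 5138*m^3 + 15380*m^2 + 24371*m + 15901)*h4
  have h5 : (0:ℝ) ≤ (24*m^9 + 848*m^8 + 13300*m^7 + 121392*m^6 + 709702*m^5 + 2752426*m^4 + 7070622*m^3 + 11582203*m^2 + 10958376*m + 4554259)*t3 := mul_nonneg (by positivity) a3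
  have h6 : (0:ℝ) < (8*m^7 + 252*m^6 + 3340*m^5 + 24212*m^4 + 103718*m^3 + 262186*m^2 + 360981*m + 207761) := by positivity
  linarith

theorem q1235 {m : ℝ} (hm : 0 ≤ m) : Q m .e1 .e2 .e3 .e5 := by
  intro t0 t1 t2 t3 a0 b0 a1 b1 a2 b2 a3 b3 h1 h2 h3 h4
  simp only [px, py, dx, dy] at h1 h2 h3 h4 ⊢
  exfalso
  have h : (12*m^6 + 280*m^5 + 2722*m^4 + 14074*m^3 + 40697*m^2 + 62178*m + 39049)*(1 - t2) + (16*m^4 + 280*m^3 + 1832*m^2 + 5313*m + 5747) = 0 := by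
    linear_combination (4*m^3 + 48*m^2 + 193*m + 259)*h1 + (2*m^3 + 24*m^2 + 97*m + 129)*h2 + (4*m^3 + 48*m^2 + 193*m + 259)*h3 + (-2*m^3 - 22*m^2 - 82*m - 104)*h4
  have h5 : (0:ℝ) ≤ (12*m^6 + 280*m^5 + 2722*m^4 + 14074*m^3 + 40697*m^2 + 62178*m + 39049)*(1 - t2) := mul_nonneg (by positivity) (by linarith)
  have h6 : (0:ℝ) < (16*m^4 + 280*m^3 + 1832*m^2 + 5313*m + 5747) := by positivity
  linarith

theorem q1242 {m : ℝ} (hm : 0 ≤ m) : Q m .e1 .e2 .e4 .e2 := by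
  intro t0 t1 t2 t3 a0 b0 a1 b1 a2 b2 a3 b3 h1 h2 h3 h4
  simp only [px, py, dx, dy] at h1 h2 h3 h4 ⊢
  exfalso
  have h : (24*m^6 + 570*m^5 + 5704*m^4 + 30738*m^3 + 93949*m^2 + 154216*m + 106064)*t1 + (16*m^5 + 336*m^4 + 2848*m^3 + 12174*m^2 + 26234*m + 22792) = 0 := by
    linear_combination (4*m^3 + 58*m^2 + 278*m + 444)*h1 + (4*m^5 + 82*m^4 + 670*m^3 + 2716*m^2 + 5433*m + 4255)*h2 + (4*m^5 + 84*m^4 + 710*m^3 + 3014*m^2 + 6420*m + 5497)*h3 + (2*m^4 + 26*m^3 + 118*m^2 + 187*m + 17)*h4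
  have h5 : (0:ℝ) ≤ (24*m^6 + 570*m^5 + 5704*m^4 + 30738*m^3 + 93949*m^2 + 154216*m + 106064)*t1 := mul_nonneg (by positivity) a1
  have h6 : (0:ℝ) < (16*m^5 + 336*m^4 + 2848*m^3 + 12174*m^2 + 26234*m + 22792) := by positivity
  linarith

theorem q1243 {m : ℝ} (hm : 0 ≤ m) : Q m .e1 .e2 .e4 .e3 := by
  intro t0 t1 t2 t3 a0 b0 a1 b1 a2 b2 a3 b3 h1 h2 h3 h4
  simp only [px, py, dx, dy] at h1 h2 h3 h4 ⊢
  exfalso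
  have h : (16*m^7 + 480*m^6 + 6150*m^5 + 43586*m^4 + 184260*m^3 + 463687*m^2 + 641401*m + 374993)*t3 + (8*m^6 + 198*m^5 + 2032*m^4 + 11086*m^3 + 33941*m^2 + 55306*m + 37464) = 0 := by
    linear_combination (8*m^4 + 140*m^3 + 910*m^2 + 2614*m + 2796)*h1 + (8*m^6 + 188*m^5 + 1838*m^4 + 9546*m^3 + 27708*m^2 + 42487*m + 26795)*h2 + (8*m^6 + 192*m^5 + 1918*m^4 + 10190*m^3 + 30306*m^2 + 47733*m + 31033)*h3 + (4*m^5 + 76*m^4 + 566*m^3 + 2046*m^2 + 3528*m + 2257)*h4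
  have h5 : (0:ℝ) ≤ (16*m^7 + 480*m^6 + 6150*m^5 + 43586*m^4 + 184260*m^3 + 463687*m^2 + 641401*m + 374993)*t3 := mul_nonneg (by positivity) a3
  have h6 : (0:ℝ) < (8*m^6 + 198*m^5 + 2032*m^4 + 11086*m^3 + 33941*m^2 + 55306*m + 37464) := by positivity
  linarith

theorem q1244 {m : ℝ} (hm : 0 ≤ m) : Q m .e1 .e2 .e4 .e4 := by
  intro t0 t1 t2 t3 a0 b0 a1 b1 a2 b2 a3 b3 h1 h2 h3 h4
  simp only [px, py, dx, dy] at h1 h2 h3 h4 ⊢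
  exfalso
  have h : (16*m^9 + 576*m^8 + 9196*m^7 + 85372*m^6 + 507344*m^5 + 1999196*m^4 + 5217388*m^3 + 8685276*m^2 + 8359547*m + 3541711)*t3 + (16*m^7 + 488*m^6 + 6348*m^5 + 45618*m^4 + 195346*m^3 + 497628*m^2 + 696707*m + 412457) = 0 := by
    linear_combination (8*m^4 + 140*m^3 + 910*m^2 + 2614*m + 2796)*h1 + (8*m^6 + 188*m^5 + 1838*m^4 + 9546*m^3 + 27708*m^2 + 42487*m + 26795)*h2 + (8*m^6 + 192*m^5 + 1918*m^4 + 10190*m^3 + 30306*m^2 + 47733*m + 31033)*h3 + (4*m^5 + 76*m^4 + 566*m^3 + 2046*m^2 + 3528*m + 2257)*h4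
  have h5 : (0:ℝ) ≤ (16*m^9 + 576*m^8 + 9196*m^7 + 85372*m^6 + 507344*m^5 + 1999196*m^4 + 5217388*m^3 + 8685276*m^2 + 8359547*m + 3541711)*t3 := mul_nonneg (by positivity) a3
  have h6 : (0:ℝ) < (16*m^7 + 488*m^6 + 6348*m^5 + 45618*m^4 + 195346*m^3 + 497628*m^2 + 696707*m + 412457) := by positivity
  linarith

theorem q1245 {m : ℝ} (hm : 0 ≤ m) : Q m .e1 .e2 .e4 .e5 := by
  intro t0 t1 t2 t3 a0 b0 a1 b1 a2 b2 a3 b3 h1 h2 h3 h4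
  simp only [px, py, dx, dy] at h1 h2 h3 h4 ⊢
  exfalso
  have h : (8*m^6 + 192*m^5 + 1910*m^4 + 10050*m^3 + 29396*m^2 + 45119*m + 28237)*t2 + (16*m^4 + 280*m^3 + 1832*m^2 + 5313*m + 5747) = 0 := by
    linear_combination (4*m^3 + 48*m^2 + 193*m + 259)*h1 + (2*m^3 + 24*m^2 + 97*m + 129)*h2 + (4*m^3 + 48*m^2 + 193*m + 259)*h3 + (-2*m^3 - 22*m^2 - 82*m - 104)*h4
  have h5 : (0:ℝ) ≤ (8*m^6 + 192*m^5 + 1910*m^4 + 10050*m^3 + 29396*m^2 + 45119*m + 28237)*t2 := mul_nonneg (by positivity) a2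
  have h6 : (0:ℝ) < (16*m^4 + 280*m^3 + 1832*m^2 + 5313*m + 5747) := by positivity
  linarith

theorem q1252 {m : ℝ} (hm : 0 ≤ m) : Q m .e1 .e2 .e5 .e2 := by
  intro t0 t1 t2 t3 a0 b0 a1 b1 a2 b2 a3 b3 h1 h2 h3 h4
  simp only [px, py, dx, dy] at h1 h2 h3 h4 ⊢
  exfalso
  have h : (8*m^4 + 124*m^3 + 727*m^2 + 1908*m + 1888)*t1 + (4*m^3 + 50*m^2 + 210*m + 296) = 0 := by
    linear_combination (-2*m^2 - 17*m - 37)*h2 + (-2*m^2 - 16*m - 31)*h3 + (-3*m - 11)*h4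
  have h5 : (0:ℝ) ≤ (8*m^4 + 124*m^3 + 727*m^2 + 1908*m + 1888)*t1 := mul_nonneg (by positivity) a1
  have h6 : (0:ℝ) < (4*m^3 + 50*m^2 + 210*m + 296) := by positivity
  linarith

theorem q1253 {m : ℝ} (hm : 0 ≤ m) : Q m .e1 .e2 .e5 .e3 := by
  intro t0 t1 t2 t3 a0 b0 a1 b1 a2 b2 a3 b3 h1 h2 h3 h4
  simp only [px, py, dx, dy] at h1 h2 h3 h4 ⊢
  exfalso
  have h : (8*m^3 + 107*m^2 + 467*m + 671)*t3 + (m^2 + 10*m + 24) = 0 := by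
    linear_combination (4*m^3 + 46*m^2 + 179*m + 233)*h2 + (4*m^3 + 48*m^2 + 193*m + 259)*h3 + (2*m^2 + 16*m + 31)*h4
  have h5 : (0:ℝ) ≤ (8*m^3 + 107*m^2 + 467*m + 671)*t3 := mul_nonneg (by positivity) a3
  have h6 : (0:ℝ) < (m^2 + 10*m + 24) := by positivity
  linarith

theorem q1254 {m : ℝ} (hm : 0 ≤ m) : Q m .e1 .e2 .e5 .e4 := by
  intro t0 t1 t2 t3 a0 b0 a1 b1 a2 b2 a3 b3 h1 h2 h3 h4
  simp only [px, py, dx, dy] at h1 h2 h3 h4 ⊢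
  exfalso
  have h : (8*m^6 + 192*m^5 + 1922*m^4 + 10258*m^3 + 30732*m^2 + 48901*m + 32209)*t3 + (8*m^3 + 108*m^2 + 477*m + 695) = 0 := by
    linear_combination (4*m^3 + 46*m^2 + 179*m + 233)*h2 + (4*m^3 + 48*m^2 + 193*m + 259)*h3 + (2*m^2 + 16*m + 31)*h4
  have h5 : (0:ℝ) ≤ (8*m^6 + 192*m^5 + 1922*m^4 + 10258*m^3 + 30732*m^2 + 48901*m + 32209)*t3 := mul_nonneg (by positivity) a3
  have h6 : (0:ℝ) < (8*m^3 + 108*m^2 + 477*m + 695) := by positivity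
  linarith

theorem q1255 {m : ℝ} (hm : 0 ≤ m) : Q m .e1 .e2 .e5 .e5 := by
  intro t0 t1 t2 t3 a0 b0 a1 b1 a2 b2 a3 b3 h1 h2 h3 h4
  simp only [px, py, dx, dy] at h1 h2 h3 h4 ⊢
  exfalso
  have h : (4*m^4 + 64*m^3 + 385*m^2 + 1031*m + 1036)*t1 + (2*m^2 + 16*m + 32) = 0 := by
    linear_combination (-m - 5)*h2 + (-m - 4)*h4
  have h5 : (0:ℝ) ≤ (4*m^4 + 64*m^3 + 385*m^2 + 1031*m + 1036)*t1 := mul_nonneg (by positivity) a1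
  have h6 : (0:ℝ) < (2*m^2 + 16*m + 32) := by positivity
  linarith

theorem q1313 {m : ℝ} (hm : 0 ≤ m) : Q m .e1 .e3 .e1 .e3 := by
  intro t0 t1 t2 t3 a0 b0 a1 b1 a2 b2 a3 b3 h1 h2 h3 h4
  simp only [px, py, dx, dy] at h1 h2 h3 h4 ⊢
  exfalso
  have h : (8*m^8 + 248*m^7 + 3364*m^6 + 26040*m^5 + 125628*m^4 + 386244*m^3 + 738008*m^2 + 800228*m + 376552)*(1 - t1) + (8*m^6 + 204*m^5 + 2160*m^4 + 12138*m^3 + 38124*m^2 + 63378*m + 43568) = 0 := by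
    linear_combination (2*m^4 + 31*m^3 + 178*m^2 + 439*m + 380)*h1 + (2*m^3 + 23*m^2 + 86*m + 95)*h2 + (2*m^5 + 42*m^4 + 352*m^3 + 1466*m^2 + 3014*m + 2420)*h3 + (-2*m^5 - 38*m^4 - 288*m^3 - 1082*m^2 - 2002*m - 1452)*h4
  have h5 : (0:ℝ) ≤ (8*m^8 + 248*m^7 + 3364*m^6 + 26040*m^5 + 125628*m^4 + 386244*m^3 + 738008*m^2 + 800228*m + 376552)*(1 - t1) := mul_nonneg (by positivity) (by linarith)
  have h6 : (0:ℝ) < (8*m^6 + 204*m^5 + 2160*m^4 + 12138*m^3 + 38124*m^2 + 63378*m + 43568) := by positivity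
  linarith

theorem q1314 {m : ℝ} (hm : 0 ≤ m) : Q m .e1 .e3 .e1 .e4 := by
  intro t0 t1 t2 t3 a0 b0 a1 b1 a2 b2 a3 b3 h1 h2 h3 h4
  simp only [px, py, dx, dy] at h1 h2 h3 h4 ⊢
  exfalso
  have h : (4*m^8 + 120*m^7 + 1562*m^6 + 11482*m^5 + 51916*m^4 + 147101*m^3 + 253438*m^2 + 240727*m + 95380)*t3 + (8*m^6 + 204*m^5 + 2160*m^4 + 12138*m^3 + 38124*m^2 + 63378*m + 43568) = 0 := by
    linear_combination (-4*m^5 - 78*m^4 - 609*m^3 - 2370*m^2 - 4577*m - 3492)*h1 + (-4*m^4 - 62*m^3 - 361*m^2 - 926*m - 873)*h2 + (-2*m^5 - 42*m^4 - 352*m^3 - 1466*m^2 - 3014*m - 2420)*h3 + (2*m^5 + 38*m^4 + 288*m^3 + 1082*m^2 + 2002*m + 1452)*h4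
  have h5 : (0:ℝ) ≤ (4*m^8 + 120*m^7 + 1562*m^6 + 11482*m^5 + 51916*m^4 + 147101*m^3 + 253438*m^2 + 240727*m + 95380)*t3 := mul_nonneg (by positivity) a3
  have h6 : (0:ℝ) < (8*m^6 + 204*m^5 + 2160*m^4 + 12138*m^3 + 38124*m^2 + 63378*m + 43568) := by positivity
  linarith

theorem q1315 {m : ℝ} (hm : 0 ≤ m) : Q m .e1 .e3 .e1 .e5 := by
  intro t0 t1 t2 t3 a0 b0 a1 b1 a2 b2 a3 b3 h1 h2 h3 h4
  simp only [px, py, dx, dy] at h1 h2 h3 h4 ⊢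
  exfalso
  have h : (2*m^5 + 36*m^4 + 257*m^3 + 904*m^2 + 1563*m + 1072)*(1 - t1) + (2*m^3 + 24*m^2 + 88*m + 92) = 0 := by
    linear_combination (m^2 + 9*m + 20)*h1 + (m + 5)*h2 + (m^2 + 9*m + 20)*h3 + (-m^2 - 7*m - 12)*h4
  have h5 : (0:ℝ) ≤ (2*m^5 + 36*m^4 + 257*m^3 + 904*m^2 + 1563*m + 1072)*(1 - t1) := mul_nonneg (by positivity) (by linarith)
  have h6 : (0:ℝ) < (2*m^3 + 24*m^2 + 88*m + 92) := by positivity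
  linarith

theorem q1322 {m : ℝ} (hm : 0 ≤ m) : Q m .e1 .e3 .e2 .e2 := by
  intro t0 t1 t2 t3 a0 b0 a1 b1 a2 b2 a3 b3 h1 h2 h3 h4
  simp only [px, py, dx, dy] at h1 h2 h3 h4 ⊢
  exfalso
  have h : (16*m^8 + 496*m^7 + 6744*m^6 + 52484*m^5 + 255486*m^4 + 795958*m^3 + 1548642*m^2 + 1718994*m + 832673)*(1 - t1) + (8*m^6 + 212*m^5 + 2308*m^4 + 13266*m^3 + 42576*m^2 + 72505*m + 51307) = 0 := by
    linear_combination (4*m^4 + 66*m^3 + 408*m^2 + 1119*m + 1147)*h1 + (-4*m^4 - 62*m^3 - 364*m^2 - 960*m - 962)*h2 + (4*m^5 + 80*m^4 + 642*m^3 + 2582*m^2 + 5198*m + 4185)*h3 + (-4*m^5 - 76*m^4 - 584*m^3 - 2266*m^2 - 4438*m - 3510)*h4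
  have h5 : (0:ℝ) ≤ (16*m^8 + 496*m^7 + 6744*m^6 + 52484*m^5 + 255486*m^4 + 795958*m^3 + 1548642*m^2 + 1718994*m + 832673)*(1 - t1) := mul_nonneg (by positivity) (by linarith)
  have h6 : (0:ℝ) < (8*m^6 + 212*m^5 + 2308*m^4 + 13266*m^3 + 42576*m^2 + 72505*m + 51307) := by positivity
  linarith

theorem q1323 {m : ℝ} (hm : 0 ≤ m) : Q m .e1 .e3 .e2 .e3 := by
  intro t0 t1 t2 t3 a0 b0 a1 b1 a2 b2 a3 b3 h1 h2 h3 h4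
  simp only [px, py, dx, dy] at h1 h2 h3 h4 ⊢
  exfalso
  have h : (16*m^9 + 560*m^8 + 8704*m^7 + 78760*m^6 + 456666*m^5 + 1757112*m^4 + 4479880*m^3 + 7286417*m^2 + 6848686*m + 2829313)*(1 - t1) + (16*m^7 + 464*m^6 + 5752*m^5 + 39438*m^4 + 161210*m^3 + 392016*m^2 + 523763*m + 295667) = 0 := by
    linear_combination (4*m^5 + 78*m^4 + 602*m^3 + 2279*m^2 + 4186*m + 2945)*h1 + (-4*m^5 - 74*m^4 - 546*m^3 - 1992*m^2 - 3566*m - 2470)*h2 + (4*m^6 + 96*m^5 + 958*m^4 + 5072*m^3 + 14966*m^2 + 23216*m + 14705)*h3 + (-4*m^6 - 92*m^5 - 880*m^4 - 4466*m^3 - 12630*m^2 - 18777*m - 11388)*h4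
  have h5 : (0:ℝ) ≤ (16*m^9 + 560*m^8 + 8704*m^7 + 78760*m^6 + 456666*m^5 + 1757112*m^4 + 4479880*m^3 + 7286417*m^2 + 6848686*m + 2829313)*(1 - t1) := mul_nonneg (by positivity) (by linarith)
  have h6 : (0:ℝ) < (16*m^7 + 464*m^6 + 5752*m^5 + 39438*m^4 + 161210*m^3 + 392016*m^2 + 523763*m + 295667) := by positivity
  linarith

theorem q1324 {m : ℝ} (hm : 0 ≤ m) : Q m .e1 .e3 .e2 .e4 := by
  intro t0 t1 t2 t3 a0 b0 a1 b1 a2 b2 a3 b3 h1 h2 h3 h4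
  simp only [px, py, dx, dy] at h1 h2 h3 h4 ⊢
  exfalso
  have h : (24*m^9 + 848*m^8 + 13308*m^7 + 121636*m^6 + 712898*m^5 + 2775696*m^4 + 7172120*m^3 + 11846699*m^2 + 11338395*m + 4785685)*t3 + (32*m^7 + 920*m^6 + 11360*m^5 + 77946*m^4 + 320398*m^3 + 787584*m^2 + 1070029*m + 618587) = 0 := by
    linear_combination (-8*m^6 - 188*m^5 - 1838*m^4 - 9550*m^3 - 27753*m^2 - 42674*m - 27063)*h1 + (8*m^6 + 180*m^5 + 1694*m^4 + 8518*m^3 + 24096*m^2 + 36298*m + 22698)*h2 + (4*m^6 + 92*m^5 + 888*m^4 + 4598*m^3 + 13458*m^2 + 21087*m + 13780)*h3 + (4*m^6 + 96*m^5 + 958*m^4 + 5080*m^3 + 15066*m^2 + 23644*m + 15303)*h4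
  have h5 : (0:ℝ) ≤ (24*m^9 + 848*m^8 + 13308*m^7 + 121636*m^6 + 712898*m^5 + 2775696*m^4 + 7172120*m^3 + 11846699*m^2 + 11338395*m + 4785685)*t3 := mul_nonneg (by positivity) a3
  have h6 : (0:ℝ) < (32*m^7 + 920*m^6 + 11360*m^5 + 77946*m^4 + 320398*m^3 + 787584*m^2 + 1070029*m + 618587) := by positivity
  linarith

theorem q1325 {m : ℝ} (hm : 0 ≤ m) : Q m .e1 .e3 .e2 .e5 := by
  intro t0 t1 t2 t3 a0 b0 a1 b1 a2 b2 a3 b3 h1 h2 h3 h4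
  simp only [px, py, dx, dy] at h1 h2 h3 h4 ⊢
  exfalso
  have h : (12*m^6 + 280*m^5 + 2726*m^4 + 14148*m^3 + 41211*m^2 + 63761*m + 40843)*(1 - t1) + (8*m^4 + 142*m^3 + 930*m^2 + 2676*m + 2873) = 0 := by
    linear_combination (2*m^3 + 26*m^2 + 111*m + 155)*h1 + (-2*m^3 - 24*m^2 - 96*m - 130)*h2 + (2*m^3 + 26*m^2 + 111*m + 155)*h3 + (-4*m^3 - 46*m^2 - 177*m - 228)*h4
  have h5 : (0:ℝ) ≤ (12*m^6 + 280*m^5 + 2726*m^4 + 14148*m^3 + 41211*m^2 + 63761*m + 40843)*(1 - t1) := mul_nonneg (by positivity) (by linarith)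
  have h6 : (0:ℝ) < (8*m^4 + 142*m^3 + 930*m^2 + 2676*m + 2873) := by positivity
  linarith

theorem q1332 {m : ℝ} (hm : 0 ≤ m) : Q m .e1 .e3 .e3 .e2 := by
  intro t0 t1 t2 t3 a0 b0 a1 b1 a2 b2 a3 b3 h1 h2 h3 h4
  simp only [px, py, dx, dy] at h1 h2 h3 h4 ⊢
  exfalso
  have h : (16*m^9 + 560*m^8 + 8728*m^7 + 79428*m^6 + 464670*m^5 + 1810478*m^4 + 4693156*m^3 + 7796031*m^2 + 7521208*m + 3206651)*(1 - t1) + (8*m^7 + 252*m^6 + 3356*m^5 + 24580*m^4 + 107122*m^3 + 277970*m^2 + 397507*m + 241249) = 0 := by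
    linear_combination (4*m^5 + 82*m^4 + 672*m^3 + 2743*m^2 + 5555*m + 4440)*h1 + (-4*m^5 - 78*m^4 - 608*m^3 - 2356*m^2 - 4507*m - 3367)*h2 + (4*m^6 + 96*m^5 + 962*m^4 + 5146*m^3 + 15480*m^2 + 24799*m + 16499)*h3 + (-4*m^6 - 92*m^5 - 888*m^4 - 4594*m^3 - 13408*m^2 - 20873*m - 13481)*h4
  have h5 : (0:ℝ) ≤ (16*m^9 + 560*m^8 + 8728*m^7 + 79428*m^6 + 464670*m^5 + 1810478*m^4 + 4693156*m^3 + 7796031*m^2 + 7521208*m + 3206651)*(1 - t1) := mul_nonneg (by positivity) (by linarith)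
  have h6 : (0:ℝ) < (8*m^7 + 252*m^6 + 3356*m^5 + 24580*m^4 + 107122*m^3 + 277970*m^2 + 397507*m + 241249) := by positivity
  linarith

theorem q1333 {m : ℝ} (hm : 0 ≤ m) : Q m .e1 .e3 .e3 .e3 := by
  intro t0 t1 t2 t3 a0 b0 a1 b1 a2 b2 a3 b3 h1 h2 h3 h4
  simp only [px, py, dx, dy] at h1 h2 h3 h4 ⊢
  exfalso
  have h : (4*m^6 + 96*m^5 + 960*m^4 + 5108*m^3 + 15208*m^2 + 23936*m + 15488)*(1 - t0) + (4*m^4 + 66*m^3 + 414*m^2 + 1155*m + 1196) = 0 := by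
    linear_combination (-2*m^3 - 24*m^2 - 95*m - 120)*h1 + (2*m^3 + 22*m^2 + 80*m + 91)*h2
  have h5 : (0:ℝ) ≤ (4*m^6 + 96*m^5 + 960*m^4 + 5108*m^3 + 15208*m^2 + 23936*m + 15488)*(1 - t0) := mul_nonneg (by positivity) (by linarith)
  have h6 : (0:ℝ) < (4*m^4 + 66*m^3 + 414*m^2 + 1155*m + 1196) := by positivity
  linarith

theorem q1334 {m : ℝ} (hm : 0 ≤ m) : Q m .e1 .e3 .e3 .e4 := by
  intro t0 t1 t2 t3 a0 b0 a1 b1 a2 b2 a3 b3 h1 h2 h3 h4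
  simp only [px, py, dx, dy] at h1 h2 h3 h4 ⊢
  exfalso
  have h : (24*m^10 + 944*m^9 + 16684*m^8 + 174300*m^7 + 1190710*m^6 + 5551322*m^5 + 17865960*m^4 + 39141513*m^3 + 55793044*m^2 + 46663589*m + 17368816)*t3 + (16*m^8 + 536*m^7 + 7832*m^6 + 65112*m^5 + 336342*m^4 + 1103433*m^3 + 2240506*m^2 + 2568461*m + 1270136) = 0 := by
    linear_combination (-8*m^7 - 220*m^6 - 2590*m^5 - 16886*m^4 - 65705*m^3 - 152242*m^2 - 194055*m - 104760)*h1 + (8*m^7 + 212*m^6 + 2406*m^5 + 15118*m^4 + 56640*m^3 + 126137*m^2 + 154106*m + 79443)*h2 + (4*m^7 + 108*m^6 + 1248*m^5 + 7978*m^4 + 30372*m^3 + 68600*m^2 + 84766*m + 44044)*h3 + (4*m^7 + 112*m^6 + 1342*m^5 + 8900*m^4 + 35192*m^3 + 82726*m^2 + 106700*m + 58080)*h4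
  have h5 : (0:ℝ) ≤ (24*m^10 + 944*m^9 + 16684*m^8 + 174300*m^7 + 1190710*m^6 + 5551322*m^5 + 17865960*m^4 + 39141513*m^3 + 55793044*m^2 + 46663589*m + 17368816)*t3 := mul_nonneg (by positivity) a3
  have h6 : (0:ℝ) < (16*m^8 + 536*m^7 + 7832*m^6 + 65112*m^5 + 336342*m^4 + 1103433*m^3 + 2240506*m^2 + 2568461*m + 1270136) := by positivity
  linarith

theorem q1335 {m : ℝ} (hm : 0 ≤ m) : Q m .e1 .e3 .e3 .e5 := by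
  intro t0 t1 t2 t3 a0 b0 a1 b1 a2 b2 a3 b3 h1 h2 h3 h4
  simp only [px, py, dx, dy] at h1 h2 h3 h4 ⊢
  exfalso
  have h : (12*m^7 + 328*m^6 + 3838*m^5 + 24864*m^4 + 96077*m^3 + 220842*m^2 + 278821*m + 148804)*(1 - t1) + (12*m^5 + 260*m^4 + 2238*m^3 + 9541*m^2 + 20049*m + 16484) = 0 := by
    linear_combination (2*m^4 + 34*m^3 + 215*m^2 + 595*m + 600)*h1 + (-2*m^4 - 32*m^3 - 190*m^2 - 491*m - 455)*h2 + (2*m^4 + 34*m^3 + 215*m^2 + 595*m + 600)*h3 + (-4*m^4 - 62*m^3 - 359*m^2 - 911*m - 844)*h4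
  have h5 : (0:ℝ) ≤ (12*m^7 + 328*m^6 + 3838*m^5 + 24864*m^4 + 96077*m^3 + 220842*m^2 + 278821*m + 148804)*(1 - t1) := mul_nonneg (by positivity) (by linarith)
  have h6 : (0:ℝ) < (12*m^5 + 260*m^4 + 2238*m^3 + 9541*m^2 + 20049*m + 16484) := by positivity
  linarith

theorem q1342 {m : ℝ} (hm : 0 ≤ m) : Q m .e1 .e3 .e4 .e2 := by
  intro t0 t1 t2 t3 a0 b0 a1 b1 a2 b2 a3 b3 h1 h2 h3 h4
  simp only [px, py, dx, dy] at h1 h2 h3 h4 ⊢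
  exfalso
  have h : (24*m^6 + 574*m^5 + 5782*m^4 + 31320*m^3 + 95975*m^2 + 157235*m + 107089)*(1 - t1) + (12*m^5 + 258*m^4 + 2266*m^3 + 10148*m^2 + 23215*m + 21767) = 0 := by
    linear_combination (4*m^3 + 58*m^2 + 278*m + 444)*h1 + (4*m^5 + 82*m^4 + 670*m^3 + 2716*m^2 + 5433*m + 4255)*h2 + (4*m^5 + 84*m^4 + 710*m^3 + 3014*m^2 + 6420*m + 5497)*h3 + (2*m^4 + 26*m^3 + 118*m^2 + 187*m + 17)*h4
  have h5 : (0:ℝ) ≤ (24*m^6 + 574*m^5 + 5782*m^4 + 31320*m^3 + 95975*m^2 + 157235*m + 107089)*(1 - t1) := mul_nonneg (by positivity) (by linarith)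
  have h6 : (0:ℝ) < (12*m^5 + 258*m^4 + 2266*m^3 + 10148*m^2 + 23215*m + 21767) := by positivity
  linarith

end Hex
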