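import Pool.Agent.helper91.HX.Def

/-! Squares inscribed in the hexagon: classes of edge quadruples, part 4. -/

namespace Hex

theorem q1343 {m : ℝ} (hm : 0 ≤ m) : Q m .e1 .e3 .e4 .e3 := by
  intro t0 t1 t2 t3 a0 b0 a1 b1 a2 b2 a3 b3 h1 h2 h3 h4
  simp only [px, py, dx, dy] at h1 h2 h3 h4 ⊢
  exfalso
  have h : (16*m^8 + 544*m^7 + 8066*m^6 + 68048*m^5 + 356736*m^4 + 1187773*m^3 + 2447206*m^2 + 2844957*m + 1424888)*(1 - t1) + (8*m^7 + 256*m^6 + 3522*m^5 + 26958*m^4 + 123720*m^3 + 339495*m^2 + 513695*m + 328552) = 0 := by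
    linear_combination (4*m^4 + 70*m^3 + 448*m^2 + 1222*m + 1140)*h1 + (4*m^6 + 94*m^5 + 912*m^4 + 4646*m^3 + 13009*m^2 + 18820*m + 10925)*h2 + (4*m^6 + 100*m^5 + 1046*m^4 + 5842*m^3 + 18310*m^2 + 30387*m + 20700)*h3 + (-2*m^5 - 48*m^4 - 450*m^3 - 2063*m^2 - 4594*m - 3908)*h4
  have h5 : (0:ℝ) ≤ (16*m^8 + 544*m^7 + 8066*m^6 + 68048*m^5 + 356736*m^4 + 1187773*m^3 + 2447206*m^2 + 2844957*m + 1424888)*(1 - t1) := mul_nonneg (by positivity) (by linarith)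
  have h6 : (0:ℝ) < (8*m^7 + 256*m^6 + 3522*m^5 + 26958*m^4 + 123720*m^3 + 339495*m^2 + 513695*m + 328552) := by positivity
  linarith

theorem q1344 {m : ℝ} (hm : 0 ≤ m) : Q m .e1 .e3 .e4 .e4 := by
  intro t0 t1 t2 t3 a0 b0 a1 b1 a2 b2 a3 b3 h1 h2 h3 h4
  simp only [px, py, dx, dy] at h1 h2 h3 h4 ⊢
  exfalso
  have h : (16*m^10 + 640*m^9 + 11492*m^8 + 121864*m^7 + 844232*m^6 + 3987688*m^5 + 12989952*m^4 + 28778364*m^3 + 41444571*m^2 + 34993670*m + 13142212)*(1 - t1) + (8*m^8 + 276*m^7 + 4144*m^6 + 35312*m^5 + 186444*m^4 + 623328*m^3 + 1285926*m^2 + 1494157*m + 748664) = 0 := by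
    linear_combination (-4*m^5 - 92*m^4 - 840*m^3 - 3798*m^2 - 8458*m - 7332)*h1 + (-4*m^7 - 116*m^6 - 1436*m^5 - 9816*m^4 - 39908*m^3 - 96186*m^2 - 126779*m - 70265)*h2 + (-4*m^5 - 88*m^4 - 764*m^3 - 3258*m^2 - 6764*m - 5376)*h3 + (-4*m^7 - 112*m^6 - 1336*m^5 - 8776*m^4 - 34172*m^3 - 78568*m^2 - 98347*m - 51520)*h4
  have h5 : (0:ℝ) ≤ (16*m^10 + 640*m^9 + 11492*m^8 + 121864*m^7 + 844232*m^6 + 3987688*m^5 + 12989952*m^4 + 28778364*m^3 + 41444571*m^2 + 34993670*m + 13142212)*(1 - t1) := mul_nonneg (by positivity) (by linarith)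
  have h6 : (0:ℝ) < (8*m^8 + 276*m^7 + 4144*m^6 + 35312*m^5 + 186444*m^4 + 623328*m^3 + 1285926*m^2 + 1494157*m + 748664) := by positivity
  linarith

theorem q1345 {m : ℝ} (hm : 0 ≤ m) : Q m .e1 .e3 .e4 .e5 := by
  intro t0 t1 t2 t3 a0 b0 a1 b1 a2 b2 a3 b3 h1 h2 h3 h4
  simp only [px, py, dx, dy] at h1 h2 h3 h4 ⊢
  exfalso
  have h : (8*m^7 + 224*m^6 + 2674*m^5 + 17592*m^4 + 68664*m^3 + 158399*m^2 + 199108*m + 104752)*(1 - t1) + (4*m^5 + 86*m^4 + 724*m^3 + 2942*m^2 + 5621*m + 3812) = 0 := by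
    linear_combination (-2*m^2 - 22*m - 60)*h1 + (-2*m^4 - 34*m^3 - 214*m^2 - 585*m - 575)*h2 + (-2*m^2 - 22*m - 60)*h3 + (-2*m^4 - 32*m^3 - 188*m^2 - 471*m - 412)*h4
  have h5 : (0:ℝ) ≤ (8*m^7 + 224*m^6 + 2674*m^5 + 17592*m^4 + 68664*m^3 + 158399*m^2 + 199108*m + 104752)*(1 - t1) := mul_nonneg (by positivity) (by linarith)
  have h6 : (0:ℝ) < (4*m^5 + 86*m^4 + 724*m^3 + 2942*m^2 + 5621*m + 3812) := by positivity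
  linarith

theorem q1352 {m : ℝ} (hm : 0 ≤ m) : Q m .e1 .e3 .e5 .e2 := by
  intro t0 t1 t2 t3 a0 b0 a1 b1 a2 b2 a3 b3 h1 h2 h3 h4
  simp only [px, py, dx, dy] at h1 h2 h3 h4 ⊢
  exfalso
  have h : (8*m^4 + 124*m^3 + 721*m^2 + 1843*m + 1721)*(1 - t1) + (4*m^3 + 56*m^2 + 275*m + 463) = 0 := by
    linear_combination (-2*m^2 - 17*m - 37)*h2 + (-2*m^2 - 16*m - 31)*h3 + (-3*m - 11)*h4
  have h5 : (0:ℝ) ≤ (8*m^4 + 124*m^3 + 721*m^2 + 1843*m + 1721)*(1 - t1) := mul_nonneg (by positivity) (by linarith)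
  have h6 : (0:ℝ) < (4*m^3 + 56*m^2 + 275*m + 463) := by positivity
  linarith

theorem q1353 {m : ℝ} (hm : 0 ≤ m) : Q m .e1 .e3 .e5 .e3 := by
  intro t0 t1 t2 t3 a0 b0 a1 b1 a2 b2 a3 b3 h1 h2 h3 h4
  simp only [px, py, dx, dy] at h1 h2 h3 h4 ⊢
  exfalso
  have h : (8*m^4 + 141*m^3 + 916*m^2 + 2589*m + 2636)*(1 - t1) + (2*m^3 + 37*m^2 + 227*m + 484) = 0 := by
    linear_combination (2*m^3 + 23*m^2 + 86*m + 95)*h2 + (2*m^3 + 24*m^2 + 95*m + 120)*h3 + (m^2 + 6*m + 4)*h4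
  have h5 : (0:ℝ) ≤ (8*m^4 + 141*m^3 + 916*m^2 + 2589*m + 2636)*(1 - t1) := mul_nonneg (by positivity) (by linarith)
  have h6 : (0:ℝ) < (2*m^3 + 37*m^2 + 227*m + 484) := by positivity
  linarith

theorem q1354 {m : ℝ} (hm : 0 ≤ m) : Q m .e1 .e3 .e5 .e4 := by
  intro t0 t1 t2 t3 a0 b0 a1 b1 a2 b2 a3 b3 h1 h2 h3 h4
  simp only [px, py, dx, dy] at h1 h2 h3 h4 ⊢
  exfalso
  have h : (8*m^7 + 224*m^6 + 2686*m^5 + 17848*m^4 + 70828*m^3 + 167451*m^2 + 217784*m + 119896)*t3 + (4*m^4 + 74*m^3 + 489*m^2 + 1373*m + 1340) = 0 := by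
    linear_combination (4*m^4 + 62*m^3 + 361*m^2 + 926*m + 873)*h2 + (4*m^4 + 64*m^3 + 383*m^2 + 1006*m + 964)*h3 + (2*m^3 + 24*m^2 + 95*m + 120)*h4
  have h5 : (0:ℝ) ≤ (8*m^7 + 224*m^6 + 2686*m^5 + 17848*m^4 + 70828*m^3 + 167451*m^2 + 217784*m + 119896)*t3 := mul_nonneg (by positivity) a3
  have h6 : (0:ℝ) < (4*m^4 + 74*m^3 + 489*m^2 + 1373*m + 1340) := by positivity
  linarith

theorem q1355 {m : ℝ} (hm : 0 ≤ m) : Q m .e1 .e3 .e5 .e5 := by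
  intro t0 t1 t2 t3 a0 b0 a1 b1 a2 b2 a3 b3 h1 h2 h3 h4
  simp only [px, py, dx, dy] at h1 h2 h3 h4 ⊢
  exfalso
  have h : (4*m^4 + 64*m^3 + 383*m^2 + 1006*m + 964)*(1 - t1) + (4*m^2 + 41*m + 104) = 0 := by
    linear_combination (-m - 5)*h2 + (-m - 4)*h4
  have h5 : (0:ℝ) ≤ (4*m^4 + 64*m^3 + 383*m^2 + 1006*m + 964)*(1 - t1) := mul_nonneg (by positivity) (by linarith)
  have h6 : (0:ℝ) < (4*m^2 + 41*m + 104) := by positivity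
  linarith

theorem q1414 {m : ℝ} (hm : 0 ≤ m) : Q m .e1 .e4 .e1 .e4 := by
  intro t0 t1 t2 t3 a0 b0 a1 b1 a2 b2 a3 b3 h1 h2 h3 h4
  simp only [px, py, dx, dy] at h1 h2 h3 h4 ⊢
  exfalso
  have h : (8*m^7 + 232*m^6 + 2880*m^5 + 19784*m^4 + 80972*m^3 + 196728*m^2 + 261558*m + 146048)*t3 + (8*m^5 + 188*m^4 + 1772*m^3 + 8352*m^2 + 19614*m + 18256) = 0 := by
    linear_combination (2*m^5 + 38*m^4 + 284*m^3 + 1031*m^2 + 1785*m + 1140)*h1 + (2*m^4 + 30*m^3 + 164*m^2 + 375*m + 285)*h2 + (2*m^5 + 42*m^4 + 350*m^3 + 1439*m^2 + 2893*m + 2240)*h3 + (-2*m^5 - 38*m^4 - 286*m^3 - 1059*m^2 - 1915*m - 1344)*h4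
  have h5 : (0:ℝ) ≤ (8*m^7 + 232*m^6 + 2880*m^5 + 19784*m^4 + 80972*m^3 + 196728*m^2 + 261558*m + 146048)*t3 := mul_nonneg (by positivity) a3
  have h6 : (0:ℝ) < (8*m^5 + 188*m^4 + 1772*m^3 + 8352*m^2 + 19614*m + 18256) := by positivity
  linarith

theorem q1415 {m : ℝ} (hm : 0 ≤ m) : Q m .e1 .e4 .e1 .e5 := by
  intro t0 t1 t2 t3 a0 b0 a1 b1 a2 b2 a3 b3 h1 h2 h3 h4
  simp only [px, py, dx, dy] at h1 h2 h3 h4 ⊢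
  exfalso
  have h : (8*m^6 + 196*m^5 + 2000*m^4 + 10856*m^3 + 32984*m^2 + 53056*m + 35200)*(1 - t0) + (4*m^5 + 92*m^4 + 828*m^3 + 3660*m^2 + 7940*m + 6736) = 0 := by
    linear_combination (2*m^4 + 32*m^3 + 190*m^2 + 491*m + 460)*h1 + (2*m^3 + 24*m^2 + 94*m + 115)*h2 + (2*m^4 + 32*m^3 + 190*m^2 + 491*m + 460)*h3 + (-2*m^4 - 32*m^3 - 192*m^2 - 509*m - 496)*h4
  have h5 : (0:ℝ) ≤ (8*m^6 + 196*m^5 + 2000*m^4 + 10856*m^3 + 32984*m^2 + 53056*m + 35200)*(1 - t0) := mul_nonneg (by positivity) (by linarith)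
  have h6 : (0:ℝ) < (4*m^5 + 92*m^4 + 828*m^3 + 3660*m^2 + 7940*m + 6736) := by positivity
  linarith

theorem q1422 {m : ℝ} (hm : 0 ≤ m) : Q m .e1 .e4 .e2 .e2 := by
  intro t0 t1 t2 t3 a0 b0 a1 b1 a2 b2 a3 b3 h1 h2 h3 h4
  simp only [px, py, dx, dy] at h1 h2 h3 h4 ⊢
  exfalso
  have h : (8*m^8 + 240*m^7 + 3132*m^6 + 23160*m^5 + 105786*m^4 + 304264*m^3 + 534700*m^2 + 519617*m + 209981)*t1 + (8*m^6 + 212*m^5 + 2308*m^4 + 13266*m^3 + 42576*m^2 + 72505*m + 51307) = 0 := by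
    linear_combination (4*m^4 + 66*m^3 + 408*m^2 + 1119*m + 1147)*h1 + (-4*m^4 - 62*m^3 - 364*m^2 - 960*m - 962)*h2 + (4*m^5 + 80*m^4 + 642*m^3 + 2582*m^2 + 5198*m + 4185)*h3 + (-4*m^5 - 76*m^4 - 584*m^3 - 2266*m^2 - 4438*m - 3510)*h4
  have h5 : (0:ℝ) ≤ (8*m^8 + 240*m^7 + 3132*m^6 + 23160*m^5 + 105786*m^4 + 304264*m^3 + 534700*m^2 + 519617*m + 209981)*t1 := mul_nonneg (by positivity) a1
  have h6 : (0:ℝ) < (8*m^6 + 212*m^5 + 2308*m^4 + 13266*m^3 + 42576*m^2 + 72505*m + 51307) := by positivity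
  linarith

theorem q1423 {m : ℝ} (hm : 0 ≤ m) : Q m .e1 .e4 .e2 .e3 := by
  intro t0 t1 t2 t3 a0 b0 a1 b1 a2 b2 a3 b3 h1 h2 h3 h4
  simp only [px, py, dx, dy] at h1 h2 h3 h4 ⊢
  exfalso
  have h : (8*m^9 + 272*m^8 + 4084*m^7 + 35460*m^6 + 195682*m^5 + 709432*m^4 + 1683092*m^3 + 2507491*m^2 + 2115873*m + 764845)*t1 + (16*m^7 + 464*m^6 + 5752*m^5 + 39438*m^4 + 161210*m^3 + 392016*m^2 + 523763*m + 295667) = 0 := by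
    linear_combination (4*m^5 + 78*m^4 + 602*m^3 + 2279*m^2 + 4186*m + 2945)*h1 + (-4*m^5 - 74*m^4 - 546*m^3 - 1992*m^2 - 3566*m - 2470)*h2 + (4*m^6 + 96*m^5 + 958*m^4 + 5072*m^3 + 14966*m^2 + 23216*m + 14705)*h3 + (-4*m^6 - 92*m^5 - 880*m^4 - 4466*m^3 - 12630*m^2 - 18777*m - 11388)*h4
  have h5 : (0:ℝ) ≤ (8*m^9 + 272*m^8 + 4084*m^7 + 35460*m^6 + 195682*m^5 + 709432*m^4 + 1683092*m^3 + 2507491*m^2 + 2115873*m + 764845)*t1 := mul_nonneg (by positivity) a1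
  have h6 : (0:ℝ) < (16*m^7 + 464*m^6 + 5752*m^5 + 39438*m^4 + 161210*m^3 + 392016*m^2 + 523763*m + 295667) := by positivity
  linarith

theorem q1424 {m : ℝ} (hm : 0 ≤ m) : Q m .e1 .e4 .e2 .e4 := by
  intro t0 t1 t2 t3 a0 b0 a1 b1 a2 b2 a3 b3 h1 h2 h3 h4
  simp only [px, py, dx, dy] at h1 h2 h3 h4 ⊢
  exfalso
  have h : (8*m^9 + 272*m^8 + 4072*m^7 + 35116*m^6 + 191464*m^5 + 680752*m^4 + 1566286*m^3 + 2222464*m^2 + 1729862*m + 540913)*t3 + (8*m^7 + 212*m^6 + 2368*m^5 + 14276*m^4 + 49176*m^3 + 93068*m^2 + 80932*m + 14711) = 0 := by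
    linear_combination (-4*m^6 - 92*m^5 - 870*m^4 - 4304*m^3 - 11654*m^2 - 16185*m - 8835)*h1 + (4*m^6 + 88*m^5 + 800*m^4 + 3826*m^3 + 10084*m^2 + 13740*m + 7410)*h2 + (-4*m^5 - 78*m^4 - 612*m^3 - 2412*m^2 - 4787*m - 3860)*h3 + (4*m^6 + 92*m^5 + 874*m^4 + 4372*m^3 + 12080*m^2 + 17353*m + 10011)*h4
  have h5 : (0:ℝ) ≤ (8*m^9 + 272*m^8 + 4072*m^7 + 35116*m^6 + 191464*m^5 + 680752*m^4 + 1566286*m^3 + 2222464*m^2 + 1729862*m + 540913)*t3 := mul_nonneg (by positivity) a3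
  have h6 : (0:ℝ) < (8*m^7 + 212*m^6 + 2368*m^5 + 14276*m^4 + 49176*m^3 + 93068*m^2 + 80932*m + 14711) := by positivity
  linarith

theorem q1425 {m : ℝ} (hm : 0 ≤ m) : Q m .e1 .e4 .e2 .e5 := by
  intro t0 t1 t2 t3 a0 b0 a1 b1 a2 b2 a3 b3 h1 h2 h3 h4
  simp only [px, py, dx, dy] at h1 h2 h3 h4 ⊢
  exfalso
  have h : (4*m^6 + 88*m^5 + 792*m^4 + 3692*m^3 + 9242*m^2 + 11398*m + 4975)*t1 + (8*m^4 + 142*m^3 + 930*m^2 + 2676*m + 2873) = 0 := by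
    linear_combination (2*m^3 + 26*m^2 + 111*m + 155)*h1 + (-2*m^3 - 24*m^2 - 96*m - 130)*h2 + (2*m^3 + 26*m^2 + 111*m + 155)*h3 + (-4*m^3 - 46*m^2 - 177*m - 228)*h4
  have h5 : (0:ℝ) ≤ (4*m^6 + 88*m^5 + 792*m^4 + 3692*m^3 + 9242*m^2 + 11398*m + 4975)*t1 := mul_nonneg (by positivity) a1
  have h6 : (0:ℝ) < (8*m^4 + 142*m^3 + 930*m^2 + 2676*m + 2873) := by positivity
  linarith

theorem q1432 {m : ℝ} (hm : 0 ≤ m) : Q m .e1 .e4 .e3 .e2 := by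
  intro t0 t1 t2 t3 a0 b0 a1 b1 a2 b2 a3 b3 h1 h2 h3 h4
  simp only [px, py, dx, dy] at h1 h2 h3 h4 ⊢
  exfalso
  have h : (8*m^9 + 272*m^8 + 4092*m^7 + 35672*m^6 + 198062*m^5 + 723966*m^4 + 1734534*m^3 + 2610707*m^2 + 2220020*m + 801323)*t1 + (8*m^7 + 252*m^6 + 3356*m^5 + 24580*m^4 + 107122*m^3 + 277970*m^2 + 397507*m + 241249) = 0 := by
    linear_combination (4*m^5 + 82*m^4 + 672*m^3 + 2743*m^2 + 5555*m + 4440)*h1 + (-4*m^5 - 78*m^4 - 608*m^3 - 2356*m^2 - 4507*m - 3367)*h2 + (4*m^6 + 96*m^5 + 962*m^4 + 5146*m^3 + 15480*m^2 + 24799*m + 16499)*h3 + (-4*m^6 - 92*m^5 - 888*m^4 - 4594*m^3 - 13408*m^2 - 20873*m - 13481)*h4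
  have h5 : (0:ℝ) ≤ (8*m^9 + 272*m^8 + 4092*m^7 + 35672*m^6 + 198062*m^5 + 723966*m^4 + 1734534*m^3 + 2610707*m^2 + 2220020*m + 801323)*t1 := mul_nonneg (by positivity) a1
  have h6 : (0:ℝ) < (8*m^7 + 252*m^6 + 3356*m^5 + 24580*m^4 + 107122*m^3 + 277970*m^2 + 397507*m + 241249) := by positivity
  linarith

theorem q1433 {m : ℝ} (hm : 0 ≤ m) : Q m .e1 .e4 .e3 .e3 := by
  intro t0 t1 t2 t3 a0 b0 a1 b1 a2 b2 a3 b3 h1 h2 h3 h4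
  simp only [px, py, dx, dy] at h1 h2 h3 h4 ⊢
  exfalso
  have h : (8*m^10 + 304*m^9 + 5172*m^8 + 51780*m^7 + 337102*m^6 + 1487478*m^5 + 4492256*m^4 + 9137617*m^3 + 11933160*m^2 + 8992989*m + 2953360)*(1 - t2) + (8*m^8 + 268*m^7 + 3900*m^6 + 32120*m^5 + 163232*m^4 + 521992*m^3 + 1020240*m^2 + 1106469*m + 505400) = 0 := by
    linear_combination (2*m^5 + 36*m^4 + 248*m^3 + 805*m^2 + 1224*m + 760)*h1 + (4*m^7 + 104*m^6 + 1146*m^5 + 6900*m^4 + 24352*m^3 + 49941*m^2 + 54479*m + 24035)*h2 + (4*m^7 + 108*m^6 + 1240*m^5 + 7812*m^4 + 28998*m^3 + 62950*m^2 + 73299*m + 34960)*h3 + (-2*m^5 - 40*m^4 - 318*m^3 - 1253*m^2 - 2446*m - 1900)*h4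
  have h5 : (0:ℝ) ≤ (8*m^10 + 304*m^9 + 5172*m^8 + 51780*m^7 + 337102*m^6 + 1487478*m^5 + 4492256*m^4 + 9137617*m^3 + 11933160*m^2 + 8992989*m + 2953360)*(1 - t2) := mul_nonneg (by positivity) (by linarith)
  have h6 : (0:ℝ) < (8*m^8 + 268*m^7 + 3900*m^6 + 32120*m^5 + 163232*m^4 + 521992*m^3 + 1020240*m^2 + 1106469*m + 505400) := by positivity
  linarith

theorem q1434 {m : ℝ} (hm : 0 ≤ m) : Q m .e1 .e4 .e3 .e4 := by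
  intro t0 t1 t2 t3 a0 b0 a1 b1 a2 b2 a3 b3 h1 h2 h3 h4
  simp only [px, py, dx, dy] at h1 h2 h3 h4 ⊢
  exfalso
  have h : (8*m^10 + 304*m^9 + 5152*m^8 + 51128*m^7 + 327816*m^6 + 1412112*m^5 + 4111578*m^4 + 7914304*m^3 + 9495552*m^2 + 6245528*m + 1615804)*(1 - t2) + (8*m^8 + 276*m^7 + 4144*m^6 + 35312*m^5 + 186444*m^4 + 623328*m^3 + 1285926*m^2 + 1494157*m + 748664) = 0 := by
    linear_combination (4*m^7 + 112*m^6 + 1336*m^5 + 8772*m^4 + 34096*m^3 + 78028*m^2 + 96653*m + 49564)*h1 + (-4*m^6 - 104*m^5 - 1128*m^4 - 6500*m^3 - 20876*m^2 - 35196*m - 24121)*h2 + (4*m^7 + 112*m^6 + 1332*m^5 + 8688*m^4 + 33408*m^3 + 75310*m^2 + 91583*m + 46144)*h3 + (-4*m^7 - 112*m^6 - 1340*m^5 - 8864*m^4 - 34936*m^3 - 81826*m^2 - 105111*m - 56896)*h4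
  have h5 : (0:ℝ) ≤ (8*m^10 + 304*m^9 + 5152*m^8 + 51128*m^7 + 327816*m^6 + 1412112*m^5 + 4111578*m^4 + 7914304*m^3 + 9495552*m^2 + 6245528*m + 1615804)*(1 - t2) := mul_nonneg (by positivity) (by linarith)
  have h6 : (0:ℝ) < (8*m^8 + 276*m^7 + 4144*m^6 + 35312*m^5 + 186444*m^4 + 623328*m^3 + 1285926*m^2 + 1494157*m + 748664) := by positivity
  linarith

theorem q1435 {m : ℝ} (hm : 0 ≤ m) : Q m .e1 .e4 .e3 .e5 := by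
  intro t0 t1 t2 t3 a0 b0 a1 b1 a2 b2 a3 b3 h1 h2 h3 h4
  simp only [px, py, dx, dy] at h1 h2 h3 h4 ⊢
  exfalso
  have h : (4*m^7 + 104*m^6 + 1140*m^5 + 6770*m^4 + 23226*m^3 + 45088*m^2 + 44134*m + 15400)*t1 + (12*m^5 + 260*m^4 + 2238*m^3 + 9541*m^2 + 20049*m + 16484) = 0 := by
    linear_combination (2*m^4 + 34*m^3 + 215*m^2 + 595*m + 600)*h1 + (-2*m^4 - 32*m^3 - 190*m^2 - 491*m - 455)*h2 + (2*m^4 + 34*m^3 + 215*m^2 + 595*m + 600)*h3 + (-4*m^4 - 62*m^3 - 359*m^2 - 911*m - 844)*h4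
  have h5 : (0:ℝ) ≤ (4*m^7 + 104*m^6 + 1140*m^5 + 6770*m^4 + 23226*m^3 + 45088*m^2 + 44134*m + 15400)*t1 := mul_nonneg (by positivity) a1
  have h6 : (0:ℝ) < (12*m^5 + 260*m^4 + 2238*m^3 + 9541*m^2 + 20049*m + 16484) := by positivity
  linarith

theorem q1442 {m : ℝ} (hm : 0 ≤ m) : Q m .e1 .e4 .e4 .e2 := by
  intro t0 t1 t2 t3 a0 b0 a1 b1 a2 b2 a3 b3 h1 h2 h3 h4
  simp only [px, py, dx, dy] at h1 h2 h3 h4 ⊢
  exfalso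
  have h : (4*m^7 + 108*m^6 + 1264*m^5 + 8308*m^4 + 33152*m^3 + 80564*m^2 + 111137*m + 67919)*t2 + (16*m^6 + 380*m^5 + 3778*m^4 + 20070*m^3 + 59884*m^2 + 94663*m + 61393) = 0 := by
    linear_combination (6*m^4 + 94*m^3 + 544*m^2 + 1355*m + 1193)*h1 + (4*m^6 + 88*m^5 + 794*m^4 + 3728*m^3 + 9482*m^2 + 12107*m + 5773)*h2 + (4*m^6 + 92*m^5 + 876*m^4 + 4398*m^3 + 12198*m^2 + 17540*m + 10028)*h3 + (-6*m^4 - 98*m^3 - 602*m^2 - 1633*m - 1637)*h4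
  have h5 : (0:ℝ) ≤ (4*m^7 + 108*m^6 + 1264*m^5 + 8308*m^4 + 33152*m^3 + 80564*m^2 + 111137*m + 67919)*t2 := mul_nonneg (by positivity) a2
  have h6 : (0:ℝ) < (16*m^6 + 380*m^5 + 3778*m^4 + 20070*m^3 + 59884*m^2 + 94663*m + 61393) := by positivity
  linarith

theorem q1443 {m : ℝ} (hm : 0 ≤ m) : Q m .e1 .e4 .e4 .e3 := by
  intro t0 t1 t2 t3 a0 b0 a1 b1 a2 b2 a3 b3 h1 h2 h3 h4
  simp only [px, py, dx, dy] at h1 h2 h3 h4 ⊢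
  exfalso
  have h : (4*m^8 + 136*m^7 + 1992*m^6 + 16376*m^5 + 82284*m^4 + 257020*m^3 + 482379*m^2 + 489618*m + 201020)*t1 + (8*m^7 + 256*m^6 + 3522*m^5 + 26958*m^4 + 123720*m^3 + 339495*m^2 + 513695*m + 328552) = 0 := by
    linear_combination (4*m^4 + 70*m^3 + 448*m^2 + 1222*m + 1140)*h1 + (4*m^6 + 94*m^5 + 912*m^4 + 4646*m^3 + 13009*m^2 + 18820*m + 10925)*h2 + (4*m^6 + 100*m^5 + 1046*m^4 + 5842*m^3 + 18310*m^2 + 30387*m + 20700)*h3 + (-2*m^5 - 48*m^4 - 450*m^3 - 2063*m^2 - 4594*m - 3908)*h4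
  have h5 : (0:ℝ) ≤ (4*m^8 + 136*m^7 + 1992*m^6 + 16376*m^5 + 82284*m^4 + 257020*m^3 + 482379*m^2 + 489618*m + 201020)*t1 := mul_nonneg (by positivity) a1
  have h6 : (0:ℝ) < (8*m^7 + 256*m^6 + 3522*m^5 + 26958*m^4 + 123720*m^3 + 339495*m^2 + 513695*m + 328552) := by positivity
  linarith

theorem q1444 {m : ℝ} (hm : 0 ≤ m) : Q m .e1 .e4 .e4 .e4 := by
  intro t0 t1 t2 t3 a0 b0 a1 b1 a2 b2 a3 b3 h1 h2 h3 h4
  simp only [px, py, dx, dy] at h1 h2 h3 h4 ⊢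
  exfalso
  have h : (8*m^10 + 320*m^9 + 5736*m^8 + 60604*m^7 + 417440*m^6 + 1956072*m^5 + 6306318*m^4 + 13794224*m^3 + 19569042*m^2 + 16244705*m + 5989312)*t3 + (8*m^8 + 276*m^7 + 4144*m^6 + 35312*m^5 + 186444*m^4 + 623328*m^3 + 1285926*m^2 + 1494157*m + 748664) = 0 := by
    linear_combination (4*m^5 + 84*m^4 + 688*m^3 + 2718*m^2 + 5070*m + 3420)*h1 + (4*m^7 + 108*m^6 + 1236*m^5 + 7736*m^4 + 28436*m^3 + 60950*m^2 + 69915*m + 32775)*h2 + (4*m^7 + 112*m^6 + 1336*m^5 + 8776*m^4 + 34172*m^3 + 78568*m^2 + 98347*m + 51520)*h3 + (-4*m^5 - 88*m^4 - 764*m^3 - 3258*m^2 - 6764*m - 5376)*h4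
  have h5 : (0:ℝ) ≤ (8*m^10 + 320*m^9 + 5736*m^8 + 60604*m^7 + 417440*m^6 + 1956072*m^5 + 6306318*m^4 + 13794224*m^3 + 19569042*m^2 + 16244705*m + 5989312)*t3 := mul_nonneg (by positivity) a3
  have h6 : (0:ℝ) < (8*m^8 + 276*m^7 + 4144*m^6 + 35312*m^5 + 186444*m^4 + 623328*m^3 + 1285926*m^2 + 1494157*m + 748664) := by positivity
  linarith

theorem q1445 {m : ℝ} (hm : 0 ≤ m) : Q m .e1 .e4 .e4 .e5 := by
  intro t0 t1 t2 t3 a0 b0 a1 b1 a2 b2 a3 b3 h1 h2 h3 h4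
  simp only [px, py, dx, dy] at h1 h2 h3 h4 ⊢
  exfalso
  have h : (4*m^7 + 112*m^6 + 1332*m^5 + 8692*m^4 + 33484*m^3 + 75850*m^2 + 93277*m + 48100)*t1 + (4*m^5 + 86*m^4 + 724*m^3 + 2942*m^2 + 5621*m + 3812) = 0 := by
    linear_combination (-2*m^2 - 22*m - 60)*h1 + (-2*m^4 - 34*m^3 - 214*m^2 - 585*m - 575)*h2 + (-2*m^2 - 22*m - 60)*h3 + (-2*m^4 - 32*m^3 - 188*m^2 - 471*m - 412)*h4
  have h5 : (0:ℝ) ≤ (4*m^7 + 112*m^6 + 1332*m^5 + 8692*m^4 + 33484*m^3 + 75850*m^2 + 93277*m + 48100)*t1 := mul_nonneg (by positivity) a1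
  have h6 : (0:ℝ) < (4*m^5 + 86*m^4 + 724*m^3 + 2942*m^2 + 5621*m + 3812) := by positivity
  linarith

theorem q1452 {m : ℝ} (hm : 0 ≤ m) : Q m .e1 .e4 .e5 .e2 := by
  intro t0 t1 t2 t3 a0 b0 a1 b1 a2 b2 a3 b3 h1 h2 h3 h4
  simp only [px, py, dx, dy] at h1 h2 h3 h4 ⊢
  exfalso
  have h : (6*m^4 + 94*m^3 + 544*m^2 + 1355*m + 1193)*t1 + (4*m^3 + 56*m^2 + 275*m + 463) = 0 := by
    linear_combination (-2*m^2 - 17*m - 37)*h2 + (-2*m^2 - 16*m - 31)*h3 + (-3*m - 11)*h4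
  have h5 : (0:ℝ) ≤ (6*m^4 + 94*m^3 + 544*m^2 + 1355*m + 1193)*t1 := mul_nonneg (by positivity) a1
  have h6 : (0:ℝ) < (4*m^3 + 56*m^2 + 275*m + 463) := by positivity
  linarith

theorem q1453 {m : ℝ} (hm : 0 ≤ m) : Q m .e1 .e4 .e5 .e3 := by
  intro t0 t1 t2 t3 a0 b0 a1 b1 a2 b2 a3 b3 h1 h2 h3 h4
  simp only [px, py, dx, dy] at h1 h2 h3 h4 ⊢
  exfalso
  have h : (2*m^5 + 36*m^4 + 248*m^3 + 805*m^2 + 1224*m + 760)*(1 - t3) + (6*m^4 + 112*m^3 + 764*m^2 + 2245*m + 2348) = 0 := by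
    linear_combination (2*m^4 + 30*m^3 + 164*m^2 + 375*m + 285)*h2 + (2*m^4 + 32*m^3 + 188*m^2 + 469*m + 400)*h3 + (-2*m - 12)*h4
  have h5 : (0:ℝ) ≤ (2*m^5 + 36*m^4 + 248*m^3 + 805*m^2 + 1224*m + 760)*(1 - t3) := mul_nonneg (by positivity) (by linarith)
  have h6 : (0:ℝ) < (6*m^4 + 112*m^3 + 764*m^2 + 2245*m + 2348) := by positivity
  linarith

theorem q1454 {m : ℝ} (hm : 0 ≤ m) : Q m .e1 .e4 .e5 .e4 := by
  intro t0 t1 t2 t3 a0 b0 a1 b1 a2 b2 a3 b3 h1 h2 h3 h4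
  simp only [px, py, dx, dy] at h1 h2 h3 h4 ⊢
  exfalso
  have h : (4*m^7 + 112*m^6 + 1336*m^5 + 8772*m^4 + 34096*m^3 + 78028*m^2 + 96653*m + 49564)*t3 + (6*m^4 + 112*m^3 + 764*m^2 + 2245*m + 2348) = 0 := by
    linear_combination (2*m^4 + 30*m^3 + 164*m^2 + 375*m + 285)*h2 + (2*m^4 + 32*m^3 + 188*m^2 + 469*m + 400)*h3 + (-2*m - 12)*h4
  have h5 : (0:ℝ) ≤ (4*m^7 + 112*m^6 + 1336*m^5 + 8772*m^4 + 34096*m^3 + 78028*m^2 + 96653*m + 49564)*t3 := mul_nonneg (by positivity) a3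
  have h6 : (0:ℝ) < (6*m^4 + 112*m^3 + 764*m^2 + 2245*m + 2348) := by positivity
  linarith

theorem q1455 {m : ℝ} (hm : 0 ≤ m) : Q m .e1 .e4 .e5 .e5 := by
  intro t0 t1 t2 t3 a0 b0 a1 b1 a2 b2 a3 b3 h1 h2 h3 h4
  simp only [px, py, dx, dy] at h1 h2 h3 h4 ⊢
  exfalso
  have h : (2*m^4 + 32*m^3 + 188*m^2 + 469*m + 400)*t1 + (4*m^2 + 41*m + 104) = 0 := by
    linear_combination (-m - 5)*h2 + (-m - 4)*h4
  have h5 : (0:ℝ) ≤ (2*m^4 + 32*m^3 + 188*m^2 + 469*m + 400)*t1 := mul_nonneg (by positivity) a1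
  have h6 : (0:ℝ) < (4*m^2 + 41*m + 104) := by positivity
  linarith

theorem q1515 {m : ℝ} (hm : 0 ≤ m) : Q m .e1 .e5 .e1 .e5 := by
  intro t0 t1 t2 t3 a0 b0 a1 b1 a2 b2 a3 b3 h1 h2 h3 h4
  simp only [px, py, dx, dy] at h1 h2 h3 h4 ⊢
  exfalso
  have h : (4*m^3 + 48*m^2 + 192*m + 256)*(1 - t2) + (4*m + 16) = 0 := by
    linear_combination (-m - 4)*h1 + 1*h2 + (-m - 4)*h3 + (m + 4)*h4
  have h5 : (0:ℝ) ≤ (4*m^3 + 48*m^2 + 192*m + 256)*(1 - t2) := mul_nonneg (by positivity) (by linarith)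
  have h6 : (0:ℝ) < (4*m + 16) := by positivity
  linarith

theorem q1522 {m : ℝ} (hm : 0 ≤ m) : Q m .e1 .e5 .e2 .e2 := by
  intro t0 t1 t2 t3 a0 b0 a1 b1 a2 b2 a3 b3 h1 h2 h3 h4
  simp only [px, py, dx, dy] at h1 h2 h3 h4 ⊢
  exfalso
  have h : (4*m^6 + 88*m^5 + 806*m^4 + 3930*m^3 + 10751*m^2 + 15639*m + 9452)*t3 + (4*m^4 + 60*m^3 + 338*m^2 + 844*m + 784) = 0 := by
    linear_combination (-2*m^3 - 22*m^2 - 79*m - 93)*h1 + (2*m^3 + 20*m^2 + 68*m + 78)*h2 + (-2*m^2 - 13*m - 20)*h3 + (2*m^3 + 22*m^2 + 79*m + 93)*h4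
  have h5 : (0:ℝ) ≤ (4*m^6 + 88*m^5 + 806*m^4 + 3930*m^3 + 10751*m^2 + 15639*m + 9452)*t3 := mul_nonneg (by positivity) a3
  have h6 : (0:ℝ) < (4*m^4 + 60*m^3 + 338*m^2 + 844*m + 784) := by positivity
  linarith

theorem q1523 {m : ℝ} (hm : 0 ≤ m) : Q m .e1 .e5 .e2 .e3 := by
  intro t0 t1 t2 t3 a0 b0 a1 b1 a2 b2 a3 b3 h1 h2 h3 h4
  simp only [px, py, dx, dy] at h1 h2 h3 h4 ⊢
  exfalso
  have h : (4*m^6 + 88*m^5 + 802*m^4 + 3864*m^3 + 10351*m^2 + 14591*m + 8443)*(1 - t3) + (8*m^4 + 126*m^3 + 738*m^2 + 1892*m + 1793) = 0 := by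
    linear_combination (-2*m^3 - 22*m^2 - 79*m - 93)*h1 + (2*m^3 + 20*m^2 + 68*m + 78)*h2 + (-2*m^2 - 13*m - 20)*h3 + (2*m^3 + 22*m^2 + 79*m + 93)*h4
  have h5 : (0:ℝ) ≤ (4*m^6 + 88*m^5 + 802*m^4 + 3864*m^3 + 10351*m^2 + 14591*m + 8443)*(1 - t3) := mul_nonneg (by positivity) (by linarith)
  have h6 : (0:ℝ) < (8*m^4 + 126*m^3 + 738*m^2 + 1892*m + 1793) := by positivity
  linarith

theorem q1524 {m : ℝ} (hm : 0 ≤ m) : Q m .e1 .e5 .e2 .e4 := by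
  intro t0 t1 t2 t3 a0 b0 a1 b1 a2 b2 a3 b3 h1 h2 h3 h4
  simp only [px, py, dx, dy] at h1 h2 h3 h4 ⊢
  exfalso
  have h : (4*m^6 + 88*m^5 + 800*m^4 + 3836*m^3 + 10210*m^2 + 14290*m + 8215)*t3 + (8*m^4 + 126*m^3 + 738*m^2 + 1892*m + 1793) = 0 := by
    linear_combination (-2*m^3 - 22*m^2 - 79*m - 93)*h1 + (2*m^3 + 20*m^2 + 68*m + 78)*h2 + (-2*m^2 - 13*m - 20)*h3 + (2*m^3 + 22*m^2 + 79*m + 93)*h4
  have h5 : (0:ℝ) ≤ (4*m^6 + 88*m^5 + 800*m^4 + 3836*m^3 + 10210*m^2 + 14290*m + 8215)*t3 := mul_nonneg (by positivity) a3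
  have h6 : (0:ℝ) < (8*m^4 + 126*m^3 + 738*m^2 + 1892*m + 1793) := by positivity
  linarith

theorem q1525 {m : ℝ} (hm : 0 ≤ m) : Q m .e1 .e5 .e2 .e5 := by
  intro t0 t1 t2 t3 a0 b0 a1 b1 a2 b2 a3 b3 h1 h2 h3 h4
  simp only [px, py, dx, dy] at h1 h2 h3 h4 ⊢
  exfalso
  have h : (4*m^5 + 72*m^4 + 516*m^3 + 1842*m^2 + 3280*m + 2336)*(1 - t0) + (8*m^3 + 88*m^2 + 328*m + 416) = 0 := by
    linear_combination (-2*m^2 - 16*m - 31)*h1 + (2*m^2 + 14*m + 26)*h2 + (-2*m^2 - 16*m - 31)*h3 + (2*m^2 + 16*m + 31)*h4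
  have h5 : (0:ℝ) ≤ (4*m^5 + 72*m^4 + 516*m^3 + 1842*m^2 + 3280*m + 2336)*(1 - t0) := mul_nonneg (by positivity) (by linarith)
  have h6 : (0:ℝ) < (8*m^3 + 88*m^2 + 328*m + 416) := by positivity
  linarith

theorem q1532 {m : ℝ} (hm : 0 ≤ m) : Q m .e1 .e5 .e3 .e2 := by
  intro t0 t1 t2 t3 a0 b0 a1 b1 a2 b2 a3 b3 h1 h2 h3 h4
  simp only [px, py, dx, dy] at h1 h2 h3 h4 ⊢
  exfalso
  have h : (4*m^6 + 88*m^5 + 806*m^4 + 3922*m^3 + 10665*m^2 + 15318*m + 9041)*(1 - t2) + (4*m^3 + 36*m^2 + 111*m + 115) = 0 := by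
    linear_combination (3*m + 11)*h1 + (2*m^3 + 20*m^2 + 65*m + 67)*h2 + (2*m^3 + 22*m^2 + 82*m + 104)*h3 + (-3*m - 11)*h4
  have h5 : (0:ℝ) ≤ (4*m^6 + 88*m^5 + 806*m^4 + 3922*m^3 + 10665*m^2 + 15318*m + 9041)*(1 - t2) := mul_nonneg (by positivity) (by linarith)
  have h6 : (0:ℝ) < (4*m^3 + 36*m^2 + 111*m + 115) := by positivity
  linarith

theorem q1533 {m : ℝ} (hm : 0 ≤ m) : Q m .e1 .e5 .e3 .e3 := by
  intro t0 t1 t2 t3 a0 b0 a1 b1 a2 b2 a3 b3 h1 h2 h3 h4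
  simp only [px, py, dx, dy] at h1 h2 h3 h4 ⊢
  exfalso
  have h : (4*m^7 + 104*m^6 + 1154*m^5 + 7064*m^4 + 25693*m^3 + 55390*m^2 + 65421*m + 32644)*(1 - t2) + (4*m^5 + 82*m^4 + 664*m^3 + 2646*m^2 + 5169*m + 3956) = 0 := by
    linear_combination (m^2 + 6*m + 4)*h1 + (2*m^4 + 28*m^3 + 145*m^2 + 325*m + 269)*h2 + (2*m^4 + 30*m^3 + 168*m^2 + 411*m + 364)*h3 + (-m^2 - 6*m - 4)*h4
  have h5 : (0:ℝ) ≤ (4*m^7 + 104*m^6 + 1154*m^5 + 7064*m^4 + 25693*m^3 + 55390*m^2 + 65421*m + 32644)*(1 - t2) := mul_nonneg (by positivity) (by linarith)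
  have h6 : (0:ℝ) < (4*m^5 + 82*m^4 + 664*m^3 + 2646*m^2 + 5169*m + 3956) := by positivity
  linarith

theorem q1534 {m : ℝ} (hm : 0 ≤ m) : Q m .e1 .e5 .e3 .e4 := by
  intro t0 t1 t2 t3 a0 b0 a1 b1 a2 b2 a3 b3 h1 h2 h3 h4
  simp only [px, py, dx, dy] at h1 h2 h3 h4 ⊢
  exfalso
  have h : (4*m^7 + 104*m^6 + 1148*m^5 + 6946*m^4 + 24762*m^3 + 51720*m^2 + 58214*m + 27016)*t3 + (4*m^5 + 80*m^4 + 626*m^3 + 2383*m^2 + 4369*m + 3044) = 0 := by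
    linear_combination (-2*m^4 - 30*m^3 - 167*m^2 - 405*m - 360)*h1 + (2*m^4 + 28*m^3 + 146*m^2 + 331*m + 273)*h2 + (-2*m^3 - 23*m^2 - 89*m - 116)*h3 + (2*m^4 + 30*m^3 + 167*m^2 + 405*m + 360)*h4
  have h5 : (0:ℝ) ≤ (4*m^7 + 104*m^6 + 1148*m^5 + 6946*m^4 + 24762*m^3 + 51720*m^2 + 58214*m + 27016)*t3 := mul_nonneg (by positivity) a3
  have h6 : (0:ℝ) < (4*m^5 + 80*m^4 + 626*m^3 + 2383*m^2 + 4369*m + 3044) := by positivity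
  linarith

theorem q1535 {m : ℝ} (hm : 0 ≤ m) : Q m .e1 .e5 .e3 .e5 := by
  intro t0 t1 t2 t3 a0 b0 a1 b1 a2 b2 a3 b3 h1 h2 h3 h4
  simp only [px, py, dx, dy] at h1 h2 h3 h4 ⊢
  exfalso
  have h : (2*m^4 + 28*m^3 + 144*m^2 + 316*m + 244)*(1 - t2) + (2*m^2 + 17*m + 32) = 0 := by
    linear_combination (m + 4)*h1 + (-1)*h2 + (m + 4)*h3 + (-m - 4)*h4
  have h5 : (0:ℝ) ≤ (2*m^4 + 28*m^3 + 144*m^2 + 316*m + 244)*(1 - t2) := mul_nonneg (by positivity) (by linarith)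
  have h6 : (0:ℝ) < (2*m^2 + 17*m + 32) := by positivity
  linarith

theorem q1542 {m : ℝ} (hm : 0 ≤ m) : Q m .e1 .e5 .e4 .e2 := by
  intro t0 t1 t2 t3 a0 b0 a1 b1 a2 b2 a3 b3 h1 h2 h3 h4
  simp only [px, py, dx, dy] at h1 h2 h3 h4 ⊢
  exfalso
  have h : (2*m^4 + 30*m^3 + 176*m^2 + 465*m + 461)*t2 + (4*m^3 + 36*m^2 + 111*m + 115) = 0 := by
    linear_combination (3*m + 11)*h1 + (2*m^3 + 20*m^2 + 65*m + 67)*h2 + (2*m^3 + 22*m^2 + 82*m + 104)*h3 + (-3*m - 11)*h4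
  have h5 : (0:ℝ) ≤ (2*m^4 + 30*m^3 + 176*m^2 + 465*m + 461)*t2 := mul_nonneg (by positivity) a2
  have h6 : (0:ℝ) < (4*m^3 + 36*m^2 + 111*m + 115) := by positivity
  linarith

theorem q1543 {m : ℝ} (hm : 0 ≤ m) : Q m .e1 .e5 .e4 .e3 := by
  intro t0 t1 t2 t3 a0 b0 a1 b1 a2 b2 a3 b3 h1 h2 h3 h4
  simp only [px, py, dx, dy] at h1 h2 h3 h4 ⊢
  exfalso
  have h : (2*m^5 + 44*m^4 + 380*m^3 + 1615*m^2 + 3372*m + 2768)*(1 - t2) + (2*m^5 + 38*m^4 + 284*m^3 + 1031*m^2 + 1797*m + 1188) = 0 := by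
    linear_combination (m^2 + 6*m + 4)*h1 + (2*m^4 + 28*m^3 + 145*m^2 + 325*m + 269)*h2 + (2*m^4 + 30*m^3 + 168*m^2 + 411*m + 364)*h3 + (-m^2 - 6*m - 4)*h4
  have h5 : (0:ℝ) ≤ (2*m^5 + 44*m^4 + 380*m^3 + 1615*m^2 + 3372*m + 2768)*(1 - t2) := mul_nonneg (by positivity) (by linarith)
  have h6 : (0:ℝ) < (2*m^5 + 38*m^4 + 284*m^3 + 1031*m^2 + 1797*m + 1188) := by positivity
  linarith

theorem q1544 {m : ℝ} (hm : 0 ≤ m) : Q m .e1 .e5 .e4 .e4 := by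
  intro t0 t1 t2 t3 a0 b0 a1 b1 a2 b2 a3 b3 h1 h2 h3 h4
  simp only [px, py, dx, dy] at h1 h2 h3 h4 ⊢
  exfalso
  have h : (4*m^7 + 112*m^6 + 1340*m^5 + 8868*m^4 + 35012*m^3 + 82366*m^2 + 106805*m + 58852)*t3 + (4*m^5 + 86*m^4 + 732*m^3 + 3074*m^2 + 6349*m + 5156) = 0 := by
    linear_combination (2*m^2 + 18*m + 36)*h1 + (2*m^4 + 30*m^3 + 166*m^2 + 397*m + 345)*h2 + (2*m^4 + 32*m^3 + 192*m^2 + 511*m + 508)*h3 + (-2*m^2 - 18*m - 36)*h4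
  have h5 : (0:ℝ) ≤ (4*m^7 + 112*m^6 + 1340*m^5 + 8868*m^4 + 35012*m^3 + 82366*m^2 + 106805*m + 58852)*t3 := mul_nonneg (by positivity) a3
  have h6 : (0:ℝ) < (4*m^5 + 86*m^4 + 732*m^3 + 3074*m^2 + 6349*m + 5156) := by positivity
  linarith

theorem q1545 {m : ℝ} (hm : 0 ≤ m) : Q m .e1 .e5 .e4 .e5 := by
  intro t0 t1 t2 t3 a0 b0 a1 b1 a2 b2 a3 b3 h1 h2 h3 h4
  simp only [px, py, dx, dy] at h1 h2 h3 h4 ⊢
  exfalso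
  have h : (2*m^4 + 32*m^3 + 190*m^2 + 493*m + 472)*t2 + (2*m^2 + 17*m + 32) = 0 := by
    linear_combination (m + 4)*h1 + (-1)*h2 + (m + 4)*h3 + (-m - 4)*h4
  have h5 : (0:ℝ) ≤ (2*m^4 + 32*m^3 + 190*m^2 + 493*m + 472)*t2 := mul_nonneg (by positivity) a2
  have h6 : (0:ℝ) < (2*m^2 + 17*m + 32) := by positivity
  linarith

theorem q1552 {m : ℝ} (hm : 0 ≤ m) : Q m .e1 .e5 .e5 .e2 := by
  intro t0 t1 t2 t3 a0 b0 a1 b1 a2 b2 a3 b3 h1 h2 h3 h4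
  simp only [px, py, dx, dy] at h1 h2 h3 h4 ⊢
  exfalso
  have h : (6*m^4 + 97*m^3 + 587*m^2 + 1576*m + 1584)*(1 - t1) + (m^3 + 13*m^2 + 54*m + 72) = 0 := by
    linear_combination (-2*m^2 - 17*m - 37)*h2 + (-2*m^2 - 16*m - 31)*h3 + (-3*m - 11)*h4
  have h5 : (0:ℝ) ≤ (6*m^4 + 97*m^3 + 587*m^2 + 1576*m + 1584)*(1 - t1) := mul_nonneg (by positivity) (by linarith)
  have h6 : (0:ℝ) < (m^3 + 13*m^2 + 54*m + 72) := by positivity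
  linarith

theorem q1553 {m : ℝ} (hm : 0 ≤ m) : Q m .e1 .e5 .e5 .e3 := by
  intro t0 t1 t2 t3 a0 b0 a1 b1 a2 b2 a3 b3 h1 h2 h3 h4
  simp only [px, py, dx, dy] at h1 h2 h3 h4 ⊢
  exfalso
  have h : (m^2 + 6*m + 4)*(1 - t3) + (m + 8) = 0 := by
    linear_combination (m + 3)*h2 + (m + 4)*h3
  have h5 : (0:ℝ) ≤ (m^2 + 6*m + 4)*(1 - t3) := mul_nonneg (by positivity) (by linarith)
  have h6 : (0:ℝ) < (m + 8) := by positivity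
  linarith

theorem q1554 {m : ℝ} (hm : 0 ≤ m) : Q m .e1 .e5 .e5 .e4 := by
  intro t0 t1 t2 t3 a0 b0 a1 b1 a2 b2 a3 b3 h1 h2 h3 h4
  simp only [px, py, dx, dy] at h1 h2 h3 h4 ⊢
  exfalso
  have h : (2*m^4 + 32*m^3 + 192*m^2 + 509*m + 496)*t3 + (m + 8) = 0 := by
    linear_combination (m + 3)*h2 + (m + 4)*h3
  have h5 : (0:ℝ) ≤ (2*m^4 + 32*m^3 + 192*m^2 + 509*m + 496)*t3 := mul_nonneg (by positivity) a3
  have h6 : (0:ℝ) < (m + 8) := by positivity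
  linarith

theorem q1555 {m : ℝ} (hm : 0 ≤ m) : Q m .e1 .e5 .e5 .e5 := by
  intro t0 t1 t2 t3 a0 b0 a1 b1 a2 b2 a3 b3 h1 h2 h3 h4
  simp only [px, py, dx, dy] at h1 h2 h3 h4 ⊢
  exfalso
  have h : (2*m^3 + 24*m^2 + 96*m + 128)*(1 - t0) + (2*m + 8) = 0 := by
    linear_combination 1*h2
  have h5 : (0:ℝ) ≤ (2*m^3 + 24*m^2 + 96*m + 128)*(1 - t0) := mul_nonneg (by positivity) (by linarith)
  have h6 : (0:ℝ) < (2*m + 8) := by positivity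
  linarith

theorem q2222 {m : ℝ} (hm : 0 ≤ m) : Q m .e2 .e2 .e2 .e2 := by
  refine sing hm ?_
  have h : dx m .e2 ^ 2 + dy m .e2 ^ 2 = (2*m^3 + 22*m^2 + 82*m + 104)^2 + (2*m^3 + 24*m^2 + 95*m + 124)^2 := by
    simp only [dx, dy] <;> ring
  rw [h]; positivity

theorem q2223 {m : ℝ} (hm : 0 ≤ m) : Q m .e2 .e2 .e2 .e3 := by
  intro t0 t1 t2 t3 a0 b0 a1 b1 a2 b2 a3 b3 h1 h2 h3 h4
  simp only [px, py, dx, dy] at h1 h2 h3 h4 ⊢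
  have wx : (8*m^4 + 120*m^3 + 680*m^2 + 1720*m + 1637)*((0) + t1*(2*m^3 + 22*m^2 + 82*m + 104) - ((0) + t0*(2*m^3 + 22*m^2 + 82*m + 104))) = 0 := by
    linear_combination (4*m^4 + 60*m^3 + 338*m^2 + 850*m + 806)*h1 + (-4*m^4 - 56*m^3 - 300*m^2 - 728*m - 676)*h2 + (4*m^4 + 60*m^3 + 338*m^2 + 850*m + 806)*h3 + (-4*m^4 - 56*m^3 - 300*m^2 - 728*m - 676)*h4
  have Dx : (0:ℝ) < (8*m^4 + 120*m^3 + 680*m^2 + 1720*m + 1637) := by positivity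
  have wy : (8*m^4 + 120*m^3 + 680*m^2 + 1720*m + 1637)*((2*m + 8) + t1*(2*m^3 + 24*m^2 + 95*m + 124) - ((2*m + 8) + t0*(2*m^3 + 24*m^2 + 95*m + 124))) = 0 := by
    linear_combination (4*m^4 + 64*m^3 + 380*m^2 + 992*m + 961)*h1 + (-4*m^4 - 60*m^3 - 338*m^2 - 850*m - 806)*h2 + (4*m^4 + 64*m^3 + 380*m^2 + 992*m + 961)*h3 + (-4*m^4 - 60*m^3 - 338*m^2 - 850*m - 806)*h4
  have Dy : (0:ℝ) < (8*m^4 + 120*m^3 + 680*m^2 + 1720*m + 1637) := by positivity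
  refine ⟨abs_le.mpr ⟨?_, ?_⟩, abs_le.mpr ⟨?_, ?_⟩⟩
  · refine le_of_mul_le_mul_left ?_ Dx
    rw [wx]
    have : (0:ℝ) ≤ (40*m^5 + 760*m^4 + 5800*m^3 + 22200*m^2 + 42585*m + 32740) := by positivity
    linarith
  · refine le_of_mul_le_mul_left ?_ Dx
    rw [wx]
    have : (0:ℝ) ≤ (40*m^5 + 760*m^4 + 5800*m^3 + 22200*m^2 + 42585*m + 32740) := by positivity
    linarith
  · refine le_of_mul_le_mul_left ?_ Dy
    rw [wy]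
    have : (0:ℝ) ≤ (40*m^5 + 760*m^4 + 5800*m^3 + 22200*m^2 + 42585*m + 32740) := by positivity
    linarith
  · refine le_of_mul_le_mul_left ?_ Dy
    rw [wy]
    have : (0:ℝ) ≤ (40*m^5 + 760*m^4 + 5800*m^3 + 22200*m^2 + 42585*m + 32740) := by positivity
    linarith

theorem q2224 {m : ℝ} (hm : 0 ≤ m) : Q m .e2 .e2 .e2 .e4 := by
  intro t0 t1 t2 t3 a0 b0 a1 b1 a2 b2 a3 b3 h1 h2 h3 h4
  simp only [px, py, dx, dy] at h1 h2 h3 h4 ⊢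
  exfalso
  have h : (4*m^5 + 80*m^4 + 638*m^3 + 2530*m^2 + 4974*m + 3877)*t3 + (4*m^3 + 50*m^2 + 214*m + 299) = 0 := by
    linear_combination (-2*m^2 - 16*m - 31)*h1 + (2*m^2 + 14*m + 26)*h2
  have h5 : (0:ℝ) ≤ (4*m^5 + 80*m^4 + 638*m^3 + 2530*m^2 + 4974*m + 3877)*t3 := mul_nonneg (by positivity) a3
  have h6 : (0:ℝ) < (4*m^3 + 50*m^2 + 214*m + 299) := by positivity
  linarith

theorem q2225 {m : ℝ} (hm : 0 ≤ m) : Q m .e2 .e2 .e2 .e5 := by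
  intro t0 t1 t2 t3 a0 b0 a1 b1 a2 b2 a3 b3 h1 h2 h3 h4
  simp only [px, py, dx, dy] at h1 h2 h3 h4 ⊢
  exfalso
  have h : (16*m^7 + 432*m^6 + 5000*m^5 + 32152*m^4 + 124034*m^3 + 287008*m^2 + 368795*m + 202988)*t1 + (16*m^5 + 304*m^4 + 2320*m^3 + 8880*m^2 + 17034*m + 13096) = 0 := by
    linear_combination (4*m^3 + 42*m^2 + 142*m + 155)*h1 + (-4*m^3 - 38*m^2 - 122*m - 130)*h2 + (4*m^3 + 42*m^2 + 142*m + 155)*h3 + (-8*m^4 - 124*m^3 - 718*m^2 - 1842*m - 1767)*h4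
  have h5 : (0:ℝ) ≤ (16*m^7 + 432*m^6 + 5000*m^5 + 32152*m^4 + 124034*m^3 + 287008*m^2 + 368795*m + 202988)*t1 := mul_nonneg (by positivity) a1
  have h6 : (0:ℝ) < (16*m^5 + 304*m^4 + 2320*m^3 + 8880*m^2 + 17034*m + 13096) := by positivity
  linarith

theorem q2233 {m : ℝ} (hm : 0 ≤ m) : Q m .e2 .e2 .e3 .e3 := by
  intro t0 t1 t2 t3 a0 b0 a1 b1 a2 b2 a3 b3 h1 h2 h3 h4
  simp only [px, py, dx, dy] at h1 h2 h3 h4 ⊢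
  have wx : (4*m^3 + 50*m^2 + 214*m + 299)*((0) + t1*(2*m^3 + 22*m^2 + 82*m + 104) - ((0) + t0*(2*m^3 + 22*m^2 + 82*m + 104))) = 0 := by
    linear_combination (-4*m^5 - 76*m^4 - 578*m^3 - 2194*m^2 - 4150*m - 3120)*h1 + (4*m^5 + 72*m^4 + 520*m^3 + 1874*m^2 + 3354*m + 2366)*h2
  have Dx : (0:ℝ) < (4*m^3 + 50*m^2 + 214*m + 299) := by positivity
  have wy : (4*m^3 + 50*m^2 + 214*m + 299)*((2*m + 8) + t1*(2*m^3 + 24*m^2 + 95*m + 124) - ((2*m + 8) + t0*(2*m^3 + 24*m^2 + 95*m + 124))) = 0 := by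
    linear_combination (-4*m^5 - 80*m^4 - 636*m^3 - 2504*m^2 - 4865*m - 3720)*h1 + (4*m^5 + 76*m^4 + 574*m^3 + 2144*m^2 + 3936*m + 2821)*h2
  have Dy : (0:ℝ) < (4*m^3 + 50*m^2 + 214*m + 299) := by positivity
  refine ⟨abs_le.mpr ⟨?_, ?_⟩, abs_le.mpr ⟨?_, ?_⟩⟩
  · refine le_of_mul_le_mul_left ?_ Dx
    rw [wx]
    have : (0:ℝ) ≤ (20*m^4 + 330*m^3 + 2070*m^2 + 5775*m + 5980) := by positivity
    linarith
  · refine le_of_mul_le_mul_left ?_ Dx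
    rw [wx]
    have : (0:ℝ) ≤ (20*m^4 + 330*m^3 + 2070*m^2 + 5775*m + 5980) := by positivity
    linarith
  · refine le_of_mul_le_mul_left ?_ Dy
    rw [wy]
    have : (0:ℝ) ≤ (20*m^4 + 330*m^3 + 2070*m^2 + 5775*m + 5980) := by positivity
    linarith
  · refine le_of_mul_le_mul_left ?_ Dy
    rw [wy]
    have : (0:ℝ) ≤ (20*m^4 + 330*m^3 + 2070*m^2 + 5775*m + 5980) := by positivity
    linarith

theorem q2234 {m : ℝ} (hm : 0 ≤ m) : Q m .e2 .e2 .e3 .e4 := by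
  intro t0 t1 t2 t3 a0 b0 a1 b1 a2 b2 a3 b3 h1 h2 h3 h4
  simp only [px, py, dx, dy] at h1 h2 h3 h4 ⊢
  exfalso
  have h : (32*m^10 + 1248*m^9 + 21888*m^8 + 227192*m^7 + 1544532*m^6 + 7180952*m^5 + 23105374*m^4 + 50762428*m^3 + 72813822*m^2 + 61516375*m + 23218981)*(1 - t2) + (16*m^8 + 520*m^7 + 7408*m^6 + 60336*m^5 + 306848*m^4 + 996390*m^3 + 2014756*m^2 + 2316904*m + 1159223) = 0 := by
    linear_combination (8*m^7 + 224*m^6 + 2696*m^5 + 18084*m^4 + 73006*m^3 + 177368*m^2 + 240140*m + 139831)*h1 + (8*m^7 + 216*m^6 + 2492*m^5 + 15888*m^4 + 60318*m^3 + 135998*m^2 + 168076*m + 87453)*h2 + (8*m^7 + 224*m^6 + 2680*m^5 + 17748*m^4 + 70206*m^3 + 165768*m^2 + 216226*m + 120187)*h3 + (-8*m^7 - 216*m^6 - 2500*m^5 - 16072*m^4 - 61956*m^3 - 143170*m^2 - 183602*m - 100802)*h4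
  have h5 : (0:ℝ) ≤ (32*m^10 + 1248*m^9 + 21888*m^8 + 227192*m^7 + 1544532*m^6 + 7180952*m^5 + 23105374*m^4 + 50762428*m^3 + 72813822*m^2 + 61516375*m + 23218981)*(1 - t2) := mul_nonneg (by positivity) (by linarith)
  have h6 : (0:ℝ) < (16*m^8 + 520*m^7 + 7408*m^6 + 60336*m^5 + 306848*m^4 + 996390*m^3 + 2014756*m^2 + 2316904*m + 1159223) := by positivity
  linarith

theorem q2235 {m : ℝ} (hm : 0 ≤ m) : Q m .e2 .e2 .e3 .e5 := by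
  intro t0 t1 t2 t3 a0 b0 a1 b1 a2 b2 a3 b3 h1 h2 h3 h4
  simp only [px, py, dx, dy] at h1 h2 h3 h4 ⊢
  exfalso
  have h : (16*m^7 + 432*m^6 + 4992*m^5 + 31956*m^4 + 122202*m^3 + 278716*m^2 + 350497*m + 187171)*(1 - t2) + (24*m^5 + 500*m^4 + 4152*m^3 + 17172*m^2 + 35332*m + 28913) = 0 := by
    linear_combination (4*m^4 + 64*m^3 + 380*m^2 + 992*m + 961)*h1 + (4*m^4 + 60*m^3 + 342*m^2 + 870*m + 831)*h2 + (4*m^4 + 64*m^3 + 380*m^2 + 992*m + 961)*h3 + (-4*m^4 - 60*m^3 - 338*m^2 - 850*m - 806)*h4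
  have h5 : (0:ℝ) ≤ (16*m^7 + 432*m^6 + 4992*m^5 + 31956*m^4 + 122202*m^3 + 278716*m^2 + 350497*m + 187171)*(1 - t2) := mul_nonneg (by positivity) (by linarith)
  have h6 : (0:ℝ) < (24*m^5 + 500*m^4 + 4152*m^3 + 17172*m^2 + 35332*m + 28913) := by positivity
  linarith

theorem q2243 {m : ℝ} (hm : 0 ≤ m) : Q m .e2 .e2 .e4 .e3 := by
  intro t0 t1 t2 t3 a0 b0 a1 b1 a2 b2 a3 b3 h1 h2 h3 h4
  simp only [px, py, dx, dy] at h1 h2 h3 h4 ⊢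
  exfalso
  have h : (32*m^10 + 1248*m^9 + 21920*m^8 + 228232*m^7 + 1559348*m^6 + 7301624*m^5 + 23719070*m^4 + 52755208*m^3 + 76843334*m^2 + 66150183*m + 25537427)*t2 + (16*m^6 + 400*m^5 + 4212*m^4 + 23792*m^3 + 75696*m^2 + 127972*m + 89401) = 0 := by
    linear_combination (16*m^7 + 432*m^6 + 5008*m^5 + 32284*m^4 + 124906*m^3 + 289860*m^2 + 373333*m + 205709)*h1 + (-16*m^7 - 416*m^6 - 4648*m^5 - 28884*m^4 - 107666*m^3 - 240388*m^2 - 297230*m - 156741)*h2 + (8*m^5 + 164*m^4 + 1352*m^3 + 5572*m^2 + 11418*m + 9269)*h3 + (-8*m^5 - 156*m^4 - 1232*m^3 - 4894*m^2 - 9750*m - 7774)*h4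
  have h5 : (0:ℝ) ≤ (32*m^10 + 1248*m^9 + 21920*m^8 + 228232*m^7 + 1559348*m^6 + 7301624*m^5 + 23719070*m^4 + 52755208*m^3 + 76843334*m^2 + 66150183*m + 25537427)*t2 := mul_nonneg (by positivity) a2
  have h6 : (0:ℝ) < (16*m^6 + 400*m^5 + 4212*m^4 + 23792*m^3 + 75696*m^2 + 127972*m + 89401) := by positivity
  linarith

theorem q2244 {m : ℝ} (hm : 0 ≤ m) : Q m .e2 .e2 .e4 .e4 := by
  intro t0 t1 t2 t3 a0 b0 a1 b1 a2 b2 a3 b3 h1 h2 h3 h4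
  simp only [px, py, dx, dy] at h1 h2 h3 h4 ⊢
  exfalso
  have h : (16*m^10 + 640*m^9 + 11504*m^8 + 122320*m^7 + 851636*m^6 + 4055136*m^5 + 13368044*m^4 + 30115492*m^3 + 44358296*m^2 + 38568396*m + 15031129)*t3 + (16*m^8 + 520*m^7 + 7408*m^6 + 60336*m^5 + 306848*m^4 + 996390*m^3 + 2014756*m^2 + 2316904*m + 1159223) = 0 := by
    linear_combination (16*m^5 + 336*m^4 + 2800*m^3 + 11600*m^2 + 23914*m + 19644)*h1 + (16*m^7 + 432*m^6 + 4992*m^5 + 31960*m^4 + 122274*m^3 + 279168*m^2 + 351678*m + 188255)*h2 + (8*m^7 + 224*m^6 + 2680*m^5 + 17748*m^4 + 70206*m^3 + 165768*m^2 + 216226*m + 120187)*h3 + (-8*m^7 - 216*m^6 - 2500*m^5 - 16072*m^4 - 61956*m^3 - 143170*m^2 - 183602*m - 100802)*h4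
  have h5 : (0:ℝ) ≤ (16*m^10 + 640*m^9 + 11504*m^8 + 122320*m^7 + 851636*m^6 + 4055136*m^5 + 13368044*m^4 + 30115492*m^3 + 44358296*m^2 + 38568396*m + 15031129)*t3 := mul_nonneg (by positivity) a3
  have h6 : (0:ℝ) < (16*m^8 + 520*m^7 + 7408*m^6 + 60336*m^5 + 306848*m^4 + 996390*m^3 + 2014756*m^2 + 2316904*m + 1159223) := by positivity
  linarith

theorem q2245 {m : ℝ} (hm : 0 ≤ m) : Q m .e2 .e2 .e4 .e5 := by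
  intro t0 t1 t2 t3 a0 b0 a1 b1 a2 b2 a3 b3 h1 h2 h3 h4
  simp only [px, py, dx, dy] at h1 h2 h3 h4 ⊢
  exfalso
  have h : (8*m^7 + 224*m^6 + 2664*m^5 + 17412*m^4 + 67406*m^3 + 154168*m^2 + 192312*m + 100543)*t2 + (24*m^5 + 500*m^4 + 4152*m^3 + 17172*m^2 + 35332*m + 28913) = 0 := by
    linear_combination (4*m^4 + 64*m^3 + 380*m^2 + 992*m + 961)*h1 + (4*m^4 + 60*m^3 + 342*m^2 + 870*m + 831)*h2 + (4*m^4 + 64*m^3 + 380*m^2 + 992*m + 961)*h3 + (-4*m^4 - 60*m^3 - 338*m^2 - 850*m - 806)*h4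
  have h5 : (0:ℝ) ≤ (8*m^7 + 224*m^6 + 2664*m^5 + 17412*m^4 + 67406*m^3 + 154168*m^2 + 192312*m + 100543)*t2 := mul_nonneg (by positivity) a2
  have h6 : (0:ℝ) < (24*m^5 + 500*m^4 + 4152*m^3 + 17172*m^2 + 35332*m + 28913) := by positivity
  linarith

theorem q2253 {m : ℝ} (hm : 0 ≤ m) : Q m .e2 .e2 .e5 .e3 := by
  intro t0 t1 t2 t3 a0 b0 a1 b1 a2 b2 a3 b3 h1 h2 h3 h4
  simp only [px, py, dx, dy] at h1 h2 h3 h4 ⊢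
  exfalso
  have h : (16*m^7 + 432*m^6 + 5008*m^5 + 32284*m^4 + 124906*m^3 + 289860*m^2 + 373333*m + 205709)*(1 - t3) + (8*m^5 + 172*m^4 + 1448*m^3 + 6028*m^2 + 12496*m + 10375) = 0 := by
    linear_combination (-8*m^4 - 120*m^3 - 680*m^2 - 1720*m - 1637)*h2 + (-4*m^4 - 64*m^3 - 380*m^2 - 992*m - 961)*h3 + (4*m^4 + 60*m^3 + 338*m^2 + 850*m + 806)*h4
  have h5 : (0:ℝ) ≤ (16*m^7 + 432*m^6 + 5008*m^5 + 32284*m^4 + 124906*m^3 + 289860*m^2 + 373333*m + 205709)*(1 - t3) := mul_nonneg (by positivity) (by linarith)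
  have h6 : (0:ℝ) < (8*m^5 + 172*m^4 + 1448*m^3 + 6028*m^2 + 12496*m + 10375) := by positivity
  linarith

theorem q2254 {m : ℝ} (hm : 0 ≤ m) : Q m .e2 .e2 .e5 .e4 := by
  intro t0 t1 t2 t3 a0 b0 a1 b1 a2 b2 a3 b3 h1 h2 h3 h4
  simp only [px, py, dx, dy] at h1 h2 h3 h4 ⊢
  have wx : (8*m^7 + 224*m^6 + 2696*m^5 + 18084*m^4 + 73006*m^3 + 177368*m^2 + 240140*m + 139831)*((0) + t1*(2*m^3 + 22*m^2 + 82*m + 104) - ((0) + t0*(2*m^3 + 22*m^2 + 82*m + 104))) = -16*m^8 - 528*m^7 - 7608*m^6 - 62552*m^5 - 321112*m^4 - 1054384*m^3 - 2163472*m^2 - 2537376*m - 1302912 := by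
    linear_combination (-8*m^7 - 216*m^6 - 2500*m^5 - 16072*m^4 - 61956*m^3 - 143170*m^2 - 183602*m - 100802)*h2 + (8*m^5 + 168*m^4 + 1396*m^3 + 5756*m^2 + 11812*m + 9672)*h3 + (-8*m^5 - 160*m^4 - 1272*m^3 - 5056*m^2 - 10088*m - 8112)*h4
  have Dx : (0:ℝ) < (8*m^7 + 224*m^6 + 2696*m^5 + 18084*m^4 + 73006*m^3 + 177368*m^2 + 240140*m + 139831) := by positivity
  have wy : (8*m^7 + 224*m^6 + 2696*m^5 + 18084*m^4 + 73006*m^3 + 177368*m^2 + 240140*m + 139831)*((2*m + 8) + t1*(2*m^3 + 24*m^2 + 95*m + 124) - ((2*m + 8) + t0*(2*m^3 + 24*m^2 + 95*m + 124))) = -16*m^8 - 544*m^7 - 8064*m^6 - 68080*m^5 - 358060*m^4 - 1201376*m^3 - 2511368*m^2 - 2990640*m - 1553472 := by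
    linear_combination (-8*m^7 - 224*m^6 - 2680*m^5 - 17748*m^4 - 70206*m^3 - 165768*m^2 - 216226*m - 120187)*h2 + (8*m^5 + 176*m^4 + 1528*m^3 + 6544*m^2 + 13826*m + 11532)*h3 + (-8*m^5 - 168*m^4 - 1396*m^3 - 5756*m^2 - 11812*m - 9672)*h4
  have Dy : (0:ℝ) < (8*m^7 + 224*m^6 + 2696*m^5 + 18084*m^4 + 73006*m^3 + 177368*m^2 + 240140*m + 139831) := by positivity
  refine ⟨abs_le.mpr ⟨?_, ?_⟩, abs_le.mpr ⟨?_, ?_⟩⟩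
  · refine le_of_mul_le_mul_left ?_ Dx
    rw [wx]
    have : (0:ℝ) ≤ (24*m^8 + 752*m^7 + 10352*m^6 + 81788*m^5 + 405598*m^4 + 1292576*m^3 + 2584588*m^2 + 2964579*m + 1493708) := by positivity
    linarith
  · refine le_of_mul_le_mul_left ?_ Dx
    rw [wx]
    have : (0:ℝ) ≤ (56*m^8 + 1808*m^7 + 25568*m^6 + 206892*m^5 + 1047822*m^4 + 3401344*m^3 + 6911532*m^2 + 8039331*m + 4099532) := by positivity
    linarith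
  · refine le_of_mul_le_mul_left ?_ Dy
    rw [wy]
    have : (0:ℝ) ≤ (24*m^8 + 736*m^7 + 9896*m^6 + 76260*m^5 + 368650*m^4 + 1145584*m^3 + 2236692*m^2 + 2511315*m + 1243148) := by positivity
    linarith
  · refine le_of_mul_le_mul_left ?_ Dy
    rw [wy]
    have : (0:ℝ) ≤ (56*m^8 + 1824*m^7 + 26024*m^6 + 212420*m^5 + 1084770*m^4 + 3548336*m^3 + 7259428*m^2 + 8492595*m + 4350092) := by positivity
    linarith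

theorem q2255 {m : ℝ} (hm : 0 ≤ m) : Q m .e2 .e2 .e5 .e5 := by
  intro t0 t1 t2 t3 a0 b0 a1 b1 a2 b2 a3 b3 h1 h2 h3 h4
  simp only [px, py, dx, dy] at h1 h2 h3 h4 ⊢
  exfalso
  have h : (4*m^5 + 80*m^4 + 636*m^3 + 2512*m^2 + 4929*m + 3844)*t1 + (4*m^3 + 48*m^2 + 190*m + 248) = 0 := by
    linear_combination (-2*m - 5)*h2 + (-2*m^2 - 16*m - 31)*h4
  have h5 : (0:ℝ) ≤ (4*m^5 + 80*m^4 + 636*m^3 + 2512*m^2 + 4929*m + 3844)*t1 := mul_nonneg (by positivity) a1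
  have h6 : (0:ℝ) < (4*m^3 + 48*m^2 + 190*m + 248) := by positivity
  linarith

theorem q2323 {m : ℝ} (hm : 0 ≤ m) : Q m .e2 .e3 .e2 .e3 := by
  intro t0 t1 t2 t3 a0 b0 a1 b1 a2 b2 a3 b3 h1 h2 h3 h4
  simp only [px, py, dx, dy] at h1 h2 h3 h4 ⊢
  have wx : (16*m^5 + 304*m^4 + 2312*m^3 + 8756*m^2 + 16438*m + 12172)*((2*m^3 + 22*m^2 + 82*m + 104) + t1*(-2*m^3 - 22*m^2 - 80*m - 91) - ((0) + t0*(2*m^3 + 22*m^2 + 82*m + 104))) = 0 := by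
    linear_combination (-4*m^4 - 62*m^3 - 360*m^2 - 929*m - 899)*h1 + (4*m^4 + 58*m^3 + 320*m^2 + 796*m + 754)*h2 + (8*m^5 + 152*m^4 + 1152*m^3 + 4338*m^2 + 8086*m + 5941)*h3 + (-8*m^5 - 144*m^4 - 1036*m^3 - 3698*m^2 - 6494*m - 4433)*h4
  have Dx : (0:ℝ) < (16*m^5 + 304*m^4 + 2312*m^3 + 8756*m^2 + 16438*m + 12172) := by positivity
  have wy : (16*m^5 + 304*m^4 + 2312*m^3 + 8756*m^2 + 16438*m + 12172)*((2*m^3 + 24*m^2 + 97*m + 132) + t1*(-2*m^3 - 24*m^2 - 95*m - 120) - ((2*m + 8) + t0*(2*m^3 + 24*m^2 + 95*m + 124))) = 0 := by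
    linear_combination (8*m^5 + 156*m^4 + 1210*m^3 + 4648*m^2 + 8801*m + 6541)*h1 + (-8*m^5 - 148*m^4 - 1098*m^3 - 4068*m^2 - 7504*m - 5486)*h2 + (8*m^5 + 160*m^4 + 1268*m^3 + 4958*m^2 + 9516*m + 7141)*h3 + (-8*m^5 - 152*m^4 - 1152*m^3 - 4338*m^2 - 8086*m - 5941)*h4
  have Dy : (0:ℝ) < (16*m^5 + 304*m^4 + 2312*m^3 + 8756*m^2 + 16438*m + 12172) := by positivity
  refine ⟨abs_le.mpr ⟨?_, ?_⟩, abs_le.mpr ⟨?_, ?_⟩⟩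
  · refine le_of_mul_le_mul_left ?_ Dx
    rw [wx]
    have : (0:ℝ) ≤ (80*m^6 + 1840*m^5 + 17640*m^4 + 90020*m^3 + 257310*m^2 + 389620*m + 243440) := by positivity
    linarith
  · refine le_of_mul_le_mul_left ?_ Dx
    rw [wx]
    have : (0:ℝ) ≤ (80*m^6 + 1840*m^5 + 17640*m^4 + 90020*m^3 + 257310*m^2 + 389620*m + 243440) := by positivity
    linarith
  · refine le_of_mul_le_mul_left ?_ Dy
    rw [wy]
    have : (0:ℝ) ≤ (80*m^6 + 1840*m^5 + 17640*m^4 + 90020*m^3 + 257310*m^2 + 389620*m + 243440) := by positivity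
    linarith
  · refine le_of_mul_le_mul_left ?_ Dy
    rw [wy]
    have : (0:ℝ) ≤ (80*m^6 + 1840*m^5 + 17640*m^4 + 90020*m^3 + 257310*m^2 + 389620*m + 243440) := by positivity
    linarith

end Hex
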