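import Pool.Agent.helper91.HX.Def

/-! Squares inscribed in the hexagon: classes of edge quadruples, part 5. -/

namespace Hex

theorem q2324 {m : ℝ} (hm : 0 ≤ m) : Q m .e2 .e3 .e2 .e4 := by
  intro t0 t1 t2 t3 a0 b0 a1 b1 a2 b2 a3 b3 h1 h2 h3 h4
  simp only [px, py, dx, dy] at h1 h2 h3 h4 ⊢
  exfalso
  have h : (32*m^10 + 1248*m^9 + 21872*m^8 + 226704*m^7 + 1538052*m^6 + 7132256*m^5 + 22880158*m^4 + 50111026*m^3 + 71676206*m^2 + 60440375*m + 22812640)*t3 + (64*m^8 + 2016*m^7 + 27872*m^6 + 220464*m^5 + 1089216*m^4 + 3435660*m^3 + 6744376*m^2 + 7519770*m + 3639428) = 0 := by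
    linear_combination (-16*m^7 - 432*m^6 - 4984*m^5 - 31800*m^4 - 120970*m^3 - 273822*m^2 - 340747*m - 179397)*h1 + (16*m^7 + 416*m^6 + 4640*m^5 + 28736*m^4 + 106554*m^3 + 236172*m^2 + 289148*m + 150462)*h2 + (8*m^4 + 120*m^3 + 678*m^2 + 1668*m + 1495)*h3 + (-16*m^5 - 320*m^4 - 2584*m^3 - 10466*m^2 - 21168*m - 17043)*h4
  have h5 : (0:ℝ) ≤ (32*m^10 + 1248*m^9 + 21872*m^8 + 226704*m^7 + 1538052*m^6 + 7132256*m^5 + 22880158*m^4 + 50111026*m^3 + 71676206*m^2 + 60440375*m + 22812640)*t3 := mul_nonneg (by positivity) a3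
  have h6 : (0:ℝ) < (64*m^8 + 2016*m^7 + 27872*m^6 + 220464*m^5 + 1089216*m^4 + 3435660*m^3 + 6744376*m^2 + 7519770*m + 3639428) := by positivity
  linarith

theorem q2325 {m : ℝ} (hm : 0 ≤ m) : Q m .e2 .e3 .e2 .e5 := by
  intro t0 t1 t2 t3 a0 b0 a1 b1 a2 b2 a3 b3 h1 h2 h3 h4
  simp only [px, py, dx, dy] at h1 h2 h3 h4 ⊢
  exfalso
  have h : (16*m^7 + 432*m^6 + 4984*m^5 + 31808*m^4 + 121090*m^3 + 274500*m^2 + 342415*m + 180892)*(1 - t1) + (32*m^5 + 648*m^4 + 5264*m^3 + 21388*m^2 + 43414*m + 35192) = 0 := by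
    linear_combination (4*m^3 + 42*m^2 + 142*m + 155)*h1 + (-4*m^3 - 38*m^2 - 122*m - 130)*h2 + (4*m^3 + 42*m^2 + 142*m + 155)*h3 + (-8*m^4 - 124*m^3 - 718*m^2 - 1842*m - 1767)*h4
  have h5 : (0:ℝ) ≤ (16*m^7 + 432*m^6 + 4984*m^5 + 31808*m^4 + 121090*m^3 + 274500*m^2 + 342415*m + 180892)*(1 - t1) := mul_nonneg (by positivity) (by linarith)
  have h6 : (0:ℝ) < (32*m^5 + 648*m^4 + 5264*m^3 + 21388*m^2 + 43414*m + 35192) := by positivity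
  linarith

theorem q2333 {m : ℝ} (hm : 0 ≤ m) : Q m .e2 .e3 .e3 .e3 := by
  intro t0 t1 t2 t3 a0 b0 a1 b1 a2 b2 a3 b3 h1 h2 h3 h4
  simp only [px, py, dx, dy] at h1 h2 h3 h4 ⊢
  have wx : (8*m^6 + 184*m^5 + 1760*m^4 + 8924*m^3 + 25189*m^2 + 37360*m + 22681)*((2*m^3 + 22*m^2 + 82*m + 104) + t1*(-2*m^3 - 22*m^2 - 80*m - 91) - ((0) + t0*(2*m^3 + 22*m^2 + 82*m + 104))) = 0 := by
    linear_combination (-4*m^5 - 78*m^4 - 608*m^3 - 2361*m^2 - 4555*m - 3480)*h1 + (4*m^5 + 74*m^4 + 548*m^3 + 2020*m^2 + 3685*m + 2639)*h2 + (4*m^6 + 92*m^5 + 878*m^4 + 4432*m^3 + 12424*m^2 + 18245*m + 10920)*h3 + (-4*m^6 - 88*m^5 - 804*m^4 - 3884*m^3 - 10404*m^2 - 14560*m - 8281)*h4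
  have Dx : (0:ℝ) < (8*m^6 + 184*m^5 + 1760*m^4 + 8924*m^3 + 25189*m^2 + 37360*m + 22681) := by positivity
  have wy : (8*m^6 + 184*m^5 + 1760*m^4 + 8924*m^3 + 25189*m^2 + 37360*m + 22681)*((2*m^3 + 24*m^2 + 97*m + 132) + t1*(-2*m^3 - 24*m^2 - 95*m - 120) - ((2*m + 8) + t0*(2*m^3 + 24*m^2 + 95*m + 124))) = 0 := by
    linear_combination (8*m^6 + 188*m^5 + 1834*m^4 + 9472*m^3 + 27209*m^2 + 41045*m + 25320)*h1 + (-8*m^6 - 180*m^5 - 1682*m^4 - 8316*m^3 - 22828*m^2 - 32805*m - 19201)*h2 + (4*m^6 + 96*m^5 + 956*m^4 + 5040*m^3 + 14785*m^2 + 22800*m + 14400)*h3 + (-4*m^6 - 92*m^5 - 878*m^4 - 4432*m^3 - 12424*m^2 - 18245*m - 10920)*h4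
  have Dy : (0:ℝ) < (8*m^6 + 184*m^5 + 1760*m^4 + 8924*m^3 + 25189*m^2 + 37360*m + 22681) := by positivity
  refine ⟨abs_le.mpr ⟨?_, ?_⟩, abs_le.mpr ⟨?_, ?_⟩⟩
  · refine le_of_mul_le_mul_left ?_ Dx
    rw [wx]
    have : (0:ℝ) ≤ (40*m^7 + 1080*m^6 + 12480*m^5 + 79820*m^4 + 304425*m^3 + 690580*m^2 + 860605*m + 453620) := by positivity
    linarith
  · refine le_of_mul_le_mul_left ?_ Dx
    rw [wx]
    have : (0:ℝ) ≤ (40*m^7 + 1080*m^6 + 12480*m^5 + 79820*m^4 + 304425*m^3 + 690580*m^2 + 860605*m + 453620) := by positivity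
    linarith
  · refine le_of_mul_le_mul_left ?_ Dy
    rw [wy]
    have : (0:ℝ) ≤ (40*m^7 + 1080*m^6 + 12480*m^5 + 79820*m^4 + 304425*m^3 + 690580*m^2 + 860605*m + 453620) := by positivity
    linarith
  · refine le_of_mul_le_mul_left ?_ Dy
    rw [wy]
    have : (0:ℝ) ≤ (40*m^7 + 1080*m^6 + 12480*m^5 + 79820*m^4 + 304425*m^3 + 690580*m^2 + 860605*m + 453620) := by positivity
    linarith

theorem q2334 {m : ℝ} (hm : 0 ≤ m) : Q m .e2 .e3 .e3 .e4 := by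
  intro t0 t1 t2 t3 a0 b0 a1 b1 a2 b2 a3 b3 h1 h2 h3 h4
  simp only [px, py, dx, dy] at h1 h2 h3 h4 ⊢
  exfalso
  have h : (32*m^11 + 1376*m^10 + 26848*m^9 + 313544*m^8 + 2433380*m^7 + 13167168*m^6 + 50648042*m^5 + 138374460*m^4 + 262926952*m^3 + 330645259*m^2 + 247492373*m + 83481529)*t3 + (32*m^9 + 1136*m^8 + 17952*m^7 + 165464*m^6 + 978612*m^5 + 3844866*m^4 + 10017446*m^3 + 16660601*m^2 + 16024374*m + 6781619) = 0 := by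
    linear_combination (-16*m^8 - 496*m^7 - 6712*m^6 - 51704*m^5 - 247562*m^4 - 753094*m^3 - 1418723*m^2 - 1510365*m - 694440)*h1 + (16*m^8 + 480*m^7 + 6288*m^6 + 46888*m^5 + 217218*m^4 + 638756*m^3 + 1161562*m^2 + 1191415*m + 526617)*h2 + (-8*m^6 - 188*m^5 - 1848*m^4 - 9670*m^3 - 28248*m^2 - 43394*m - 27209)*h3 + (-8*m^6 - 196*m^5 - 2008*m^4 - 10964*m^3 - 33506*m^2 - 54085*m - 35880)*h4
  have h5 : (0:ℝ) ≤ (32*m^11 + 1376*m^10 + 26848*m^9 + 313544*m^8 + 2433380*m^7 + 13167168*m^6 + 50648042*m^5 + 138374460*m^4 + 262926952*m^3 + 330645259*m^2 + 247492373*m + 83481529)*t3 := mul_nonneg (by positivity) a3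
  have h6 : (0:ℝ) < (32*m^9 + 1136*m^8 + 17952*m^7 + 165464*m^6 + 978612*m^5 + 3844866*m^4 + 10017446*m^3 + 16660601*m^2 + 16024374*m + 6781619) := by positivity
  linarith

theorem q2335 {m : ℝ} (hm : 0 ≤ m) : Q m .e2 .e3 .e3 .e5 := by
  intro t0 t1 t2 t3 a0 b0 a1 b1 a2 b2 a3 b3 h1 h2 h3 h4
  simp only [px, py, dx, dy] at h1 h2 h3 h4 ⊢
  exfalso
  have h : (16*m^8 + 496*m^7 + 6704*m^6 + 51516*m^5 + 245714*m^4 + 743424*m^3 + 1390475*m^2 + 1466971*m + 667231)*(1 - t1) + (32*m^6 + 784*m^5 + 7992*m^4 + 43262*m^3 + 130728*m^2 + 208279*m + 136121) = 0 := by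
    linear_combination (4*m^4 + 58*m^3 + 310*m^2 + 715*m + 600)*h1 + (-4*m^4 - 54*m^3 - 270*m^2 - 582*m - 455)*h2 + (4*m^4 + 58*m^3 + 310*m^2 + 715*m + 600)*h3 + (-8*m^5 - 156*m^4 - 1210*m^3 - 4648*m^2 - 8801*m - 6541)*h4
  have h5 : (0:ℝ) ≤ (16*m^8 + 496*m^7 + 6704*m^6 + 51516*m^5 + 245714*m^4 + 743424*m^3 + 1390475*m^2 + 1466971*m + 667231)*(1 - t1) := mul_nonneg (by positivity) (by linarith)
  have h6 : (0:ℝ) < (32*m^6 + 784*m^5 + 7992*m^4 + 43262*m^3 + 130728*m^2 + 208279*m + 136121) := by positivity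
  linarith

theorem q2343 {m : ℝ} (hm : 0 ≤ m) : Q m .e2 .e3 .e4 .e3 := by
  intro t0 t1 t2 t3 a0 b0 a1 b1 a2 b2 a3 b3 h1 h2 h3 h4
  simp only [px, py, dx, dy] at h1 h2 h3 h4 ⊢
  exfalso
  have h : (32*m^11 + 1376*m^10 + 26896*m^9 + 315264*m^8 + 2460756*m^7 + 13420696*m^6 + 52150514*m^5 + 144270258*m^4 + 278209024*m^3 + 355809983*m^2 + 271314366*m + 93331187)*(1 - t1) + (16*m^8 + 544*m^7 + 8140*m^6 + 69852*m^5 + 375150*m^4 + 1288104*m^3 + 2753734*m^2 + 3340465*m + 1754233) = 0 := by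
    linear_combination (-16*m^6 - 400*m^5 - 4144*m^4 - 22776*m^3 - 70002*m^2 - 113966*m - 76620)*h1 + (-16*m^8 - 496*m^7 - 6720*m^6 - 51904*m^5 - 249658*m^4 - 764794*m^3 - 1455162*m^2 - 1569985*m - 734275)*h2 + (-8*m^8 - 248*m^7 - 3364*m^6 - 26056*m^5 - 125940*m^4 - 388682*m^3 - 747514*m^2 - 818676*m - 390780)*h3 + (-8*m^8 - 256*m^7 - 3584*m^6 - 28648*m^5 - 142874*m^4 - 454786*m^3 - 901192*m^2 - 1014745*m - 496037)*h4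
  have h5 : (0:ℝ) ≤ (32*m^11 + 1376*m^10 + 26896*m^9 + 315264*m^8 + 2460756*m^7 + 13420696*m^6 + 52150514*m^5 + 144270258*m^4 + 278209024*m^3 + 355809983*m^2 + 271314366*m + 93331187)*(1 - t1) := mul_nonneg (by positivity) (by linarith)
  have h6 : (0:ℝ) < (16*m^8 + 544*m^7 + 8140*m^6 + 69852*m^5 + 375150*m^4 + 1288104*m^3 + 2753734*m^2 + 3340465*m + 1754233) := by positivity
  linarith

theorem q2344 {m : ℝ} (hm : 0 ≤ m) : Q m .e2 .e3 .e4 .e4 := by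
  intro t0 t1 t2 t3 a0 b0 a1 b1 a2 b2 a3 b3 h1 h2 h3 h4
  simp only [px, py, dx, dy] at h1 h2 h3 h4 ⊢
  exfalso
  have h : (16*m^11 + 704*m^10 + 14048*m^9 + 167720*m^8 + 1330412*m^7 + 7357644*m^6 + 28929532*m^5 + 80820480*m^4 + 157124516*m^3 + 202337434*m^2 + 155249429*m + 53738953)*(1 - t1) + (16*m^9 + 584*m^8 + 9464*m^7 + 89228*m^6 + 538472*m^5 + 2153328*m^4 + 5696544*m^3 + 9599042*m^2 + 9339698*m + 3997331) = 0 := by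
    linear_combination (-8*m^5 - 180*m^4 - 1624*m^3 - 7340*m^2 - 16606*m - 15108)*h1 + (-8*m^7 - 228*m^6 - 2792*m^5 - 18996*m^4 - 77388*m^3 - 188412*m^2 - 253356*m - 144785)*h2 + (-8*m^6 - 208*m^5 - 2236*m^4 - 12716*m^3 - 40308*m^2 - 67442*m - 46524)*h3 + (-8*m^8 - 256*m^7 - 3572*m^6 - 28352*m^5 - 139840*m^4 - 438320*m^3 - 851554*m^2 - 936448*m - 445855)*h4
  have h5 : (0:ℝ) ≤ (16*m^11 + 704*m^10 + 14048*m^9 + 167720*m^8 + 1330412*m^7 + 7357644*m^6 + 28929532*m^5 + 80820480*m^4 + 157124516*m^3 + 202337434*m^2 + 155249429*m + 53738953)*(1 - t1) := mul_nonneg (by positivity) (by linarith)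
  have h6 : (0:ℝ) < (16*m^9 + 584*m^8 + 9464*m^7 + 89228*m^6 + 538472*m^5 + 2153328*m^4 + 5696544*m^3 + 9599042*m^2 + 9339698*m + 3997331) := by positivity
  linarith

theorem q2345 {m : ℝ} (hm : 0 ≤ m) : Q m .e2 .e3 .e4 .e5 := by
  intro t0 t1 t2 t3 a0 b0 a1 b1 a2 b2 a3 b3 h1 h2 h3 h4
  simp only [px, py, dx, dy] at h1 h2 h3 h4 ⊢
  exfalso
  have h : (8*m^8 + 256*m^7 + 3552*m^6 + 27856*m^5 + 134738*m^4 + 410518*m^3 + 767162*m^2 + 801679*m + 357823)*(1 - t1) + (16*m^6 + 396*m^5 + 4052*m^4 + 21838*m^3 + 64982*m^2 + 100386*m + 62213) = 0 := by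
    linear_combination (-4*m^2 - 34*m - 60)*h1 + (-4*m^4 - 58*m^3 - 308*m^2 - 700*m - 575)*h2 + (-4*m^2 - 34*m - 60)*h3 + (-4*m^5 - 80*m^4 - 630*m^3 - 2422*m^2 - 4500*m - 3193)*h4
  have h5 : (0:ℝ) ≤ (8*m^8 + 256*m^7 + 3552*m^6 + 27856*m^5 + 134738*m^4 + 410518*m^3 + 767162*m^2 + 801679*m + 357823)*(1 - t1) := mul_nonneg (by positivity) (by linarith)
  have h6 : (0:ℝ) < (16*m^6 + 396*m^5 + 4052*m^4 + 21838*m^3 + 64982*m^2 + 100386*m + 62213) := by positivity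
  linarith

theorem q2353 {m : ℝ} (hm : 0 ≤ m) : Q m .e2 .e3 .e5 .e3 := by
  intro t0 t1 t2 t3 a0 b0 a1 b1 a2 b2 a3 b3 h1 h2 h3 h4
  simp only [px, py, dx, dy] at h1 h2 h3 h4 ⊢
  exfalso
  have h : (16*m^8 + 496*m^7 + 6728*m^6 + 52088*m^5 + 251418*m^4 + 773728*m^3 + 1480477*m^2 + 1607844*m + 757529)*(1 - t1) + (16*m^6 + 408*m^5 + 4304*m^4 + 24070*m^3 + 75260*m^2 + 124657*m + 85291) = 0 := by
    linear_combination (-8*m^5 - 152*m^4 - 1160*m^3 - 4428*m^2 - 8433*m - 6385)*h2 + (-4*m^5 - 76*m^4 - 578*m^3 - 2194*m^2 - 4150*m - 3120)*h3 + (-4*m^5 - 80*m^4 - 640*m^3 - 2554*m^2 - 5079*m - 4019)*h4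
  have h5 : (0:ℝ) ≤ (16*m^8 + 496*m^7 + 6728*m^6 + 52088*m^5 + 251418*m^4 + 773728*m^3 + 1480477*m^2 + 1607844*m + 757529)*(1 - t1) := mul_nonneg (by positivity) (by linarith)
  have h6 : (0:ℝ) < (16*m^6 + 408*m^5 + 4304*m^4 + 24070*m^3 + 75260*m^2 + 124657*m + 85291) := by positivity
  linarith

theorem q2354 {m : ℝ} (hm : 0 ≤ m) : Q m .e2 .e3 .e5 .e4 := by
  intro t0 t1 t2 t3 a0 b0 a1 b1 a2 b2 a3 b3 h1 h2 h3 h4
  simp only [px, py, dx, dy] at h1 h2 h3 h4 ⊢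
  exfalso
  have h : (8*m^8 + 256*m^7 + 3584*m^6 + 28656*m^5 + 143002*m^4 + 455626*m^3 + 904082*m^2 + 1020113*m + 500299)*(1 - t1) + (8*m^6 + 204*m^5 + 2192*m^4 + 12666*m^3 + 41410*m^2 + 72488*m + 53081) = 0 := by
    linear_combination (-4*m^4 - 66*m^3 - 416*m^2 - 1174*m - 1259)*h2 + (-4*m^3 - 52*m^2 - 220*m - 312)*h3 + (-4*m^5 - 80*m^4 - 642*m^3 - 2586*m^2 - 5228*m - 4249)*h4
  have h5 : (0:ℝ) ≤ (8*m^8 + 256*m^7 + 3584*m^6 + 28656*m^5 + 143002*m^4 + 455626*m^3 + 904082*m^2 + 1020113*m + 500299)*(1 - t1) := mul_nonneg (by positivity) (by linarith)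
  have h6 : (0:ℝ) < (8*m^6 + 204*m^5 + 2192*m^4 + 12666*m^3 + 41410*m^2 + 72488*m + 53081) := by positivity
  linarith

theorem q2355 {m : ℝ} (hm : 0 ≤ m) : Q m .e2 .e3 .e5 .e5 := by
  intro t0 t1 t2 t3 a0 b0 a1 b1 a2 b2 a3 b3 h1 h2 h3 h4
  simp only [px, py, dx, dy] at h1 h2 h3 h4 ⊢
  exfalso
  have h : (4*m^5 + 80*m^4 + 632*m^3 + 2454*m^2 + 4651*m + 3421)*(1 - t1) + (8*m^3 + 106*m^2 + 468*m + 671) = 0 := by
    linear_combination (-2*m - 5)*h2 + (-2*m^2 - 16*m - 31)*h4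
  have h5 : (0:ℝ) ≤ (4*m^5 + 80*m^4 + 632*m^3 + 2454*m^2 + 4651*m + 3421)*(1 - t1) := mul_nonneg (by positivity) (by linarith)
  have h6 : (0:ℝ) < (8*m^3 + 106*m^2 + 468*m + 671) := by positivity
  linarith

theorem q2424 {m : ℝ} (hm : 0 ≤ m) : Q m .e2 .e4 .e2 .e4 := by
  intro t0 t1 t2 t3 a0 b0 a1 b1 a2 b2 a3 b3 h1 h2 h3 h4
  simp only [px, py, dx, dy] at h1 h2 h3 h4 ⊢
  exfalso
  have h : (32*m^10 + 1248*m^9 + 21840*m^8 + 225648*m^7 + 1522864*m^6 + 7007792*m^5 + 22244080*m^4 + 48033928*m^3 + 67441436*m^2 + 55509064*m + 20299972)*t1 + (32*m^8 + 1008*m^7 + 13888*m^6 + 109032*m^5 + 532064*m^4 + 1647792*m^3 + 3152372*m^2 + 3392904*m + 1565564) = 0 := by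
    linear_combination (8*m^6 + 196*m^5 + 2012*m^4 + 11050*m^3 + 34198*m^2 + 56538*m + 39029)*h1 + (-8*m^6 - 188*m^5 - 1860*m^4 - 9888*m^3 - 29770*m^2 - 48150*m - 32734)*h2 + (8*m^6 + 180*m^5 + 1676*m^4 + 8250*m^3 + 22598*m^2 + 32624*m + 19385)*h3 + (-16*m^7 - 440*m^6 - 5180*m^5 - 33820*m^4 - 132162*m^3 - 308938*m^2 - 399828*m - 220989)*h4
  have h5 : (0:ℝ) ≤ (32*m^10 + 1248*m^9 + 21840*m^8 + 225648*m^7 + 1522864*m^6 + 7007792*m^5 + 22244080*m^4 + 48033928*m^3 + 67441436*m^2 + 55509064*m + 20299972)*t1 := mul_nonneg (by positivity) a1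
  have h6 : (0:ℝ) < (32*m^8 + 1008*m^7 + 13888*m^6 + 109032*m^5 + 532064*m^4 + 1647792*m^3 + 3152372*m^2 + 3392904*m + 1565564) := by positivity
  linarith

theorem q2425 {m : ℝ} (hm : 0 ≤ m) : Q m .e2 .e4 .e2 .e5 := by
  intro t0 t1 t2 t3 a0 b0 a1 b1 a2 b2 a3 b3 h1 h2 h3 h4
  simp only [px, py, dx, dy] at h1 h2 h3 h4 ⊢
  exfalso
  have h : (16*m^7 + 432*m^6 + 4984*m^5 + 31808*m^4 + 121112*m^3 + 274740*m^2 + 343290*m + 181960)*t1 + (32*m^5 + 648*m^4 + 5264*m^3 + 21388*m^2 + 43414*m + 35192) = 0 := by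
    linear_combination (4*m^3 + 42*m^2 + 142*m + 155)*h1 + (-4*m^3 - 38*m^2 - 122*m - 130)*h2 + (4*m^3 + 42*m^2 + 142*m + 155)*h3 + (-8*m^4 - 124*m^3 - 718*m^2 - 1842*m - 1767)*h4
  have h5 : (0:ℝ) ≤ (16*m^7 + 432*m^6 + 4984*m^5 + 31808*m^4 + 121112*m^3 + 274740*m^2 + 343290*m + 181960)*t1 := mul_nonneg (by positivity) a1
  have h6 : (0:ℝ) < (32*m^5 + 648*m^4 + 5264*m^3 + 21388*m^2 + 43414*m + 35192) := by positivity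
  linarith

theorem q2433 {m : ℝ} (hm : 0 ≤ m) : Q m .e2 .e4 .e3 .e3 := by
  intro t0 t1 t2 t3 a0 b0 a1 b1 a2 b2 a3 b3 h1 h2 h3 h4
  simp only [px, py, dx, dy] at h1 h2 h3 h4 ⊢
  exfalso
  have h : (32*m^11 + 1376*m^10 + 26880*m^9 + 314712*m^8 + 2452356*m^7 + 13347040*m^6 + 51742826*m^5 + 142805192*m^4 + 274832472*m^3 + 351093387*m^2 + 267827655*m + 92386945)*t1 + (32*m^9 + 1136*m^8 + 17952*m^7 + 165464*m^6 + 978612*m^5 + 3844866*m^4 + 10017446*m^3 + 16660601*m^2 + 16024374*m + 6781619) = 0 := by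
    linear_combination (-16*m^8 - 496*m^7 - 6728*m^6 - 52096*m^5 - 251578*m^4 - 775022*m^3 - 1485735*m^2 - 1618535*m - 766200)*h1 + (16*m^8 + 480*m^7 + 6304*m^6 + 47264*m^5 + 220914*m^4 + 658096*m^3 + 1218058*m^2 + 1278203*m + 581035)*h2 + (-8*m^6 - 196*m^5 - 2008*m^4 - 10964*m^3 - 33506*m^2 - 54085*m - 35880)*h3 + (8*m^6 + 188*m^5 + 1848*m^4 + 9670*m^3 + 28248*m^2 + 43394*m + 27209)*h4
  have h5 : (0:ℝ) ≤ (32*m^11 + 1376*m^10 + 26880*m^9 + 314712*m^8 + 2452356*m^7 + 13347040*m^6 + 51742826*m^5 + 142805192*m^4 + 274832472*m^3 + 351093387*m^2 + 267827655*m + 92386945)*t1 := mul_nonneg (by positivity) a1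
  have h6 : (0:ℝ) < (32*m^9 + 1136*m^8 + 17952*m^7 + 165464*m^6 + 978612*m^5 + 3844866*m^4 + 10017446*m^3 + 16660601*m^2 + 16024374*m + 6781619) := by positivity
  linarith

theorem q2434 {m : ℝ} (hm : 0 ≤ m) : Q m .e2 .e4 .e3 .e4 := by
  intro t0 t1 t2 t3 a0 b0 a1 b1 a2 b2 a3 b3 h1 h2 h3 h4
  simp only [px, py, dx, dy] at h1 h2 h3 h4 ⊢
  exfalso
  have h : (32*m^11 + 1376*m^10 + 26816*m^9 + 312360*m^8 + 2413976*m^7 + 12982260*m^6 + 49518872*m^5 + 133792344*m^4 + 250572884*m^3 + 309310118*m^2 + 226084394*m + 73977181)*t1 + (32*m^9 + 1152*m^8 + 18432*m^7 + 171732*m^6 + 1024932*m^5 + 4055582*m^4 + 10617416*m^3 + 17694394*m^2 + 16994817*m + 7151183) = 0 := by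
    linear_combination (8*m^7 + 228*m^6 + 2796*m^5 + 19082*m^4 + 78134*m^3 + 191666*m^2 + 260485*m + 151080)*h1 + (-8*m^7 - 220*m^6 - 2604*m^5 - 17144*m^4 - 67632*m^3 - 159474*m^2 - 207554*m - 114569)*h2 + (8*m^7 + 212*m^6 + 2396*m^5 + 14946*m^4 + 55506*m^3 + 122692*m^2 + 149685*m + 78048)*h3 + (-16*m^8 - 504*m^7 - 6932*m^6 - 54312*m^5 - 264798*m^4 - 821532*m^3 - 1581594*m^2 - 1724823*m - 814459)*h4
  have h5 : (0:ℝ) ≤ (32*m^11 + 1376*m^10 + 26816*m^9 + 312360*m^8 + 2413976*m^7 + 12982260*m^6 + 49518872*m^5 + 133792344*m^4 + 250572884*m^3 + 309310118*m^2 + 226084394*m + 73977181)*t1 := mul_nonneg (by positivity) a1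
  have h6 : (0:ℝ) < (32*m^9 + 1152*m^8 + 18432*m^7 + 171732*m^6 + 1024932*m^5 + 4055582*m^4 + 10617416*m^3 + 17694394*m^2 + 16994817*m + 7151183) := by positivity
  linarith

theorem q2435 {m : ℝ} (hm : 0 ≤ m) : Q m .e2 .e4 .e3 .e5 := by
  intro t0 t1 t2 t3 a0 b0 a1 b1 a2 b2 a3 b3 h1 h2 h3 h4
  simp only [px, py, dx, dy] at h1 h2 h3 h4 ⊢
  exfalso
  have h : (16*m^8 + 496*m^7 + 6704*m^6 + 51516*m^5 + 245732*m^4 + 743694*m^3 + 1391984*m^2 + 1470670*m + 670555)*t1 + (32*m^6 + 784*m^5 + 7992*m^4 + 43262*m^3 + 130728*m^2 + 208279*m + 136121) = 0 := by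
    linear_combination (4*m^4 + 58*m^3 + 310*m^2 + 715*m + 600)*h1 + (-4*m^4 - 54*m^3 - 270*m^2 - 582*m - 455)*h2 + (4*m^4 + 58*m^3 + 310*m^2 + 715*m + 600)*h3 + (-8*m^5 - 156*m^4 - 1210*m^3 - 4648*m^2 - 8801*m - 6541)*h4
  have h5 : (0:ℝ) ≤ (16*m^8 + 496*m^7 + 6704*m^6 + 51516*m^5 + 245732*m^4 + 743694*m^3 + 1391984*m^2 + 1470670*m + 670555)*t1 := mul_nonneg (by positivity) a1
  have h6 : (0:ℝ) < (32*m^6 + 784*m^5 + 7992*m^4 + 43262*m^3 + 130728*m^2 + 208279*m + 136121) := by positivity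
  linarith

theorem q2443 {m : ℝ} (hm : 0 ≤ m) : Q m .e2 .e4 .e4 .e3 := by
  intro t0 t1 t2 t3 a0 b0 a1 b1 a2 b2 a3 b3 h1 h2 h3 h4
  simp only [px, py, dx, dy] at h1 h2 h3 h4 ⊢
  exfalso
  have h : (16*m^11 + 704*m^10 + 14080*m^9 + 168888*m^8 + 1349340*m^7 + 7536100*m^6 + 30006476*m^5 + 85127136*m^4 + 168517604*m^3 + 221535518*m^2 + 173928825*m + 61733615)*t1 + (16*m^8 + 544*m^7 + 8140*m^6 + 69852*m^5 + 375150*m^4 + 1288104*m^3 + 2753734*m^2 + 3340465*m + 1754233) = 0 := by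
    linear_combination (-16*m^6 - 400*m^5 - 4144*m^4 - 22776*m^3 - 70002*m^2 - 113966*m - 76620)*h1 + (-16*m^8 - 496*m^7 - 6720*m^6 - 51904*m^5 - 249658*m^4 - 764794*m^3 - 1455162*m^2 - 1569985*m - 734275)*h2 + (-8*m^8 - 248*m^7 - 3364*m^6 - 26056*m^5 - 125940*m^4 - 388682*m^3 - 747514*m^2 - 818676*m - 390780)*h3 + (-8*m^8 - 256*m^7 - 3584*m^6 - 28648*m^5 - 142874*m^4 - 454786*m^3 - 901192*m^2 - 1014745*m - 496037)*h4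
  have h5 : (0:ℝ) ≤ (16*m^11 + 704*m^10 + 14080*m^9 + 168888*m^8 + 1349340*m^7 + 7536100*m^6 + 30006476*m^5 + 85127136*m^4 + 168517604*m^3 + 221535518*m^2 + 173928825*m + 61733615)*t1 := mul_nonneg (by positivity) a1
  have h6 : (0:ℝ) < (16*m^8 + 544*m^7 + 8140*m^6 + 69852*m^5 + 375150*m^4 + 1288104*m^3 + 2753734*m^2 + 3340465*m + 1754233) := by positivity
  linarith

theorem q2444 {m : ℝ} (hm : 0 ≤ m) : Q m .e2 .e4 .e4 .e4 := by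
  intro t0 t1 t2 t3 a0 b0 a1 b1 a2 b2 a3 b3 h1 h2 h3 h4
  simp only [px, py, dx, dy] at h1 h2 h3 h4 ⊢
  exfalso
  have h : (16*m^11 + 704*m^10 + 14040*m^9 + 167416*m^8 + 1325352*m^7 + 7309180*m^6 + 28635196*m^5 + 79646136*m^4 + 154052546*m^3 + 197273922*m^2 + 150504242*m + 51831613)*t3 + (16*m^9 + 584*m^8 + 9464*m^7 + 89228*m^6 + 538472*m^5 + 2153328*m^4 + 5696544*m^3 + 9599042*m^2 + 9339698*m + 3997331) = 0 := by
    linear_combination (16*m^6 + 408*m^5 + 4292*m^4 + 23808*m^3 + 73276*m^2 + 118278*m + 77940)*h1 + (16*m^8 + 504*m^7 + 6916*m^6 + 53912*m^5 + 260684*m^4 + 799252*m^3 + 1514696*m^2 + 1619540*m + 746925)*h2 + (8*m^8 + 256*m^7 + 3572*m^6 + 28352*m^5 + 139840*m^4 + 438320*m^3 + 851554*m^2 + 936448*m + 445855)*h3 + (-8*m^6 - 208*m^5 - 2236*m^4 - 12716*m^3 - 40308*m^2 - 67442*m - 46524)*h4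
  have h5 : (0:ℝ) ≤ (16*m^11 + 704*m^10 + 14040*m^9 + 167416*m^8 + 1325352*m^7 + 7309180*m^6 + 28635196*m^5 + 79646136*m^4 + 154052546*m^3 + 197273922*m^2 + 150504242*m + 51831613)*t3 := mul_nonneg (by positivity) a3
  have h6 : (0:ℝ) < (16*m^9 + 584*m^8 + 9464*m^7 + 89228*m^6 + 538472*m^5 + 2153328*m^4 + 5696544*m^3 + 9599042*m^2 + 9339698*m + 3997331) := by positivity
  linarith

theorem q2445 {m : ℝ} (hm : 0 ≤ m) : Q m .e2 .e4 .e4 .e5 := by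
  intro t0 t1 t2 t3 a0 b0 a1 b1 a2 b2 a3 b3 h1 h2 h3 h4
  simp only [px, py, dx, dy] at h1 h2 h3 h4 ⊢
  exfalso
  have h : (8*m^8 + 256*m^7 + 3556*m^6 + 27944*m^5 + 135548*m^4 + 414512*m^3 + 778278*m^2 + 818170*m + 367915)*t1 + (16*m^6 + 396*m^5 + 4052*m^4 + 21838*m^3 + 64982*m^2 + 100386*m + 62213) = 0 := by
    linear_combination (-4*m^2 - 34*m - 60)*h1 + (-4*m^4 - 58*m^3 - 308*m^2 - 700*m - 575)*h2 + (-4*m^2 - 34*m - 60)*h3 + (-4*m^5 - 80*m^4 - 630*m^3 - 2422*m^2 - 4500*m - 3193)*h4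
  have h5 : (0:ℝ) ≤ (8*m^8 + 256*m^7 + 3556*m^6 + 27944*m^5 + 135548*m^4 + 414512*m^3 + 778278*m^2 + 818170*m + 367915)*t1 := mul_nonneg (by positivity) a1
  have h6 : (0:ℝ) < (16*m^6 + 396*m^5 + 4052*m^4 + 21838*m^3 + 64982*m^2 + 100386*m + 62213) := by positivity
  linarith

theorem q2453 {m : ℝ} (hm : 0 ≤ m) : Q m .e2 .e4 .e5 .e3 := by
  intro t0 t1 t2 t3 a0 b0 a1 b1 a2 b2 a3 b3 h1 h2 h3 h4
  simp only [px, py, dx, dy] at h1 h2 h3 h4 ⊢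
  exfalso
  have h : (8*m^8 + 256*m^7 + 3568*m^6 + 28248*m^5 + 138738*m^4 + 432158*m^3 + 832218*m^2 + 903945*m + 423005)*(1 - t3) + (8*m^6 + 212*m^5 + 2296*m^4 + 13062*m^3 + 41262*m^2 + 68728*m + 47143) = 0 := by
    linear_combination (-8*m^5 - 156*m^4 - 1210*m^3 - 4644*m^2 - 8774*m - 6495)*h2 + (-4*m^5 - 80*m^4 - 634*m^3 - 2474*m^2 - 4720*m - 3505)*h3 + (-4*m^3 - 52*m^2 - 220*m - 312)*h4
  have h5 : (0:ℝ) ≤ (8*m^8 + 256*m^7 + 3568*m^6 + 28248*m^5 + 138738*m^4 + 432158*m^3 + 832218*m^2 + 903945*m + 423005)*(1 - t3) := mul_nonneg (by positivity) (by linarith)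
  have h6 : (0:ℝ) < (8*m^6 + 212*m^5 + 2296*m^4 + 13062*m^3 + 41262*m^2 + 68728*m + 47143) := by positivity
  linarith

theorem q2454 {m : ℝ} (hm : 0 ≤ m) : Q m .e2 .e4 .e5 .e4 := by
  intro t0 t1 t2 t3 a0 b0 a1 b1 a2 b2 a3 b3 h1 h2 h3 h4
  simp only [px, py, dx, dy] at h1 h2 h3 h4 ⊢
  exfalso
  have h : (8*m^8 + 256*m^7 + 3580*m^6 + 28552*m^5 + 141896*m^4 + 449412*m^3 + 884522*m^2 + 987284*m + 477271)*t1 + (8*m^6 + 204*m^5 + 2192*m^4 + 12666*m^3 + 41410*m^2 + 72488*m + 53081) = 0 := by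
    linear_combination (-4*m^4 - 66*m^3 - 416*m^2 - 1174*m - 1259)*h2 + (-4*m^3 - 52*m^2 - 220*m - 312)*h3 + (-4*m^5 - 80*m^4 - 642*m^3 - 2586*m^2 - 5228*m - 4249)*h4
  have h5 : (0:ℝ) ≤ (8*m^8 + 256*m^7 + 3580*m^6 + 28552*m^5 + 141896*m^4 + 449412*m^3 + 884522*m^2 + 987284*m + 477271)*t1 := mul_nonneg (by positivity) a1
  have h6 : (0:ℝ) < (8*m^6 + 204*m^5 + 2192*m^4 + 12666*m^3 + 41410*m^2 + 72488*m + 53081) := by positivity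
  linarith

theorem q2455 {m : ℝ} (hm : 0 ≤ m) : Q m .e2 .e4 .e5 .e5 := by
  intro t0 t1 t2 t3 a0 b0 a1 b1 a2 b2 a3 b3 h1 h2 h3 h4
  simp only [px, py, dx, dy] at h1 h2 h3 h4 ⊢
  exfalso
  have h : (4*m^5 + 80*m^4 + 634*m^3 + 2474*m^2 + 4720*m + 3505)*t1 + (8*m^3 + 106*m^2 + 468*m + 671) = 0 := by
    linear_combination (-2*m - 5)*h2 + (-2*m^2 - 16*m - 31)*h4
  have h5 : (0:ℝ) ≤ (4*m^5 + 80*m^4 + 634*m^3 + 2474*m^2 + 4720*m + 3505)*t1 := mul_nonneg (by positivity) a1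
  have h6 : (0:ℝ) < (8*m^3 + 106*m^2 + 468*m + 671) := by positivity
  linarith

theorem q2525 {m : ℝ} (hm : 0 ≤ m) : Q m .e2 .e5 .e2 .e5 := by
  intro t0 t1 t2 t3 a0 b0 a1 b1 a2 b2 a3 b3 h1 h2 h3 h4
  simp only [px, py, dx, dy] at h1 h2 h3 h4 ⊢
  exfalso
  have h : (8*m^5 + 152*m^4 + 1156*m^3 + 4404*m^2 + 8412*m + 6448)*t2 + (8*m^3 + 88*m^2 + 328*m + 416) = 0 := by
    linear_combination (2*m^2 + 16*m + 31)*h1 + (2*m^2 + 14*m + 26)*h2 + (2*m^2 + 16*m + 31)*h3 + (-2*m^2 - 16*m - 31)*h4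
  have h5 : (0:ℝ) ≤ (8*m^5 + 152*m^4 + 1156*m^3 + 4404*m^2 + 8412*m + 6448)*t2 := mul_nonneg (by positivity) a2
  have h6 : (0:ℝ) < (8*m^3 + 88*m^2 + 328*m + 416) := by positivity
  linarith

theorem q2533 {m : ℝ} (hm : 0 ≤ m) : Q m .e2 .e5 .e3 .e3 := by
  intro t0 t1 t2 t3 a0 b0 a1 b1 a2 b2 a3 b3 h1 h2 h3 h4
  simp only [px, py, dx, dy] at h1 h2 h3 h4 ⊢
  exfalso
  have h : (16*m^8 + 496*m^7 + 6720*m^6 + 51908*m^5 + 249730*m^4 + 765352*m^3 + 1457487*m^2 + 1575141*m + 738991)*(1 - t3) + (16*m^6 + 392*m^5 + 3976*m^4 + 21334*m^3 + 63716*m^2 + 100109*m + 64361) = 0 := by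
    linear_combination (-8*m^5 - 156*m^4 - 1214*m^3 - 4698*m^2 - 9015*m - 6840)*h1 + (8*m^5 + 148*m^4 + 1094*m^3 + 4018*m^2 + 7290*m + 5187)*h2 + (-4*m^4 - 62*m^3 - 360*m^2 - 929*m - 899)*h3 + (8*m^5 + 156*m^4 + 1214*m^3 + 4698*m^2 + 9015*m + 6840)*h4
  have h5 : (0:ℝ) ≤ (16*m^8 + 496*m^7 + 6720*m^6 + 51908*m^5 + 249730*m^4 + 765352*m^3 + 1457487*m^2 + 1575141*m + 738991)*(1 - t3) := mul_nonneg (by positivity) (by linarith)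
  have h6 : (0:ℝ) < (16*m^6 + 392*m^5 + 3976*m^4 + 21334*m^3 + 63716*m^2 + 100109*m + 64361) := by positivity
  linarith

theorem q2534 {m : ℝ} (hm : 0 ≤ m) : Q m .e2 .e5 .e3 .e4 := by
  intro t0 t1 t2 t3 a0 b0 a1 b1 a2 b2 a3 b3 h1 h2 h3 h4
  simp only [px, py, dx, dy] at h1 h2 h3 h4 ⊢
  exfalso
  have h : (16*m^8 + 496*m^7 + 6704*m^6 + 51516*m^5 + 245716*m^4 + 743398*m^3 + 1389928*m^2 + 1464338*m + 663379)*t3 + (16*m^6 + 392*m^5 + 3976*m^4 + 21334*m^3 + 63716*m^2 + 100109*m + 64361) = 0 := by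
    linear_combination (-8*m^5 - 156*m^4 - 1214*m^3 - 4698*m^2 - 9015*m - 6840)*h1 + (8*m^5 + 148*m^4 + 1094*m^3 + 4018*m^2 + 7290*m + 5187)*h2 + (-4*m^4 - 62*m^3 - 360*m^2 - 929*m - 899)*h3 + (8*m^5 + 156*m^4 + 1214*m^3 + 4698*m^2 + 9015*m + 6840)*h4
  have h5 : (0:ℝ) ≤ (16*m^8 + 496*m^7 + 6704*m^6 + 51516*m^5 + 245716*m^4 + 743398*m^3 + 1389928*m^2 + 1464338*m + 663379)*t3 := mul_nonneg (by positivity) a3
  have h6 : (0:ℝ) < (16*m^6 + 392*m^5 + 3976*m^4 + 21334*m^3 + 63716*m^2 + 100109*m + 64361) := by positivity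
  linarith

theorem q2535 {m : ℝ} (hm : 0 ≤ m) : Q m .e2 .e5 .e3 .e5 := by
  intro t0 t1 t2 t3 a0 b0 a1 b1 a2 b2 a3 b3 h1 h2 h3 h4
  simp only [px, py, dx, dy] at h1 h2 h3 h4 ⊢
  exfalso
  have h : (8*m^5 + 152*m^4 + 1152*m^3 + 4338*m^2 + 8086*m + 5941)*(1 - t2) + (12*m^3 + 154*m^2 + 654*m + 923) = 0 := by
    linear_combination (2*m^2 + 16*m + 31)*h1 + (2*m^2 + 14*m + 26)*h2 + (2*m^2 + 16*m + 31)*h3 + (-2*m^2 - 16*m - 31)*h4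
  have h5 : (0:ℝ) ≤ (8*m^5 + 152*m^4 + 1152*m^3 + 4338*m^2 + 8086*m + 5941)*(1 - t2) := mul_nonneg (by positivity) (by linarith)
  have h6 : (0:ℝ) < (12*m^3 + 154*m^2 + 654*m + 923) := by positivity
  linarith

theorem q2543 {m : ℝ} (hm : 0 ≤ m) : Q m .e2 .e5 .e4 .e3 := by
  intro t0 t1 t2 t3 a0 b0 a1 b1 a2 b2 a3 b3 h1 h2 h3 h4
  simp only [px, py, dx, dy] at h1 h2 h3 h4 ⊢
  have wx : (8*m^8 + 256*m^7 + 3600*m^6 + 29048*m^5 + 147018*m^4 + 477562*m^3 + 971194*m^2 + 1128711*m + 572657)*((2*m^3 + 24*m^2 + 96*m + 128) + t1*(-2*m^3 - 25*m^2 - 104*m - 144) - ((0) + t0*(2*m^3 + 22*m^2 + 82*m + 104))) = 16*m^9 + 608*m^8 + 10224*m^7 + 99832*m^6 + 623572*m^5 + 2582544*m^4 + 7087280*m^3 + 12418030*m^2 + 12593868*m + 5625936 := by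
    linear_combination (-8*m^6 - 208*m^5 - 2240*m^4 - 12788*m^3 - 40806*m^2 - 68986*m - 48228)*h1 + (-8*m^8 - 256*m^7 - 3576*m^6 - 28448*m^5 - 140814*m^4 - 443610*m^3 - 867592*m^2 - 961871*m - 462185)*h2 + (8*m^6 + 200*m^5 + 2060*m^4 + 11176*m^3 + 33600*m^2 + 52874*m + 33852)*h3 + (-8*m^8 - 256*m^7 - 3592*m^6 - 28840*m^5 - 144778*m^4 - 464774*m^3 - 930388*m^2 - 1059725*m - 524429)*h4
  have Dx : (0:ℝ) < (8*m^8 + 256*m^7 + 3600*m^6 + 29048*m^5 + 147018*m^4 + 477562*m^3 + 971194*m^2 + 1128711*m + 572657) := by positivity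
  have wy : (8*m^8 + 256*m^7 + 3600*m^6 + 29048*m^5 + 147018*m^4 + 477562*m^3 + 971194*m^2 + 1128711*m + 572657)*((0) + t1*(0) - ((2*m + 8) + t0*(2*m^3 + 24*m^2 + 95*m + 124))) = -32*m^9 - 1176*m^8 - 19208*m^7 - 182904*m^6 - 1118312*m^5 - 4550034*m^4 - 12310552*m^3 - 21341826*m^2 - 21494093*m - 9572628 := by
    linear_combination (8*m^6 + 200*m^5 + 2060*m^4 + 11176*m^3 + 33600*m^2 + 52874*m + 33852)*h1 + (8*m^8 + 248*m^7 + 3348*m^6 + 25668*m^5 + 122024*m^4 + 367652*m^3 + 684248*m^2 + 717814*m + 324415)*h2 + (8*m^8 + 256*m^7 + 3584*m^6 + 28660*m^5 + 143102*m^4 + 456532*m^3 + 907928*m^2 + 1027849*m + 506292)*h3 + (-8*m^6 - 200*m^5 - 2060*m^4 - 11176*m^3 - 33600*m^2 - 52874*m - 33852)*h4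
  have Dy : (0:ℝ) < (8*m^8 + 256*m^7 + 3600*m^6 + 29048*m^5 + 147018*m^4 + 477562*m^3 + 971194*m^2 + 1128711*m + 572657) := by positivity
  refine ⟨abs_le.mpr ⟨?_, ?_⟩, abs_le.mpr ⟨?_, ?_⟩⟩
  · refine le_of_mul_le_mul_left ?_ Dx
    rw [wx]
    have : (0:ℝ) ≤ (56*m^9 + 2048*m^8 + 33344*m^7 + 317072*m^6 + 1939622*m^5 + 7910714*m^4 + 21494490*m^3 + 37485465*m^2 + 38031373*m + 17079076) := by positivity
    linarith
  · refine le_of_mul_le_mul_left ?_ Dx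
    rw [wx]
    have : (0:ℝ) ≤ (24*m^9 + 832*m^8 + 12896*m^7 + 117408*m^6 + 692478*m^5 + 2745626*m^4 + 7319930*m^3 + 12649405*m^2 + 12843637*m + 5827204) := by positivity
    linarith
  · refine le_of_mul_le_mul_left ?_ Dy
    rw [wy]
    have : (0:ℝ) ≤ (8*m^9 + 264*m^8 + 3912*m^7 + 34336*m^6 + 197738*m^5 + 778136*m^4 + 2096658*m^3 + 3725609*m^2 + 3943412*m + 1880512) := by positivity
    linarith
  · refine le_of_mul_le_mul_left ?_ Dy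
    rw [wy]
    have : (0:ℝ) ≤ (72*m^9 + 2616*m^8 + 42328*m^7 + 400144*m^6 + 2434362*m^5 + 9878204*m^4 + 26717762*m^3 + 46409261*m^2 + 46931598*m + 21025768) := by positivity
    linarith

theorem q2544 {m : ℝ} (hm : 0 ≤ m) : Q m .e2 .e5 .e4 .e4 := by
  intro t0 t1 t2 t3 a0 b0 a1 b1 a2 b2 a3 b3 h1 h2 h3 h4
  simp only [px, py, dx, dy] at h1 h2 h3 h4 ⊢
  exfalso
  have h : (8*m^8 + 256*m^7 + 3572*m^6 + 28360*m^5 + 140020*m^4 + 439944*m^3 + 858894*m^2 + 953054*m + 460963)*t3 + (16*m^6 + 396*m^5 + 4068*m^4 + 22134*m^3 + 67038*m^2 + 106718*m + 69389) = 0 := by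
    linear_combination (8*m^3 + 108*m^2 + 474*m + 684)*h1 + (8*m^5 + 156*m^4 + 1210*m^3 + 4648*m^2 + 8808*m + 6555)*h2 + (4*m^5 + 80*m^4 + 638*m^3 + 2534*m^2 + 5008*m + 3937)*h3 + (-8*m^3 - 108*m^2 - 474*m - 684)*h4
  have h5 : (0:ℝ) ≤ (8*m^8 + 256*m^7 + 3572*m^6 + 28360*m^5 + 140020*m^4 + 439944*m^3 + 858894*m^2 + 953054*m + 460963)*t3 := mul_nonneg (by positivity) a3
  have h6 : (0:ℝ) < (16*m^6 + 396*m^5 + 4068*m^4 + 22134*m^3 + 67038*m^2 + 106718*m + 69389) := by positivity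
  linarith

theorem q2545 {m : ℝ} (hm : 0 ≤ m) : Q m .e2 .e5 .e4 .e5 := by
  intro t0 t1 t2 t3 a0 b0 a1 b1 a2 b2 a3 b3 h1 h2 h3 h4
  simp only [px, py, dx, dy] at h1 h2 h3 h4 ⊢
  exfalso
  have h : (4*m^5 + 80*m^4 + 630*m^3 + 2426*m^2 + 4534*m + 3253)*t2 + (12*m^3 + 154*m^2 + 654*m + 923) = 0 := by
    linear_combination (2*m^2 + 16*m + 31)*h1 + (2*m^2 + 14*m + 26)*h2 + (2*m^2 + 16*m + 31)*h3 + (-2*m^2 - 16*m - 31)*h4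
  have h5 : (0:ℝ) ≤ (4*m^5 + 80*m^4 + 630*m^3 + 2426*m^2 + 4534*m + 3253)*t2 := mul_nonneg (by positivity) a2
  have h6 : (0:ℝ) < (12*m^3 + 154*m^2 + 654*m + 923) := by positivity
  linarith

theorem q2553 {m : ℝ} (hm : 0 ≤ m) : Q m .e2 .e5 .e5 .e3 := by
  intro t0 t1 t2 t3 a0 b0 a1 b1 a2 b2 a3 b3 h1 h2 h3 h4
  simp only [px, py, dx, dy] at h1 h2 h3 h4 ⊢
  exfalso
  have h : (4*m^5 + 80*m^4 + 640*m^3 + 2554*m^2 + 5079*m + 4019)*(1 - t3) + (6*m^2 + 40*m + 73) = 0 := by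
    linear_combination (-4*m^2 - 30*m - 57)*h2 + (-2*m^2 - 16*m - 31)*h3
  have h5 : (0:ℝ) ≤ (4*m^5 + 80*m^4 + 640*m^3 + 2554*m^2 + 5079*m + 4019)*(1 - t3) := mul_nonneg (by positivity) (by linarith)
  have h6 : (0:ℝ) < (6*m^2 + 40*m + 73) := by positivity
  linarith

theorem q2554 {m : ℝ} (hm : 0 ≤ m) : Q m .e2 .e5 .e5 .e4 := by
  intro t0 t1 t2 t3 a0 b0 a1 b1 a2 b2 a3 b3 h1 h2 h3 h4
  simp only [px, py, dx, dy] at h1 h2 h3 h4 ⊢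
  have wx : 1*((2*m^3 + 24*m^2 + 96*m + 128) + t1*(-2*m^3 - 25*m^2 - 104*m - 144) - ((0) + t0*(2*m^3 + 22*m^2 + 82*m + 104))) = 0 := by
    linear_combination (-1)*h2 + (-1)*h4
  have Dx : (0:ℝ) < 1 := by positivity
  have wy : (4*m^5 + 80*m^4 + 642*m^3 + 2586*m^2 + 5228*m + 4249)*((0) + t1*(0) - ((2*m + 8) + t0*(2*m^3 + 24*m^2 + 95*m + 124))) = -8*m^6 - 208*m^5 - 2244*m^4 - 12864*m^3 - 41336*m^2 - 70608*m - 50112 := by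
    linear_combination (-4*m^5 - 80*m^4 - 634*m^3 - 2478*m^2 - 4754*m - 3565)*h2 + (4*m^3 + 56*m^2 + 254*m + 372)*h3
  have Dy : (0:ℝ) < (4*m^5 + 80*m^4 + 642*m^3 + 2586*m^2 + 5228*m + 4249) := by positivity
  refine ⟨abs_le.mpr ⟨?_, ?_⟩, abs_le.mpr ⟨?_, ?_⟩⟩
  · refine le_of_mul_le_mul_left ?_ Dx
    rw [wx]
    have : (0:ℝ) ≤ (5*m + 20) := by positivity
    linarith
  · refine le_of_mul_le_mul_left ?_ Dx
    rw [wx]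
    have : (0:ℝ) ≤ (5*m + 20) := by positivity
    linarith
  · refine le_of_mul_le_mul_left ?_ Dy
    rw [wy]
    have : (0:ℝ) ≤ (12*m^6 + 272*m^5 + 2566*m^4 + 12906*m^3 + 36524*m^2 + 55197*m + 34868) := by positivity
    linarith
  · refine le_of_mul_le_mul_left ?_ Dy
    rw [wy]
    have : (0:ℝ) ≤ (28*m^6 + 688*m^5 + 7054*m^4 + 38634*m^3 + 119196*m^2 + 196413*m + 135092) := by positivity
    linarith

theorem q2555 {m : ℝ} (hm : 0 ≤ m) : Q m .e2 .e5 .e5 .e5 := by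
  intro t0 t1 t2 t3 a0 b0 a1 b1 a2 b2 a3 b3 h1 h2 h3 h4
  simp only [px, py, dx, dy] at h1 h2 h3 h4 ⊢
  exfalso
  have h : (2*m^3 + 24*m^2 + 95*m + 124)*t0 + (2*m + 8) = 0 := by
    linear_combination 1*h2
  have h5 : (0:ℝ) ≤ (2*m^3 + 24*m^2 + 95*m + 124)*t0 := mul_nonneg (by positivity) a0
  have h6 : (0:ℝ) < (2*m + 8) := by positivity
  linarith

theorem q3333 {m : ℝ} (hm : 0 ≤ m) : Q m .e3 .e3 .e3 .e3 := by
  refine sing hm ?_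
  have h : dx m .e3 ^ 2 + dy m .e3 ^ 2 = (2*m^3 + 22*m^2 + 80*m + 91)^2 + (-2*m^3 - 24*m^2 - 95*m - 120)^2 := by
    simp only [dx, dy] <;> ring
  rw [h]; positivity

theorem q3334 {m : ℝ} (hm : 0 ≤ m) : Q m .e3 .e3 .e3 .e4 := by
  intro t0 t1 t2 t3 a0 b0 a1 b1 a2 b2 a3 b3 h1 h2 h3 h4
  simp only [px, py, dx, dy] at h1 h2 h3 h4 ⊢
  have wx : (8*m^6 + 184*m^5 + 1760*m^4 + 8924*m^3 + 25189*m^2 + 37360*m + 22681)*((2*m^3 + 22*m^2 + 82*m + 104) + t1*(-2*m^3 - 22*m^2 - 80*m - 91) - ((2*m^3 + 22*m^2 + 82*m + 104) + t0*(-2*m^3 - 22*m^2 - 80*m - 91))) = 0 := by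
    linear_combination (4*m^6 + 92*m^5 + 878*m^4 + 4432*m^3 + 12424*m^2 + 18245*m + 10920)*h1 + (-4*m^6 - 88*m^5 - 804*m^4 - 3884*m^3 - 10404*m^2 - 14560*m - 8281)*h2 + (4*m^6 + 92*m^5 + 878*m^4 + 4432*m^3 + 12424*m^2 + 18245*m + 10920)*h3 + (-4*m^6 - 88*m^5 - 804*m^4 - 3884*m^3 - 10404*m^2 - 14560*m - 8281)*h4
  have Dx : (0:ℝ) < (8*m^6 + 184*m^5 + 1760*m^4 + 8924*m^3 + 25189*m^2 + 37360*m + 22681) := by positivity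
  have wy : (8*m^6 + 184*m^5 + 1760*m^4 + 8924*m^3 + 25189*m^2 + 37360*m + 22681)*((2*m^3 + 24*m^2 + 97*m + 132) + t1*(-2*m^3 - 24*m^2 - 95*m - 120) - ((2*m^3 + 24*m^2 + 97*m + 132) + t0*(-2*m^3 - 24*m^2 - 95*m - 120))) = 0 := by
    linear_combination (4*m^6 + 96*m^5 + 956*m^4 + 5040*m^3 + 14785*m^2 + 22800*m + 14400)*h1 + (-4*m^6 - 92*m^5 - 878*m^4 - 4432*m^3 - 12424*m^2 - 18245*m - 10920)*h2 + (4*m^6 + 96*m^5 + 956*m^4 + 5040*m^3 + 14785*m^2 + 22800*m + 14400)*h3 + (-4*m^6 - 92*m^5 - 878*m^4 - 4432*m^3 - 12424*m^2 - 18245*m - 10920)*h4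
  have Dy : (0:ℝ) < (8*m^6 + 184*m^5 + 1760*m^4 + 8924*m^3 + 25189*m^2 + 37360*m + 22681) := by positivity
  refine ⟨abs_le.mpr ⟨?_, ?_⟩, abs_le.mpr ⟨?_, ?_⟩⟩
  · refine le_of_mul_le_mul_left ?_ Dx
    rw [wx]
    have : (0:ℝ) ≤ (40*m^7 + 1080*m^6 + 12480*m^5 + 79820*m^4 + 304425*m^3 + 690580*m^2 + 860605*m + 453620) := by positivity
    linarith
  · refine le_of_mul_le_mul_left ?_ Dx
    rw [wx]
    have : (0:ℝ) ≤ (40*m^7 + 1080*m^6 + 12480*m^5 + 79820*m^4 + 304425*m^3 + 690580*m^2 + 860605*m + 453620) := by positivity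
    linarith
  · refine le_of_mul_le_mul_left ?_ Dy
    rw [wy]
    have : (0:ℝ) ≤ (40*m^7 + 1080*m^6 + 12480*m^5 + 79820*m^4 + 304425*m^3 + 690580*m^2 + 860605*m + 453620) := by positivity
    linarith
  · refine le_of_mul_le_mul_left ?_ Dy
    rw [wy]
    have : (0:ℝ) ≤ (40*m^7 + 1080*m^6 + 12480*m^5 + 79820*m^4 + 304425*m^3 + 690580*m^2 + 860605*m + 453620) := by positivity
    linarith

theorem q3335 {m : ℝ} (hm : 0 ≤ m) : Q m .e3 .e3 .e3 .e5 := by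
  intro t0 t1 t2 t3 a0 b0 a1 b1 a2 b2 a3 b3 h1 h2 h3 h4
  simp only [px, py, dx, dy] at h1 h2 h3 h4 ⊢
  exfalso
  have h : (16*m^9 + 560*m^8 + 8696*m^7 + 78528*m^6 + 453834*m^5 + 1738236*m^4 + 4405837*m^3 + 7116224*m^2 + 6637895*m + 2721720)*(1 - t1) + (16*m^7 + 464*m^6 + 5728*m^5 + 38968*m^4 + 157466*m^3 + 376988*m^2 + 493682*m + 272172) = 0 := by
    linear_combination (4*m^5 + 78*m^4 + 608*m^3 + 2361*m^2 + 4555*m + 3480)*h1 + (-4*m^5 - 74*m^4 - 548*m^3 - 2020*m^2 - 3685*m - 2639)*h2 + (4*m^5 + 78*m^4 + 608*m^3 + 2361*m^2 + 4555*m + 3480)*h3 + (-8*m^6 - 188*m^5 - 1834*m^4 - 9472*m^3 - 27209*m^2 - 41045*m - 25320)*h4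
  have h5 : (0:ℝ) ≤ (16*m^9 + 560*m^8 + 8696*m^7 + 78528*m^6 + 453834*m^5 + 1738236*m^4 + 4405837*m^3 + 7116224*m^2 + 6637895*m + 2721720)*(1 - t1) := mul_nonneg (by positivity) (by linarith)
  have h6 : (0:ℝ) < (16*m^7 + 464*m^6 + 5728*m^5 + 38968*m^4 + 157466*m^3 + 376988*m^2 + 493682*m + 272172) := by positivity
  linarith

theorem q3344 {m : ℝ} (hm : 0 ≤ m) : Q m .e3 .e3 .e4 .e4 := by
  intro t0 t1 t2 t3 a0 b0 a1 b1 a2 b2 a3 b3 h1 h2 h3 h4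
  simp only [px, py, dx, dy] at h1 h2 h3 h4 ⊢
  have wx : (4*m^6 + 96*m^5 + 958*m^4 + 5074*m^3 + 14994*m^2 + 23347*m + 14892)*((2*m^3 + 22*m^2 + 82*m + 104) + t1*(-2*m^3 - 22*m^2 - 80*m - 91) - ((2*m^3 + 22*m^2 + 82*m + 104) + t0*(-2*m^3 - 22*m^2 - 80*m - 91))) = 0 := by
    linear_combination (-4*m^4 - 68*m^3 - 424*m^2 - 1142*m - 1092)*h1 + (-4*m^6 - 92*m^5 - 876*m^4 - 4400*m^3 - 12234*m^2 - 17754*m - 10465)*h2
  have Dx : (0:ℝ) < (4*m^6 + 96*m^5 + 958*m^4 + 5074*m^3 + 14994*m^2 + 23347*m + 14892) := by positivity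
  have wy : (4*m^6 + 96*m^5 + 958*m^4 + 5074*m^3 + 14994*m^2 + 23347*m + 14892)*((2*m^3 + 24*m^2 + 97*m + 132) + t1*(-2*m^3 - 24*m^2 - 95*m - 120) - ((2*m^3 + 24*m^2 + 97*m + 132) + t0*(-2*m^3 - 24*m^2 - 95*m - 120))) = 0 := by
    linear_combination (-4*m^4 - 72*m^3 - 478*m^2 - 1380*m - 1440)*h1 + (-4*m^6 - 96*m^5 - 954*m^4 - 5006*m^3 - 14570*m^2 - 22205*m - 13800)*h2
  have Dy : (0:ℝ) < (4*m^6 + 96*m^5 + 958*m^4 + 5074*m^3 + 14994*m^2 + 23347*m + 14892) := by positivity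
  refine ⟨abs_le.mpr ⟨?_, ?_⟩, abs_le.mpr ⟨?_, ?_⟩⟩
  · refine le_of_mul_le_mul_left ?_ Dx
    rw [wx]
    have : (0:ℝ) ≤ (20*m^7 + 560*m^6 + 6710*m^5 + 44530*m^4 + 176450*m^3 + 416615*m^2 + 541400*m + 297840) := by positivity
    linarith
  · refine le_of_mul_le_mul_left ?_ Dx
    rw [wx]
    have : (0:ℝ) ≤ (20*m^7 + 560*m^6 + 6710*m^5 + 44530*m^4 + 176450*m^3 + 416615*m^2 + 541400*m + 297840) := by positivity
    linarith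
  · refine le_of_mul_le_mul_left ?_ Dy
    rw [wy]
    have : (0:ℝ) ≤ (20*m^7 + 560*m^6 + 6710*m^5 + 44530*m^4 + 176450*m^3 + 416615*m^2 + 541400*m + 297840) := by positivity
    linarith
  · refine le_of_mul_le_mul_left ?_ Dy
    rw [wy]
    have : (0:ℝ) ≤ (20*m^7 + 560*m^6 + 6710*m^5 + 44530*m^4 + 176450*m^3 + 416615*m^2 + 541400*m + 297840) := by positivity
    linarith

theorem q3345 {m : ℝ} (hm : 0 ≤ m) : Q m .e3 .e3 .e4 .e5 := by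
  intro t0 t1 t2 t3 a0 b0 a1 b1 a2 b2 a3 b3 h1 h2 h3 h4
  simp only [px, py, dx, dy] at h1 h2 h3 h4 ⊢
  exfalso
  have h : (8*m^9 + 288*m^8 + 4584*m^7 + 42276*m^6 + 248566*m^5 + 964572*m^4 + 2465956*m^3 + 3997665*m^2 + 3722698*m + 1514868)*(1 - t1) + (8*m^7 + 232*m^6 + 2848*m^5 + 19120*m^4 + 75448*m^3 + 173820*m^2 + 214538*m + 108300) = 0 := by
    linear_combination (-4*m^3 - 54*m^2 - 238*m - 348)*h1 + (-4*m^5 - 78*m^4 - 606*m^3 - 2336*m^2 - 4451*m - 3335)*h2 + (-4*m^3 - 54*m^2 - 238*m - 348)*h3 + (-4*m^6 - 96*m^5 - 950*m^4 - 4934*m^3 - 14092*m^2 - 20825*m - 12360)*h4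
  have h5 : (0:ℝ) ≤ (8*m^9 + 288*m^8 + 4584*m^7 + 42276*m^6 + 248566*m^5 + 964572*m^4 + 2465956*m^3 + 3997665*m^2 + 3722698*m + 1514868)*(1 - t1) := mul_nonneg (by positivity) (by linarith)
  have h6 : (0:ℝ) < (8*m^7 + 232*m^6 + 2848*m^5 + 19120*m^4 + 75448*m^3 + 173820*m^2 + 214538*m + 108300) := by positivity
  linarith

theorem q3354 {m : ℝ} (hm : 0 ≤ m) : Q m .e3 .e3 .e5 .e4 := by
  intro t0 t1 t2 t3 a0 b0 a1 b1 a2 b2 a3 b3 h1 h2 h3 h4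
  simp only [px, py, dx, dy] at h1 h2 h3 h4 ⊢
  exfalso
  have h : (8*m^9 + 288*m^8 + 4616*m^7 + 43204*m^6 + 260022*m^5 + 1042508*m^4 + 2780888*m^3 + 4751641*m^2 + 4710062*m + 2059212)*(1 - t1) + (8*m^6 + 220*m^5 + 2524*m^4 + 15428*m^3 + 52802*m^2 + 95410*m + 70404) = 0 := by
    linear_combination (-4*m^5 - 86*m^4 - 746*m^3 - 3238*m^2 - 6973*m - 5867)*h2 + (-4*m^4 - 68*m^3 - 424*m^2 - 1142*m - 1092)*h3 + (-4*m^6 - 96*m^5 - 962*m^4 - 5146*m^3 - 15472*m^2 - 24727*m - 16332)*h4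
  have h5 : (0:ℝ) ≤ (8*m^9 + 288*m^8 + 4616*m^7 + 43204*m^6 + 260022*m^5 + 1042508*m^4 + 2780888*m^3 + 4751641*m^2 + 4710062*m + 2059212)*(1 - t1) := mul_nonneg (by positivity) (by linarith)
  have h6 : (0:ℝ) < (8*m^6 + 220*m^5 + 2524*m^4 + 15428*m^3 + 52802*m^2 + 95410*m + 70404) := by positivity
  linarith

theorem q3355 {m : ℝ} (hm : 0 ≤ m) : Q m .e3 .e3 .e5 .e5 := by
  intro t0 t1 t2 t3 a0 b0 a1 b1 a2 b2 a3 b3 h1 h2 h3 h4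
  simp only [px, py, dx, dy] at h1 h2 h3 h4 ⊢
  exfalso
  have h : (4*m^6 + 96*m^5 + 956*m^4 + 5040*m^3 + 14785*m^2 + 22800*m + 14400)*(1 - t1) + (4*m^4 + 72*m^3 + 478*m^2 + 1380*m + 1440) = 0 := by
    linear_combination (-2*m^2 - 15*m - 29)*h2 + (-2*m^3 - 24*m^2 - 95*m - 120)*h4
  have h5 : (0:ℝ) ≤ (4*m^6 + 96*m^5 + 956*m^4 + 5040*m^3 + 14785*m^2 + 22800*m + 14400)*(1 - t1) := mul_nonneg (by positivity) (by linarith)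
  have h6 : (0:ℝ) < (4*m^4 + 72*m^3 + 478*m^2 + 1380*m + 1440) := by positivity
  linarith

theorem q3434 {m : ℝ} (hm : 0 ≤ m) : Q m .e3 .e4 .e3 .e4 := by
  intro t0 t1 t2 t3 a0 b0 a1 b1 a2 b2 a3 b3 h1 h2 h3 h4
  simp only [px, py, dx, dy] at h1 h2 h3 h4 ⊢
  have wx : (8*m^6 + 184*m^5 + 1744*m^4 + 8656*m^3 + 23512*m^2 + 32748*m + 18050)*((2*m + 13) + t1*(2*m^3 + 24*m^2 + 94*m + 115) - ((2*m^3 + 22*m^2 + 82*m + 104) + t0*(-2*m^3 - 22*m^2 - 80*m - 91))) = 0 := by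
    linear_combination (4*m^6 + 96*m^5 + 958*m^4 + 5078*m^3 + 15048*m^2 + 23585*m + 15240)*h1 + (-4*m^6 - 92*m^5 - 880*m^4 - 4468*m^3 - 12658*m^2 - 18896*m - 11557)*h2 + (4*m^6 + 96*m^5 + 950*m^4 + 4938*m^3 + 14146*m^2 + 21063*m + 12708)*h3 + (-12*m^6 - 280*m^5 - 2710*m^4 - 13874*m^3 - 39462*m^2 - 58855*m - 35822)*h4
  have Dx : (0:ℝ) < (8*m^6 + 184*m^5 + 1744*m^4 + 8656*m^3 + 23512*m^2 + 32748*m + 18050) := by positivity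
  have wy : (8*m^6 + 184*m^5 + 1744*m^4 + 8656*m^3 + 23512*m^2 + 32748*m + 18050)*((2*m + 12) + t1*(-2*m - 12) - ((2*m^3 + 24*m^2 + 97*m + 132) + t0*(-2*m^3 - 24*m^2 - 95*m - 120))) = 0 := by
    linear_combination (4*m^6 + 96*m^5 + 950*m^4 + 4934*m^3 + 14092*m^2 + 20825*m + 12360)*h1 + (-4*m^6 - 92*m^5 - 872*m^4 - 4332*m^3 - 11810*m^2 - 16612*m - 9373)*h2 + (4*m^6 + 96*m^5 + 950*m^4 + 4930*m^3 + 14038*m^2 + 20587*m + 12012)*h3 + (-4*m^6 - 96*m^5 - 950*m^4 - 4938*m^3 - 14146*m^2 - 21063*m - 12708)*h4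
  have Dy : (0:ℝ) < (8*m^6 + 184*m^5 + 1744*m^4 + 8656*m^3 + 23512*m^2 + 32748*m + 18050) := by positivity
  refine ⟨abs_le.mpr ⟨?_, ?_⟩, abs_le.mpr ⟨?_, ?_⟩⟩
  · refine le_of_mul_le_mul_left ?_ Dx
    rw [wx]
    have : (0:ℝ) ≤ (40*m^7 + 1080*m^6 + 12400*m^5 + 78160*m^4 + 290680*m^3 + 633980*m^2 + 745210*m + 361000) := by positivity
    linarith
  · refine le_of_mul_le_mul_left ?_ Dx
    rw [wx]
    have : (0:ℝ) ≤ (40*m^7 + 1080*m^6 + 12400*m^5 + 78160*m^4 + 290680*m^3 + 633980*m^2 + 745210*m + 361000) := by positivity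
    linarith
  · refine le_of_mul_le_mul_left ?_ Dy
    rw [wy]
    have : (0:ℝ) ≤ (40*m^7 + 1080*m^6 + 12400*m^5 + 78160*m^4 + 290680*m^3 + 633980*m^2 + 745210*m + 361000) := by positivity
    linarith
  · refine le_of_mul_le_mul_left ?_ Dy
    rw [wy]
    have : (0:ℝ) ≤ (40*m^7 + 1080*m^6 + 12400*m^5 + 78160*m^4 + 290680*m^3 + 633980*m^2 + 745210*m + 361000) := by positivity
    linarith

theorem q3435 {m : ℝ} (hm : 0 ≤ m) : Q m .e3 .e4 .e3 .e5 := by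
  intro t0 t1 t2 t3 a0 b0 a1 b1 a2 b2 a3 b3 h1 h2 h3 h4
  simp only [px, py, dx, dy] at h1 h2 h3 h4 ⊢
  exfalso
  have h : (16*m^9 + 560*m^8 + 8680*m^7 + 78072*m^6 + 448256*m^5 + 1700352*m^4 + 4251878*m^3 + 6742688*m^2 + 6138192*m + 2438172)*t1 + (16*m^7 + 464*m^6 + 5728*m^5 + 38968*m^4 + 157466*m^3 + 376988*m^2 + 493682*m + 272172) = 0 := by
    linear_combination (4*m^5 + 78*m^4 + 608*m^3 + 2361*m^2 + 4555*m + 3480)*h1 + (-4*m^5 - 74*m^4 - 548*m^3 - 2020*m^2 - 3685*m - 2639)*h2 + (4*m^5 + 78*m^4 + 608*m^3 + 2361*m^2 + 4555*m + 3480)*h3 + (-8*m^6 - 188*m^5 - 1834*m^4 - 9472*m^3 - 27209*m^2 - 41045*m - 25320)*h4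
  have h5 : (0:ℝ) ≤ (16*m^9 + 560*m^8 + 8680*m^7 + 78072*m^6 + 448256*m^5 + 1700352*m^4 + 4251878*m^3 + 6742688*m^2 + 6138192*m + 2438172)*t1 := mul_nonneg (by positivity) a1
  have h6 : (0:ℝ) < (16*m^7 + 464*m^6 + 5728*m^5 + 38968*m^4 + 157466*m^3 + 376988*m^2 + 493682*m + 272172) := by positivity
  linarith

theorem q3444 {m : ℝ} (hm : 0 ≤ m) : Q m .e3 .e4 .e4 .e4 := by
  intro t0 t1 t2 t3 a0 b0 a1 b1 a2 b2 a3 b3 h1 h2 h3 h4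
  simp only [px, py, dx, dy] at h1 h2 h3 h4 ⊢
  have wx : (4*m^6 + 96*m^5 + 952*m^4 + 4972*m^3 + 14360*m^2 + 21668*m + 13369)*((2*m + 13) + t1*(2*m^3 + 24*m^2 + 94*m + 115) - ((2*m^3 + 22*m^2 + 82*m + 104) + t0*(-2*m^3 - 22*m^2 - 80*m - 91))) = 0 := by
    linear_combination (-4*m^4 - 72*m^3 - 480*m^2 - 1406*m - 1524)*h1 + (-4*m^6 - 96*m^5 - 956*m^4 - 5044*m^3 - 14832*m^2 - 22978*m - 14605)*h2 + (-4*m^4 - 72*m^3 - 476*m^2 - 1358*m - 1380)*h3 + (-4*m^6 - 96*m^5 - 952*m^4 - 4972*m^3 - 14356*m^2 - 21620*m - 13225)*h4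
  have Dx : (0:ℝ) < (4*m^6 + 96*m^5 + 952*m^4 + 4972*m^3 + 14360*m^2 + 21668*m + 13369) := by positivity
  have wy : (4*m^6 + 96*m^5 + 952*m^4 + 4972*m^3 + 14360*m^2 + 21668*m + 13369)*((2*m + 12) + t1*(-2*m - 12) - ((2*m^3 + 24*m^2 + 97*m + 132) + t0*(-2*m^3 - 24*m^2 - 95*m - 120))) = 0 := by
    linear_combination (-4*m^4 - 72*m^3 - 472*m^2 - 1310*m - 1236)*h1 + (-4*m^6 - 96*m^5 - 948*m^4 - 4900*m^3 - 13880*m^2 - 20262*m - 11845)*h2 + (4*m^2 + 48*m + 144)*h3 + (4*m^4 + 72*m^3 + 476*m^2 + 1358*m + 1380)*h4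
  have Dy : (0:ℝ) < (4*m^6 + 96*m^5 + 952*m^4 + 4972*m^3 + 14360*m^2 + 21668*m + 13369) := by positivity
  refine ⟨abs_le.mpr ⟨?_, ?_⟩, abs_le.mpr ⟨?_, ?_⟩⟩
  · refine le_of_mul_le_mul_left ?_ Dx
    rw [wx]
    have : (0:ℝ) ≤ (20*m^7 + 560*m^6 + 6680*m^5 + 43900*m^4 + 171240*m^3 + 395540*m^2 + 500205*m + 267380) := by positivity
    linarith
  · refine le_of_mul_le_mul_left ?_ Dx
    rw [wx]
    have : (0:ℝ) ≤ (20*m^7 + 560*m^6 + 6680*m^5 + 43900*m^4 + 171240*m^3 + 395540*m^2 + 500205*m + 267380) := by positivity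
    linarith
  · refine le_of_mul_le_mul_left ?_ Dy
    rw [wy]
    have : (0:ℝ) ≤ (20*m^7 + 560*m^6 + 6680*m^5 + 43900*m^4 + 171240*m^3 + 395540*m^2 + 500205*m + 267380) := by positivity
    linarith
  · refine le_of_mul_le_mul_left ?_ Dy
    rw [wy]
    have : (0:ℝ) ≤ (20*m^7 + 560*m^6 + 6680*m^5 + 43900*m^4 + 171240*m^3 + 395540*m^2 + 500205*m + 267380) := by positivity
    linarith

theorem q3445 {m : ℝ} (hm : 0 ≤ m) : Q m .e3 .e4 .e4 .e5 := by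
  intro t0 t1 t2 t3 a0 b0 a1 b1 a2 b2 a3 b3 h1 h2 h3 h4
  simp only [px, py, dx, dy] at h1 h2 h3 h4 ⊢
  exfalso
  have h : (8*m^9 + 288*m^8 + 4580*m^7 + 42152*m^6 + 246940*m^5 + 952912*m^4 + 2416734*m^3 + 3875894*m^2 + 3560267*m + 1425576)*t1 + (8*m^7 + 232*m^6 + 2848*m^5 + 19120*m^4 + 75448*m^3 + 173820*m^2 + 214538*m + 108300) = 0 := by
    linear_combination (-4*m^3 - 54*m^2 - 238*m - 348)*h1 + (-4*m^5 - 78*m^4 - 606*m^3 - 2336*m^2 - 4451*m - 3335)*h2 + (-4*m^3 - 54*m^2 - 238*m - 348)*h3 + (-4*m^6 - 96*m^5 - 950*m^4 - 4934*m^3 - 14092*m^2 - 20825*m - 12360)*h4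
  have h5 : (0:ℝ) ≤ (8*m^9 + 288*m^8 + 4580*m^7 + 42152*m^6 + 246940*m^5 + 952912*m^4 + 2416734*m^3 + 3875894*m^2 + 3560267*m + 1425576)*t1 := mul_nonneg (by positivity) a1
  have h6 : (0:ℝ) < (8*m^7 + 232*m^6 + 2848*m^5 + 19120*m^4 + 75448*m^3 + 173820*m^2 + 214538*m + 108300) := by positivity
  linarith

theorem q3454 {m : ℝ} (hm : 0 ≤ m) : Q m .e3 .e4 .e5 .e4 := by
  intro t0 t1 t2 t3 a0 b0 a1 b1 a2 b2 a3 b3 h1 h2 h3 h4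
  simp only [px, py, dx, dy] at h1 h2 h3 h4 ⊢
  exfalso
  have h : (8*m^9 + 288*m^8 + 4604*m^7 + 42856*m^6 + 255704*m^5 + 1012796*m^4 + 2658506*m^3 + 4450156*m^2 + 4299291*m + 1820880)*t1 + (8*m^6 + 220*m^5 + 2524*m^4 + 15428*m^3 + 52802*m^2 + 95410*m + 70404) = 0 := by
    linear_combination (-4*m^5 - 86*m^4 - 746*m^3 - 3238*m^2 - 6973*m - 5867)*h2 + (-4*m^4 - 68*m^3 - 424*m^2 - 1142*m - 1092)*h3 + (-4*m^6 - 96*m^5 - 962*m^4 - 5146*m^3 - 15472*m^2 - 24727*m - 16332)*h4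
  have h5 : (0:ℝ) ≤ (8*m^9 + 288*m^8 + 4604*m^7 + 42856*m^6 + 255704*m^5 + 1012796*m^4 + 2658506*m^3 + 4450156*m^2 + 4299291*m + 1820880)*t1 := mul_nonneg (by positivity) a1
  have h6 : (0:ℝ) < (8*m^6 + 220*m^5 + 2524*m^4 + 15428*m^3 + 52802*m^2 + 95410*m + 70404) := by positivity
  linarith

theorem q3455 {m : ℝ} (hm : 0 ≤ m) : Q m .e3 .e4 .e5 .e5 := by
  intro t0 t1 t2 t3 a0 b0 a1 b1 a2 b2 a3 b3 h1 h2 h3 h4
  simp only [px, py, dx, dy] at h1 h2 h3 h4 ⊢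
  exfalso
  have h : (4*m^6 + 96*m^5 + 954*m^4 + 5002*m^3 + 14516*m^2 + 21967*m + 13452)*t1 + (4*m^4 + 72*m^3 + 478*m^2 + 1380*m + 1440) = 0 := by
    linear_combination (-2*m^2 - 15*m - 29)*h2 + (-2*m^3 - 24*m^2 - 95*m - 120)*h4
  have h5 : (0:ℝ) ≤ (4*m^6 + 96*m^5 + 954*m^4 + 5002*m^3 + 14516*m^2 + 21967*m + 13452)*t1 := mul_nonneg (by positivity) a1
  have h6 : (0:ℝ) < (4*m^4 + 72*m^3 + 478*m^2 + 1380*m + 1440) := by positivity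
  linarith

theorem q3535 {m : ℝ} (hm : 0 ≤ m) : Q m .e3 .e5 .e3 .e5 := by
  intro t0 t1 t2 t3 a0 b0 a1 b1 a2 b2 a3 b3 h1 h2 h3 h4
  simp only [px, py, dx, dy] at h1 h2 h3 h4 ⊢
  exfalso
  have h : (8*m^6 + 184*m^5 + 1756*m^4 + 8864*m^3 + 24848*m^2 + 36490*m + 21840)*(1 - t0) + (8*m^4 + 136*m^3 + 848*m^2 + 2284*m + 2184) = 0 := by
    linear_combination (-2*m^3 - 24*m^2 - 95*m - 120)*h1 + (2*m^3 + 22*m^2 + 80*m + 91)*h2 + (-2*m^3 - 24*m^2 - 95*m - 120)*h3 + (2*m^3 + 24*m^2 + 95*m + 120)*h4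
  have h5 : (0:ℝ) ≤ (8*m^6 + 184*m^5 + 1756*m^4 + 8864*m^3 + 24848*m^2 + 36490*m + 21840)*(1 - t0) := mul_nonneg (by positivity) (by linarith)
  have h6 : (0:ℝ) < (8*m^4 + 136*m^3 + 848*m^2 + 2284*m + 2184) := by positivity
  linarith

theorem q3544 {m : ℝ} (hm : 0 ≤ m) : Q m .e3 .e5 .e4 .e4 := by
  intro t0 t1 t2 t3 a0 b0 a1 b1 a2 b2 a3 b3 h1 h2 h3 h4
  simp only [px, py, dx, dy] at h1 h2 h3 h4 ⊢
  exfalso
  have h : (8*m^9 + 288*m^8 + 4596*m^7 + 42632*m^6 + 253076*m^5 + 996200*m^4 + 2598486*m^3 + 4329138*m^2 + 4180163*m + 1782984)*(1 - t0) + (8*m^7 + 240*m^6 + 3056*m^5 + 21368*m^4 + 88384*m^3 + 215656*m^2 + 286754*m + 160428) = 0 := by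
    linear_combination (4*m^4 + 72*m^3 + 476*m^2 + 1358*m + 1380)*h1 + (4*m^6 + 96*m^5 + 952*m^4 + 4972*m^3 + 14356*m^2 + 21620*m + 13225)*h2 + (-4*m^2 - 48*m - 144)*h3 + (-4*m^4 - 72*m^3 - 476*m^2 - 1358*m - 1380)*h4
  have h5 : (0:ℝ) ≤ (8*m^9 + 288*m^8 + 4596*m^7 + 42632*m^6 + 253076*m^5 + 996200*m^4 + 2598486*m^3 + 4329138*m^2 + 4180163*m + 1782984)*(1 - t0) := mul_nonneg (by positivity) (by linarith)
  have h6 : (0:ℝ) < (8*m^7 + 240*m^6 + 3056*m^5 + 21368*m^4 + 88384*m^3 + 215656*m^2 + 286754*m + 160428) := by positivity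
  linarith

theorem q3545 {m : ℝ} (hm : 0 ≤ m) : Q m .e3 .e5 .e4 .e5 := by
  intro t0 t1 t2 t3 a0 b0 a1 b1 a2 b2 a3 b3 h1 h2 h3 h4
  simp only [px, py, dx, dy] at h1 h2 h3 h4 ⊢
  exfalso
  have h : (4*m^6 + 96*m^5 + 950*m^4 + 4938*m^3 + 14146*m^2 + 21063*m + 12708)*(1 - t0) + (8*m^4 + 144*m^3 + 952*m^2 + 2716*m + 2760) = 0 := by
    linear_combination (2*m + 12)*h1 + (2*m^3 + 24*m^2 + 94*m + 115)*h2 + (2*m + 12)*h3 + (-2*m - 12)*h4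
  have h5 : (0:ℝ) ≤ (4*m^6 + 96*m^5 + 950*m^4 + 4938*m^3 + 14146*m^2 + 21063*m + 12708)*(1 - t0) := mul_nonneg (by positivity) (by linarith)
  have h6 : (0:ℝ) < (8*m^4 + 144*m^3 + 952*m^2 + 2716*m + 2760) := by positivity
  linarith

theorem q3554 {m : ℝ} (hm : 0 ≤ m) : Q m .e3 .e5 .e5 .e4 := by
  intro t0 t1 t2 t3 a0 b0 a1 b1 a2 b2 a3 b3 h1 h2 h3 h4
  simp only [px, py, dx, dy] at h1 h2 h3 h4 ⊢
  exfalso
  have h : (4*m^6 + 96*m^5 + 962*m^4 + 5146*m^3 + 15472*m^2 + 24727*m + 16332)*(1 - t0) + (4*m^2 + 48*m + 144) = 0 := by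
    linear_combination (2*m^3 + 24*m^2 + 94*m + 115)*h2 + (-2*m - 12)*h3
  have h5 : (0:ℝ) ≤ (4*m^6 + 96*m^5 + 962*m^4 + 5146*m^3 + 15472*m^2 + 24727*m + 16332)*(1 - t0) := mul_nonneg (by positivity) (by linarith)
  have h6 : (0:ℝ) < (4*m^2 + 48*m + 144) := by positivity
  linarith

theorem q3555 {m : ℝ} (hm : 0 ≤ m) : Q m .e3 .e5 .e5 .e5 := by
  intro t0 t1 t2 t3 a0 b0 a1 b1 a2 b2 a3 b3 h1 h2 h3 h4
  simp only [px, py, dx, dy] at h1 h2 h3 h4 ⊢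
  exfalso
  have h : (2*m^3 + 24*m^2 + 95*m + 120)*(1 - t0) + (2*m + 12) = 0 := by
    linear_combination 1*h2
  have h5 : (0:ℝ) ≤ (2*m^3 + 24*m^2 + 95*m + 120)*(1 - t0) := mul_nonneg (by positivity) (by linarith)
  have h6 : (0:ℝ) < (2*m + 12) := by positivity
  linarith

theorem q4444 {m : ℝ} (hm : 0 ≤ m) : Q m .e4 .e4 .e4 .e4 := by
  refine sing hm ?_
  have h : dx m .e4 ^ 2 + dy m .e4 ^ 2 = (2*m^3 + 24*m^2 + 94*m + 115)^2 + (-2*m - 12)^2 := by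
    simp only [dx, dy] <;> ring
  rw [h]; positivity

theorem q4445 {m : ℝ} (hm : 0 ≤ m) : Q m .e4 .e4 .e4 .e5 := by
  intro t0 t1 t2 t3 a0 b0 a1 b1 a2 b2 a3 b3 h1 h2 h3 h4
  simp only [px, py, dx, dy] at h1 h2 h3 h4 ⊢
  have wx : (4*m^6 + 96*m^5 + 952*m^4 + 4972*m^3 + 14360*m^2 + 21668*m + 13369)*((2*m + 13) + t1*(2*m^3 + 24*m^2 + 94*m + 115) - ((2*m + 13) + t0*(2*m^3 + 24*m^2 + 94*m + 115))) = 0 := by
    linear_combination (-4*m^4 - 72*m^3 - 476*m^2 - 1358*m - 1380)*h1 + (-4*m^6 - 96*m^5 - 952*m^4 - 4972*m^3 - 14356*m^2 - 21620*m - 13225)*h2 + (-4*m^4 - 72*m^3 - 476*m^2 - 1358*m - 1380)*h3 + (-4*m^6 - 96*m^5 - 952*m^4 - 4972*m^3 - 14356*m^2 - 21620*m - 13225)*h4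
  have Dx : (0:ℝ) < (4*m^6 + 96*m^5 + 952*m^4 + 4972*m^3 + 14360*m^2 + 21668*m + 13369) := by positivity
  have wy : (4*m^6 + 96*m^5 + 952*m^4 + 4972*m^3 + 14360*m^2 + 21668*m + 13369)*((2*m + 12) + t1*(-2*m - 12) - ((2*m + 12) + t0*(-2*m - 12))) = 0 := by
    linear_combination (4*m^2 + 48*m + 144)*h1 + (4*m^4 + 72*m^3 + 476*m^2 + 1358*m + 1380)*h2 + (4*m^2 + 48*m + 144)*h3 + (4*m^4 + 72*m^3 + 476*m^2 + 1358*m + 1380)*h4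
  have Dy : (0:ℝ) < (4*m^6 + 96*m^5 + 952*m^4 + 4972*m^3 + 14360*m^2 + 21668*m + 13369) := by positivity
  refine ⟨abs_le.mpr ⟨?_, ?_⟩, abs_le.mpr ⟨?_, ?_⟩⟩
  · refine le_of_mul_le_mul_left ?_ Dx
    rw [wx]
    have : (0:ℝ) ≤ (20*m^7 + 560*m^6 + 6680*m^5 + 43900*m^4 + 171240*m^3 + 395540*m^2 + 500205*m + 267380) := by positivity
    linarith
  · refine le_of_mul_le_mul_left ?_ Dx
    rw [wx]
    have : (0:ℝ) ≤ (20*m^7 + 560*m^6 + 6680*m^5 + 43900*m^4 + 171240*m^3 + 395540*m^2 + 500205*m + 267380) := by positivity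
    linarith
  · refine le_of_mul_le_mul_left ?_ Dy
    rw [wy]
    have : (0:ℝ) ≤ (20*m^7 + 560*m^6 + 6680*m^5 + 43900*m^4 + 171240*m^3 + 395540*m^2 + 500205*m + 267380) := by positivity
    linarith
  · refine le_of_mul_le_mul_left ?_ Dy
    rw [wy]
    have : (0:ℝ) ≤ (20*m^7 + 560*m^6 + 6680*m^5 + 43900*m^4 + 171240*m^3 + 395540*m^2 + 500205*m + 267380) := by positivity
    linarith

theorem q4455 {m : ℝ} (hm : 0 ≤ m) : Q m .e4 .e4 .e5 .e5 := by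
  intro t0 t1 t2 t3 a0 b0 a1 b1 a2 b2 a3 b3 h1 h2 h3 h4
  simp only [px, py, dx, dy] at h1 h2 h3 h4 ⊢
  have wx : (2*m + 12)*((2*m + 13) + t1*(2*m^3 + 24*m^2 + 94*m + 115) - ((2*m + 13) + t0*(2*m^3 + 24*m^2 + 94*m + 115))) = 0 := by
    linear_combination (2*m^3 + 24*m^2 + 94*m + 115)*h2
  have Dx : (0:ℝ) < (2*m + 12) := by positivity
  have wy : 1*((2*m + 12) + t1*(-2*m - 12) - ((2*m + 12) + t0*(-2*m - 12))) = 0 := by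
    linear_combination (-1)*h2
  have Dy : (0:ℝ) < 1 := by positivity
  refine ⟨abs_le.mpr ⟨?_, ?_⟩, abs_le.mpr ⟨?_, ?_⟩⟩
  · refine le_of_mul_le_mul_left ?_ Dx
    rw [wx]
    have : (0:ℝ) ≤ (10*m^2 + 100*m + 240) := by positivity
    linarith
  · refine le_of_mul_le_mul_left ?_ Dx
    rw [wx]
    have : (0:ℝ) ≤ (10*m^2 + 100*m + 240) := by positivity
    linarith
  · refine le_of_mul_le_mul_left ?_ Dy
    rw [wy]
    have : (0:ℝ) ≤ (5*m + 20) := by positivity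
    linarith
  · refine le_of_mul_le_mul_left ?_ Dy
    rw [wy]
    have : (0:ℝ) ≤ (5*m + 20) := by positivity
    linarith

theorem q4545 {m : ℝ} (hm : 0 ≤ m) : Q m .e4 .e5 .e4 .e5 := by
  intro t0 t1 t2 t3 a0 b0 a1 b1 a2 b2 a3 b3 h1 h2 h3 h4
  simp only [px, py, dx, dy] at h1 h2 h3 h4 ⊢
  have wx : (4*m^3 + 48*m^2 + 188*m + 230)*((2*m^3 + 24*m^2 + 96*m + 128) + t1*(-2*m^3 - 25*m^2 - 104*m - 144) - ((2*m + 13) + t0*(2*m^3 + 24*m^2 + 94*m + 115))) = 0 := by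
    linear_combination (-2*m - 12)*h1 + (-2*m^3 - 24*m^2 - 94*m - 115)*h2 + (-2*m - 12)*h3 + (-4*m^3 - 48*m^2 - 186*m - 218)*h4
  have Dx : (0:ℝ) < (4*m^3 + 48*m^2 + 188*m + 230) := by positivity
  have wy : (4*m^3 + 48*m^2 + 188*m + 230)*((0) + t1*(0) - ((2*m + 12) + t0*(-2*m - 12))) = 0 := by
    linear_combination (-2*m - 12)*h1 + (-2*m^3 - 24*m^2 - 94*m - 115)*h2 + (-2*m - 12)*h3 + (2*m + 12)*h4
  have Dy : (0:ℝ) < (4*m^3 + 48*m^2 + 188*m + 230) := by positivity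
  refine ⟨abs_le.mpr ⟨?_, ?_⟩, abs_le.mpr ⟨?_, ?_⟩⟩
  · refine le_of_mul_le_mul_left ?_ Dx
    rw [wx]
    have : (0:ℝ) ≤ (20*m^4 + 320*m^3 + 1900*m^2 + 4910*m + 4600) := by positivity
    linarith
  · refine le_of_mul_le_mul_left ?_ Dx
    rw [wx]
    have : (0:ℝ) ≤ (20*m^4 + 320*m^3 + 1900*m^2 + 4910*m + 4600) := by positivity
    linarith
  · refine le_of_mul_le_mul_left ?_ Dy
    rw [wy]
    have : (0:ℝ) ≤ (20*m^4 + 320*m^3 + 1900*m^2 + 4910*m + 4600) := by positivity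
    linarith
  · refine le_of_mul_le_mul_left ?_ Dy
    rw [wy]
    have : (0:ℝ) ≤ (20*m^4 + 320*m^3 + 1900*m^2 + 4910*m + 4600) := by positivity
    linarith

theorem q4555 {m : ℝ} (hm : 0 ≤ m) : Q m .e4 .e5 .e5 .e5 := by
  intro t0 t1 t2 t3 a0 b0 a1 b1 a2 b2 a3 b3 h1 h2 h3 h4
  simp only [px, py, dx, dy] at h1 h2 h3 h4 ⊢
  have wx : 1*((2*m^3 + 24*m^2 + 96*m + 128) + t1*(-2*m^3 - 25*m^2 - 104*m - 144) - ((2*m + 13) + t0*(2*m^3 + 24*m^2 + 94*m + 115))) = 0 := by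
    linear_combination (-1)*h2 + (-1)*h4
  have Dx : (0:ℝ) < 1 := by positivity
  have wy : 1*((0) + t1*(0) - ((2*m + 12) + t0*(-2*m - 12))) = 0 := by
    linear_combination (-1)*h2
  have Dy : (0:ℝ) < 1 := by positivity
  refine ⟨abs_le.mpr ⟨?_, ?_⟩, abs_le.mpr ⟨?_, ?_⟩⟩
  · refine le_of_mul_le_mul_left ?_ Dx
    rw [wx]
    have : (0:ℝ) ≤ (5*m + 20) := by positivity
    linarith
  · refine le_of_mul_le_mul_left ?_ Dx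
    rw [wx]
    have : (0:ℝ) ≤ (5*m + 20) := by positivity
    linarith
  · refine le_of_mul_le_mul_left ?_ Dy
    rw [wy]
    have : (0:ℝ) ≤ (5*m + 20) := by positivity
    linarith
  · refine le_of_mul_le_mul_left ?_ Dy
    rw [wy]
    have : (0:ℝ) ≤ (5*m + 20) := by positivity
    linarith

theorem q5555 {m : ℝ} (hm : 0 ≤ m) : Q m .e5 .e5 .e5 .e5 := by
  refine sing hm ?_
  have h : dx m .e5 ^ 2 + dy m .e5 ^ 2 = (2*m^3 + 25*m^2 + 104*m + 144)^2 + (0)^2 := by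
    simp only [dx, dy] <;> ring
  rw [h]; positivity

end Hex
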