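import Pool.Agent.helper91.HX.Cl0
import Pool.Agent.helper91.HX.Cl1
import Pool.Agent.helper91.HX.Cl2
import Pool.Agent.helper91.HX.Cl3
import Pool.Agent.helper91.HX.Cl4
import Pool.Agent.helper91.HX.Cl5

/-! Squares inscribed in the hexagon: all quadruples of edges. -/

namespace Hex

theorem row00 {m : ℝ} (hm : 0 ≤ m) : ∀ k l : Ed, Q m .e0 .e0 k l
  | .e0, .e0 => q0000 hm
  | .e0, .e1 => q0001 hm
  | .e0, .e2 => q0002 hm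
  | .e0, .e3 => q0003 hm
  | .e0, .e4 => q0004 hm
  | .e0, .e5 => q0005 hm
  | .e1, .e0 => (q0001 hm).rot.rot.rot
  | .e1, .e1 => q0011 hm
  | .e1, .e2 => q0012 hm
  | .e1, .e3 => q0013 hm
  | .e1, .e4 => q0014 hm
  | .e1, .e5 => q0015 hm
  | .e2, .e0 => (q0002 hm).rot.rot.rot
  | .e2, .e1 => q0021 hm
  | .e2, .e2 => q0022 hm
  | .e2, .e3 => q0023 hm
  | .e2, .e4 => q0024 hm
  | .e2, .e5 => q0025 hm
  | .e3, .e0 => (q0003 hm).rot.rot.rot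
  | .e3, .e1 => q0031 hm
  | .e3, .e2 => q0032 hm
  | .e3, .e3 => q0033 hm
  | .e3, .e4 => q0034 hm
  | .e3, .e5 => q0035 hm
  | .e4, .e0 => (q0004 hm).rot.rot.rot
  | .e4, .e1 => q0041 hm
  | .e4, .e2 => q0042 hm
  | .e4, .e3 => q0043 hm
  | .e4, .e4 => q0044 hm
  | .e4, .e5 => q0045 hm
  | .e5, .e0 => (q0005 hm).rot.rot.rot
  | .e5, .e1 => q0051 hm
  | .e5, .e2 => q0052 hm
  | .e5, .e3 => q0053 hm
  | .e5, .e4 => q0054 hm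
  | .e5, .e5 => q0055 hm

theorem row01 {m : ℝ} (hm : 0 ≤ m) : ∀ k l : Ed, Q m .e0 .e1 k l
  | .e0, .e0 => (q0001 hm).rot.rot
  | .e0, .e1 => q0101 hm
  | .e0, .e2 => q0102 hm
  | .e0, .e3 => q0103 hm
  | .e0, .e4 => q0104 hm
  | .e0, .e5 => q0105 hm
  | .e1, .e0 => (q0011 hm).rot.rot.rot
  | .e1, .e1 => q0111 hm
  | .e1, .e2 => q0112 hm
  | .e1, .e3 => q0113 hm
  | .e1, .e4 => q0114 hm
  | .e1, .e5 => q0115 hm
  | .e2, .e0 => (q0012 hm).rot.rot.rot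
  | .e2, .e1 => q0121 hm
  | .e2, .e2 => q0122 hm
  | .e2, .e3 => q0123 hm
  | .e2, .e4 => q0124 hm
  | .e2, .e5 => q0125 hm
  | .e3, .e0 => (q0013 hm).rot.rot.rot
  | .e3, .e1 => q0131 hm
  | .e3, .e2 => q0132 hm
  | .e3, .e3 => q0133 hm
  | .e3, .e4 => q0134 hm
  | .e3, .e5 => q0135 hm
  | .e4, .e0 => (q0014 hm).rot.rot.rot
  | .e4, .e1 => q0141 hm
  | .e4, .e2 => q0142 hm
  | .e4, .e3 => q0143 hm
  | .e4, .e4 => q0144 hm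
  | .e4, .e5 => q0145 hm
  | .e5, .e0 => (q0015 hm).rot.rot.rot
  | .e5, .e1 => q0151 hm
  | .e5, .e2 => q0152 hm
  | .e5, .e3 => q0153 hm
  | .e5, .e4 => q0154 hm
  | .e5, .e5 => q0155 hm

theorem row02 {m : ℝ} (hm : 0 ≤ m) : ∀ k l : Ed, Q m .e0 .e2 k l
  | .e0, .e0 => (q0002 hm).rot.rot
  | .e0, .e1 => (q0102 hm).rot.rot
  | .e0, .e2 => q0202 hm
  | .e0, .e3 => q0203 hm
  | .e0, .e4 => q0204 hm
  | .e0, .e5 => q0205 hm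
  | .e1, .e0 => (q0021 hm).rot.rot.rot
  | .e1, .e1 => q0211 hm
  | .e1, .e2 => q0212 hm
  | .e1, .e3 => q0213 hm
  | .e1, .e4 => q0214 hm
  | .e1, .e5 => q0215 hm
  | .e2, .e0 => (q0022 hm).rot.rot.rot
  | .e2, .e1 => q0221 hm
  | .e2, .e2 => q0222 hm
  | .e2, .e3 => q0223 hm
  | .e2, .e4 => q0224 hm
  | .e2, .e5 => q0225 hm
  | .e3, .e0 => (q0023 hm).rot.rot.rot
  | .e3, .e1 => q0231 hm
  | .e3, .e2 => q0232 hm
  | .e3, .e3 => q0233 hm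
  | .e3, .e4 => q0234 hm
  | .e3, .e5 => q0235 hm
  | .e4, .e0 => (q0024 hm).rot.rot.rot
  | .e4, .e1 => q0241 hm
  | .e4, .e2 => q0242 hm
  | .e4, .e3 => q0243 hm
  | .e4, .e4 => q0244 hm
  | .e4, .e5 => q0245 hm
  | .e5, .e0 => (q0025 hm).rot.rot.rot
  | .e5, .e1 => q0251 hm
  | .e5, .e2 => q0252 hm
  | .e5, .e3 => q0253 hm
  | .e5, .e4 => q0254 hm
  | .e5, .e5 => q0255 hm

theorem row03 {m : ℝ} (hm : 0 ≤ m) : ∀ k l : Ed, Q m .e0 .e3 k l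
  | .e0, .e0 => (q0003 hm).rot.rot
  | .e0, .e1 => (q0103 hm).rot.rot
  | .e0, .e2 => (q0203 hm).rot.rot
  | .e0, .e3 => q0303 hm
  | .e0, .e4 => q0304 hm
  | .e0, .e5 => q0305 hm
  | .e1, .e0 => (q0031 hm).rot.rot.rot
  | .e1, .e1 => q0311 hm
  | .e1, .e2 => q0312 hm
  | .e1, .e3 => q0313 hm
  | .e1, .e4 => q0314 hm
  | .e1, .e5 => q0315 hm
  | .e2, .e0 => (q0032 hm).rot.rot.rot
  | .e2, .e1 => q0321 hm
  | .e2, .e2 => q0322 hm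
  | .e2, .e3 => q0323 hm
  | .e2, .e4 => q0324 hm
  | .e2, .e5 => q0325 hm
  | .e3, .e0 => (q0033 hm).rot.rot.rot
  | .e3, .e1 => q0331 hm
  | .e3, .e2 => q0332 hm
  | .e3, .e3 => q0333 hm
  | .e3, .e4 => q0334 hm
  | .e3, .e5 => q0335 hm
  | .e4, .e0 => (q0034 hm).rot.rot.rot
  | .e4, .e1 => q0341 hm
  | .e4, .e2 => q0342 hm
  | .e4, .e3 => q0343 hm
  | .e4, .e4 => q0344 hm
  | .e4, .e5 => q0345 hm
  | .e5, .e0 => (q0035 hm).rot.rot.rot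
  | .e5, .e1 => q0351 hm
  | .e5, .e2 => q0352 hm
  | .e5, .e3 => q0353 hm
  | .e5, .e4 => q0354 hm
  | .e5, .e5 => q0355 hm

theorem row04 {m : ℝ} (hm : 0 ≤ m) : ∀ k l : Ed, Q m .e0 .e4 k l
  | .e0, .e0 => (q0004 hm).rot.rot
  | .e0, .e1 => (q0104 hm).rot.rot
  | .e0, .e2 => (q0204 hm).rot.rot
  | .e0, .e3 => (q0304 hm).rot.rot
  | .e0, .e4 => q0404 hm
  | .e0, .e5 => q0405 hm
  | .e1, .e0 => (q0041 hm).rot.rot.rot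
  | .e1, .e1 => q0411 hm
  | .e1, .e2 => q0412 hm
  | .e1, .e3 => q0413 hm
  | .e1, .e4 => q0414 hm
  | .e1, .e5 => q0415 hm
  | .e2, .e0 => (q0042 hm).rot.rot.rot
  | .e2, .e1 => q0421 hm
  | .e2, .e2 => q0422 hm
  | .e2, .e3 => q0423 hm
  | .e2, .e4 => q0424 hm
  | .e2, .e5 => q0425 hm
  | .e3, .e0 => (q0043 hm).rot.rot.rot
  | .e3, .e1 => q0431 hm
  | .e3, .e2 => q0432 hm
  | .e3, .e3 => q0433 hm
  | .e3, .e4 => q0434 hm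
  | .e3, .e5 => q0435 hm
  | .e4, .e0 => (q0044 hm).rot.rot.rot
  | .e4, .e1 => q0441 hm
  | .e4, .e2 => q0442 hm
  | .e4, .e3 => q0443 hm
  | .e4, .e4 => q0444 hm
  | .e4, .e5 => q0445 hm
  | .e5, .e0 => (q0045 hm).rot.rot.rot
  | .e5, .e1 => q0451 hm
  | .e5, .e2 => q0452 hm
  | .e5, .e3 => q0453 hm
  | .e5, .e4 => q0454 hm
  | .e5, .e5 => q0455 hm

theorem row05 {m : ℝ} (hm : 0 ≤ m) : ∀ k l : Ed, Q m .e0 .e5 k l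
  | .e0, .e0 => (q0005 hm).rot.rot
  | .e0, .e1 => (q0105 hm).rot.rot
  | .e0, .e2 => (q0205 hm).rot.rot
  | .e0, .e3 => (q0305 hm).rot.rot
  | .e0, .e4 => (q0405 hm).rot.rot
  | .e0, .e5 => q0505 hm
  | .e1, .e0 => (q0051 hm).rot.rot.rot
  | .e1, .e1 => q0511 hm
  | .e1, .e2 => q0512 hm
  | .e1, .e3 => q0513 hm
  | .e1, .e4 => q0514 hm
  | .e1, .e5 => q0515 hm
  | .e2, .e0 => (q0052 hm).rot.rot.rot
  | .e2, .e1 => q0521 hm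
  | .e2, .e2 => q0522 hm
  | .e2, .e3 => q0523 hm
  | .e2, .e4 => q0524 hm
  | .e2, .e5 => q0525 hm
  | .e3, .e0 => (q0053 hm).rot.rot.rot
  | .e3, .e1 => q0531 hm
  | .e3, .e2 => q0532 hm
  | .e3, .e3 => q0533 hm
  | .e3, .e4 => q0534 hm
  | .e3, .e5 => q0535 hm
  | .e4, .e0 => (q0054 hm).rot.rot.rot
  | .e4, .e1 => q0541 hm
  | .e4, .e2 => q0542 hm
  | .e4, .e3 => q0543 hm
  | .e4, .e4 => q0544 hm
  | .e4, .e5 => q0545 hm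
  | .e5, .e0 => (q0055 hm).rot.rot.rot
  | .e5, .e1 => q0551 hm
  | .e5, .e2 => q0552 hm
  | .e5, .e3 => q0553 hm
  | .e5, .e4 => q0554 hm
  | .e5, .e5 => q0555 hm

theorem row10 {m : ℝ} (hm : 0 ≤ m) : ∀ k l : Ed, Q m .e1 .e0 k l
  | .e0, .e0 => (q0001 hm).rot
  | .e0, .e1 => (q0011 hm).rot
  | .e0, .e2 => (q0021 hm).rot
  | .e0, .e3 => (q0031 hm).rot
  | .e0, .e4 => (q0041 hm).rot
  | .e0, .e5 => (q0051 hm).rot
  | .e1, .e0 => (q0101 hm).rot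
  | .e1, .e1 => (q0111 hm).rot
  | .e1, .e2 => (q0121 hm).rot
  | .e1, .e3 => (q0131 hm).rot
  | .e1, .e4 => (q0141 hm).rot
  | .e1, .e5 => (q0151 hm).rot
  | .e2, .e0 => (q0102 hm).rot.rot.rot
  | .e2, .e1 => (q0211 hm).rot
  | .e2, .e2 => (q0221 hm).rot
  | .e2, .e3 => (q0231 hm).rot
  | .e2, .e4 => (q0241 hm).rot
  | .e2, .e5 => (q0251 hm).rot
  | .e3, .e0 => (q0103 hm).rot.rot.rot
  | .e3, .e1 => (q0311 hm).rot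
  | .e3, .e2 => (q0321 hm).rot
  | .e3, .e3 => (q0331 hm).rot
  | .e3, .e4 => (q0341 hm).rot
  | .e3, .e5 => (q0351 hm).rot
  | .e4, .e0 => (q0104 hm).rot.rot.rot
  | .e4, .e1 => (q0411 hm).rot
  | .e4, .e2 => (q0421 hm).rot
  | .e4, .e3 => (q0431 hm).rot
  | .e4, .e4 => (q0441 hm).rot
  | .e4, .e5 => (q0451 hm).rot
  | .e5, .e0 => (q0105 hm).rot.rot.rot
  | .e5, .e1 => (q0511 hm).rot
  | .e5, .e2 => (q0521 hm).rot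
  | .e5, .e3 => (q0531 hm).rot
  | .e5, .e4 => (q0541 hm).rot
  | .e5, .e5 => (q0551 hm).rot

theorem row11 {m : ℝ} (hm : 0 ≤ m) : ∀ k l : Ed, Q m .e1 .e1 k l
  | .e0, .e0 => (q0011 hm).rot.rot
  | .e0, .e1 => (q0111 hm).rot.rot
  | .e0, .e2 => (q0211 hm).rot.rot
  | .e0, .e3 => (q0311 hm).rot.rot
  | .e0, .e4 => (q0411 hm).rot.rot
  | .e0, .e5 => (q0511 hm).rot.rot
  | .e1, .e0 => (q0111 hm).rot.rot.rot
  | .e1, .e1 => q1111 hm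
  | .e1, .e2 => q1112 hm
  | .e1, .e3 => q1113 hm
  | .e1, .e4 => q1114 hm
  | .e1, .e5 => q1115 hm
  | .e2, .e0 => (q0112 hm).rot.rot.rot
  | .e2, .e1 => (q1112 hm).rot.rot.rot
  | .e2, .e2 => q1122 hm
  | .e2, .e3 => q1123 hm
  | .e2, .e4 => q1124 hm
  | .e2, .e5 => q1125 hm
  | .e3, .e0 => (q0113 hm).rot.rot.rot
  | .e3, .e1 => (q1113 hm).rot.rot.rot
  | .e3, .e2 => q1132 hm
  | .e3, .e3 => q1133 hm
  | .e3, .e4 => q1134 hm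
  | .e3, .e5 => q1135 hm
  | .e4, .e0 => (q0114 hm).rot.rot.rot
  | .e4, .e1 => (q1114 hm).rot.rot.rot
  | .e4, .e2 => q1142 hm
  | .e4, .e3 => q1143 hm
  | .e4, .e4 => q1144 hm
  | .e4, .e5 => q1145 hm
  | .e5, .e0 => (q0115 hm).rot.rot.rot
  | .e5, .e1 => (q1115 hm).rot.rot.rot
  | .e5, .e2 => q1152 hm
  | .e5, .e3 => q1153 hm
  | .e5, .e4 => q1154 hm
  | .e5, .e5 => q1155 hm

theorem row12 {m : ℝ} (hm : 0 ≤ m) : ∀ k l : Ed, Q m .e1 .e2 k l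
  | .e0, .e0 => (q0012 hm).rot.rot
  | .e0, .e1 => (q0112 hm).rot.rot
  | .e0, .e2 => (q0212 hm).rot.rot
  | .e0, .e3 => (q0312 hm).rot.rot
  | .e0, .e4 => (q0412 hm).rot.rot
  | .e0, .e5 => (q0512 hm).rot.rot
  | .e1, .e0 => (q0121 hm).rot.rot.rot
  | .e1, .e1 => (q1112 hm).rot.rot
  | .e1, .e2 => q1212 hm
  | .e1, .e3 => q1213 hm
  | .e1, .e4 => q1214 hm
  | .e1, .e5 => q1215 hm
  | .e2, .e0 => (q0122 hm).rot.rot.rot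
  | .e2, .e1 => (q1122 hm).rot.rot.rot
  | .e2, .e2 => q1222 hm
  | .e2, .e3 => q1223 hm
  | .e2, .e4 => q1224 hm
  | .e2, .e5 => q1225 hm
  | .e3, .e0 => (q0123 hm).rot.rot.rot
  | .e3, .e1 => (q1123 hm).rot.rot.rot
  | .e3, .e2 => q1232 hm
  | .e3, .e3 => q1233 hm
  | .e3, .e4 => q1234 hm
  | .e3, .e5 => q1235 hm
  | .e4, .e0 => (q0124 hm).rot.rot.rot
  | .e4, .e1 => (q1124 hm).rot.rot.rot
  | .e4, .e2 => q1242 hm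
  | .e4, .e3 => q1243 hm
  | .e4, .e4 => q1244 hm
  | .e4, .e5 => q1245 hm
  | .e5, .e0 => (q0125 hm).rot.rot.rot
  | .e5, .e1 => (q1125 hm).rot.rot.rot
  | .e5, .e2 => q1252 hm
  | .e5, .e3 => q1253 hm
  | .e5, .e4 => q1254 hm
  | .e5, .e5 => q1255 hm

theorem row13 {m : ℝ} (hm : 0 ≤ m) : ∀ k l : Ed, Q m .e1 .e3 k l
  | .e0, .e0 => (q0013 hm).rot.rot
  | .e0, .e1 => (q0113 hm).rot.rot
  | .e0, .e2 => (q0213 hm).rot.rot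
  | .e0, .e3 => (q0313 hm).rot.rot
  | .e0, .e4 => (q0413 hm).rot.rot
  | .e0, .e5 => (q0513 hm).rot.rot
  | .e1, .e0 => (q0131 hm).rot.rot.rot
  | .e1, .e1 => (q1113 hm).rot.rot
  | .e1, .e2 => (q1213 hm).rot.rot
  | .e1, .e3 => q1313 hm
  | .e1, .e4 => q1314 hm
  | .e1, .e5 => q1315 hm
  | .e2, .e0 => (q0132 hm).rot.rot.rot
  | .e2, .e1 => (q1132 hm).rot.rot.rot
  | .e2, .e2 => q1322 hm
  | .e2, .e3 => q1323 hm
  | .e2, .e4 => q1324 hm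
  | .e2, .e5 => q1325 hm
  | .e3, .e0 => (q0133 hm).rot.rot.rot
  | .e3, .e1 => (q1133 hm).rot.rot.rot
  | .e3, .e2 => q1332 hm
  | .e3, .e3 => q1333 hm
  | .e3, .e4 => q1334 hm
  | .e3, .e5 => q1335 hm
  | .e4, .e0 => (q0134 hm).rot.rot.rot
  | .e4, .e1 => (q1134 hm).rot.rot.rot
  | .e4, .e2 => q1342 hm
  | .e4, .e3 => q1343 hm
  | .e4, .e4 => q1344 hm
  | .e4, .e5 => q1345 hm
  | .e5, .e0 => (q0135 hm).rot.rot.rot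
  | .e5, .e1 => (q1135 hm).rot.rot.rot
  | .e5, .e2 => q1352 hm
  | .e5, .e3 => q1353 hm
  | .e5, .e4 => q1354 hm
  | .e5, .e5 => q1355 hm

theorem row14 {m : ℝ} (hm : 0 ≤ m) : ∀ k l : Ed, Q m .e1 .e4 k l
  | .e0, .e0 => (q0014 hm).rot.rot
  | .e0, .e1 => (q0114 hm).rot.rot
  | .e0, .e2 => (q0214 hm).rot.rot
  | .e0, .e3 => (q0314 hm).rot.rot
  | .e0, .e4 => (q0414 hm).rot.rot
  | .e0, .e5 => (q0514 hm).rot.rot
  | .e1, .e0 => (q0141 hm).rot.rot.rot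
  | .e1, .e1 => (q1114 hm).rot.rot
  | .e1, .e2 => (q1214 hm).rot.rot
  | .e1, .e3 => (q1314 hm).rot.rot
  | .e1, .e4 => q1414 hm
  | .e1, .e5 => q1415 hm
  | .e2, .e0 => (q0142 hm).rot.rot.rot
  | .e2, .e1 => (q1142 hm).rot.rot.rot
  | .e2, .e2 => q1422 hm
  | .e2, .e3 => q1423 hm
  | .e2, .e4 => q1424 hm
  | .e2, .e5 => q1425 hm
  | .e3, .e0 => (q0143 hm).rot.rot.rot
  | .e3, .e1 => (q1143 hm).rot.rot.rot
  | .e3, .e2 => q1432 hm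
  | .e3, .e3 => q1433 hm
  | .e3, .e4 => q1434 hm
  | .e3, .e5 => q1435 hm
  | .e4, .e0 => (q0144 hm).rot.rot.rot
  | .e4, .e1 => (q1144 hm).rot.rot.rot
  | .e4, .e2 => q1442 hm
  | .e4, .e3 => q1443 hm
  | .e4, .e4 => q1444 hm
  | .e4, .e5 => q1445 hm
  | .e5, .e0 => (q0145 hm).rot.rot.rot
  | .e5, .e1 => (q1145 hm).rot.rot.rot
  | .e5, .e2 => q1452 hm
  | .e5, .e3 => q1453 hm
  | .e5, .e4 => q1454 hm
  | .e5, .e5 => q1455 hm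

theorem row15 {m : ℝ} (hm : 0 ≤ m) : ∀ k l : Ed, Q m .e1 .e5 k l
  | .e0, .e0 => (q0015 hm).rot.rot
  | .e0, .e1 => (q0115 hm).rot.rot
  | .e0, .e2 => (q0215 hm).rot.rot
  | .e0, .e3 => (q0315 hm).rot.rot
  | .e0, .e4 => (q0415 hm).rot.rot
  | .e0, .e5 => (q0515 hm).rot.rot
  | .e1, .e0 => (q0151 hm).rot.rot.rot
  | .e1, .e1 => (q1115 hm).rot.rot
  | .e1, .e2 => (q1215 hm).rot.rot
  | .e1, .e3 => (q1315 hm).rot.rot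
  | .e1, .e4 => (q1415 hm).rot.rot
  | .e1, .e5 => q1515 hm
  | .e2, .e0 => (q0152 hm).rot.rot.rot
  | .e2, .e1 => (q1152 hm).rot.rot.rot
  | .e2, .e2 => q1522 hm
  | .e2, .e3 => q1523 hm
  | .e2, .e4 => q1524 hm
  | .e2, .e5 => q1525 hm
  | .e3, .e0 => (q0153 hm).rot.rot.rot
  | .e3, .e1 => (q1153 hm).rot.rot.rot
  | .e3, .e2 => q1532 hm
  | .e3, .e3 => q1533 hm
  | .e3, .e4 => q1534 hm
  | .e3, .e5 => q1535 hm
  | .e4, .e0 => (q0154 hm).rot.rot.rot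
  | .e4, .e1 => (q1154 hm).rot.rot.rot
  | .e4, .e2 => q1542 hm
  | .e4, .e3 => q1543 hm
  | .e4, .e4 => q1544 hm
  | .e4, .e5 => q1545 hm
  | .e5, .e0 => (q0155 hm).rot.rot.rot
  | .e5, .e1 => (q1155 hm).rot.rot.rot
  | .e5, .e2 => q1552 hm
  | .e5, .e3 => q1553 hm
  | .e5, .e4 => q1554 hm
  | .e5, .e5 => q1555 hm

theorem row20 {m : ℝ} (hm : 0 ≤ m) : ∀ k l : Ed, Q m .e2 .e0 k l
  | .e0, .e0 => (q0002 hm).rot
  | .e0, .e1 => (q0012 hm).rot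
  | .e0, .e2 => (q0022 hm).rot
  | .e0, .e3 => (q0032 hm).rot
  | .e0, .e4 => (q0042 hm).rot
  | .e0, .e5 => (q0052 hm).rot
  | .e1, .e0 => (q0102 hm).rot
  | .e1, .e1 => (q0112 hm).rot
  | .e1, .e2 => (q0122 hm).rot
  | .e1, .e3 => (q0132 hm).rot
  | .e1, .e4 => (q0142 hm).rot
  | .e1, .e5 => (q0152 hm).rot
  | .e2, .e0 => (q0202 hm).rot
  | .e2, .e1 => (q0212 hm).rot
  | .e2, .e2 => (q0222 hm).rot
  | .e2, .e3 => (q0232 hm).rot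
  | .e2, .e4 => (q0242 hm).rot
  | .e2, .e5 => (q0252 hm).rot
  | .e3, .e0 => (q0203 hm).rot.rot.rot
  | .e3, .e1 => (q0312 hm).rot
  | .e3, .e2 => (q0322 hm).rot
  | .e3, .e3 => (q0332 hm).rot
  | .e3, .e4 => (q0342 hm).rot
  | .e3, .e5 => (q0352 hm).rot
  | .e4, .e0 => (q0204 hm).rot.rot.rot
  | .e4, .e1 => (q0412 hm).rot
  | .e4, .e2 => (q0422 hm).rot
  | .e4, .e3 => (q0432 hm).rot
  | .e4, .e4 => (q0442 hm).rot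
  | .e4, .e5 => (q0452 hm).rot
  | .e5, .e0 => (q0205 hm).rot.rot.rot
  | .e5, .e1 => (q0512 hm).rot
  | .e5, .e2 => (q0522 hm).rot
  | .e5, .e3 => (q0532 hm).rot
  | .e5, .e4 => (q0542 hm).rot
  | .e5, .e5 => (q0552 hm).rot

theorem row21 {m : ℝ} (hm : 0 ≤ m) : ∀ k l : Ed, Q m .e2 .e1 k l
  | .e0, .e0 => (q0021 hm).rot.rot
  | .e0, .e1 => (q0121 hm).rot.rot
  | .e0, .e2 => (q0221 hm).rot.rot
  | .e0, .e3 => (q0321 hm).rot.rot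
  | .e0, .e4 => (q0421 hm).rot.rot
  | .e0, .e5 => (q0521 hm).rot.rot
  | .e1, .e0 => (q0211 hm).rot.rot.rot
  | .e1, .e1 => (q1112 hm).rot
  | .e1, .e2 => (q1122 hm).rot
  | .e1, .e3 => (q1132 hm).rot
  | .e1, .e4 => (q1142 hm).rot
  | .e1, .e5 => (q1152 hm).rot
  | .e2, .e0 => (q0212 hm).rot.rot.rot
  | .e2, .e1 => (q1212 hm).rot
  | .e2, .e2 => (q1222 hm).rot
  | .e2, .e3 => (q1232 hm).rot
  | .e2, .e4 => (q1242 hm).rot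
  | .e2, .e5 => (q1252 hm).rot
  | .e3, .e0 => (q0213 hm).rot.rot.rot
  | .e3, .e1 => (q1213 hm).rot.rot.rot
  | .e3, .e2 => (q1322 hm).rot
  | .e3, .e3 => (q1332 hm).rot
  | .e3, .e4 => (q1342 hm).rot
  | .e3, .e5 => (q1352 hm).rot
  | .e4, .e0 => (q0214 hm).rot.rot.rot
  | .e4, .e1 => (q1214 hm).rot.rot.rot
  | .e4, .e2 => (q1422 hm).rot
  | .e4, .e3 => (q1432 hm).rot
  | .e4, .e4 => (q1442 hm).rot
  | .e4, .e5 => (q1452 hm).rot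
  | .e5, .e0 => (q0215 hm).rot.rot.rot
  | .e5, .e1 => (q1215 hm).rot.rot.rot
  | .e5, .e2 => (q1522 hm).rot
  | .e5, .e3 => (q1532 hm).rot
  | .e5, .e4 => (q1542 hm).rot
  | .e5, .e5 => (q1552 hm).rot

theorem row22 {m : ℝ} (hm : 0 ≤ m) : ∀ k l : Ed, Q m .e2 .e2 k l
  | .e0, .e0 => (q0022 hm).rot.rot
  | .e0, .e1 => (q0122 hm).rot.rot
  | .e0, .e2 => (q0222 hm).rot.rot
  | .e0, .e3 => (q0322 hm).rot.rot
  | .e0, .e4 => (q0422 hm).rot.rot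
  | .e0, .e5 => (q0522 hm).rot.rot
  | .e1, .e0 => (q0221 hm).rot.rot.rot
  | .e1, .e1 => (q1122 hm).rot.rot
  | .e1, .e2 => (q1222 hm).rot.rot
  | .e1, .e3 => (q1322 hm).rot.rot
  | .e1, .e4 => (q1422 hm).rot.rot
  | .e1, .e5 => (q1522 hm).rot.rot
  | .e2, .e0 => (q0222 hm).rot.rot.rot
  | .e2, .e1 => (q1222 hm).rot.rot.rot
  | .e2, .e2 => q2222 hm
  | .e2, .e3 => q2223 hm
  | .e2, .e4 => q2224 hm
  | .e2, .e5 => q2225 hm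
  | .e3, .e0 => (q0223 hm).rot.rot.rot
  | .e3, .e1 => (q1223 hm).rot.rot.rot
  | .e3, .e2 => (q2223 hm).rot.rot.rot
  | .e3, .e3 => q2233 hm
  | .e3, .e4 => q2234 hm
  | .e3, .e5 => q2235 hm
  | .e4, .e0 => (q0224 hm).rot.rot.rot
  | .e4, .e1 => (q1224 hm).rot.rot.rot
  | .e4, .e2 => (q2224 hm).rot.rot.rot
  | .e4, .e3 => q2243 hm
  | .e4, .e4 => q2244 hm
  | .e4, .e5 => q2245 hm
  | .e5, .e0 => (q0225 hm).rot.rot.rot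
  | .e5, .e1 => (q1225 hm).rot.rot.rot
  | .e5, .e2 => (q2225 hm).rot.rot.rot
  | .e5, .e3 => q2253 hm
  | .e5, .e4 => q2254 hm
  | .e5, .e5 => q2255 hm

theorem row23 {m : ℝ} (hm : 0 ≤ m) : ∀ k l : Ed, Q m .e2 .e3 k l
  | .e0, .e0 => (q0023 hm).rot.rot
  | .e0, .e1 => (q0123 hm).rot.rot
  | .e0, .e2 => (q0223 hm).rot.rot
  | .e0, .e3 => (q0323 hm).rot.rot
  | .e0, .e4 => (q0423 hm).rot.rot
  | .e0, .e5 => (q0523 hm).rot.rot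
  | .e1, .e0 => (q0231 hm).rot.rot.rot
  | .e1, .e1 => (q1123 hm).rot.rot
  | .e1, .e2 => (q1223 hm).rot.rot
  | .e1, .e3 => (q1323 hm).rot.rot
  | .e1, .e4 => (q1423 hm).rot.rot
  | .e1, .e5 => (q1523 hm).rot.rot
  | .e2, .e0 => (q0232 hm).rot.rot.rot
  | .e2, .e1 => (q1232 hm).rot.rot.rot
  | .e2, .e2 => (q2223 hm).rot.rot
  | .e2, .e3 => q2323 hm
  | .e2, .e4 => q2324 hm
  | .e2, .e5 => q2325 hm
  | .e3, .e0 => (q0233 hm).rot.rot.rot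
  | .e3, .e1 => (q1233 hm).rot.rot.rot
  | .e3, .e2 => (q2233 hm).rot.rot.rot
  | .e3, .e3 => q2333 hm
  | .e3, .e4 => q2334 hm
  | .e3, .e5 => q2335 hm
  | .e4, .e0 => (q0234 hm).rot.rot.rot
  | .e4, .e1 => (q1234 hm).rot.rot.rot
  | .e4, .e2 => (q2234 hm).rot.rot.rot
  | .e4, .e3 => q2343 hm
  | .e4, .e4 => q2344 hm
  | .e4, .e5 => q2345 hm
  | .e5, .e0 => (q0235 hm).rot.rot.rot
  | .e5, .e1 => (q1235 hm).rot.rot.rot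
  | .e5, .e2 => (q2235 hm).rot.rot.rot
  | .e5, .e3 => q2353 hm
  | .e5, .e4 => q2354 hm
  | .e5, .e5 => q2355 hm

theorem row24 {m : ℝ} (hm : 0 ≤ m) : ∀ k l : Ed, Q m .e2 .e4 k l
  | .e0, .e0 => (q0024 hm).rot.rot
  | .e0, .e1 => (q0124 hm).rot.rot
  | .e0, .e2 => (q0224 hm).rot.rot
  | .e0, .e3 => (q0324 hm).rot.rot
  | .e0, .e4 => (q0424 hm).rot.rot
  | .e0, .e5 => (q0524 hm).rot.rot
  | .e1, .e0 => (q0241 hm).rot.rot.rot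
  | .e1, .e1 => (q1124 hm).rot.rot
  | .e1, .e2 => (q1224 hm).rot.rot
  | .e1, .e3 => (q1324 hm).rot.rot
  | .e1, .e4 => (q1424 hm).rot.rot
  | .e1, .e5 => (q1524 hm).rot.rot
  | .e2, .e0 => (q0242 hm).rot.rot.rot
  | .e2, .e1 => (q1242 hm).rot.rot.rot
  | .e2, .e2 => (q2224 hm).rot.rot
  | .e2, .e3 => (q2324 hm).rot.rot
  | .e2, .e4 => q2424 hm
  | .e2, .e5 => q2425 hm
  | .e3, .e0 => (q0243 hm).rot.rot.rot
  | .e3, .e1 => (q1243 hm).rot.rot.rot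
  | .e3, .e2 => (q2243 hm).rot.rot.rot
  | .e3, .e3 => q2433 hm
  | .e3, .e4 => q2434 hm
  | .e3, .e5 => q2435 hm
  | .e4, .e0 => (q0244 hm).rot.rot.rot
  | .e4, .e1 => (q1244 hm).rot.rot.rot
  | .e4, .e2 => (q2244 hm).rot.rot.rot
  | .e4, .e3 => q2443 hm
  | .e4, .e4 => q2444 hm
  | .e4, .e5 => q2445 hm
  | .e5, .e0 => (q0245 hm).rot.rot.rot
  | .e5, .e1 => (q1245 hm).rot.rot.rot
  | .e5, .e2 => (q2245 hm).rot.rot.rot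
  | .e5, .e3 => q2453 hm
  | .e5, .e4 => q2454 hm
  | .e5, .e5 => q2455 hm

theorem row25 {m : ℝ} (hm : 0 ≤ m) : ∀ k l : Ed, Q m .e2 .e5 k l
  | .e0, .e0 => (q0025 hm).rot.rot
  | .e0, .e1 => (q0125 hm).rot.rot
  | .e0, .e2 => (q0225 hm).rot.rot
  | .e0, .e3 => (q0325 hm).rot.rot
  | .e0, .e4 => (q0425 hm).rot.rot
  | .e0, .e5 => (q0525 hm).rot.rot
  | .e1, .e0 => (q0251 hm).rot.rot.rot
  | .e1, .e1 => (q1125 hm).rot.rot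
  | .e1, .e2 => (q1225 hm).rot.rot
  | .e1, .e3 => (q1325 hm).rot.rot
  | .e1, .e4 => (q1425 hm).rot.rot
  | .e1, .e5 => (q1525 hm).rot.rot
  | .e2, .e0 => (q0252 hm).rot.rot.rot
  | .e2, .e1 => (q1252 hm).rot.rot.rot
  | .e2, .e2 => (q2225 hm).rot.rot
  | .e2, .e3 => (q2325 hm).rot.rot
  | .e2, .e4 => (q2425 hm).rot.rot
  | .e2, .e5 => q2525 hm
  | .e3, .e0 => (q0253 hm).rot.rot.rot
  | .e3, .e1 => (q1253 hm).rot.rot.rot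
  | .e3, .e2 => (q2253 hm).rot.rot.rot
  | .e3, .e3 => q2533 hm
  | .e3, .e4 => q2534 hm
  | .e3, .e5 => q2535 hm
  | .e4, .e0 => (q0254 hm).rot.rot.rot
  | .e4, .e1 => (q1254 hm).rot.rot.rot
  | .e4, .e2 => (q2254 hm).rot.rot.rot
  | .e4, .e3 => q2543 hm
  | .e4, .e4 => q2544 hm
  | .e4, .e5 => q2545 hm
  | .e5, .e0 => (q0255 hm).rot.rot.rot
  | .e5, .e1 => (q1255 hm).rot.rot.rot
  | .e5, .e2 => (q2255 hm).rot.rot.rot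
  | .e5, .e3 => q2553 hm
  | .e5, .e4 => q2554 hm
  | .e5, .e5 => q2555 hm

theorem row30 {m : ℝ} (hm : 0 ≤ m) : ∀ k l : Ed, Q m .e3 .e0 k l
  | .e0, .e0 => (q0003 hm).rot
  | .e0, .e1 => (q0013 hm).rot
  | .e0, .e2 => (q0023 hm).rot
  | .e0, .e3 => (q0033 hm).rot
  | .e0, .e4 => (q0043 hm).rot
  | .e0, .e5 => (q0053 hm).rot
  | .e1, .e0 => (q0103 hm).rot
  | .e1, .e1 => (q0113 hm).rot
  | .e1, .e2 => (q0123 hm).rot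
  | .e1, .e3 => (q0133 hm).rot
  | .e1, .e4 => (q0143 hm).rot
  | .e1, .e5 => (q0153 hm).rot
  | .e2, .e0 => (q0203 hm).rot
  | .e2, .e1 => (q0213 hm).rot
  | .e2, .e2 => (q0223 hm).rot
  | .e2, .e3 => (q0233 hm).rot
  | .e2, .e4 => (q0243 hm).rot
  | .e2, .e5 => (q0253 hm).rot
  | .e3, .e0 => (q0303 hm).rot
  | .e3, .e1 => (q0313 hm).rot
  | .e3, .e2 => (q0323 hm).rot
  | .e3, .e3 => (q0333 hm).rot
  | .e3, .e4 => (q0343 hm).rot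
  | .e3, .e5 => (q0353 hm).rot
  | .e4, .e0 => (q0304 hm).rot.rot.rot
  | .e4, .e1 => (q0413 hm).rot
  | .e4, .e2 => (q0423 hm).rot
  | .e4, .e3 => (q0433 hm).rot
  | .e4, .e4 => (q0443 hm).rot
  | .e4, .e5 => (q0453 hm).rot
  | .e5, .e0 => (q0305 hm).rot.rot.rot
  | .e5, .e1 => (q0513 hm).rot
  | .e5, .e2 => (q0523 hm).rot
  | .e5, .e3 => (q0533 hm).rot
  | .e5, .e4 => (q0543 hm).rot
  | .e5, .e5 => (q0553 hm).rot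

theorem row31 {m : ℝ} (hm : 0 ≤ m) : ∀ k l : Ed, Q m .e3 .e1 k l
  | .e0, .e0 => (q0031 hm).rot.rot
  | .e0, .e1 => (q0131 hm).rot.rot
  | .e0, .e2 => (q0231 hm).rot.rot
  | .e0, .e3 => (q0331 hm).rot.rot
  | .e0, .e4 => (q0431 hm).rot.rot
  | .e0, .e5 => (q0531 hm).rot.rot
  | .e1, .e0 => (q0311 hm).rot.rot.rot
  | .e1, .e1 => (q1113 hm).rot
  | .e1, .e2 => (q1123 hm).rot
  | .e1, .e3 => (q1133 hm).rot
  | .e1, .e4 => (q1143 hm).rot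
  | .e1, .e5 => (q1153 hm).rot
  | .e2, .e0 => (q0312 hm).rot.rot.rot
  | .e2, .e1 => (q1213 hm).rot
  | .e2, .e2 => (q1223 hm).rot
  | .e2, .e3 => (q1233 hm).rot
  | .e2, .e4 => (q1243 hm).rot
  | .e2, .e5 => (q1253 hm).rot
  | .e3, .e0 => (q0313 hm).rot.rot.rot
  | .e3, .e1 => (q1313 hm).rot
  | .e3, .e2 => (q1323 hm).rot
  | .e3, .e3 => (q1333 hm).rot
  | .e3, .e4 => (q1343 hm).rot
  | .e3, .e5 => (q1353 hm).rot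
  | .e4, .e0 => (q0314 hm).rot.rot.rot
  | .e4, .e1 => (q1314 hm).rot.rot.rot
  | .e4, .e2 => (q1423 hm).rot
  | .e4, .e3 => (q1433 hm).rot
  | .e4, .e4 => (q1443 hm).rot
  | .e4, .e5 => (q1453 hm).rot
  | .e5, .e0 => (q0315 hm).rot.rot.rot
  | .e5, .e1 => (q1315 hm).rot.rot.rot
  | .e5, .e2 => (q1523 hm).rot
  | .e5, .e3 => (q1533 hm).rot
  | .e5, .e4 => (q1543 hm).rot
  | .e5, .e5 => (q1553 hm).rot

theorem row32 {m : ℝ} (hm : 0 ≤ m) : ∀ k l : Ed, Q m .e3 .e2 k l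
  | .e0, .e0 => (q0032 hm).rot.rot
  | .e0, .e1 => (q0132 hm).rot.rot
  | .e0, .e2 => (q0232 hm).rot.rot
  | .e0, .e3 => (q0332 hm).rot.rot
  | .e0, .e4 => (q0432 hm).rot.rot
  | .e0, .e5 => (q0532 hm).rot.rot
  | .e1, .e0 => (q0321 hm).rot.rot.rot
  | .e1, .e1 => (q1132 hm).rot.rot
  | .e1, .e2 => (q1232 hm).rot.rot
  | .e1, .e3 => (q1332 hm).rot.rot
  | .e1, .e4 => (q1432 hm).rot.rot
  | .e1, .e5 => (q1532 hm).rot.rot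
  | .e2, .e0 => (q0322 hm).rot.rot.rot
  | .e2, .e1 => (q1322 hm).rot.rot.rot
  | .e2, .e2 => (q2223 hm).rot
  | .e2, .e3 => (q2233 hm).rot
  | .e2, .e4 => (q2243 hm).rot
  | .e2, .e5 => (q2253 hm).rot
  | .e3, .e0 => (q0323 hm).rot.rot.rot
  | .e3, .e1 => (q1323 hm).rot.rot.rot
  | .e3, .e2 => (q2323 hm).rot
  | .e3, .e3 => (q2333 hm).rot
  | .e3, .e4 => (q2343 hm).rot
  | .e3, .e5 => (q2353 hm).rot
  | .e4, .e0 => (q0324 hm).rot.rot.rot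
  | .e4, .e1 => (q1324 hm).rot.rot.rot
  | .e4, .e2 => (q2324 hm).rot.rot.rot
  | .e4, .e3 => (q2433 hm).rot
  | .e4, .e4 => (q2443 hm).rot
  | .e4, .e5 => (q2453 hm).rot
  | .e5, .e0 => (q0325 hm).rot.rot.rot
  | .e5, .e1 => (q1325 hm).rot.rot.rot
  | .e5, .e2 => (q2325 hm).rot.rot.rot
  | .e5, .e3 => (q2533 hm).rot
  | .e5, .e4 => (q2543 hm).rot
  | .e5, .e5 => (q2553 hm).rot

theorem row33 {m : ℝ} (hm : 0 ≤ m) : ∀ k l : Ed, Q m .e3 .e3 k l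
  | .e0, .e0 => (q0033 hm).rot.rot
  | .e0, .e1 => (q0133 hm).rot.rot
  | .e0, .e2 => (q0233 hm).rot.rot
  | .e0, .e3 => (q0333 hm).rot.rot
  | .e0, .e4 => (q0433 hm).rot.rot
  | .e0, .e5 => (q0533 hm).rot.rot
  | .e1, .e0 => (q0331 hm).rot.rot.rot
  | .e1, .e1 => (q1133 hm).rot.rot
  | .e1, .e2 => (q1233 hm).rot.rot
  | .e1, .e3 => (q1333 hm).rot.rot
  | .e1, .e4 => (q1433 hm).rot.rot
  | .e1, .e5 => (q1533 hm).rot.rot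
  | .e2, .e0 => (q0332 hm).rot.rot.rot
  | .e2, .e1 => (q1332 hm).rot.rot.rot
  | .e2, .e2 => (q2233 hm).rot.rot
  | .e2, .e3 => (q2333 hm).rot.rot
  | .e2, .e4 => (q2433 hm).rot.rot
  | .e2, .e5 => (q2533 hm).rot.rot
  | .e3, .e0 => (q0333 hm).rot.rot.rot
  | .e3, .e1 => (q1333 hm).rot.rot.rot
  | .e3, .e2 => (q2333 hm).rot.rot.rot
  | .e3, .e3 => q3333 hm
  | .e3, .e4 => q3334 hm
  | .e3, .e5 => q3335 hm
  | .e4, .e0 => (q0334 hm).rot.rot.rot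
  | .e4, .e1 => (q1334 hm).rot.rot.rot
  | .e4, .e2 => (q2334 hm).rot.rot.rot
  | .e4, .e3 => (q3334 hm).rot.rot.rot
  | .e4, .e4 => q3344 hm
  | .e4, .e5 => q3345 hm
  | .e5, .e0 => (q0335 hm).rot.rot.rot
  | .e5, .e1 => (q1335 hm).rot.rot.rot
  | .e5, .e2 => (q2335 hm).rot.rot.rot
  | .e5, .e3 => (q3335 hm).rot.rot.rot
  | .e5, .e4 => q3354 hm
  | .e5, .e5 => q3355 hm

theorem row34 {m : ℝ} (hm : 0 ≤ m) : ∀ k l : Ed, Q m .e3 .e4 k l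
  | .e0, .e0 => (q0034 hm).rot.rot
  | .e0, .e1 => (q0134 hm).rot.rot
  | .e0, .e2 => (q0234 hm).rot.rot
  | .e0, .e3 => (q0334 hm).rot.rot
  | .e0, .e4 => (q0434 hm).rot.rot
  | .e0, .e5 => (q0534 hm).rot.rot
  | .e1, .e0 => (q0341 hm).rot.rot.rot
  | .e1, .e1 => (q1134 hm).rot.rot
  | .e1, .e2 => (q1234 hm).rot.rot
  | .e1, .e3 => (q1334 hm).rot.rot
  | .e1, .e4 => (q1434 hm).rot.rot
  | .e1, .e5 => (q1534 hm).rot.rot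
  | .e2, .e0 => (q0342 hm).rot.rot.rot
  | .e2, .e1 => (q1342 hm).rot.rot.rot
  | .e2, .e2 => (q2234 hm).rot.rot
  | .e2, .e3 => (q2334 hm).rot.rot
  | .e2, .e4 => (q2434 hm).rot.rot
  | .e2, .e5 => (q2534 hm).rot.rot
  | .e3, .e0 => (q0343 hm).rot.rot.rot
  | .e3, .e1 => (q1343 hm).rot.rot.rot
  | .e3, .e2 => (q2343 hm).rot.rot.rot
  | .e3, .e3 => (q3334 hm).rot.rot
  | .e3, .e4 => q3434 hm
  | .e3, .e5 => q3435 hm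
  | .e4, .e0 => (q0344 hm).rot.rot.rot
  | .e4, .e1 => (q1344 hm).rot.rot.rot
  | .e4, .e2 => (q2344 hm).rot.rot.rot
  | .e4, .e3 => (q3344 hm).rot.rot.rot
  | .e4, .e4 => q3444 hm
  | .e4, .e5 => q3445 hm
  | .e5, .e0 => (q0345 hm).rot.rot.rot
  | .e5, .e1 => (q1345 hm).rot.rot.rot
  | .e5, .e2 => (q2345 hm).rot.rot.rot
  | .e5, .e3 => (q3345 hm).rot.rot.rot
  | .e5, .e4 => q3454 hm
  | .e5, .e5 => q3455 hm

theorem row35 {m : ℝ} (hm : 0 ≤ m) : ∀ k l : Ed, Q m .e3 .e5 k l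
  | .e0, .e0 => (q0035 hm).rot.rot
  | .e0, .e1 => (q0135 hm).rot.rot
  | .e0, .e2 => (q0235 hm).rot.rot
  | .e0, .e3 => (q0335 hm).rot.rot
  | .e0, .e4 => (q0435 hm).rot.rot
  | .e0, .e5 => (q0535 hm).rot.rot
  | .e1, .e0 => (q0351 hm).rot.rot.rot
  | .e1, .e1 => (q1135 hm).rot.rot
  | .e1, .e2 => (q1235 hm).rot.rot
  | .e1, .e3 => (q1335 hm).rot.rot
  | .e1, .e4 => (q1435 hm).rot.rot
  | .e1, .e5 => (q1535 hm).rot.rot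
  | .e2, .e0 => (q0352 hm).rot.rot.rot
  | .e2, .e1 => (q1352 hm).rot.rot.rot
  | .e2, .e2 => (q2235 hm).rot.rot
  | .e2, .e3 => (q2335 hm).rot.rot
  | .e2, .e4 => (q2435 hm).rot.rot
  | .e2, .e5 => (q2535 hm).rot.rot
  | .e3, .e0 => (q0353 hm).rot.rot.rot
  | .e3, .e1 => (q1353 hm).rot.rot.rot
  | .e3, .e2 => (q2353 hm).rot.rot.rot
  | .e3, .e3 => (q3335 hm).rot.rot
  | .e3, .e4 => (q3435 hm).rot.rot
  | .e3, .e5 => q3535 hm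
  | .e4, .e0 => (q0354 hm).rot.rot.rot
  | .e4, .e1 => (q1354 hm).rot.rot.rot
  | .e4, .e2 => (q2354 hm).rot.rot.rot
  | .e4, .e3 => (q3354 hm).rot.rot.rot
  | .e4, .e4 => q3544 hm
  | .e4, .e5 => q3545 hm
  | .e5, .e0 => (q0355 hm).rot.rot.rot
  | .e5, .e1 => (q1355 hm).rot.rot.rot
  | .e5, .e2 => (q2355 hm).rot.rot.rot
  | .e5, .e3 => (q3355 hm).rot.rot.rot
  | .e5, .e4 => q3554 hm
  | .e5, .e5 => q3555 hm

theorem row40 {m : ℝ} (hm : 0 ≤ m) : ∀ k l : Ed, Q m .e4 .e0 k l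
  | .e0, .e0 => (q0004 hm).rot
  | .e0, .e1 => (q0014 hm).rot
  | .e0, .e2 => (q0024 hm).rot
  | .e0, .e3 => (q0034 hm).rot
  | .e0, .e4 => (q0044 hm).rot
  | .e0, .e5 => (q0054 hm).rot
  | .e1, .e0 => (q0104 hm).rot
  | .e1, .e1 => (q0114 hm).rot
  | .e1, .e2 => (q0124 hm).rot
  | .e1, .e3 => (q0134 hm).rot
  | .e1, .e4 => (q0144 hm).rot
  | .e1, .e5 => (q0154 hm).rot
  | .e2, .e0 => (q0204 hm).rot
  | .e2, .e1 => (q0214 hm).rot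
  | .e2, .e2 => (q0224 hm).rot
  | .e2, .e3 => (q0234 hm).rot
  | .e2, .e4 => (q0244 hm).rot
  | .e2, .e5 => (q0254 hm).rot
  | .e3, .e0 => (q0304 hm).rot
  | .e3, .e1 => (q0314 hm).rot
  | .e3, .e2 => (q0324 hm).rot
  | .e3, .e3 => (q0334 hm).rot
  | .e3, .e4 => (q0344 hm).rot
  | .e3, .e5 => (q0354 hm).rot
  | .e4, .e0 => (q0404 hm).rot
  | .e4, .e1 => (q0414 hm).rot
  | .e4, .e2 => (q0424 hm).rot
  | .e4, .e3 => (q0434 hm).rot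
  | .e4, .e4 => (q0444 hm).rot
  | .e4, .e5 => (q0454 hm).rot
  | .e5, .e0 => (q0405 hm).rot.rot.rot
  | .e5, .e1 => (q0514 hm).rot
  | .e5, .e2 => (q0524 hm).rot
  | .e5, .e3 => (q0534 hm).rot
  | .e5, .e4 => (q0544 hm).rot
  | .e5, .e5 => (q0554 hm).rot

theorem row41 {m : ℝ} (hm : 0 ≤ m) : ∀ k l : Ed, Q m .e4 .e1 k l
  | .e0, .e0 => (q0041 hm).rot.rot
  | .e0, .e1 => (q0141 hm).rot.rot
  | .e0, .e2 => (q0241 hm).rot.rot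
  | .e0, .e3 => (q0341 hm).rot.rot
  | .e0, .e4 => (q0441 hm).rot.rot
  | .e0, .e5 => (q0541 hm).rot.rot
  | .e1, .e0 => (q0411 hm).rot.rot.rot
  | .e1, .e1 => (q1114 hm).rot
  | .e1, .e2 => (q1124 hm).rot
  | .e1, .e3 => (q1134 hm).rot
  | .e1, .e4 => (q1144 hm).rot
  | .e1, .e5 => (q1154 hm).rot
  | .e2, .e0 => (q0412 hm).rot.rot.rot
  | .e2, .e1 => (q1214 hm).rot
  | .e2, .e2 => (q1224 hm).rot
  | .e2, .e3 => (q1234 hm).rot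
  | .e2, .e4 => (q1244 hm).rot
  | .e2, .e5 => (q1254 hm).rot
  | .e3, .e0 => (q0413 hm).rot.rot.rot
  | .e3, .e1 => (q1314 hm).rot
  | .e3, .e2 => (q1324 hm).rot
  | .e3, .e3 => (q1334 hm).rot
  | .e3, .e4 => (q1344 hm).rot
  | .e3, .e5 => (q1354 hm).rot
  | .e4, .e0 => (q0414 hm).rot.rot.rot
  | .e4, .e1 => (q1414 hm).rot
  | .e4, .e2 => (q1424 hm).rot
  | .e4, .e3 => (q1434 hm).rot
  | .e4, .e4 => (q1444 hm).rot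
  | .e4, .e5 => (q1454 hm).rot
  | .e5, .e0 => (q0415 hm).rot.rot.rot
  | .e5, .e1 => (q1415 hm).rot.rot.rot
  | .e5, .e2 => (q1524 hm).rot
  | .e5, .e3 => (q1534 hm).rot
  | .e5, .e4 => (q1544 hm).rot
  | .e5, .e5 => (q1554 hm).rot

theorem row42 {m : ℝ} (hm : 0 ≤ m) : ∀ k l : Ed, Q m .e4 .e2 k l
  | .e0, .e0 => (q0042 hm).rot.rot
  | .e0, .e1 => (q0142 hm).rot.rot
  | .e0, .e2 => (q0242 hm).rot.rot
  | .e0, .e3 => (q0342 hm).rot.rot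
  | .e0, .e4 => (q0442 hm).rot.rot
  | .e0, .e5 => (q0542 hm).rot.rot
  | .e1, .e0 => (q0421 hm).rot.rot.rot
  | .e1, .e1 => (q1142 hm).rot.rot
  | .e1, .e2 => (q1242 hm).rot.rot
  | .e1, .e3 => (q1342 hm).rot.rot
  | .e1, .e4 => (q1442 hm).rot.rot
  | .e1, .e5 => (q1542 hm).rot.rot
  | .e2, .e0 => (q0422 hm).rot.rot.rot
  | .e2, .e1 => (q1422 hm).rot.rot.rot
  | .e2, .e2 => (q2224 hm).rot
  | .e2, .e3 => (q2234 hm).rot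
  | .e2, .e4 => (q2244 hm).rot
  | .e2, .e5 => (q2254 hm).rot
  | .e3, .e0 => (q0423 hm).rot.rot.rot
  | .e3, .e1 => (q1423 hm).rot.rot.rot
  | .e3, .e2 => (q2324 hm).rot
  | .e3, .e3 => (q2334 hm).rot
  | .e3, .e4 => (q2344 hm).rot
  | .e3, .e5 => (q2354 hm).rot
  | .e4, .e0 => (q0424 hm).rot.rot.rot
  | .e4, .e1 => (q1424 hm).rot.rot.rot
  | .e4, .e2 => (q2424 hm).rot
  | .e4, .e3 => (q2434 hm).rot
  | .e4, .e4 => (q2444 hm).rot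
  | .e4, .e5 => (q2454 hm).rot
  | .e5, .e0 => (q0425 hm).rot.rot.rot
  | .e5, .e1 => (q1425 hm).rot.rot.rot
  | .e5, .e2 => (q2425 hm).rot.rot.rot
  | .e5, .e3 => (q2534 hm).rot
  | .e5, .e4 => (q2544 hm).rot
  | .e5, .e5 => (q2554 hm).rot

theorem row43 {m : ℝ} (hm : 0 ≤ m) : ∀ k l : Ed, Q m .e4 .e3 k l
  | .e0, .e0 => (q0043 hm).rot.rot
  | .e0, .e1 => (q0143 hm).rot.rot
  | .e0, .e2 => (q0243 hm).rot.rot
  | .e0, .e3 => (q0343 hm).rot.rot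
  | .e0, .e4 => (q0443 hm).rot.rot
  | .e0, .e5 => (q0543 hm).rot.rot
  | .e1, .e0 => (q0431 hm).rot.rot.rot
  | .e1, .e1 => (q1143 hm).rot.rot
  | .e1, .e2 => (q1243 hm).rot.rot
  | .e1, .e3 => (q1343 hm).rot.rot
  | .e1, .e4 => (q1443 hm).rot.rot
  | .e1, .e5 => (q1543 hm).rot.rot
  | .e2, .e0 => (q0432 hm).rot.rot.rot
  | .e2, .e1 => (q1432 hm).rot.rot.rot
  | .e2, .e2 => (q2243 hm).rot.rot
  | .e2, .e3 => (q2343 hm).rot.rot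
  | .e2, .e4 => (q2443 hm).rot.rot
  | .e2, .e5 => (q2543 hm).rot.rot
  | .e3, .e0 => (q0433 hm).rot.rot.rot
  | .e3, .e1 => (q1433 hm).rot.rot.rot
  | .e3, .e2 => (q2433 hm).rot.rot.rot
  | .e3, .e3 => (q3334 hm).rot
  | .e3, .e4 => (q3344 hm).rot
  | .e3, .e5 => (q3354 hm).rot
  | .e4, .e0 => (q0434 hm).rot.rot.rot
  | .e4, .e1 => (q1434 hm).rot.rot.rot
  | .e4, .e2 => (q2434 hm).rot.rot.rot
  | .e4, .e3 => (q3434 hm).rot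
  | .e4, .e4 => (q3444 hm).rot
  | .e4, .e5 => (q3454 hm).rot
  | .e5, .e0 => (q0435 hm).rot.rot.rot
  | .e5, .e1 => (q1435 hm).rot.rot.rot
  | .e5, .e2 => (q2435 hm).rot.rot.rot
  | .e5, .e3 => (q3435 hm).rot.rot.rot
  | .e5, .e4 => (q3544 hm).rot
  | .e5, .e5 => (q3554 hm).rot

theorem row44 {m : ℝ} (hm : 0 ≤ m) : ∀ k l : Ed, Q m .e4 .e4 k l
  | .e0, .e0 => (q0044 hm).rot.rot
  | .e0, .e1 => (q0144 hm).rot.rot
  | .e0, .e2 => (q0244 hm).rot.rot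
  | .e0, .e3 => (q0344 hm).rot.rot
  | .e0, .e4 => (q0444 hm).rot.rot
  | .e0, .e5 => (q0544 hm).rot.rot
  | .e1, .e0 => (q0441 hm).rot.rot.rot
  | .e1, .e1 => (q1144 hm).rot.rot
  | .e1, .e2 => (q1244 hm).rot.rot
  | .e1, .e3 => (q1344 hm).rot.rot
  | .e1, .e4 => (q1444 hm).rot.rot
  | .e1, .e5 => (q1544 hm).rot.rot
  | .e2, .e0 => (q0442 hm).rot.rot.rot
  | .e2, .e1 => (q1442 hm).rot.rot.rot
  | .e2, .e2 => (q2244 hm).rot.rot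
  | .e2, .e3 => (q2344 hm).rot.rot
  | .e2, .e4 => (q2444 hm).rot.rot
  | .e2, .e5 => (q2544 hm).rot.rot
  | .e3, .e0 => (q0443 hm).rot.rot.rot
  | .e3, .e1 => (q1443 hm).rot.rot.rot
  | .e3, .e2 => (q2443 hm).rot.rot.rot
  | .e3, .e3 => (q3344 hm).rot.rot
  | .e3, .e4 => (q3444 hm).rot.rot
  | .e3, .e5 => (q3544 hm).rot.rot
  | .e4, .e0 => (q0444 hm).rot.rot.rot
  | .e4, .e1 => (q1444 hm).rot.rot.rot
  | .e4, .e2 => (q2444 hm).rot.rot.rot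
  | .e4, .e3 => (q3444 hm).rot.rot.rot
  | .e4, .e4 => q4444 hm
  | .e4, .e5 => q4445 hm
  | .e5, .e0 => (q0445 hm).rot.rot.rot
  | .e5, .e1 => (q1445 hm).rot.rot.rot
  | .e5, .e2 => (q2445 hm).rot.rot.rot
  | .e5, .e3 => (q3445 hm).rot.rot.rot
  | .e5, .e4 => (q4445 hm).rot.rot.rot
  | .e5, .e5 => q4455 hm

theorem row45 {m : ℝ} (hm : 0 ≤ m) : ∀ k l : Ed, Q m .e4 .e5 k l
  | .e0, .e0 => (q0045 hm).rot.rot
  | .e0, .e1 => (q0145 hm).rot.rot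
  | .e0, .e2 => (q0245 hm).rot.rot
  | .e0, .e3 => (q0345 hm).rot.rot
  | .e0, .e4 => (q0445 hm).rot.rot
  | .e0, .e5 => (q0545 hm).rot.rot
  | .e1, .e0 => (q0451 hm).rot.rot.rot
  | .e1, .e1 => (q1145 hm).rot.rot
  | .e1, .e2 => (q1245 hm).rot.rot
  | .e1, .e3 => (q1345 hm).rot.rot
  | .e1, .e4 => (q1445 hm).rot.rot
  | .e1, .e5 => (q1545 hm).rot.rot
  | .e2, .e0 => (q0452 hm).rot.rot.rot
  | .e2, .e1 => (q1452 hm).rot.rot.rot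
  | .e2, .e2 => (q2245 hm).rot.rot
  | .e2, .e3 => (q2345 hm).rot.rot
  | .e2, .e4 => (q2445 hm).rot.rot
  | .e2, .e5 => (q2545 hm).rot.rot
  | .e3, .e0 => (q0453 hm).rot.rot.rot
  | .e3, .e1 => (q1453 hm).rot.rot.rot
  | .e3, .e2 => (q2453 hm).rot.rot.rot
  | .e3, .e3 => (q3345 hm).rot.rot
  | .e3, .e4 => (q3445 hm).rot.rot
  | .e3, .e5 => (q3545 hm).rot.rot
  | .e4, .e0 => (q0454 hm).rot.rot.rot
  | .e4, .e1 => (q1454 hm).rot.rot.rot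
  | .e4, .e2 => (q2454 hm).rot.rot.rot
  | .e4, .e3 => (q3454 hm).rot.rot.rot
  | .e4, .e4 => (q4445 hm).rot.rot
  | .e4, .e5 => q4545 hm
  | .e5, .e0 => (q0455 hm).rot.rot.rot
  | .e5, .e1 => (q1455 hm).rot.rot.rot
  | .e5, .e2 => (q2455 hm).rot.rot.rot
  | .e5, .e3 => (q3455 hm).rot.rot.rot
  | .e5, .e4 => (q4455 hm).rot.rot.rot
  | .e5, .e5 => q4555 hm

theorem row50 {m : ℝ} (hm : 0 ≤ m) : ∀ k l : Ed, Q m .e5 .e0 k l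
  | .e0, .e0 => (q0005 hm).rot
  | .e0, .e1 => (q0015 hm).rot
  | .e0, .e2 => (q0025 hm).rot
  | .e0, .e3 => (q0035 hm).rot
  | .e0, .e4 => (q0045 hm).rot
  | .e0, .e5 => (q0055 hm).rot
  | .e1, .e0 => (q0105 hm).rot
  | .e1, .e1 => (q0115 hm).rot
  | .e1, .e2 => (q0125 hm).rot
  | .e1, .e3 => (q0135 hm).rot
  | .e1, .e4 => (q0145 hm).rot
  | .e1, .e5 => (q0155 hm).rot
  | .e2, .e0 => (q0205 hm).rot
  | .e2, .e1 => (q0215 hm).rot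
  | .e2, .e2 => (q0225 hm).rot
  | .e2, .e3 => (q0235 hm).rot
  | .e2, .e4 => (q0245 hm).rot
  | .e2, .e5 => (q0255 hm).rot
  | .e3, .e0 => (q0305 hm).rot
  | .e3, .e1 => (q0315 hm).rot
  | .e3, .e2 => (q0325 hm).rot
  | .e3, .e3 => (q0335 hm).rot
  | .e3, .e4 => (q0345 hm).rot
  | .e3, .e5 => (q0355 hm).rot
  | .e4, .e0 => (q0405 hm).rot
  | .e4, .e1 => (q0415 hm).rot
  | .e4, .e2 => (q0425 hm).rot
  | .e4, .e3 => (q0435 hm).rot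
  | .e4, .e4 => (q0445 hm).rot
  | .e4, .e5 => (q0455 hm).rot
  | .e5, .e0 => (q0505 hm).rot
  | .e5, .e1 => (q0515 hm).rot
  | .e5, .e2 => (q0525 hm).rot
  | .e5, .e3 => (q0535 hm).rot
  | .e5, .e4 => (q0545 hm).rot
  | .e5, .e5 => (q0555 hm).rot

theorem row51 {m : ℝ} (hm : 0 ≤ m) : ∀ k l : Ed, Q m .e5 .e1 k l
  | .e0, .e0 => (q0051 hm).rot.rot
  | .e0, .e1 => (q0151 hm).rot.rot
  | .e0, .e2 => (q0251 hm).rot.rot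
  | .e0, .e3 => (q0351 hm).rot.rot
  | .e0, .e4 => (q0451 hm).rot.rot
  | .e0, .e5 => (q0551 hm).rot.rot
  | .e1, .e0 => (q0511 hm).rot.rot.rot
  | .e1, .e1 => (q1115 hm).rot
  | .e1, .e2 => (q1125 hm).rot
  | .e1, .e3 => (q1135 hm).rot
  | .e1, .e4 => (q1145 hm).rot
  | .e1, .e5 => (q1155 hm).rot
  | .e2, .e0 => (q0512 hm).rot.rot.rot
  | .e2, .e1 => (q1215 hm).rot
  | .e2, .e2 => (q1225 hm).rot
  | .e2, .e3 => (q1235 hm).rot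
  | .e2, .e4 => (q1245 hm).rot
  | .e2, .e5 => (q1255 hm).rot
  | .e3, .e0 => (q0513 hm).rot.rot.rot
  | .e3, .e1 => (q1315 hm).rot
  | .e3, .e2 => (q1325 hm).rot
  | .e3, .e3 => (q1335 hm).rot
  | .e3, .e4 => (q1345 hm).rot
  | .e3, .e5 => (q1355 hm).rot
  | .e4, .e0 => (q0514 hm).rot.rot.rot
  | .e4, .e1 => (q1415 hm).rot
  | .e4, .e2 => (q1425 hm).rot
  | .e4, .e3 => (q1435 hm).rot
  | .e4, .e4 => (q1445 hm).rot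
  | .e4, .e5 => (q1455 hm).rot
  | .e5, .e0 => (q0515 hm).rot.rot.rot
  | .e5, .e1 => (q1515 hm).rot
  | .e5, .e2 => (q1525 hm).rot
  | .e5, .e3 => (q1535 hm).rot
  | .e5, .e4 => (q1545 hm).rot
  | .e5, .e5 => (q1555 hm).rot

theorem row52 {m : ℝ} (hm : 0 ≤ m) : ∀ k l : Ed, Q m .e5 .e2 k l
  | .e0, .e0 => (q0052 hm).rot.rot
  | .e0, .e1 => (q0152 hm).rot.rot
  | .e0, .e2 => (q0252 hm).rot.rot
  | .e0, .e3 => (q0352 hm).rot.rot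
  | .e0, .e4 => (q0452 hm).rot.rot
  | .e0, .e5 => (q0552 hm).rot.rot
  | .e1, .e0 => (q0521 hm).rot.rot.rot
  | .e1, .e1 => (q1152 hm).rot.rot
  | .e1, .e2 => (q1252 hm).rot.rot
  | .e1, .e3 => (q1352 hm).rot.rot
  | .e1, .e4 => (q1452 hm).rot.rot
  | .e1, .e5 => (q1552 hm).rot.rot
  | .e2, .e0 => (q0522 hm).rot.rot.rot
  | .e2, .e1 => (q1522 hm).rot.rot.rot
  | .e2, .e2 => (q2225 hm).rot
  | .e2, .e3 => (q2235 hm).rot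
  | .e2, .e4 => (q2245 hm).rot
  | .e2, .e5 => (q2255 hm).rot
  | .e3, .e0 => (q0523 hm).rot.rot.rot
  | .e3, .e1 => (q1523 hm).rot.rot.rot
  | .e3, .e2 => (q2325 hm).rot
  | .e3, .e3 => (q2335 hm).rot
  | .e3, .e4 => (q2345 hm).rot
  | .e3, .e5 => (q2355 hm).rot
  | .e4, .e0 => (q0524 hm).rot.rot.rot
  | .e4, .e1 => (q1524 hm).rot.rot.rot
  | .e4, .e2 => (q2425 hm).rot
  | .e4, .e3 => (q2435 hm).rot
  | .e4, .e4 => (q2445 hm).rot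
  | .e4, .e5 => (q2455 hm).rot
  | .e5, .e0 => (q0525 hm).rot.rot.rot
  | .e5, .e1 => (q1525 hm).rot.rot.rot
  | .e5, .e2 => (q2525 hm).rot
  | .e5, .e3 => (q2535 hm).rot
  | .e5, .e4 => (q2545 hm).rot
  | .e5, .e5 => (q2555 hm).rot

theorem row53 {m : ℝ} (hm : 0 ≤ m) : ∀ k l : Ed, Q m .e5 .e3 k l
  | .e0, .e0 => (q0053 hm).rot.rot
  | .e0, .e1 => (q0153 hm).rot.rot
  | .e0, .e2 => (q0253 hm).rot.rot
  | .e0, .e3 => (q0353 hm).rot.rot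
  | .e0, .e4 => (q0453 hm).rot.rot
  | .e0, .e5 => (q0553 hm).rot.rot
  | .e1, .e0 => (q0531 hm).rot.rot.rot
  | .e1, .e1 => (q1153 hm).rot.rot
  | .e1, .e2 => (q1253 hm).rot.rot
  | .e1, .e3 => (q1353 hm).rot.rot
  | .e1, .e4 => (q1453 hm).rot.rot
  | .e1, .e5 => (q1553 hm).rot.rot
  | .e2, .e0 => (q0532 hm).rot.rot.rot
  | .e2, .e1 => (q1532 hm).rot.rot.rot
  | .e2, .e2 => (q2253 hm).rot.rot
  | .e2, .e3 => (q2353 hm).rot.rot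
  | .e2, .e4 => (q2453 hm).rot.rot
  | .e2, .e5 => (q2553 hm).rot.rot
  | .e3, .e0 => (q0533 hm).rot.rot.rot
  | .e3, .e1 => (q1533 hm).rot.rot.rot
  | .e3, .e2 => (q2533 hm).rot.rot.rot
  | .e3, .e3 => (q3335 hm).rot
  | .e3, .e4 => (q3345 hm).rot
  | .e3, .e5 => (q3355 hm).rot
  | .e4, .e0 => (q0534 hm).rot.rot.rot
  | .e4, .e1 => (q1534 hm).rot.rot.rot
  | .e4, .e2 => (q2534 hm).rot.rot.rot
  | .e4, .e3 => (q3435 hm).rot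
  | .e4, .e4 => (q3445 hm).rot
  | .e4, .e5 => (q3455 hm).rot
  | .e5, .e0 => (q0535 hm).rot.rot.rot
  | .e5, .e1 => (q1535 hm).rot.rot.rot
  | .e5, .e2 => (q2535 hm).rot.rot.rot
  | .e5, .e3 => (q3535 hm).rot
  | .e5, .e4 => (q3545 hm).rot
  | .e5, .e5 => (q3555 hm).rot

theorem row54 {m : ℝ} (hm : 0 ≤ m) : ∀ k l : Ed, Q m .e5 .e4 k l
  | .e0, .e0 => (q0054 hm).rot.rot
  | .e0, .e1 => (q0154 hm).rot.rot
  | .e0, .e2 => (q0254 hm).rot.rot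
  | .e0, .e3 => (q0354 hm).rot.rot
  | .e0, .e4 => (q0454 hm).rot.rot
  | .e0, .e5 => (q0554 hm).rot.rot
  | .e1, .e0 => (q0541 hm).rot.rot.rot
  | .e1, .e1 => (q1154 hm).rot.rot
  | .e1, .e2 => (q1254 hm).rot.rot
  | .e1, .e3 => (q1354 hm).rot.rot
  | .e1, .e4 => (q1454 hm).rot.rot
  | .e1, .e5 => (q1554 hm).rot.rot
  | .e2, .e0 => (q0542 hm).rot.rot.rot
  | .e2, .e1 => (q1542 hm).rot.rot.rot
  | .e2, .e2 => (q2254 hm).rot.rot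
  | .e2, .e3 => (q2354 hm).rot.rot
  | .e2, .e4 => (q2454 hm).rot.rot
  | .e2, .e5 => (q2554 hm).rot.rot
  | .e3, .e0 => (q0543 hm).rot.rot.rot
  | .e3, .e1 => (q1543 hm).rot.rot.rot
  | .e3, .e2 => (q2543 hm).rot.rot.rot
  | .e3, .e3 => (q3354 hm).rot.rot
  | .e3, .e4 => (q3454 hm).rot.rot
  | .e3, .e5 => (q3554 hm).rot.rot
  | .e4, .e0 => (q0544 hm).rot.rot.rot
  | .e4, .e1 => (q1544 hm).rot.rot.rot
  | .e4, .e2 => (q2544 hm).rot.rot.rot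
  | .e4, .e3 => (q3544 hm).rot.rot.rot
  | .e4, .e4 => (q4445 hm).rot
  | .e4, .e5 => (q4455 hm).rot
  | .e5, .e0 => (q0545 hm).rot.rot.rot
  | .e5, .e1 => (q1545 hm).rot.rot.rot
  | .e5, .e2 => (q2545 hm).rot.rot.rot
  | .e5, .e3 => (q3545 hm).rot.rot.rot
  | .e5, .e4 => (q4545 hm).rot
  | .e5, .e5 => (q4555 hm).rot

theorem row55 {m : ℝ} (hm : 0 ≤ m) : ∀ k l : Ed, Q m .e5 .e5 k l
  | .e0, .e0 => (q0055 hm).rot.rot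
  | .e0, .e1 => (q0155 hm).rot.rot
  | .e0, .e2 => (q0255 hm).rot.rot
  | .e0, .e3 => (q0355 hm).rot.rot
  | .e0, .e4 => (q0455 hm).rot.rot
  | .e0, .e5 => (q0555 hm).rot.rot
  | .e1, .e0 => (q0551 hm).rot.rot.rot
  | .e1, .e1 => (q1155 hm).rot.rot
  | .e1, .e2 => (q1255 hm).rot.rot
  | .e1, .e3 => (q1355 hm).rot.rot
  | .e1, .e4 => (q1455 hm).rot.rot
  | .e1, .e5 => (q1555 hm).rot.rot
  | .e2, .e0 => (q0552 hm).rot.rot.rot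
  | .e2, .e1 => (q1552 hm).rot.rot.rot
  | .e2, .e2 => (q2255 hm).rot.rot
  | .e2, .e3 => (q2355 hm).rot.rot
  | .e2, .e4 => (q2455 hm).rot.rot
  | .e2, .e5 => (q2555 hm).rot.rot
  | .e3, .e0 => (q0553 hm).rot.rot.rot
  | .e3, .e1 => (q1553 hm).rot.rot.rot
  | .e3, .e2 => (q2553 hm).rot.rot.rot
  | .e3, .e3 => (q3355 hm).rot.rot
  | .e3, .e4 => (q3455 hm).rot.rot
  | .e3, .e5 => (q3555 hm).rot.rot
  | .e4, .e0 => (q0554 hm).rot.rot.rot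
  | .e4, .e1 => (q1554 hm).rot.rot.rot
  | .e4, .e2 => (q2554 hm).rot.rot.rot
  | .e4, .e3 => (q3554 hm).rot.rot.rot
  | .e4, .e4 => (q4455 hm).rot.rot
  | .e4, .e5 => (q4555 hm).rot.rot
  | .e5, .e0 => (q0555 hm).rot.rot.rot
  | .e5, .e1 => (q1555 hm).rot.rot.rot
  | .e5, .e2 => (q2555 hm).rot.rot.rot
  | .e5, .e3 => (q3555 hm).rot.rot.rot
  | .e5, .e4 => (q4555 hm).rot.rot.rot
  | .e5, .e5 => q5555 hm

/-- all squares inscribed in the hexagon are small -/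
theorem allQ {m : ℝ} (hm : 0 ≤ m) : ∀ i j k l : Ed, Q m i j k l
  | .e0, .e0, k, l => row00 hm k l
  | .e0, .e1, k, l => row01 hm k l
  | .e0, .e2, k, l => row02 hm k l
  | .e0, .e3, k, l => row03 hm k l
  | .e0, .e4, k, l => row04 hm k l
  | .e0, .e5, k, l => row05 hm k l
  | .e1, .e0, k, l => row10 hm k l
  | .e1, .e1, k, l => row11 hm k l
  | .e1, .e2, k, l => row12 hm k l
  | .e1, .e3, k, l => row13 hm k l
  | .e1, .e4, k, l => row14 hm k l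
  | .e1, .e5, k, l => row15 hm k l
  | .e2, .e0, k, l => row20 hm k l
  | .e2, .e1, k, l => row21 hm k l
  | .e2, .e2, k, l => row22 hm k l
  | .e2, .e3, k, l => row23 hm k l
  | .e2, .e4, k, l => row24 hm k l
  | .e2, .e5, k, l => row25 hm k l
  | .e3, .e0, k, l => row30 hm k l
  | .e3, .e1, k, l => row31 hm k l
  | .e3, .e2, k, l => row32 hm k l
  | .e3, .e3, k, l => row33 hm k l
  | .e3, .e4, k, l => row34 hm k l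
  | .e3, .e5, k, l => row35 hm k l
  | .e4, .e0, k, l => row40 hm k l
  | .e4, .e1, k, l => row41 hm k l
  | .e4, .e2, k, l => row42 hm k l
  | .e4, .e3, k, l => row43 hm k l
  | .e4, .e4, k, l => row44 hm k l
  | .e4, .e5, k, l => row45 hm k l
  | .e5, .e0, k, l => row50 hm k l
  | .e5, .e1, k, l => row51 hm k l
  | .e5, .e2, k, l => row52 hm k l
  | .e5, .e3, k, l => row53 hm k l
  | .e5, .e4, k, l => row54 hm k l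
  | .e5, .e5, k, l => row55 hm k l

end Hex
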