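import Pool.Agent.helper91.HX.Def

/-! Squares inscribed in the hexagon: classes of edge quadruples, part 0. -/

namespace Hex

theorem q0000 {m : ℝ} (hm : 0 ≤ m) : Q m .e0 .e0 .e0 .e0 := by
  refine sing hm ?_
  have h : dx m .e0 ^ 2 + dy m .e0 ^ 2 = (m^2 + 8*m + 16)^2 + (2*m^3 + 24*m^2 + 98*m + 136)^2 := by
    simp only [dx, dy] <;> ring
  rw [h]; positivity

theorem q0001 {m : ℝ} (hm : 0 ≤ m) : Q m .e0 .e0 .e0 .e1 := by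
  intro t0 t1 t2 t3 a0 b0 a1 b1 a2 b2 a3 b3 h1 h2 h3 h4
  simp only [px, py, dx, dy] at h1 h2 h3 h4 ⊢
  have wx : (4*m^4 + 64*m^3 + 393*m^2 + 1096*m + 1172)*((-m^2 - 8*m - 16) + t1*(-m^2 - 8*m - 16) - ((-m^2 - 8*m - 16) + t0*(-m^2 - 8*m - 16))) = 0 := by
    linear_combination (-2*m^3 - 24*m^2 - 98*m - 136)*h1 + (-m^2 - 8*m - 16)*h2 + (-2*m^3 - 24*m^2 - 98*m - 136)*h3 + (-m^2 - 8*m - 16)*h4
  have Dx : (0:ℝ) < (4*m^4 + 64*m^3 + 393*m^2 + 1096*m + 1172) := by positivity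
  have wy : (4*m^4 + 64*m^3 + 393*m^2 + 1096*m + 1172)*((0) + t1*(2*m^3 + 24*m^2 + 98*m + 136) - ((0) + t0*(2*m^3 + 24*m^2 + 98*m + 136))) = 0 := by
    linear_combination (4*m^4 + 64*m^3 + 392*m^2 + 1088*m + 1156)*h1 + (2*m^3 + 24*m^2 + 98*m + 136)*h2 + (4*m^4 + 64*m^3 + 392*m^2 + 1088*m + 1156)*h3 + (2*m^3 + 24*m^2 + 98*m + 136)*h4
  have Dy : (0:ℝ) < (4*m^4 + 64*m^3 + 393*m^2 + 1096*m + 1172) := by positivity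
  refine ⟨abs_le.mpr ⟨?_, ?_⟩, abs_le.mpr ⟨?_, ?_⟩⟩
  · refine le_of_mul_le_mul_left ?_ Dx
    rw [wx]
    have : (0:ℝ) ≤ (20*m^5 + 400*m^4 + 3245*m^3 + 13340*m^2 + 27780*m + 23440) := by positivity
    linarith
  · refine le_of_mul_le_mul_left ?_ Dx
    rw [wx]
    have : (0:ℝ) ≤ (20*m^5 + 400*m^4 + 3245*m^3 + 13340*m^2 + 27780*m + 23440) := by positivity
    linarith
  · refine le_of_mul_le_mul_left ?_ Dy
    rw [wy]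
    have : (0:ℝ) ≤ (20*m^5 + 400*m^4 + 3245*m^3 + 13340*m^2 + 27780*m + 23440) := by positivity
    linarith
  · refine le_of_mul_le_mul_left ?_ Dy
    rw [wy]
    have : (0:ℝ) ≤ (20*m^5 + 400*m^4 + 3245*m^3 + 13340*m^2 + 27780*m + 23440) := by positivity
    linarith

theorem q0002 {m : ℝ} (hm : 0 ≤ m) : Q m .e0 .e0 .e0 .e2 := by
  intro t0 t1 t2 t3 a0 b0 a1 b1 a2 b2 a3 b3 h1 h2 h3 h4
  simp only [px, py, dx, dy] at h1 h2 h3 h4 ⊢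
  exfalso
  have h : (4*m^5 + 78*m^4 + 616*m^3 + 2459*m^2 + 4956*m + 4032)*t3 + (2*m^4 + 32*m^3 + 196*m^2 + 544*m + 576) = 0 := by
    linear_combination (-2*m^2 - 16*m - 34)*h1 + (-m - 4)*h2
  have h5 : (0:ℝ) ≤ (4*m^5 + 78*m^4 + 616*m^3 + 2459*m^2 + 4956*m + 4032)*t3 := mul_nonneg (by positivity) a3
  have h6 : (0:ℝ) < (2*m^4 + 32*m^3 + 196*m^2 + 544*m + 576) := by positivity
  linarith

theorem q0003 {m : ℝ} (hm : 0 ≤ m) : Q m .e0 .e0 .e0 .e3 := by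
  intro t0 t1 t2 t3 a0 b0 a1 b1 a2 b2 a3 b3 h1 h2 h3 h4
  simp only [px, py, dx, dy] at h1 h2 h3 h4 ⊢
  exfalso
  have h : (4*m^5 + 78*m^4 + 612*m^3 + 2401*m^2 + 4676*m + 3574)*(1 - t3) + (2*m^4 + 36*m^3 + 254*m^2 + 824*m + 1034) = 0 := by
    linear_combination (-2*m^2 - 16*m - 34)*h1 + (-m - 4)*h2
  have h5 : (0:ℝ) ≤ (4*m^5 + 78*m^4 + 612*m^3 + 2401*m^2 + 4676*m + 3574)*(1 - t3) := mul_nonneg (by positivity) (by linarith)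
  have h6 : (0:ℝ) < (2*m^4 + 36*m^3 + 254*m^2 + 824*m + 1034) := by positivity
  linarith

theorem q0004 {m : ℝ} (hm : 0 ≤ m) : Q m .e0 .e0 .e0 .e4 := by
  intro t0 t1 t2 t3 a0 b0 a1 b1 a2 b2 a3 b3 h1 h2 h3 h4
  simp only [px, py, dx, dy] at h1 h2 h3 h4 ⊢
  exfalso
  have h : (4*m^5 + 80*m^4 + 640*m^3 + 2548*m^2 + 5016*m + 3862)*t3 + (2*m^4 + 36*m^3 + 254*m^2 + 824*m + 1034) = 0 := by
    linear_combination (-2*m^2 - 16*m - 34)*h1 + (-m - 4)*h2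
  have h5 : (0:ℝ) ≤ (4*m^5 + 80*m^4 + 640*m^3 + 2548*m^2 + 5016*m + 3862)*t3 := mul_nonneg (by positivity) a3
  have h6 : (0:ℝ) < (2*m^4 + 36*m^3 + 254*m^2 + 824*m + 1034) := by positivity
  linarith

theorem q0005 {m : ℝ} (hm : 0 ≤ m) : Q m .e0 .e0 .e0 .e5 := by
  intro t0 t1 t2 t3 a0 b0 a1 b1 a2 b2 a3 b3 h1 h2 h3 h4
  simp only [px, py, dx, dy] at h1 h2 h3 h4 ⊢
  have wx : (4*m^4 + 64*m^3 + 393*m^2 + 1096*m + 1172)*((-m^2 - 8*m - 16) + t1*(-m^2 - 8*m - 16) - ((-m^2 - 8*m - 16) + t0*(-m^2 - 8*m - 16))) = 0 := by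
    linear_combination (-2*m^3 - 24*m^2 - 98*m - 136)*h1 + (-m^2 - 8*m - 16)*h2 + (-2*m^3 - 24*m^2 - 98*m - 136)*h3 + (-m^2 - 8*m - 16)*h4
  have Dx : (0:ℝ) < (4*m^4 + 64*m^3 + 393*m^2 + 1096*m + 1172) := by positivity
  have wy : (4*m^4 + 64*m^3 + 393*m^2 + 1096*m + 1172)*((0) + t1*(2*m^3 + 24*m^2 + 98*m + 136) - ((0) + t0*(2*m^3 + 24*m^2 + 98*m + 136))) = 0 := by
    linear_combination (4*m^4 + 64*m^3 + 392*m^2 + 1088*m + 1156)*h1 + (2*m^3 + 24*m^2 + 98*m + 136)*h2 + (4*m^4 + 64*m^3 + 392*m^2 + 1088*m + 1156)*h3 + (2*m^3 + 24*m^2 + 98*m + 136)*h4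
  have Dy : (0:ℝ) < (4*m^4 + 64*m^3 + 393*m^2 + 1096*m + 1172) := by positivity
  refine ⟨abs_le.mpr ⟨?_, ?_⟩, abs_le.mpr ⟨?_, ?_⟩⟩
  · refine le_of_mul_le_mul_left ?_ Dx
    rw [wx]
    have : (0:ℝ) ≤ (20*m^5 + 400*m^4 + 3245*m^3 + 13340*m^2 + 27780*m + 23440) := by positivity
    linarith
  · refine le_of_mul_le_mul_left ?_ Dx
    rw [wx]
    have : (0:ℝ) ≤ (20*m^5 + 400*m^4 + 3245*m^3 + 13340*m^2 + 27780*m + 23440) := by positivity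
    linarith
  · refine le_of_mul_le_mul_left ?_ Dy
    rw [wy]
    have : (0:ℝ) ≤ (20*m^5 + 400*m^4 + 3245*m^3 + 13340*m^2 + 27780*m + 23440) := by positivity
    linarith
  · refine le_of_mul_le_mul_left ?_ Dy
    rw [wy]
    have : (0:ℝ) ≤ (20*m^5 + 400*m^4 + 3245*m^3 + 13340*m^2 + 27780*m + 23440) := by positivity
    linarith

theorem q0011 {m : ℝ} (hm : 0 ≤ m) : Q m .e0 .e0 .e1 .e1 := by
  intro t0 t1 t2 t3 a0 b0 a1 b1 a2 b2 a3 b3 h1 h2 h3 h4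
  simp only [px, py, dx, dy] at h1 h2 h3 h4 ⊢
  have wx : (m^2 + 8*m + 18)*((-m^2 - 8*m - 16) + t1*(-m^2 - 8*m - 16) - ((-m^2 - 8*m - 16) + t0*(-m^2 - 8*m - 16))) = 0 := by
    linear_combination (m^2 + 8*m + 16)*h1 + (m + 4)*h2
  have Dx : (0:ℝ) < (m^2 + 8*m + 18) := by positivity
  have wy : (m^2 + 8*m + 18)*((0) + t1*(2*m^3 + 24*m^2 + 98*m + 136) - ((0) + t0*(2*m^3 + 24*m^2 + 98*m + 136))) = 0 := by
    linear_combination (-2*m^3 - 24*m^2 - 98*m - 136)*h1 + (-2*m^2 - 16*m - 34)*h2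
  have Dy : (0:ℝ) < (m^2 + 8*m + 18) := by positivity
  refine ⟨abs_le.mpr ⟨?_, ?_⟩, abs_le.mpr ⟨?_, ?_⟩⟩
  · refine le_of_mul_le_mul_left ?_ Dx
    rw [wx]
    have : (0:ℝ) ≤ (5*m^3 + 60*m^2 + 250*m + 360) := by positivity
    linarith
  · refine le_of_mul_le_mul_left ?_ Dx
    rw [wx]
    have : (0:ℝ) ≤ (5*m^3 + 60*m^2 + 250*m + 360) := by positivity
    linarith
  · refine le_of_mul_le_mul_left ?_ Dy
    rw [wy]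
    have : (0:ℝ) ≤ (5*m^3 + 60*m^2 + 250*m + 360) := by positivity
    linarith
  · refine le_of_mul_le_mul_left ?_ Dy
    rw [wy]
    have : (0:ℝ) ≤ (5*m^3 + 60*m^2 + 250*m + 360) := by positivity
    linarith

theorem q0012 {m : ℝ} (hm : 0 ≤ m) : Q m .e0 .e0 .e1 .e2 := by
  intro t0 t1 t2 t3 a0 b0 a1 b1 a2 b2 a3 b3 h1 h2 h3 h4
  simp only [px, py, dx, dy] at h1 h2 h3 h4 ⊢
  exfalso
  have h : (8*m^8 + 252*m^7 + 3500*m^6 + 27980*m^5 + 140755*m^4 + 456083*m^3 + 929238*m^2 + 1088020*m + 560304)*t1 + (4*m^7 + 104*m^6 + 1168*m^5 + 7337*m^4 + 27815*m^3 + 63586*m^2 + 81100*m + 44496) = 0 := by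
    linear_combination (4*m^3 + 45*m^2 + 174*m + 232)*h1 + (4*m^2 + 29*m + 58)*h2 + (4*m^5 + 80*m^4 + 648*m^3 + 2653*m^2 + 5483*m + 4572)*h3 + (-4*m^5 - 76*m^4 - 586*m^3 - 2286*m^2 - 4505*m - 3582)*h4
  have h5 : (0:ℝ) ≤ (8*m^8 + 252*m^7 + 3500*m^6 + 27980*m^5 + 140755*m^4 + 456083*m^3 + 929238*m^2 + 1088020*m + 560304)*t1 := mul_nonneg (by positivity) a1
  have h6 : (0:ℝ) < (4*m^7 + 104*m^6 + 1168*m^5 + 7337*m^4 + 27815*m^3 + 63586*m^2 + 81100*m + 44496) := by positivity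
  linarith

theorem q0013 {m : ℝ} (hm : 0 ≤ m) : Q m .e0 .e0 .e1 .e3 := by
  intro t0 t1 t2 t3 a0 b0 a1 b1 a2 b2 a3 b3 h1 h2 h3 h4
  simp only [px, py, dx, dy] at h1 h2 h3 h4 ⊢
  exfalso
  have h : (8*m^8 + 252*m^7 + 3492*m^6 + 27772*m^5 + 138491*m^4 + 442870*m^3 + 885612*m^2 + 1010736*m + 502916)*(1 - t3) + (6*m^6 + 160*m^5 + 1776*m^4 + 10525*m^3 + 35170*m^2 + 62884*m + 47020) = 0 := by
    linear_combination (-4*m^5 - 80*m^4 - 649*m^3 - 2668*m^2 - 5556*m - 4688)*h1 + (-4*m^4 - 64*m^3 - 393*m^2 - 1096*m - 1172)*h2 + (-2*m^4 - 32*m^3 - 198*m^2 - 560*m - 612)*h3 + (-m^3 - 12*m^2 - 50*m - 72)*h4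
  have h5 : (0:ℝ) ≤ (8*m^8 + 252*m^7 + 3492*m^6 + 27772*m^5 + 138491*m^4 + 442870*m^3 + 885612*m^2 + 1010736*m + 502916)*(1 - t3) := mul_nonneg (by positivity) (by linarith)
  have h6 : (0:ℝ) < (6*m^6 + 160*m^5 + 1776*m^4 + 10525*m^3 + 35170*m^2 + 62884*m + 47020) := by positivity
  linarith

theorem q0014 {m : ℝ} (hm : 0 ≤ m) : Q m .e0 .e0 .e1 .e4 := by
  intro t0 t1 t2 t3 a0 b0 a1 b1 a2 b2 a3 b3 h1 h2 h3 h4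
  simp only [px, py, dx, dy] at h1 h2 h3 h4 ⊢
  exfalso
  have h : (8*m^8 + 252*m^7 + 3482*m^6 + 27532*m^5 + 136066*m^4 + 429673*m^3 + 844834*m^2 + 942932*m + 455540)*t3 + (6*m^6 + 160*m^5 + 1776*m^4 + 10525*m^3 + 35170*m^2 + 62884*m + 47020) = 0 := by
    linear_combination (-4*m^5 - 80*m^4 - 649*m^3 - 2668*m^2 - 5556*m - 4688)*h1 + (-4*m^4 - 64*m^3 - 393*m^2 - 1096*m - 1172)*h2 + (-2*m^4 - 32*m^3 - 198*m^2 - 560*m - 612)*h3 + (-m^3 - 12*m^2 - 50*m - 72)*h4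
  have h5 : (0:ℝ) ≤ (8*m^8 + 252*m^7 + 3482*m^6 + 27532*m^5 + 136066*m^4 + 429673*m^3 + 844834*m^2 + 942932*m + 455540)*t3 := mul_nonneg (by positivity) a3
  have h6 : (0:ℝ) < (6*m^6 + 160*m^5 + 1776*m^4 + 10525*m^3 + 35170*m^2 + 62884*m + 47020) := by positivity
  linarith

theorem q0015 {m : ℝ} (hm : 0 ≤ m) : Q m .e0 .e0 .e1 .e5 := by
  intro t0 t1 t2 t3 a0 b0 a1 b1 a2 b2 a3 b3 h1 h2 h3 h4
  simp only [px, py, dx, dy] at h1 h2 h3 h4 ⊢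
  exfalso
  have h : (4*m^6 + 94*m^5 + 929*m^4 + 4938*m^3 + 14876*m^2 + 24060*m + 16304)*t0 + (m^4 + 16*m^3 + 98*m^2 + 272*m + 288) = 0 := by
    linear_combination (m^2 + 8*m + 16)*h1 + (m + 4)*h2 + (m^2 + 8*m + 16)*h3 + (-2*m^3 - 23*m^2 - 90*m - 118)*h4
  have h5 : (0:ℝ) ≤ (4*m^6 + 94*m^5 + 929*m^4 + 4938*m^3 + 14876*m^2 + 24060*m + 16304)*t0 := mul_nonneg (by positivity) a0
  have h6 : (0:ℝ) < (m^4 + 16*m^3 + 98*m^2 + 272*m + 288) := by positivity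
  linarith

theorem q0021 {m : ℝ} (hm : 0 ≤ m) : Q m .e0 .e0 .e2 .e1 := by
  intro t0 t1 t2 t3 a0 b0 a1 b1 a2 b2 a3 b3 h1 h2 h3 h4
  simp only [px, py, dx, dy] at h1 h2 h3 h4 ⊢
  exfalso
  have h : (8*m^8 + 260*m^7 + 3720*m^6 + 30604*m^5 + 158337*m^4 + 527515*m^3 + 1105122*m^2 + 1330948*m + 705456)*t2 + (2*m^6 + 48*m^5 + 488*m^4 + 2688*m^3 + 8456*m^2 + 14400*m + 10368) = 0 := by
    linear_combination (4*m^5 + 82*m^4 + 681*m^3 + 2866*m^2 + 6116*m + 5300)*h1 + (4*m^4 + 65*m^3 + 405*m^2 + 1146*m + 1244)*h2 + (2*m^4 + 32*m^3 + 198*m^2 + 560*m + 612)*h3 + (m^3 + 12*m^2 + 50*m + 72)*h4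
  have h5 : (0:ℝ) ≤ (8*m^8 + 260*m^7 + 3720*m^6 + 30604*m^5 + 158337*m^4 + 527515*m^3 + 1105122*m^2 + 1330948*m + 705456)*t2 := mul_nonneg (by positivity) a2
  have h6 : (0:ℝ) < (2*m^6 + 48*m^5 + 488*m^4 + 2688*m^3 + 8456*m^2 + 14400*m + 10368) := by positivity
  linarith

theorem q0022 {m : ℝ} (hm : 0 ≤ m) : Q m .e0 .e0 .e2 .e2 := by
  intro t0 t1 t2 t3 a0 b0 a1 b1 a2 b2 a3 b3 h1 h2 h3 h4
  simp only [px, py, dx, dy] at h1 h2 h3 h4 ⊢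
  exfalso
  have h : (16*m^9 + 560*m^8 + 8772*m^7 + 80680*m^6 + 479988*m^5 + 1914928*m^4 + 5121753*m^3 + 8854020*m^2 + 8975232*m + 4064256)*t1 + (8*m^8 + 236*m^7 + 3060*m^6 + 22752*m^5 + 105980*m^4 + 316289*m^3 + 589740*m^2 + 626976*m + 290304) = 0 := by
    linear_combination (8*m^4 + 122*m^3 + 704*m^2 + 1827*m + 1798)*h1 + (-8*m^4 - 114*m^3 - 626*m^2 - 1566*m - 1508)*h2 + (8*m^6 + 188*m^5 + 1852*m^4 + 9784*m^3 + 29216*m^2 + 46725*m + 31248)*h3 + (-8*m^6 - 180*m^5 - 1708*m^4 - 8738*m^3 - 25402*m^2 - 39774*m - 26208)*h4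
  have h5 : (0:ℝ) ≤ (16*m^9 + 560*m^8 + 8772*m^7 + 80680*m^6 + 479988*m^5 + 1914928*m^4 + 5121753*m^3 + 8854020*m^2 + 8975232*m + 4064256)*t1 := mul_nonneg (by positivity) a1
  have h6 : (0:ℝ) < (8*m^8 + 236*m^7 + 3060*m^6 + 22752*m^5 + 105980*m^4 + 316289*m^3 + 589740*m^2 + 626976*m + 290304) := by positivity
  linarith

theorem q0023 {m : ℝ} (hm : 0 ≤ m) : Q m .e0 .e0 .e2 .e3 := by
  intro t0 t1 t2 t3 a0 b0 a1 b1 a2 b2 a3 b3 h1 h2 h3 h4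
  simp only [px, py, dx, dy] at h1 h2 h3 h4 ⊢
  exfalso
  have h : (16*m^9 + 560*m^8 + 8740*m^7 + 79744*m^6 + 468172*m^5 + 1831518*m^4 + 4766313*m^3 + 7940001*m^2 + 7662434*m + 3252164)*(1 - t3) + (8*m^8 + 284*m^7 + 4440*m^6 + 39894*m^5 + 225170*m^4 + 817052*m^3 + 1860483*m^2 + 2429662*m + 1392700) = 0 := by
    linear_combination (-8*m^6 - 192*m^5 - 1934*m^4 - 10464*m^3 - 32063*m^2 - 52728*m - 36332)*h1 + (8*m^6 + 184*m^5 + 1786*m^4 + 9358*m^3 + 27906*m^2 + 44904*m + 30472)*h2 + (8*m^6 + 188*m^5 + 1864*m^4 + 9970*m^3 + 30320*m^2 + 49686*m + 34272)*h3 + (4*m^5 + 78*m^4 + 616*m^3 + 2459*m^2 + 4956*m + 4032)*h4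
  have h5 : (0:ℝ) ≤ (16*m^9 + 560*m^8 + 8740*m^7 + 79744*m^6 + 468172*m^5 + 1831518*m^4 + 4766313*m^3 + 7940001*m^2 + 7662434*m + 3252164)*(1 - t3) := mul_nonneg (by positivity) (by linarith)
  have h6 : (0:ℝ) < (8*m^8 + 284*m^7 + 4440*m^6 + 39894*m^5 + 225170*m^4 + 817052*m^3 + 1860483*m^2 + 2429662*m + 1392700) := by positivity
  linarith

theorem q0024 {m : ℝ} (hm : 0 ≤ m) : Q m .e0 .e0 .e2 .e4 := by
  intro t0 t1 t2 t3 a0 b0 a1 b1 a2 b2 a3 b3 h1 h2 h3 h4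
  simp only [px, py, dx, dy] at h1 h2 h3 h4 ⊢
  exfalso
  have h : (32*m^9 + 1144*m^8 + 18236*m^7 + 170036*m^6 + 1021470*m^5 + 4097566*m^4 + 10968854*m^3 + 18880717*m^2 + 18946642*m + 8436740)*t3 + (8*m^8 + 284*m^7 + 4440*m^6 + 39894*m^5 + 225170*m^4 + 817052*m^3 + 1860483*m^2 + 2429662*m + 1392700) = 0 := by
    linear_combination (-8*m^6 - 192*m^5 - 1934*m^4 - 10464*m^3 - 32063*m^2 - 52728*m - 36332)*h1 + (8*m^6 + 184*m^5 + 1786*m^4 + 9358*m^3 + 27906*m^2 + 44904*m + 30472)*h2 + (8*m^6 + 188*m^5 + 1864*m^4 + 9970*m^3 + 30320*m^2 + 49686*m + 34272)*h3 + (4*m^5 + 78*m^4 + 616*m^3 + 2459*m^2 + 4956*m + 4032)*h4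
  have h5 : (0:ℝ) ≤ (32*m^9 + 1144*m^8 + 18236*m^7 + 170036*m^6 + 1021470*m^5 + 4097566*m^4 + 10968854*m^3 + 18880717*m^2 + 18946642*m + 8436740)*t3 := mul_nonneg (by positivity) a3
  have h6 : (0:ℝ) < (8*m^8 + 284*m^7 + 4440*m^6 + 39894*m^5 + 225170*m^4 + 817052*m^3 + 1860483*m^2 + 2429662*m + 1392700) := by positivity
  linarith

theorem q0025 {m : ℝ} (hm : 0 ≤ m) : Q m .e0 .e0 .e2 .e5 := by
  intro t0 t1 t2 t3 a0 b0 a1 b1 a2 b2 a3 b3 h1 h2 h3 h4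
  simp only [px, py, dx, dy] at h1 h2 h3 h4 ⊢
  exfalso
  have h : (16*m^7 + 444*m^6 + 5318*m^5 + 35626*m^4 + 144119*m^3 + 351946*m^2 + 480260*m + 282416)*t0 + (2*m^5 + 36*m^4 + 259*m^3 + 928*m^2 + 1648*m + 1152) = 0 := by
    linear_combination (2*m^3 + 24*m^2 + 95*m + 124)*h1 + (-2*m^3 - 22*m^2 - 82*m - 104)*h2 + (2*m^3 + 24*m^2 + 95*m + 124)*h3 + (-8*m^4 - 126*m^3 - 754*m^2 - 2027*m - 2062)*h4
  have h5 : (0:ℝ) ≤ (16*m^7 + 444*m^6 + 5318*m^5 + 35626*m^4 + 144119*m^3 + 351946*m^2 + 480260*m + 282416)*t0 := mul_nonneg (by positivity) a0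
  have h6 : (0:ℝ) < (2*m^5 + 36*m^4 + 259*m^3 + 928*m^2 + 1648*m + 1152) := by positivity
  linarith

theorem q0031 {m : ℝ} (hm : 0 ≤ m) : Q m .e0 .e0 .e3 .e1 := by
  intro t0 t1 t2 t3 a0 b0 a1 b1 a2 b2 a3 b3 h1 h2 h3 h4
  simp only [px, py, dx, dy] at h1 h2 h3 h4 ⊢
  exfalso
  have h : (8*m^8 + 260*m^7 + 3712*m^6 + 30388*m^5 + 155893*m^4 + 512670*m^3 + 1054012*m^2 + 1236256*m + 631580)*(1 - t2) + (10*m^6 + 264*m^5 + 2932*m^4 + 17533*m^3 + 59566*m^2 + 109092*m + 84244) = 0 := by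
    linear_combination (4*m^5 + 82*m^4 + 681*m^3 + 2866*m^2 + 6116*m + 5300)*h1 + (4*m^4 + 65*m^3 + 405*m^2 + 1146*m + 1244)*h2 + (2*m^4 + 32*m^3 + 198*m^2 + 560*m + 612)*h3 + (m^3 + 12*m^2 + 50*m + 72)*h4
  have h5 : (0:ℝ) ≤ (8*m^8 + 260*m^7 + 3712*m^6 + 30388*m^5 + 155893*m^4 + 512670*m^3 + 1054012*m^2 + 1236256*m + 631580)*(1 - t2) := mul_nonneg (by positivity) (by linarith)
  have h6 : (0:ℝ) < (10*m^6 + 264*m^5 + 2932*m^4 + 17533*m^3 + 59566*m^2 + 109092*m + 84244) := by positivity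
  linarith

theorem q0032 {m : ℝ} (hm : 0 ≤ m) : Q m .e0 .e0 .e3 .e2 := by
  intro t0 t1 t2 t3 a0 b0 a1 b1 a2 b2 a3 b3 h1 h2 h3 h4
  simp only [px, py, dx, dy] at h1 h2 h3 h4 ⊢
  exfalso
  have h : (16*m^9 + 560*m^8 + 8772*m^7 + 80656*m^6 + 479428*m^5 + 1909370*m^4 + 5091765*m^3 + 8761303*m^2 + 8819458*m + 3953020)*(1 - t2) + (8*m^8 + 252*m^7 + 3528*m^6 + 28638*m^5 + 147318*m^4 + 491600*m^3 + 1039181*m^2 + 1272638*m + 691844) = 0 := by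
    linear_combination (-4*m^5 - 70*m^4 - 494*m^3 - 1743*m^2 - 3042*m - 2060)*h1 + (8*m^6 + 188*m^5 + 1864*m^4 + 9974*m^3 + 30365*m^2 + 49860*m + 34504)*h2 + (8*m^6 + 188*m^5 + 1864*m^4 + 9970*m^3 + 30320*m^2 + 49686*m + 34272)*h3 + (4*m^5 + 78*m^4 + 616*m^3 + 2459*m^2 + 4956*m + 4032)*h4
  have h5 : (0:ℝ) ≤ (16*m^9 + 560*m^8 + 8772*m^7 + 80656*m^6 + 479428*m^5 + 1909370*m^4 + 5091765*m^3 + 8761303*m^2 + 8819458*m + 3953020)*(1 - t2) := mul_nonneg (by positivity) (by linarith)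
  have h6 : (0:ℝ) < (8*m^8 + 252*m^7 + 3528*m^6 + 28638*m^5 + 147318*m^4 + 491600*m^3 + 1039181*m^2 + 1272638*m + 691844) := by positivity
  linarith

theorem q0033 {m : ℝ} (hm : 0 ≤ m) : Q m .e0 .e0 .e3 .e3 := by
  intro t0 t1 t2 t3 a0 b0 a1 b1 a2 b2 a3 b3 h1 h2 h3 h4
  simp only [px, py, dx, dy] at h1 h2 h3 h4 ⊢
  exfalso
  have h : (16*m^10 + 624*m^9 + 10980*m^8 + 114680*m^7 + 786508*m^6 + 3696872*m^5 + 12045769*m^4 + 26828728*m^3 + 39027324*m^2 + 33424048*m + 12773476)*(1 - t2) + (8*m^9 + 300*m^8 + 5048*m^7 + 49942*m^6 + 319644*m^5 + 1370278*m^4 + 3927600*m^3 + 7243454*m^2 + 7779960*m + 3695516) = 0 := by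
    linear_combination (-4*m^6 - 94*m^5 - 938*m^4 - 5087*m^3 - 15810*m^2 - 26692*m - 19124)*h1 + (8*m^7 + 220*m^6 + 2608*m^5 + 17246*m^4 + 68569*m^3 + 163507*m^2 + 215774*m + 120948)*h2 + (8*m^7 + 220*m^6 + 2608*m^5 + 17246*m^4 + 68576*m^3 + 163598*m^2 + 216168*m + 121516)*h3 + (4*m^6 + 94*m^5 + 924*m^4 + 4849*m^3 + 14280*m^2 + 22278*m + 14296)*h4
  have h5 : (0:ℝ) ≤ (16*m^10 + 624*m^9 + 10980*m^8 + 114680*m^7 + 786508*m^6 + 3696872*m^5 + 12045769*m^4 + 26828728*m^3 + 39027324*m^2 + 33424048*m + 12773476)*(1 - t2) := mul_nonneg (by positivity) (by linarith)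
  have h6 : (0:ℝ) < (8*m^9 + 300*m^8 + 5048*m^7 + 49942*m^6 + 319644*m^5 + 1370278*m^4 + 3927600*m^3 + 7243454*m^2 + 7779960*m + 3695516) := by positivity
  linarith

theorem q0034 {m : ℝ} (hm : 0 ≤ m) : Q m .e0 .e0 .e3 .e4 := by
  intro t0 t1 t2 t3 a0 b0 a1 b1 a2 b2 a3 b3 h1 h2 h3 h4
  simp only [px, py, dx, dy] at h1 h2 h3 h4 ⊢
  exfalso
  have h : (32*m^10 + 1272*m^9 + 22796*m^8 + 242396*m^7 + 1692382*m^6 + 8100654*m^5 + 26897634*m^4 + 61117379*m^3 + 90847866*m^2 + 79670212*m + 31256212)*t3 + (8*m^9 + 300*m^8 + 5048*m^7 + 49942*m^6 + 319644*m^5 + 1370278*m^4 + 3927600*m^3 + 7243454*m^2 + 7779960*m + 3695516) = 0 := by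
    linear_combination (-8*m^7 - 224*m^6 - 2702*m^5 - 18184*m^4 - 73663*m^3 - 179408*m^2 - 242860*m - 140640)*h1 + (8*m^7 + 216*m^6 + 2514*m^5 + 16322*m^4 + 63720*m^3 + 149227*m^2 + 193496*m + 106652)*h2 + (8*m^7 + 220*m^6 + 2608*m^5 + 17246*m^4 + 68576*m^3 + 163598*m^2 + 216168*m + 121516)*h3 + (4*m^6 + 94*m^5 + 924*m^4 + 4849*m^3 + 14280*m^2 + 22278*m + 14296)*h4
  have h5 : (0:ℝ) ≤ (32*m^10 + 1272*m^9 + 22796*m^8 + 242396*m^7 + 1692382*m^6 + 8100654*m^5 + 26897634*m^4 + 61117379*m^3 + 90847866*m^2 + 79670212*m + 31256212)*t3 := mul_nonneg (by positivity) a3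
  have h6 : (0:ℝ) < (8*m^9 + 300*m^8 + 5048*m^7 + 49942*m^6 + 319644*m^5 + 1370278*m^4 + 3927600*m^3 + 7243454*m^2 + 7779960*m + 3695516) := by positivity
  linarith

theorem q0035 {m : ℝ} (hm : 0 ≤ m) : Q m .e0 .e0 .e3 .e5 := by
  intro t0 t1 t2 t3 a0 b0 a1 b1 a2 b2 a3 b3 h1 h2 h3 h4
  simp only [px, py, dx, dy] at h1 h2 h3 h4 ⊢
  exfalso
  have h : (16*m^8 + 508*m^7 + 7086*m^6 + 56670*m^5 + 283959*m^4 + 911962*m^3 + 1831052*m^2 + 2098268*m + 1048624)*t0 + (2*m^6 + 48*m^5 + 485*m^4 + 2642*m^3 + 8181*m^2 + 13640*m + 9552) = 0 := by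
    linear_combination (2*m^4 + 32*m^3 + 191*m^2 + 500*m + 480)*h1 + (-2*m^4 - 30*m^3 - 168*m^2 - 411*m - 364)*h2 + (2*m^4 + 32*m^3 + 191*m^2 + 500*m + 480)*h3 + (-8*m^5 - 158*m^4 - 1254*m^3 - 4977*m^2 - 9826*m - 7654)*h4
  have h5 : (0:ℝ) ≤ (16*m^8 + 508*m^7 + 7086*m^6 + 56670*m^5 + 283959*m^4 + 911962*m^3 + 1831052*m^2 + 2098268*m + 1048624)*t0 := mul_nonneg (by positivity) a0
  have h6 : (0:ℝ) < (2*m^6 + 48*m^5 + 485*m^4 + 2642*m^3 + 8181*m^2 + 13640*m + 9552) := by positivity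
  linarith

theorem q0041 {m : ℝ} (hm : 0 ≤ m) : Q m .e0 .e0 .e4 .e1 := by
  intro t0 t1 t2 t3 a0 b0 a1 b1 a2 b2 a3 b3 h1 h2 h3 h4
  simp only [px, py, dx, dy] at h1 h2 h3 h4 ⊢
  exfalso
  have h : (8*m^8 + 260*m^7 + 3706*m^6 + 30236*m^5 + 154282*m^4 + 503513*m^3 + 1024542*m^2 + 1185300*m + 594572)*t2 + (10*m^6 + 264*m^5 + 2932*m^4 + 17533*m^3 + 59566*m^2 + 109092*m + 84244) = 0 := by
    linear_combination (4*m^5 + 82*m^4 + 681*m^3 + 2866*m^2 + 6116*m + 5300)*h1 + (4*m^4 + 65*m^3 + 405*m^2 + 1146*m + 1244)*h2 + (2*m^4 + 32*m^3 + 198*m^2 + 560*m + 612)*h3 + (m^3 + 12*m^2 + 50*m + 72)*h4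
  have h5 : (0:ℝ) ≤ (8*m^8 + 260*m^7 + 3706*m^6 + 30236*m^5 + 154282*m^4 + 503513*m^3 + 1024542*m^2 + 1185300*m + 594572)*t2 := mul_nonneg (by positivity) a2
  have h6 : (0:ℝ) < (10*m^6 + 264*m^5 + 2932*m^4 + 17533*m^3 + 59566*m^2 + 109092*m + 84244) := by positivity
  linarith

theorem q0042 {m : ℝ} (hm : 0 ≤ m) : Q m .e0 .e0 .e4 .e2 := by
  intro t0 t1 t2 t3 a0 b0 a1 b1 a2 b2 a3 b3 h1 h2 h3 h4
  simp only [px, py, dx, dy] at h1 h2 h3 h4 ⊢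
  exfalso
  have h : (8*m^9 + 284*m^8 + 4524*m^7 + 42430*m^6 + 258182*m^5 + 1057070*m^4 + 2912725*m^3 + 5210530*m^2 + 5494140*m + 2603792)*t1 + (4*m^8 + 128*m^7 + 1810*m^6 + 14774*m^5 + 76152*m^4 + 253877*m^3 + 534704*m^2 + 650608*m + 350208) = 0 := by
    linear_combination (8*m^3 + 106*m^2 + 464*m + 696)*h1 + (8*m^5 + 154*m^4 + 1188*m^3 + 4578*m^2 + 8787*m + 6670)*h2 + (4*m^6 + 104*m^5 + 1130*m^4 + 6562*m^3 + 21484*m^2 + 37633*m + 27604)*h3 + (-4*m^6 - 92*m^5 - 894*m^4 - 4694*m^3 - 14068*m^2 - 22891*m - 15898)*h4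
  have h5 : (0:ℝ) ≤ (8*m^9 + 284*m^8 + 4524*m^7 + 42430*m^6 + 258182*m^5 + 1057070*m^4 + 2912725*m^3 + 5210530*m^2 + 5494140*m + 2603792)*t1 := mul_nonneg (by positivity) a1
  have h6 : (0:ℝ) < (4*m^8 + 128*m^7 + 1810*m^6 + 14774*m^5 + 76152*m^4 + 253877*m^3 + 534704*m^2 + 650608*m + 350208) := by positivity
  linarith

theorem q0043 {m : ℝ} (hm : 0 ≤ m) : Q m .e0 .e0 .e4 .e3 := by
  intro t0 t1 t2 t3 a0 b0 a1 b1 a2 b2 a3 b3 h1 h2 h3 h4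
  simp only [px, py, dx, dy] at h1 h2 h3 h4 ⊢
  exfalso
  have h : (8*m^9 + 300*m^8 + 5044*m^7 + 49838*m^6 + 318478*m^5 + 1362962*m^4 + 3899843*m^3 + 7179806*m^2 + 7698420*m + 3650636)*t3 + (4*m^8 + 132*m^7 + 1914*m^6 + 15898*m^5 + 82610*m^4 + 274565*m^3 + 568958*m^2 + 670412*m + 342672) = 0 := by
    linear_combination (8*m^5 + 176*m^4 + 1554*m^3 + 6908*m^2 + 15496*m + 14064)*h1 + (8*m^7 + 224*m^6 + 2698*m^5 + 18100*m^4 + 72950*m^3 + 176347*m^2 + 236208*m + 134780)*h2 + (8*m^7 + 224*m^6 + 2696*m^5 + 18056*m^4 + 72560*m^3 + 174612*m^2 + 232336*m + 131308)*h3 + (4*m^6 + 96*m^5 + 960*m^4 + 5108*m^3 + 15208*m^2 + 23926*m + 15448)*h4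
  have h5 : (0:ℝ) ≤ (8*m^9 + 300*m^8 + 5044*m^7 + 49838*m^6 + 318478*m^5 + 1362962*m^4 + 3899843*m^3 + 7179806*m^2 + 7698420*m + 3650636)*t3 := mul_nonneg (by positivity) a3
  have h6 : (0:ℝ) < (4*m^8 + 132*m^7 + 1914*m^6 + 15898*m^5 + 82610*m^4 + 274565*m^3 + 568958*m^2 + 670412*m + 342672) := by positivity
  linarith

theorem q0044 {m : ℝ} (hm : 0 ≤ m) : Q m .e0 .e0 .e4 .e4 := by
  intro t0 t1 t2 t3 a0 b0 a1 b1 a2 b2 a3 b3 h1 h2 h3 h4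
  simp only [px, py, dx, dy] at h1 h2 h3 h4 ⊢
  exfalso
  have h : (16*m^10 + 640*m^9 + 11520*m^8 + 122784*m^7 + 857408*m^6 + 4094896*m^5 + 13530704*m^4 + 30504896*m^3 + 44841008*m^2 + 38743584*m + 14915044)*t3 + (8*m^9 + 304*m^8 + 5176*m^7 + 51752*m^6 + 334376*m^5 + 1445572*m^4 + 4174408*m^3 + 7748764*m^2 + 8368832*m + 3993308) = 0 := by
    linear_combination (8*m^5 + 176*m^4 + 1554*m^3 + 6908*m^2 + 15496*m + 14064)*h1 + (8*m^7 + 224*m^6 + 2698*m^5 + 18100*m^4 + 72950*m^3 + 176347*m^2 + 236208*m + 134780)*h2 + (8*m^7 + 224*m^6 + 2696*m^5 + 18056*m^4 + 72560*m^3 + 174612*m^2 + 232336*m + 131308)*h3 + (4*m^6 + 96*m^5 + 960*m^4 + 5108*m^3 + 15208*m^2 + 23926*m + 15448)*h4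
  have h5 : (0:ℝ) ≤ (16*m^10 + 640*m^9 + 11520*m^8 + 122784*m^7 + 857408*m^6 + 4094896*m^5 + 13530704*m^4 + 30504896*m^3 + 44841008*m^2 + 38743584*m + 14915044)*t3 := mul_nonneg (by positivity) a3
  have h6 : (0:ℝ) < (8*m^9 + 304*m^8 + 5176*m^7 + 51752*m^6 + 334376*m^5 + 1445572*m^4 + 4174408*m^3 + 7748764*m^2 + 8368832*m + 3993308) := by positivity
  linarith

theorem q0045 {m : ℝ} (hm : 0 ≤ m) : Q m .e0 .e0 .e4 .e5 := by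
  intro t0 t1 t2 t3 a0 b0 a1 b1 a2 b2 a3 b3 h1 h2 h3 h4
  simp only [px, py, dx, dy] at h1 h2 h3 h4 ⊢
  exfalso
  have h : (8*m^7 + 224*m^6 + 2688*m^5 + 17880*m^4 + 71006*m^3 + 167704*m^2 + 216840*m + 117244)*t2 + (4*m^6 + 112*m^5 + 1328*m^4 + 8490*m^3 + 30796*m^2 + 60056*m + 49220) = 0 := by
    linear_combination (4*m^4 + 64*m^3 + 392*m^2 + 1088*m + 1156)*h1 + (4*m^4 + 66*m^3 + 417*m^2 + 1194*m + 1308)*h2 + (4*m^4 + 64*m^3 + 392*m^2 + 1088*m + 1156)*h3 + (2*m^3 + 24*m^2 + 98*m + 136)*h4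
  have h5 : (0:ℝ) ≤ (8*m^7 + 224*m^6 + 2688*m^5 + 17880*m^4 + 71006*m^3 + 167704*m^2 + 216840*m + 117244)*t2 := mul_nonneg (by positivity) a2
  have h6 : (0:ℝ) < (4*m^6 + 112*m^5 + 1328*m^4 + 8490*m^3 + 30796*m^2 + 60056*m + 49220) := by positivity
  linarith

theorem q0051 {m : ℝ} (hm : 0 ≤ m) : Q m .e0 .e0 .e5 .e1 := by
  intro t0 t1 t2 t3 a0 b0 a1 b1 a2 b2 a3 b3 h1 h2 h3 h4
  simp only [px, py, dx, dy] at h1 h2 h3 h4 ⊢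
  exfalso
  have h : (4*m^6 + 98*m^5 + 1009*m^4 + 5590*m^3 + 17580*m^2 + 29764*m + 21200)*t1 + (m^4 + 16*m^3 + 98*m^2 + 272*m + 288) = 0 := by
    linear_combination (-2*m^3 - 25*m^2 - 107*m - 158)*h2 + (m^2 + 8*m + 16)*h3 + (-2*m^3 - 25*m^2 - 106*m - 154)*h4
  have h5 : (0:ℝ) ≤ (4*m^6 + 98*m^5 + 1009*m^4 + 5590*m^3 + 17580*m^2 + 29764*m + 21200)*t1 := mul_nonneg (by positivity) a1
  have h6 : (0:ℝ) < (m^4 + 16*m^3 + 98*m^2 + 272*m + 288) := by positivity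
  linarith

theorem q0052 {m : ℝ} (hm : 0 ≤ m) : Q m .e0 .e0 .e5 .e2 := by
  intro t0 t1 t2 t3 a0 b0 a1 b1 a2 b2 a3 b3 h1 h2 h3 h4
  simp only [px, py, dx, dy] at h1 h2 h3 h4 ⊢
  exfalso
  have h : (4*m^6 + 86*m^5 + 774*m^4 + 3719*m^3 + 10014*m^2 + 14228*m + 8240)*t1 + (2*m^5 + 36*m^4 + 259*m^3 + 928*m^2 + 1648*m + 1152) = 0 := by
    linear_combination (4*m^2 + 29*m + 58)*h2 + (2*m^3 + 24*m^2 + 95*m + 124)*h3 + (-2*m^3 - 18*m^2 - 53*m - 46)*h4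
  have h5 : (0:ℝ) ≤ (4*m^6 + 86*m^5 + 774*m^4 + 3719*m^3 + 10014*m^2 + 14228*m + 8240)*t1 := mul_nonneg (by positivity) a1
  have h6 : (0:ℝ) < (2*m^5 + 36*m^4 + 259*m^3 + 928*m^2 + 1648*m + 1152) := by positivity
  linarith

theorem q0053 {m : ℝ} (hm : 0 ≤ m) : Q m .e0 .e0 .e5 .e3 := by
  intro t0 t1 t2 t3 a0 b0 a1 b1 a2 b2 a3 b3 h1 h2 h3 h4
  simp only [px, py, dx, dy] at h1 h2 h3 h4 ⊢
  exfalso
  have h : (4*m^6 + 94*m^5 + 938*m^4 + 5087*m^3 + 15810*m^2 + 26692*m + 19124)*t3 + (2*m^5 + 38*m^4 + 295*m^3 + 1170*m^2 + 2372*m + 1968) = 0 := by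
    linear_combination (4*m^4 + 64*m^3 + 393*m^2 + 1096*m + 1172)*h2 + (4*m^4 + 64*m^3 + 392*m^2 + 1088*m + 1156)*h3 + (2*m^3 + 24*m^2 + 98*m + 136)*h4
  have h5 : (0:ℝ) ≤ (4*m^6 + 94*m^5 + 938*m^4 + 5087*m^3 + 15810*m^2 + 26692*m + 19124)*t3 := mul_nonneg (by positivity) a3
  have h6 : (0:ℝ) < (2*m^5 + 38*m^4 + 295*m^3 + 1170*m^2 + 2372*m + 1968) := by positivity
  linarith

theorem q0054 {m : ℝ} (hm : 0 ≤ m) : Q m .e0 .e0 .e5 .e4 := by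
  intro t0 t1 t2 t3 a0 b0 a1 b1 a2 b2 a3 b3 h1 h2 h3 h4
  simp only [px, py, dx, dy] at h1 h2 h3 h4 ⊢
  exfalso
  have h : (8*m^7 + 224*m^6 + 2704*m^5 + 18232*m^4 + 74114*m^3 + 181520*m^2 + 247832*m + 145372)*t3 + (4*m^6 + 96*m^5 + 976*m^4 + 5382*m^3 + 16980*m^2 + 29064*m + 21092) = 0 := by
    linear_combination (4*m^4 + 64*m^3 + 393*m^2 + 1096*m + 1172)*h2 + (4*m^4 + 64*m^3 + 392*m^2 + 1088*m + 1156)*h3 + (2*m^3 + 24*m^2 + 98*m + 136)*h4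
  have h5 : (0:ℝ) ≤ (8*m^7 + 224*m^6 + 2704*m^5 + 18232*m^4 + 74114*m^3 + 181520*m^2 + 247832*m + 145372)*t3 := mul_nonneg (by positivity) a3
  have h6 : (0:ℝ) < (4*m^6 + 96*m^5 + 976*m^4 + 5382*m^3 + 16980*m^2 + 29064*m + 21092) := by positivity
  linarith

theorem q0055 {m : ℝ} (hm : 0 ≤ m) : Q m .e0 .e0 .e5 .e5 := by
  intro t0 t1 t2 t3 a0 b0 a1 b1 a2 b2 a3 b3 h1 h2 h3 h4
  simp only [px, py, dx, dy] at h1 h2 h3 h4 ⊢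
  have wx : (2*m^2 + 16*m + 34)*((-m^2 - 8*m - 16) + t1*(-m^2 - 8*m - 16) - ((-m^2 - 8*m - 16) + t0*(-m^2 - 8*m - 16))) = 0 := by
    linear_combination (m + 4)*h2
  have Dx : (0:ℝ) < (2*m^2 + 16*m + 34) := by positivity
  have wy : 1*((0) + t1*(2*m^3 + 24*m^2 + 98*m + 136) - ((0) + t0*(2*m^3 + 24*m^2 + 98*m + 136))) = 0 := by
    linear_combination (-1)*h2
  have Dy : (0:ℝ) < 1 := by positivity
  refine ⟨abs_le.mpr ⟨?_, ?_⟩, abs_le.mpr ⟨?_, ?_⟩⟩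
  · refine le_of_mul_le_mul_left ?_ Dx
    rw [wx]
    have : (0:ℝ) ≤ (10*m^3 + 120*m^2 + 490*m + 680) := by positivity
    linarith
  · refine le_of_mul_le_mul_left ?_ Dx
    rw [wx]
    have : (0:ℝ) ≤ (10*m^3 + 120*m^2 + 490*m + 680) := by positivity
    linarith
  · refine le_of_mul_le_mul_left ?_ Dy
    rw [wy]
    have : (0:ℝ) ≤ (5*m + 20) := by positivity
    linarith
  · refine le_of_mul_le_mul_left ?_ Dy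
    rw [wy]
    have : (0:ℝ) ≤ (5*m + 20) := by positivity
    linarith

theorem q0101 {m : ℝ} (hm : 0 ≤ m) : Q m .e0 .e1 .e0 .e1 := by
  intro t0 t1 t2 t3 a0 b0 a1 b1 a2 b2 a3 b3 h1 h2 h3 h4
  simp only [px, py, dx, dy] at h1 h2 h3 h4 ⊢
  have wx : (4*m^3 + 48*m^2 + 198*m + 280)*((-2*m^2 - 16*m - 32) + t1*(2*m^2 + 16*m + 32) - ((-m^2 - 8*m - 16) + t0*(-m^2 - 8*m - 16))) = 0 := by
    linear_combination (-2*m^3 - 26*m^2 - 114*m - 170)*h1 + (-m^2 - 9*m - 20)*h2 + (-3*m^2 - 24*m - 50)*h3 + (m^2 + 6*m + 10)*h4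
  have Dx : (0:ℝ) < (4*m^3 + 48*m^2 + 198*m + 280) := by positivity
  have wy : (4*m^3 + 48*m^2 + 198*m + 280)*((2*m^3 + 24*m^2 + 98*m + 136) + t1*(-2*m^3 - 24*m^2 - 96*m - 128) - ((0) + t0*(2*m^3 + 24*m^2 + 98*m + 136))) = 0 := by
    linear_combination (2*m^3 + 22*m^2 + 82*m + 102)*h1 + (m^2 + 7*m + 12)*h2 + (4*m^3 + 47*m^2 + 188*m + 254)*h3 + (3*m^2 + 24*m + 50)*h4
  have Dy : (0:ℝ) < (4*m^3 + 48*m^2 + 198*m + 280) := by positivity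
  refine ⟨abs_le.mpr ⟨?_, ?_⟩, abs_le.mpr ⟨?_, ?_⟩⟩
  · refine le_of_mul_le_mul_left ?_ Dx
    rw [wx]
    have : (0:ℝ) ≤ (20*m^4 + 320*m^3 + 1950*m^2 + 5360*m + 5600) := by positivity
    linarith
  · refine le_of_mul_le_mul_left ?_ Dx
    rw [wx]
    have : (0:ℝ) ≤ (20*m^4 + 320*m^3 + 1950*m^2 + 5360*m + 5600) := by positivity
    linarith
  · refine le_of_mul_le_mul_left ?_ Dy
    rw [wy]
    have : (0:ℝ) ≤ (20*m^4 + 320*m^3 + 1950*m^2 + 5360*m + 5600) := by positivity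
    linarith
  · refine le_of_mul_le_mul_left ?_ Dy
    rw [wy]
    have : (0:ℝ) ≤ (20*m^4 + 320*m^3 + 1950*m^2 + 5360*m + 5600) := by positivity
    linarith

theorem q0102 {m : ℝ} (hm : 0 ≤ m) : Q m .e0 .e1 .e0 .e2 := by
  intro t0 t1 t2 t3 a0 b0 a1 b1 a2 b2 a3 b3 h1 h2 h3 h4
  simp only [px, py, dx, dy] at h1 h2 h3 h4 ⊢
  exfalso
  have h : (8*m^8 + 248*m^7 + 3390*m^6 + 26676*m^5 + 132118*m^4 + 421579*m^3 + 846164*m^2 + 976532*m + 496080)*t2 + (4*m^7 + 102*m^6 + 1116*m^5 + 6776*m^4 + 24583*m^3 + 53064*m^2 + 62700*m + 30960) = 0 := by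
    linear_combination (-2*m^4 - 26*m^3 - 128*m^2 - 277*m - 218)*h1 + (4*m^5 + 76*m^4 + 586*m^3 + 2289*m^2 + 4525*m + 3622)*h2 + (4*m^5 + 76*m^4 + 586*m^3 + 2285*m^2 + 4496*m + 3564)*h3 + (2*m^4 + 30*m^3 + 173*m^2 + 451*m + 450)*h4
  have h5 : (0:ℝ) ≤ (8*m^8 + 248*m^7 + 3390*m^6 + 26676*m^5 + 132118*m^4 + 421579*m^3 + 846164*m^2 + 976532*m + 496080)*t2 := mul_nonneg (by positivity) a2
  have h6 : (0:ℝ) < (4*m^7 + 102*m^6 + 1116*m^5 + 6776*m^4 + 24583*m^3 + 53064*m^2 + 62700*m + 30960) := by positivity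
  linarith

theorem q0103 {m : ℝ} (hm : 0 ≤ m) : Q m .e0 .e1 .e0 .e3 := by
  intro t0 t1 t2 t3 a0 b0 a1 b1 a2 b2 a3 b3 h1 h2 h3 h4
  simp only [px, py, dx, dy] at h1 h2 h3 h4 ⊢
  exfalso
  have h : (8*m^8 + 248*m^7 + 3382*m^6 + 26464*m^5 + 129776*m^4 + 407732*m^3 + 799868*m^2 + 893436*m + 433472)*(1 - t3) + (8*m^7 + 232*m^6 + 2928*m^5 + 20822*m^4 + 90031*m^3 + 236536*m^2 + 349464*m + 223888) = 0 := by
    linear_combination (-4*m^5 - 78*m^4 - 618*m^3 - 2482*m^2 - 5046*m - 4148)*h1 + (-2*m^4 - 31*m^3 - 183*m^2 - 486*m - 488)*h2 + (2*m^4 + 33*m^3 + 210*m^2 + 610*m + 684)*h3 + (-2*m^4 - 31*m^3 - 186*m^2 - 510*m - 540)*h4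
  have h5 : (0:ℝ) ≤ (8*m^8 + 248*m^7 + 3382*m^6 + 26464*m^5 + 129776*m^4 + 407732*m^3 + 799868*m^2 + 893436*m + 433472)*(1 - t3) := mul_nonneg (by positivity) (by linarith)
  have h6 : (0:ℝ) < (8*m^7 + 232*m^6 + 2928*m^5 + 20822*m^4 + 90031*m^3 + 236536*m^2 + 349464*m + 223888) := by positivity
  linarith

theorem q0104 {m : ℝ} (hm : 0 ≤ m) : Q m .e0 .e1 .e0 .e4 := by
  intro t0 t1 t2 t3 a0 b0 a1 b1 a2 b2 a3 b3 h1 h2 h3 h4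
  simp only [px, py, dx, dy] at h1 h2 h3 h4 ⊢
  exfalso
  have h : (8*m^8 + 256*m^7 + 3598*m^6 + 28988*m^5 + 146314*m^4 + 473327*m^3 + 957296*m^2 + 1105040*m + 556304)*t3 + (8*m^7 + 232*m^6 + 2928*m^5 + 20822*m^4 + 90031*m^3 + 236536*m^2 + 349464*m + 223888) = 0 := by
    linear_combination (-4*m^5 - 78*m^4 - 618*m^3 - 2482*m^2 - 5046*m - 4148)*h1 + (-2*m^4 - 31*m^3 - 183*m^2 - 486*m - 488)*h2 + (2*m^4 + 33*m^3 + 210*m^2 + 610*m + 684)*h3 + (-2*m^4 - 31*m^3 - 186*m^2 - 510*m - 540)*h4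
  have h5 : (0:ℝ) ≤ (8*m^8 + 256*m^7 + 3598*m^6 + 28988*m^5 + 146314*m^4 + 473327*m^3 + 957296*m^2 + 1105040*m + 556304)*t3 := mul_nonneg (by positivity) a3
  have h6 : (0:ℝ) < (8*m^7 + 232*m^6 + 2928*m^5 + 20822*m^4 + 90031*m^3 + 236536*m^2 + 349464*m + 223888) := by positivity
  linarith

theorem q0105 {m : ℝ} (hm : 0 ≤ m) : Q m .e0 .e1 .e0 .e5 := by
  intro t0 t1 t2 t3 a0 b0 a1 b1 a2 b2 a3 b3 h1 h2 h3 h4
  simp only [px, py, dx, dy] at h1 h2 h3 h4 ⊢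
  exfalso
  have h : (4*m^6 + 96*m^5 + 971*m^4 + 5296*m^3 + 16424*m^2 + 27456*m + 19328)*t0 + (2*m^5 + 39*m^4 + 310*m^3 + 1254*m^2 + 2580*m + 2160) = 0 := by
    linear_combination (2*m^2 + 16*m + 34)*h1 + (m + 4)*h2 + (2*m^2 + 16*m + 34)*h3 + (-2*m^3 - 25*m^2 - 106*m - 154)*h4
  have h5 : (0:ℝ) ≤ (4*m^6 + 96*m^5 + 971*m^4 + 5296*m^3 + 16424*m^2 + 27456*m + 19328)*t0 := mul_nonneg (by positivity) a0
  have h6 : (0:ℝ) < (2*m^5 + 39*m^4 + 310*m^3 + 1254*m^2 + 2580*m + 2160) := by positivity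
  linarith

theorem q0111 {m : ℝ} (hm : 0 ≤ m) : Q m .e0 .e1 .e1 .e1 := by
  intro t0 t1 t2 t3 a0 b0 a1 b1 a2 b2 a3 b3 h1 h2 h3 h4
  simp only [px, py, dx, dy] at h1 h2 h3 h4 ⊢
  have wx : (m^2 + 8*m + 17)*((-2*m^2 - 16*m - 32) + t1*(2*m^2 + 16*m + 32) - ((-m^2 - 8*m - 16) + t0*(-m^2 - 8*m - 16))) = 0 := by
    linear_combination (-m^2 - 9*m - 20)*h1 + (-m - 5)*h2 + (-m - 4)*h3 + (-1)*h4
  have Dx : (0:ℝ) < (m^2 + 8*m + 17) := by positivity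
  have wy : (m^2 + 8*m + 17)*((2*m^3 + 24*m^2 + 98*m + 136) + t1*(-2*m^3 - 24*m^2 - 96*m - 128) - ((0) + t0*(2*m^3 + 24*m^2 + 98*m + 136))) = 0 := by
    linear_combination (m^2 + 7*m + 12)*h1 + (m + 3)*h2 + (m^2 + 8*m + 16)*h3 + (m + 4)*h4
  have Dy : (0:ℝ) < (m^2 + 8*m + 17) := by positivity
  refine ⟨abs_le.mpr ⟨?_, ?_⟩, abs_le.mpr ⟨?_, ?_⟩⟩
  · refine le_of_mul_le_mul_left ?_ Dx
    rw [wx]
    have : (0:ℝ) ≤ (5*m^3 + 60*m^2 + 245*m + 340) := by positivity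
    linarith
  · refine le_of_mul_le_mul_left ?_ Dx
    rw [wx]
    have : (0:ℝ) ≤ (5*m^3 + 60*m^2 + 245*m + 340) := by positivity
    linarith
  · refine le_of_mul_le_mul_left ?_ Dy
    rw [wy]
    have : (0:ℝ) ≤ (5*m^3 + 60*m^2 + 245*m + 340) := by positivity
    linarith
  · refine le_of_mul_le_mul_left ?_ Dy
    rw [wy]
    have : (0:ℝ) ≤ (5*m^3 + 60*m^2 + 245*m + 340) := by positivity
    linarith

theorem q0112 {m : ℝ} (hm : 0 ≤ m) : Q m .e0 .e1 .e1 .e2 := by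
  intro t0 t1 t2 t3 a0 b0 a1 b1 a2 b2 a3 b3 h1 h2 h3 h4
  simp only [px, py, dx, dy] at h1 h2 h3 h4 ⊢
  exfalso
  have h : (4*m^7 + 108*m^6 + 1260*m^5 + 8227*m^4 + 32445*m^3 + 77235*m^2 + 102702*m + 58824)*t3 + (2*m^6 + 48*m^5 + 486*m^4 + 2656*m^3 + 8260*m^2 + 13856*m + 9792) = 0 := by
    linear_combination (-2*m^4 - 31*m^3 - 183*m^2 - 486*m - 488)*h1 + (-2*m^3 - 23*m^2 - 91*m - 122)*h2 + (m^2 + 8*m + 18)*h3 + (-m^3 - 12*m^2 - 50*m - 72)*h4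
  have h5 : (0:ℝ) ≤ (4*m^7 + 108*m^6 + 1260*m^5 + 8227*m^4 + 32445*m^3 + 77235*m^2 + 102702*m + 58824)*t3 := mul_nonneg (by positivity) a3
  have h6 : (0:ℝ) < (2*m^6 + 48*m^5 + 486*m^4 + 2656*m^3 + 8260*m^2 + 13856*m + 9792) := by positivity
  linarith

theorem q0113 {m : ℝ} (hm : 0 ≤ m) : Q m .e0 .e1 .e1 .e3 := by
  intro t0 t1 t2 t3 a0 b0 a1 b1 a2 b2 a3 b3 h1 h2 h3 h4
  simp only [px, py, dx, dy] at h1 h2 h3 h4 ⊢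
  exfalso
  have h : (4*m^7 + 108*m^6 + 1256*m^5 + 8139*m^4 + 31670*m^3 + 73811*m^2 + 95104*m + 52046)*(1 - t3) + (2*m^6 + 52*m^5 + 574*m^4 + 3431*m^3 + 11684*m^2 + 21454*m + 16570) = 0 := by
    linear_combination (-2*m^4 - 31*m^3 - 183*m^2 - 486*m - 488)*h1 + (-2*m^3 - 23*m^2 - 91*m - 122)*h2 + (m^2 + 8*m + 18)*h3 + (-m^3 - 12*m^2 - 50*m - 72)*h4
  have h5 : (0:ℝ) ≤ (4*m^7 + 108*m^6 + 1256*m^5 + 8139*m^4 + 31670*m^3 + 73811*m^2 + 95104*m + 52046)*(1 - t3) := mul_nonneg (by positivity) (by linarith)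
  have h6 : (0:ℝ) < (2*m^6 + 52*m^5 + 574*m^4 + 3431*m^3 + 11684*m^2 + 21454*m + 16570) := by positivity
  linarith

theorem q0114 {m : ℝ} (hm : 0 ≤ m) : Q m .e0 .e1 .e1 .e4 := by
  intro t0 t1 t2 t3 a0 b0 a1 b1 a2 b2 a3 b3 h1 h2 h3 h4
  simp only [px, py, dx, dy] at h1 h2 h3 h4 ⊢
  exfalso
  have h : (4*m^7 + 110*m^6 + 1300*m^5 + 8546*m^4 + 33695*m^3 + 79526*m^2 + 103782*m + 57590)*t3 + (2*m^6 + 52*m^5 + 574*m^4 + 3431*m^3 + 11684*m^2 + 21454*m + 16570) = 0 := by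
    linear_combination (-2*m^4 - 31*m^3 - 183*m^2 - 486*m - 488)*h1 + (-2*m^3 - 23*m^2 - 91*m - 122)*h2 + (m^2 + 8*m + 18)*h3 + (-m^3 - 12*m^2 - 50*m - 72)*h4
  have h5 : (0:ℝ) ≤ (4*m^7 + 110*m^6 + 1300*m^5 + 8546*m^4 + 33695*m^3 + 79526*m^2 + 103782*m + 57590)*t3 := mul_nonneg (by positivity) a3
  have h6 : (0:ℝ) < (2*m^6 + 52*m^5 + 574*m^4 + 3431*m^3 + 11684*m^2 + 21454*m + 16570) := by positivity
  linarith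

theorem q0115 {m : ℝ} (hm : 0 ≤ m) : Q m .e0 .e1 .e1 .e5 := by
  intro t0 t1 t2 t3 a0 b0 a1 b1 a2 b2 a3 b3 h1 h2 h3 h4
  simp only [px, py, dx, dy] at h1 h2 h3 h4 ⊢
  exfalso
  have h : (2*m^5 + 39*m^4 + 308*m^3 + 1230*m^2 + 2482*m + 2024)*t0 + (m^4 + 16*m^3 + 98*m^2 + 272*m + 288) = 0 := by
    linear_combination (m + 4)*h1 + 1*h2 + (m + 4)*h3 + (-m^2 - 8*m - 16)*h4
  have h5 : (0:ℝ) ≤ (2*m^5 + 39*m^4 + 308*m^3 + 1230*m^2 + 2482*m + 2024)*t0 := mul_nonneg (by positivity) a0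
  have h6 : (0:ℝ) < (m^4 + 16*m^3 + 98*m^2 + 272*m + 288) := by positivity
  linarith

theorem q0121 {m : ℝ} (hm : 0 ≤ m) : Q m .e0 .e1 .e2 .e1 := by
  intro t0 t1 t2 t3 a0 b0 a1 b1 a2 b2 a3 b3 h1 h2 h3 h4
  simp only [px, py, dx, dy] at h1 h2 h3 h4 ⊢
  exfalso
  have h : (8*m^8 + 260*m^7 + 3712*m^6 + 30406*m^5 + 156280*m^4 + 516030*m^3 + 1068768*m^2 + 1269088*m + 661248)*(1 - t1) + (4*m^6 + 98*m^5 + 1010*m^4 + 5604*m^3 + 17652*m^2 + 29920*m + 21312) = 0 := by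
    linear_combination (4*m^5 + 82*m^4 + 676*m^3 + 2803*m^2 + 5845*m + 4898)*h1 + (-4*m^5 - 78*m^4 - 616*m^3 - 2464*m^2 - 4994*m - 4108)*h2 + (4*m^4 + 64*m^3 + 389*m^2 + 1063*m + 1098)*h3 + (-4*m^5 - 82*m^4 - 678*m^3 - 2828*m^2 - 5952*m - 5058)*h4
  have h5 : (0:ℝ) ≤ (8*m^8 + 260*m^7 + 3712*m^6 + 30406*m^5 + 156280*m^4 + 516030*m^3 + 1068768*m^2 + 1269088*m + 661248)*(1 - t1) := mul_nonneg (by positivity) (by linarith)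
  have h6 : (0:ℝ) < (4*m^6 + 98*m^5 + 1010*m^4 + 5604*m^3 + 17652*m^2 + 29920*m + 21312) := by positivity
  linarith

theorem q0122 {m : ℝ} (hm : 0 ≤ m) : Q m .e0 .e1 .e2 .e2 := by
  intro t0 t1 t2 t3 a0 b0 a1 b1 a2 b2 a3 b3 h1 h2 h3 h4
  simp only [px, py, dx, dy] at h1 h2 h3 h4 ⊢
  exfalso
  have h : (8*m^8 + 244*m^7 + 3280*m^6 + 25366*m^5 + 123370*m^4 + 386233*m^3 + 759817*m^2 + 858506*m + 426456)*t2 + (4*m^7 + 108*m^6 + 1258*m^5 + 8188*m^4 + 32132*m^3 + 75944*m^2 + 99968*m + 56448) = 0 := by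
    linear_combination (-2*m^4 - 26*m^3 - 128*m^2 - 277*m - 218)*h1 + (4*m^5 + 76*m^4 + 586*m^3 + 2289*m^2 + 4525*m + 3622)*h2 + (4*m^5 + 76*m^4 + 586*m^3 + 2285*m^2 + 4496*m + 3564)*h3 + (2*m^4 + 30*m^3 + 173*m^2 + 451*m + 450)*h4
  have h5 : (0:ℝ) ≤ (8*m^8 + 244*m^7 + 3280*m^6 + 25366*m^5 + 123370*m^4 + 386233*m^3 + 759817*m^2 + 858506*m + 426456)*t2 := mul_nonneg (by positivity) a2
  have h6 : (0:ℝ) < (4*m^7 + 108*m^6 + 1258*m^5 + 8188*m^4 + 32132*m^3 + 75944*m^2 + 99968*m + 56448) := by positivity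
  linarith

theorem q0123 {m : ℝ} (hm : 0 ≤ m) : Q m .e0 .e1 .e2 .e3 := by
  intro t0 t1 t2 t3 a0 b0 a1 b1 a2 b2 a3 b3 h1 h2 h3 h4
  simp only [px, py, dx, dy] at h1 h2 h3 h4 ⊢
  exfalso
  have h : (8*m^8 + 244*m^7 + 3264*m^6 + 24966*m^5 + 119178*m^4 + 362681*m^3 + 685066*m^2 + 731565*m + 336464)*(1 - t3) + (8*m^7 + 236*m^6 + 3014*m^5 + 21578*m^4 + 93420*m^3 + 244291*m^2 + 356797*m + 224200) = 0 := by
    linear_combination (-4*m^5 - 78*m^4 - 612*m^3 - 2413*m^2 - 4773*m - 3782)*h1 + (4*m^5 + 74*m^4 + 556*m^3 + 2116*m^2 + 4074*m + 3172)*h2 + (4*m^5 + 78*m^4 + 618*m^3 + 2480*m^2 + 5032*m + 4122)*h3 + (-m^2 - 9*m - 18)*h4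
  have h5 : (0:ℝ) ≤ (8*m^8 + 244*m^7 + 3264*m^6 + 24966*m^5 + 119178*m^4 + 362681*m^3 + 685066*m^2 + 731565*m + 336464)*(1 - t3) := mul_nonneg (by positivity) (by linarith)
  have h6 : (0:ℝ) < (8*m^7 + 236*m^6 + 3014*m^5 + 21578*m^4 + 93420*m^3 + 244291*m^2 + 356797*m + 224200) := by positivity
  linarith

theorem q0124 {m : ℝ} (hm : 0 ≤ m) : Q m .e0 .e1 .e2 .e4 := by
  intro t0 t1 t2 t3 a0 b0 a1 b1 a2 b2 a3 b3 h1 h2 h3 h4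
  simp only [px, py, dx, dy] at h1 h2 h3 h4 ⊢
  exfalso
  have h : (16*m^8 + 504*m^7 + 6964*m^6 + 55086*m^5 + 272602*m^4 + 863426*m^3 + 1707631*m^2 + 1925927*m + 947240)*t3 + (8*m^7 + 236*m^6 + 3014*m^5 + 21578*m^4 + 93420*m^3 + 244291*m^2 + 356797*m + 224200) = 0 := by
    linear_combination (-4*m^5 - 78*m^4 - 612*m^3 - 2413*m^2 - 4773*m - 3782)*h1 + (4*m^5 + 74*m^4 + 556*m^3 + 2116*m^2 + 4074*m + 3172)*h2 + (4*m^5 + 78*m^4 + 618*m^3 + 2480*m^2 + 5032*m + 4122)*h3 + (-m^2 - 9*m - 18)*h4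
  have h5 : (0:ℝ) ≤ (16*m^8 + 504*m^7 + 6964*m^6 + 55086*m^5 + 272602*m^4 + 863426*m^3 + 1707631*m^2 + 1925927*m + 947240)*t3 := mul_nonneg (by positivity) a3
  have h6 : (0:ℝ) < (8*m^7 + 236*m^6 + 3014*m^5 + 21578*m^4 + 93420*m^3 + 244291*m^2 + 356797*m + 224200) := by positivity
  linarith

theorem q0125 {m : ℝ} (hm : 0 ≤ m) : Q m .e0 .e1 .e2 .e5 := by
  intro t0 t1 t2 t3 a0 b0 a1 b1 a2 b2 a3 b3 h1 h2 h3 h4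
  simp only [px, py, dx, dy] at h1 h2 h3 h4 ⊢
  exfalso
  have h : (8*m^6 + 188*m^5 + 1854*m^4 + 9813*m^3 + 29377*m^2 + 47124*m + 31616)*t2 + (2*m^4 + 30*m^3 + 170*m^2 + 428*m + 400) = 0 := by
    linear_combination (2*m^3 + 23*m^2 + 90*m + 118)*h1 + (2*m^3 + 25*m^2 + 107*m + 156)*h2 + (2*m^3 + 23*m^2 + 90*m + 118)*h3 + (2*m^2 + 16*m + 34)*h4
  have h5 : (0:ℝ) ≤ (8*m^6 + 188*m^5 + 1854*m^4 + 9813*m^3 + 29377*m^2 + 47124*m + 31616)*t2 := mul_nonneg (by positivity) a2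
  have h6 : (0:ℝ) < (2*m^4 + 30*m^3 + 170*m^2 + 428*m + 400) := by positivity
  linarith

theorem q0131 {m : ℝ} (hm : 0 ≤ m) : Q m .e0 .e1 .e3 .e1 := by
  intro t0 t1 t2 t3 a0 b0 a1 b1 a2 b2 a3 b3 h1 h2 h3 h4
  simp only [px, py, dx, dy] at h1 h2 h3 h4 ⊢
  exfalso
  have h : (8*m^9 + 292*m^8 + 4744*m^7 + 45010*m^6 + 274704*m^5 + 1117770*m^4 + 3030136*m^3 + 5272564*m^2 + 5337888*m + 2392384)*(1 - t1) + (12*m^7 + 342*m^6 + 4206*m^5 + 28892*m^4 + 119553*m^3 + 297549*m^2 + 411678*m + 243688) = 0 := by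
    linear_combination (4*m^6 + 98*m^5 + 1004*m^4 + 5499*m^3 + 16957*m^2 + 27850*m + 18960)*h1 + (-4*m^6 - 94*m^5 - 924*m^4 - 4852*m^3 - 14311*m^2 - 22377*m - 14378)*h2 + (4*m^5 + 80*m^4 + 643*m^3 + 2586*m^2 + 5178*m + 4096)*h3 + (-4*m^6 - 98*m^5 - 1002*m^4 - 5464*m^3 - 16719*m^2 - 27116*m - 18094)*h4
  have h5 : (0:ℝ) ≤ (8*m^9 + 292*m^8 + 4744*m^7 + 45010*m^6 + 274704*m^5 + 1117770*m^4 + 3030136*m^3 + 5272564*m^2 + 5337888*m + 2392384)*(1 - t1) := mul_nonneg (by positivity) (by linarith)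
  have h6 : (0:ℝ) < (12*m^7 + 342*m^6 + 4206*m^5 + 28892*m^4 + 119553*m^3 + 297549*m^2 + 411678*m + 243688) := by positivity
  linarith

theorem q0132 {m : ℝ} (hm : 0 ≤ m) : Q m .e0 .e1 .e3 .e2 := by
  intro t0 t1 t2 t3 a0 b0 a1 b1 a2 b2 a3 b3 h1 h2 h3 h4
  simp only [px, py, dx, dy] at h1 h2 h3 h4 ⊢
  exfalso
  have h : (8*m^8 + 244*m^7 + 3280*m^6 + 25354*m^5 + 123144*m^4 + 384483*m^3 + 752879*m^2 + 844443*m + 414802)*(1 - t2) + (4*m^7 + 108*m^6 + 1270*m^5 + 8414*m^4 + 33882*m^3 + 82882*m^2 + 114031*m + 68102) = 0 := by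
    linear_combination (-2*m^4 - 26*m^3 - 128*m^2 - 277*m - 218)*h1 + (4*m^5 + 76*m^4 + 586*m^3 + 2289*m^2 + 4525*m + 3622)*h2 + (4*m^5 + 76*m^4 + 586*m^3 + 2285*m^2 + 4496*m + 3564)*h3 + (2*m^4 + 30*m^3 + 173*m^2 + 451*m + 450)*h4
  have h5 : (0:ℝ) ≤ (8*m^8 + 244*m^7 + 3280*m^6 + 25354*m^5 + 123144*m^4 + 384483*m^3 + 752879*m^2 + 844443*m + 414802)*(1 - t2) := mul_nonneg (by positivity) (by linarith)
  have h6 : (0:ℝ) < (4*m^7 + 108*m^6 + 1270*m^5 + 8414*m^4 + 33882*m^3 + 82882*m^2 + 114031*m + 68102) := by positivity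
  linarith

theorem q0133 {m : ℝ} (hm : 0 ≤ m) : Q m .e0 .e1 .e3 .e3 := by
  intro t0 t1 t2 t3 a0 b0 a1 b1 a2 b2 a3 b3 h1 h2 h3 h4
  simp only [px, py, dx, dy] at h1 h2 h3 h4 ⊢
  exfalso
  have h : (8*m^9 + 276*m^8 + 4240*m^7 + 38010*m^6 + 218776*m^5 + 836935*m^4 + 2123770*m^3 + 3439385*m^2 + 3217700*m + 1321558)*(1 - t3) + (8*m^8 + 260*m^7 + 3730*m^6 + 30806*m^5 + 159964*m^4 + 533886*m^3 + 1116241*m^2 + 1333416*m + 694586) = 0 := by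
    linear_combination (-4*m^6 - 94*m^5 - 924*m^4 - 4853*m^3 - 14333*m^2 - 22510*m - 14640)*h1 + (4*m^6 + 90*m^5 + 848*m^4 + 4268*m^3 + 12057*m^2 + 18041*m + 11102)*h2 + (4*m^6 + 94*m^5 + 926*m^4 + 4880*m^3 + 14465*m^2 + 22780*m + 14818)*h3 + (-3*m^3 - 38*m^2 - 162*m - 224)*h4
  have h5 : (0:ℝ) ≤ (8*m^9 + 276*m^8 + 4240*m^7 + 38010*m^6 + 218776*m^5 + 836935*m^4 + 2123770*m^3 + 3439385*m^2 + 3217700*m + 1321558)*(1 - t3) := mul_nonneg (by positivity) (by linarith)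
  have h6 : (0:ℝ) < (8*m^8 + 260*m^7 + 3730*m^6 + 30806*m^5 + 159964*m^4 + 533886*m^3 + 1116241*m^2 + 1333416*m + 694586) := by positivity
  linarith

theorem q0134 {m : ℝ} (hm : 0 ≤ m) : Q m .e0 .e1 .e3 .e4 := by
  intro t0 t1 t2 t3 a0 b0 a1 b1 a2 b2 a3 b3 h1 h2 h3 h4
  simp only [px, py, dx, dy] at h1 h2 h3 h4 ⊢
  exfalso
  have h : (16*m^9 + 568*m^8 + 8972*m^7 + 82686*m^6 + 489484*m^5 + 1928102*m^4 + 5047625*m^3 + 8457568*m^2 + 8218490*m + 3523582)*t3 + (8*m^8 + 260*m^7 + 3730*m^6 + 30806*m^5 + 159964*m^4 + 533886*m^3 + 1116241*m^2 + 1333416*m + 694586) = 0 := by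
    linear_combination (-4*m^6 - 94*m^5 - 924*m^4 - 4853*m^3 - 14333*m^2 - 22510*m - 14640)*h1 + (4*m^6 + 90*m^5 + 848*m^4 + 4268*m^3 + 12057*m^2 + 18041*m + 11102)*h2 + (4*m^6 + 94*m^5 + 926*m^4 + 4880*m^3 + 14465*m^2 + 22780*m + 14818)*h3 + (-3*m^3 - 38*m^2 - 162*m - 224)*h4
  have h5 : (0:ℝ) ≤ (16*m^9 + 568*m^8 + 8972*m^7 + 82686*m^6 + 489484*m^5 + 1928102*m^4 + 5047625*m^3 + 8457568*m^2 + 8218490*m + 3523582)*t3 := mul_nonneg (by positivity) a3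
  have h6 : (0:ℝ) < (8*m^8 + 260*m^7 + 3730*m^6 + 30806*m^5 + 159964*m^4 + 533886*m^3 + 1116241*m^2 + 1333416*m + 694586) := by positivity
  linarith

theorem q0135 {m : ℝ} (hm : 0 ≤ m) : Q m .e0 .e1 .e3 .e5 := by
  intro t0 t1 t2 t3 a0 b0 a1 b1 a2 b2 a3 b3 h1 h2 h3 h4
  simp only [px, py, dx, dy] at h1 h2 h3 h4 ⊢
  exfalso
  have h : (8*m^6 + 188*m^5 + 1850*m^4 + 9733*m^3 + 28798*m^2 + 45290*m + 29458)*(1 - t2) + (6*m^4 + 110*m^3 + 749*m^2 + 2262*m + 2558) = 0 := by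
    linear_combination (2*m^3 + 23*m^2 + 90*m + 118)*h1 + (2*m^3 + 25*m^2 + 107*m + 156)*h2 + (2*m^3 + 23*m^2 + 90*m + 118)*h3 + (2*m^2 + 16*m + 34)*h4
  have h5 : (0:ℝ) ≤ (8*m^6 + 188*m^5 + 1850*m^4 + 9733*m^3 + 28798*m^2 + 45290*m + 29458)*(1 - t2) := mul_nonneg (by positivity) (by linarith)
  have h6 : (0:ℝ) < (6*m^4 + 110*m^3 + 749*m^2 + 2262*m + 2558) := by positivity
  linarith

theorem q0141 {m : ℝ} (hm : 0 ≤ m) : Q m .e0 .e1 .e4 .e1 := by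
  intro t0 t1 t2 t3 a0 b0 a1 b1 a2 b2 a3 b3 h1 h2 h3 h4
  simp only [px, py, dx, dy] at h1 h2 h3 h4 ⊢
  exfalso
  have h : (8*m^9 + 288*m^8 + 4608*m^7 + 42976*m^6 + 257240*m^5 + 1023672*m^4 + 2704480*m^3 + 4565908*m^2 + 4459168*m + 1913152)*(1 - t1) + (4*m^8 + 132*m^7 + 1896*m^6 + 15470*m^5 + 78294*m^4 + 250982*m^3 + 495422*m^2 + 546492*m + 254608) = 0 := by
    linear_combination (-4*m^4 - 74*m^3 - 514*m^2 - 1600*m - 1896)*h1 + (-4*m^6 - 98*m^5 - 1002*m^4 - 5464*m^3 - 16725*m^2 - 27157*m - 18170)*h2 + (2*m^5 + 40*m^4 + 316*m^3 + 1221*m^2 + 2272*m + 1576)*h3 + (-4*m^6 - 98*m^5 - 1000*m^4 - 5428*m^3 - 16479*m^2 - 26406*m - 17302)*h4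
  have h5 : (0:ℝ) ≤ (8*m^9 + 288*m^8 + 4608*m^7 + 42976*m^6 + 257240*m^5 + 1023672*m^4 + 2704480*m^3 + 4565908*m^2 + 4459168*m + 1913152)*(1 - t1) := mul_nonneg (by positivity) (by linarith)
  have h6 : (0:ℝ) < (4*m^8 + 132*m^7 + 1896*m^6 + 15470*m^5 + 78294*m^4 + 250982*m^3 + 495422*m^2 + 546492*m + 254608) := by positivity
  linarith

theorem q0142 {m : ℝ} (hm : 0 ≤ m) : Q m .e0 .e1 .e4 .e2 := by
  intro t0 t1 t2 t3 a0 b0 a1 b1 a2 b2 a3 b3 h1 h2 h3 h4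
  simp only [px, py, dx, dy] at h1 h2 h3 h4 ⊢
  exfalso
  have h : (8*m^9 + 280*m^8 + 4392*m^7 + 40512*m^6 + 242152*m^5 + 972760*m^4 + 2626822*m^3 + 4599580*m^2 + 4741056*m + 2193088)*(1 - t1) + (8*m^8 + 260*m^7 + 3728*m^6 + 30804*m^5 + 160462*m^4 + 539780*m^3 + 1145654*m^2 + 1403692*m + 760912) = 0 := by
    linear_combination (8*m^3 + 106*m^2 + 464*m + 696)*h1 + (8*m^5 + 154*m^4 + 1188*m^3 + 4578*m^2 + 8787*m + 6670)*h2 + (4*m^6 + 104*m^5 + 1130*m^4 + 6562*m^3 + 21484*m^2 + 37633*m + 27604)*h3 + (-4*m^6 - 92*m^5 - 894*m^4 - 4694*m^3 - 14068*m^2 - 22891*m - 15898)*h4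
  have h5 : (0:ℝ) ≤ (8*m^9 + 280*m^8 + 4392*m^7 + 40512*m^6 + 242152*m^5 + 972760*m^4 + 2626822*m^3 + 4599580*m^2 + 4741056*m + 2193088)*(1 - t1) := mul_nonneg (by positivity) (by linarith)
  have h6 : (0:ℝ) < (8*m^8 + 260*m^7 + 3728*m^6 + 30804*m^5 + 160462*m^4 + 539780*m^3 + 1145654*m^2 + 1403692*m + 760912) := by positivity
  linarith

theorem q0143 {m : ℝ} (hm : 0 ≤ m) : Q m .e0 .e1 .e4 .e3 := by
  intro t0 t1 t2 t3 a0 b0 a1 b1 a2 b2 a3 b3 h1 h2 h3 h4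
  simp only [px, py, dx, dy] at h1 h2 h3 h4 ⊢
  exfalso
  have h : (4*m^8 + 132*m^7 + 1924*m^6 + 16142*m^5 + 85060*m^4 + 287500*m^3 + 606714*m^2 + 727904*m + 378122)*(1 - t2) + (2*m^6 + 50*m^5 + 538*m^4 + 3187*m^3 + 10919*m^2 + 20402*m + 16152) = 0 := by
    linear_combination (-2*m^5 - 38*m^4 - 296*m^3 - 1180*m^2 - 2400*m - 1982)*h1 + (4*m^6 + 92*m^5 + 886*m^4 + 4557*m^3 + 13146*m^2 + 20047*m + 12516)*h2 + (4*m^6 + 92*m^5 + 886*m^4 + 4557*m^3 + 13153*m^2 + 20110*m + 12658)*h3 + (2*m^5 + 38*m^4 + 289*m^3 + 1089*m^2 + 2006*m + 1414)*h4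
  have h5 : (0:ℝ) ≤ (4*m^8 + 132*m^7 + 1924*m^6 + 16142*m^5 + 85060*m^4 + 287500*m^3 + 606714*m^2 + 727904*m + 378122)*(1 - t2) := mul_nonneg (by positivity) (by linarith)
  have h6 : (0:ℝ) < (2*m^6 + 50*m^5 + 538*m^4 + 3187*m^3 + 10919*m^2 + 20402*m + 16152) := by positivity
  linarith

theorem q0144 {m : ℝ} (hm : 0 ≤ m) : Q m .e0 .e1 .e4 .e4 := by
  intro t0 t1 t2 t3 a0 b0 a1 b1 a2 b2 a3 b3 h1 h2 h3 h4
  simp only [px, py, dx, dy] at h1 h2 h3 h4 ⊢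
  exfalso
  have h : (8*m^9 + 284*m^8 + 4472*m^7 + 40940*m^6 + 239764*m^5 + 929884*m^4 + 2383272*m^3 + 3882915*m^2 + 3638710*m + 1489534)*t3 + (4*m^8 + 132*m^7 + 1920*m^6 + 16036*m^5 + 83874*m^4 + 280350*m^3 + 582249*m^2 + 682874*m + 343298) = 0 := by
    linear_combination (4*m^4 + 70*m^3 + 458*m^2 + 1336*m + 1464)*h1 + (4*m^6 + 94*m^5 + 922*m^4 + 4820*m^3 + 14127*m^2 + 21933*m + 14030)*h2 + (4*m^6 + 94*m^5 + 920*m^4 + 4784*m^3 + 13881*m^2 + 21182*m + 13162)*h3 + (2*m^5 + 40*m^4 + 320*m^3 + 1277*m^2 + 2536*m + 2008)*h4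
  have h5 : (0:ℝ) ≤ (8*m^9 + 284*m^8 + 4472*m^7 + 40940*m^6 + 239764*m^5 + 929884*m^4 + 2383272*m^3 + 3882915*m^2 + 3638710*m + 1489534)*t3 := mul_nonneg (by positivity) a3
  have h6 : (0:ℝ) < (4*m^8 + 132*m^7 + 1920*m^6 + 16036*m^5 + 83874*m^4 + 280350*m^3 + 582249*m^2 + 682874*m + 343298) := by positivity
  linarith

theorem q0145 {m : ℝ} (hm : 0 ≤ m) : Q m .e0 .e1 .e4 .e5 := by
  intro t0 t1 t2 t3 a0 b0 a1 b1 a2 b2 a3 b3 h1 h2 h3 h4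
  simp only [px, py, dx, dy] at h1 h2 h3 h4 ⊢
  exfalso
  have h : (4*m^6 + 94*m^5 + 916*m^4 + 4714*m^3 + 13423*m^2 + 19846*m + 11698)*t2 + (6*m^4 + 110*m^3 + 749*m^2 + 2262*m + 2558) = 0 := by
    linear_combination (2*m^3 + 23*m^2 + 90*m + 118)*h1 + (2*m^3 + 25*m^2 + 107*m + 156)*h2 + (2*m^3 + 23*m^2 + 90*m + 118)*h3 + (2*m^2 + 16*m + 34)*h4
  have h5 : (0:ℝ) ≤ (4*m^6 + 94*m^5 + 916*m^4 + 4714*m^3 + 13423*m^2 + 19846*m + 11698)*t2 := mul_nonneg (by positivity) a2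
  have h6 : (0:ℝ) < (6*m^4 + 110*m^3 + 749*m^2 + 2262*m + 2558) := by positivity
  linarith

end Hex
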