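import Mathlib

/-!
# Squares inscribed in an explicit family of hexagons: definitions

`m ≥ 0` is a real parameter, `n = m + 4`.  The hexagon has the vertices
`A = (-n², 0)`, `T₁ = (-2n², 2n³+2n)`, `B = (0, 2n)`, `T₂ = (2n³-2n²+2n, 2n³+n)`, `D = (2n+5, 2n+4)`, `T₃ = (2n³, 0)`.
`px m i, py m i` is the starting point and `dx m i, dy m i` the direction of the `i`-th edge.
-/

namespace Hex

/-- names of the six edges -/
inductive Ed
  | e0 | e1 | e2 | e3 | e4 | e5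
  deriving DecidableEq

/-- coordinates of the edges -/
def px (m : ℝ) : Ed → ℝ
  | .e0 => -m^2 - 8*m - 16
  | .e1 => -2*m^2 - 16*m - 32
  | .e2 => 0
  | .e3 => 2*m^3 + 22*m^2 + 82*m + 104
  | .e4 => 2*m + 13
  | .e5 => 2*m^3 + 24*m^2 + 96*m + 128

/-- coordinates of the edges -/
def py (m : ℝ) : Ed → ℝ
  | .e0 => 0
  | .e1 => 2*m^3 + 24*m^2 + 98*m + 136
  | .e2 => 2*m + 8
  | .e3 => 2*m^3 + 24*m^2 + 97*m + 132
  | .e4 => 2*m + 12
  | .e5 => 0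

/-- coordinates of the edges -/
def dx (m : ℝ) : Ed → ℝ
  | .e0 => -m^2 - 8*m - 16
  | .e1 => 2*m^2 + 16*m + 32
  | .e2 => 2*m^3 + 22*m^2 + 82*m + 104
  | .e3 => -2*m^3 - 22*m^2 - 80*m - 91
  | .e4 => 2*m^3 + 24*m^2 + 94*m + 115
  | .e5 => -2*m^3 - 25*m^2 - 104*m - 144

/-- coordinates of the edges -/
def dy (m : ℝ) : Ed → ℝ
  | .e0 => 2*m^3 + 24*m^2 + 98*m + 136
  | .e1 => -2*m^3 - 24*m^2 - 96*m - 128
  | .e2 => 2*m^3 + 24*m^2 + 95*m + 124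
  | .e3 => -2*m^3 - 24*m^2 - 95*m - 120
  | .e4 => -2*m - 12
  | .e5 => 0

/-- every square whose consecutive vertices lie on the edges `i, j, k, l` is small -/
def Q (m : ℝ) (i j k l : Ed) : Prop :=
  ∀ t0 t1 t2 t3 : ℝ, 0 ≤ t0 → t0 ≤ 1 → 0 ≤ t1 → t1 ≤ 1 → 0 ≤ t2 → t2 ≤ 1 → 0 ≤ t3 → t3 ≤ 1 →
    (px m i + t0 * dx m i) + (px m k + t2 * dx m k) =
      (px m j + t1 * dx m j) + (px m l + t3 * dx m l) →
    (py m i + t0 * dy m i) + (py m k + t2 * dy m k) =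
      (py m j + t1 * dy m j) + (py m l + t3 * dy m l) →
    ((px m l + t3 * dx m l) - (px m i + t0 * dx m i)) +
      ((py m j + t1 * dy m j) - (py m i + t0 * dy m i)) = 0 →
    ((py m l + t3 * dy m l) - (py m i + t0 * dy m i)) -
      ((px m j + t1 * dx m j) - (px m i + t0 * dx m i)) = 0 →
    |(px m j + t1 * dx m j) - (px m i + t0 * dx m i)| ≤ 5 * (m + 4) ∧
      |(py m j + t1 * dy m j) - (py m i + t0 * dy m i)| ≤ 5 * (m + 4)

/-- rotating the names of the vertices -/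
theorem Q.rot {m : ℝ} {i j k l : Ed} (h : Q m i j k l) : Q m l i j k := by
  intro t0 t1 t2 t3 a0 b0 a1 b1 a2 b2 a3 b3 h1 h2 h3 h4
  obtain ⟨hx, hy⟩ := h t1 t2 t3 t0 a1 b1 a2 b2 a3 b3 a0 b0 (by linarith) (by linarith)
    (by linarith) (by linarith)
  rw [abs_le] at hx hy
  refine ⟨abs_le.mpr ⟨?_, ?_⟩, abs_le.mpr ⟨?_, ?_⟩⟩ <;> linarith [hx.1, hx.2, hy.1, hy.2]

/-- four vertices on the same edge -/
theorem sing {m : ℝ} (hm : 0 ≤ m) {i : Ed} (hd : 0 < dx m i ^ 2 + dy m i ^ 2) : Q m i i i i := by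
  intro t0 t1 t2 t3 a0 b0 a1 b1 a2 b2 a3 b3 h1 h2 h3 h4
  have h : (dx m i ^ 2 + dy m i ^ 2) * (t1 - t0) = 0 := by
    linear_combination dy m i * h3 - dx m i * h4
  have ht : t1 = t0 := by
    rcases mul_eq_zero.mp h with h | h
    · exact absurd h hd.ne'
    · linarith
  subst ht
  simp only [sub_self, abs_zero]
  constructor <;> linarith

end Hex
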