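import Mathlib

/-!
# Star-shaped curves

Let `g : ℂ → ℝ` be continuous, positively homogeneous of degree one and positive away from the origin.
The level set `{g = 1}` is a Jordan curve and `{g < 1}` is its bounded complementary component.
-/

namespace Hex

open Set Metric

/-- the standing assumptions on a gauge-like function -/
structure StarGauge (g : ℂ → ℝ) : Prop where
  cont : Continuous g
  hom : ∀ (r : ℝ) (z : ℂ), 0 ≤ r → g ((r : ℂ) * z) = r * g z
  pos : ∀ z : ℂ, z ≠ 0 → 0 < g z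

variable {g : ℂ → ℝ}

theorem StarGauge.exists_jordan (h : StarGauge g) :
    ∃ γ : Circle → ℂ, Continuous γ ∧ Function.Injective γ ∧ Set.range γ = {z | g z = 1} := by
  have hne : ∀ w : Circle, (w : ℂ) ≠ 0 := fun w => Circle.coe_ne_zero w
  have hgw : ∀ w : Circle, 0 < g (w : ℂ) := fun w => h.pos _ (hne w)
  refine ⟨fun w => (((g (w : ℂ))⁻¹ : ℝ) : ℂ) * (w : ℂ), ?_, ?_, ?_⟩
  · have h1 : Continuous fun w : Circle => g (w : ℂ) := h.cont.comp continuous_subtype_val
    have h2 : Continuous fun w : Circle => (g (w : ℂ))⁻¹ := h1.inv₀ fun w => (hgw w).ne'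
    exact (Complex.continuous_ofReal.comp h2).mul continuous_subtype_val
  · intro w w' hww
    simp only at hww
    have hn : ‖(((g (w : ℂ))⁻¹ : ℝ) : ℂ) * (w : ℂ)‖ = ‖(((g (w' : ℂ))⁻¹ : ℝ) : ℂ) * (w' : ℂ)‖ := by
      rw [hww]
    rw [norm_mul, norm_mul, Circle.norm_coe, Circle.norm_coe, mul_one, mul_one, Complex.norm_real,
      Complex.norm_real, Real.norm_of_nonneg (inv_nonneg.mpr (hgw w).le),
      Real.norm_of_nonneg (inv_nonneg.mpr (hgw w').le)] at hn
    rw [hn] at hww
    have hc : (((g (w' : ℂ))⁻¹ : ℝ) : ℂ) ≠ 0 := by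
      exact_mod_cast (inv_pos.mpr (hgw w')).ne'
    exact Subtype.ext (mul_left_cancel₀ hc hww)
  · ext z
    simp only [mem_range, mem_ofPred_eq]
    constructor
    · rintro ⟨w, rfl⟩
      rw [h.hom _ _ (inv_nonneg.mpr (hgw w).le), inv_mul_cancel₀ (hgw w).ne']
    · intro hz
      have hz0 : z ≠ 0 := by
        rintro rfl
        have := h.hom 0 0 le_rfl
        simp at this
        rw [this] at hz
        exact zero_ne_one hz
      have hnz : 0 < ‖z‖ := norm_pos_iff.mpr hz0
      have hmem : (((‖z‖)⁻¹ : ℝ) : ℂ) * z ∈ Submonoid.unitSphere ℂ := by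
        refine mem_sphere_zero_iff_norm.mpr ?_
        rw [norm_mul, Complex.norm_real,
          Real.norm_of_nonneg (inv_nonneg.mpr hnz.le), inv_mul_cancel₀ hnz.ne']
      refine ⟨⟨_, hmem⟩, ?_⟩
      show (((g ((((‖z‖)⁻¹ : ℝ) : ℂ) * z))⁻¹ : ℝ) : ℂ) * ((((‖z‖)⁻¹ : ℝ) : ℂ) * z) = z
      rw [h.hom _ _ (inv_nonneg.mpr hnz.le), hz, mul_one, inv_inv, ← mul_assoc]
      have : ((‖z‖ : ℝ) : ℂ) ≠ 0 := by exact_mod_cast hnz.ne'
      push_cast
      rw [mul_inv_cancel₀ this, one_mul]

theorem StarGauge.zero (h : StarGauge g) : g 0 = 0 := by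
  have := h.hom 0 0 le_rfl
  simpa using this

theorem StarGauge.exists_lower (h : StarGauge g) : ∃ c : ℝ, 0 < c ∧ ∀ z : ℂ, c * ‖z‖ ≤ g z := by
  have hcomp : IsCompact (sphere (0 : ℂ) 1) := isCompact_sphere 0 1
  have hne : (sphere (0 : ℂ) 1).Nonempty := ⟨1, by simp⟩
  obtain ⟨w, hw, hmin⟩ := hcomp.exists_isMinOn hne h.cont.continuousOn
  have hw0 : w ≠ 0 := by
    rintro rfl
    simp at hw
  refine ⟨g w, h.pos w hw0, fun z => ?_⟩
  by_cases hz : z = 0
  · subst hz
    simp [h.zero]
  · have hnz : 0 < ‖z‖ := norm_pos_iff.mpr hz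
    have hmem : (((‖z‖)⁻¹ : ℝ) : ℂ) * z ∈ sphere (0 : ℂ) 1 := by
      rw [mem_sphere_zero_iff_norm, norm_mul, Complex.norm_real,
        Real.norm_of_nonneg (inv_nonneg.mpr hnz.le), inv_mul_cancel₀ hnz.ne']
    have := hmin hmem
    simp only [mem_ofPred_eq] at this
    rw [h.hom _ _ (inv_nonneg.mpr hnz.le)] at this
    calc g w * ‖z‖ ≤ ((‖z‖)⁻¹ * g z) * ‖z‖ := mul_le_mul_of_nonneg_right this hnz.le
      _ = g z := by field_simp

theorem StarGauge.bounded_lt (h : StarGauge g) : Bornology.IsBounded {z | g z < 1} := by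
  obtain ⟨c, hc, hle⟩ := h.exists_lower
  refine (isBounded_iff_forall_norm_le).mpr ⟨1 / c, fun z hz => ?_⟩
  have h1 := hle z
  have h2 : g z < 1 := hz
  rw [le_div_iff₀ hc]
  nlinarith

theorem StarGauge.component_subset (h : StarGauge g) {c : ℂ} (hc : g c < 1) :
    connectedComponentIn ({z | g z = 1}ᶜ) c ⊆ {z | g z < 1} := by
  have hu : IsOpen {z | g z < 1} := isOpen_lt h.cont continuous_const
  have hv : IsOpen {z | 1 < g z} := isOpen_lt continuous_const h.cont
  have hcm : c ∈ ({z | g z = 1}ᶜ : Set ℂ) := by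
    simp only [mem_compl_iff, mem_ofPred_eq]
    exact hc.ne
  refine IsPreconnected.subset_left_of_subset_union hu hv ?_ ?_ ?_ isPreconnected_connectedComponentIn
  · rw [Set.disjoint_left]
    intro z hz hz'
    exact lt_asymm (show g z < 1 from hz) hz'
  · intro z hz
    have hz' := connectedComponentIn_subset _ _ hz
    simp only [mem_compl_iff, mem_ofPred_eq] at hz'
    rcases lt_or_gt_of_ne hz' with h1 | h1
    · exact Or.inl h1
    · exact Or.inr h1
  · exact ⟨c, mem_connectedComponentIn hcm, hc⟩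

theorem StarGauge.component_bounded (h : StarGauge g) {c : ℂ} (hc : g c < 1) :
    Bornology.IsBounded (connectedComponentIn ({z | g z = 1}ᶜ) c) :=
  h.bounded_lt.subset (h.component_subset hc)

theorem StarGauge.ball_subset (_h : StarGauge g) {c : ℂ} {r : ℝ} (hr : 0 ≤ r)
    (hb : ∀ z ∈ closedBall c r, g z < 1) :
    closedBall c r ⊆ connectedComponentIn ({z | g z = 1}ᶜ) c := by
  refine IsPreconnected.subset_connectedComponentIn ?_ (mem_closedBall_self hr) ?_
  · exact (convex_closedBall c r).isPreconnected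
  · intro z hz
    simp only [mem_compl_iff, mem_ofPred_eq]
    exact (hb z hz).ne

/-- the level set of a star gauge: all topological facts together -/
theorem StarGauge.facts (h : StarGauge g) {c : ℂ} {r : ℝ} (hr : 0 ≤ r)
    (hb : ∀ z ∈ closedBall c r, g z < 1) :
    (∃ γ : Circle → ℂ, Continuous γ ∧ Function.Injective γ ∧ Set.range γ = {z | g z = 1}) ∧
    IsCompact {z | g z = 1} ∧ IsConnected {z | g z = 1} ∧ ¬ IsConnected ({z | g z = 1}ᶜ) ∧
    closedBall c r ⊆ connectedComponentIn ({z | g z = 1}ᶜ) c ∧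
    Bornology.IsBounded (connectedComponentIn ({z | g z = 1}ᶜ) c) := by
  obtain ⟨γ, hγ, hinj, hran⟩ := h.exists_jordan
  have hcomp : IsCompact {z | g z = 1} := by
    rw [← hran]
    exact isCompact_range hγ
  have hcc : g c < 1 := hb c (mem_closedBall_self hr)
  have hbd := h.component_bounded hcc
  refine ⟨⟨γ, hγ, hinj, hran⟩, hcomp, ?_, ?_, h.ball_subset hr hb, hbd⟩
  · rw [← hran]
    exact isConnected_range hγ
  · intro hcon
    have hcm : c ∈ ({z | g z = 1}ᶜ : Set ℂ) := by
      simp only [mem_compl_iff, mem_ofPred_eq]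
      exact hcc.ne
    rw [hcon.isPreconnected.connectedComponentIn hcm] at hbd
    have h1 : Bornology.IsBounded (Set.univ : Set ℂ) := by
      rw [← Set.union_compl_self {z : ℂ | g z = 1}]
      exact hcomp.isBounded.union hbd
    exact NoncompactSpace.noncompact_univ (X := ℂ)
      (isCompact_of_isClosed_isBounded isClosed_univ h1)

end Hex
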