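import Pool.Agent.helper91.HX.Def
import Pool.Agent.helper91.HX.Star

/-!
# The hexagon as the unit level set of a star gauge
-/

namespace Hex

/-- the cross product of the direction of edge `j` with the vector from its start to `(x, y)` -/
def F (m : ℝ) (j : Ed) (x y : ℝ) : ℝ := dx m j * (y - py m j) - dy m j * (x - px m j)

/-- minus the value of `F` at the star centre `(0, m + 4)` -/
def a (m : ℝ) : Ed → ℝ
  | .e0 => 2*m^5 + 40*m^4 + 323*m^3 + 1316*m^2 + 2704*m + 2240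
  | .e1 => 2*m^3 + 24*m^2 + 96*m + 128
  | .e2 => 2*m^4 + 30*m^3 + 170*m^2 + 432*m + 416
  | .e3 => 2*m^4 + 36*m^3 + 246*m^2 + 744*m + 832
  | .e4 => 2*m^4 + 40*m^3 + 290*m^2 + 917*m + 1076
  | .e5 => 2*m^4 + 33*m^3 + 204*m^2 + 560*m + 576

/-- the linear part of `F` -/
def L (m : ℝ) (j : Ed) (z : ℂ) : ℝ := dx m j * z.im - dy m j * z.re

theorem a_pos {m : ℝ} (hm : 0 ≤ m) (j : Ed) : 0 < a m j := by
  cases j <;> simp only [a] <;> positivity

theorem L_eq (m : ℝ) (j : Ed) (z : ℂ) : L m j z = F m j z.re (z.im + (m + 4)) + a m j := by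
  cases j <;> simp only [L, F, a, px, py, dx, dy] <;> ring

theorem cr15 {m : ℝ} (hm : 0 ≤ m) : dx m .e1 * dy m .e5 - dy m .e1 * dx m .e5 < 0 := by
  have h : dx m .e1 * dy m .e5 - dy m .e1 * dx m .e5 = -(4*m^6 + 98*m^5 + 1000*m^4 + 5440*m^3 + 16640*m^2 + 27136*m + 18432) := by
    simp only [dx, dy]; ring
  rw [h, neg_lt_zero]; positivity

theorem cr50 {m : ℝ} (hm : 0 ≤ m) : dx m .e5 * dy m .e0 - dy m .e5 * dx m .e0 < 0 := by
  have h : dx m .e5 * dy m .e0 - dy m .e5 * dx m .e0 = -(4*m^6 + 98*m^5 + 1004*m^4 + 5506*m^3 + 17048*m^2 + 28256*m + 19584) := by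
    simp only [dx, dy]; ring
  rw [h, neg_lt_zero]; positivity

theorem cr01 {m : ℝ} (hm : 0 ≤ m) : dx m .e0 * dy m .e1 - dy m .e0 * dx m .e1 < 0 := by
  have h : dx m .e0 * dy m .e1 - dy m .e0 * dx m .e1 = -(2*m^5 + 40*m^4 + 324*m^3 + 1328*m^2 + 2752*m + 2304) := by
    simp only [dx, dy]; ring
  rw [h, neg_lt_zero]; positivity

theorem cr23 {m : ℝ} (hm : 0 ≤ m) : dx m .e2 * dy m .e3 - dy m .e2 * dx m .e3 < 0 := by
  have h : dx m .e2 * dy m .e3 - dy m .e2 * dx m .e3 = -(4*m^4 + 66*m^3 + 414*m^2 + 1155*m + 1196) := by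
    simp only [dx, dy]; ring
  rw [h, neg_lt_zero]; positivity

theorem cr35 {m : ℝ} (hm : 0 ≤ m) : dx m .e3 * dy m .e5 - dy m .e3 * dx m .e5 < 0 := by
  have h : dx m .e3 * dy m .e5 - dy m .e3 * dx m .e5 = -(4*m^6 + 98*m^5 + 998*m^4 + 5399*m^3 + 16336*m^2 + 26160*m + 17280) := by
    simp only [dx, dy]; ring
  rw [h, neg_lt_zero]; positivity

theorem cr52 {m : ℝ} (hm : 0 ≤ m) : dx m .e5 * dy m .e2 - dy m .e5 * dx m .e2 < 0 := by
  have h : dx m .e5 * dy m .e2 - dy m .e5 * dx m .e2 = -(4*m^6 + 98*m^5 + 998*m^4 + 5407*m^3 + 16436*m^2 + 26576*m + 17856) := by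
    simp only [dx, dy]; ring
  rw [h, neg_lt_zero]; positivity

theorem cr24 {m : ℝ} (hm : 0 ≤ m) : dx m .e2 * dy m .e4 - dy m .e2 * dx m .e4 < 0 := by
  have h : dx m .e2 * dy m .e4 - dy m .e2 * dx m .e4 = -(4*m^6 + 96*m^5 + 958*m^4 + 5082*m^3 + 15094*m^2 + 23773*m + 15508) := by
    simp only [dx, dy]; ring
  rw [h, neg_lt_zero]; positivity

theorem cr45 {m : ℝ} (hm : 0 ≤ m) : dx m .e4 * dy m .e5 - dy m .e4 * dx m .e5 < 0 := by
  have h : dx m .e4 * dy m .e5 - dy m .e4 * dx m .e5 = -(4*m^4 + 74*m^3 + 508*m^2 + 1536*m + 1728) := by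
    simp only [dx, dy]; ring
  rw [h, neg_lt_zero]; positivity

/-- three directions positively spanning the plane -/
theorem tri {d1 d2 d3 e1 e2 e3 x y : ℝ} (h23 : d2 * e3 - e2 * d3 < 0) (h31 : d3 * e1 - e3 * d1 < 0)
    (h12 : d1 * e2 - e1 * d2 < 0) (g1 : d1 * y - e1 * x ≤ 0) (g2 : d2 * y - e2 * x ≤ 0)
    (g3 : d3 * y - e3 * x ≤ 0) : x = 0 ∧ y = 0 := by
  have hsum : (d2 * e3 - e2 * d3) * (d1 * y - e1 * x) + (d3 * e1 - e3 * d1) * (d2 * y - e2 * x) +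
      (d1 * e2 - e1 * d2) * (d3 * y - e3 * x) = 0 := by ring
  have k1 : 0 ≤ (d2 * e3 - e2 * d3) * (d1 * y - e1 * x) := mul_nonneg_of_nonpos_of_nonpos h23.le g1
  have k2 : 0 ≤ (d3 * e1 - e3 * d1) * (d2 * y - e2 * x) := mul_nonneg_of_nonpos_of_nonpos h31.le g2
  have k3 : 0 ≤ (d1 * e2 - e1 * d2) * (d3 * y - e3 * x) := mul_nonneg_of_nonpos_of_nonpos h12.le g3
  have z1 : (d2 * e3 - e2 * d3) * (d1 * y - e1 * x) = 0 := by linarith
  have z2 : (d3 * e1 - e3 * d1) * (d2 * y - e2 * x) = 0 := by linarith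
  have w1 : d1 * y - e1 * x = 0 := (mul_eq_zero.mp z1).resolve_left h23.ne
  have w2 : d2 * y - e2 * x = 0 := (mul_eq_zero.mp z2).resolve_left h31.ne
  constructor
  · have : (d1 * e2 - e1 * d2) * x = 0 := by linear_combination d2 * w1 - d1 * w2
    exact (mul_eq_zero.mp this).resolve_left h12.ne
  · have : (d1 * e2 - e1 * d2) * y = 0 := by linear_combination e2 * w1 - e1 * w2
    exact (mul_eq_zero.mp this).resolve_left h12.ne

/-- the gauge of the hexagon with respect to the point `(0, m + 4)` -/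
noncomputable def gg (m : ℝ) (z : ℂ) : ℝ :=
  max (max (L m .e0 z / a m .e0) (L m .e5 z / a m .e5))
    (max (min (L m .e1 z / a m .e1) (L m .e2 z / a m .e2))
      (min (L m .e3 z / a m .e3) (L m .e4 z / a m .e4)))

theorem gg_star {m : ℝ} (hm : 0 ≤ m) : StarGauge (gg m) := by
  refine ⟨?_, ?_, ?_⟩
  · unfold gg L
    fun_prop
  · intro r z hr
    have hL : ∀ j : Ed, L m j ((r : ℂ) * z) / a m j = r * (L m j z / a m j) := by
      intro j
      simp only [L, Complex.mul_re, Complex.mul_im, Complex.ofReal_re, Complex.ofReal_im]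
      ring
    simp only [gg, hL]
    rw [← mul_max_of_nonneg _ _ hr, ← mul_min_of_nonneg _ _ hr, ← mul_min_of_nonneg _ _ hr,
      ← mul_max_of_nonneg _ _ hr, ← mul_max_of_nonneg _ _ hr]
  · intro z hz
    by_contra hcon
    rw [not_lt] at hcon
    unfold gg at hcon
    rw [max_le_iff, max_le_iff, max_le_iff, min_le_iff, min_le_iff] at hcon
    obtain ⟨⟨h0, h5⟩, h12, h34⟩ := hcon
    have key : ∀ j : Ed, L m j z / a m j ≤ 0 → L m j z ≤ 0 := by
      intro j hj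
      have := a_pos hm j
      rw [div_le_iff₀ this, zero_mul] at hj
      exact hj
    have h0' := key _ h0
    have h5' := key _ h5
    have hz0 : z.re = 0 ∧ z.im = 0 := by
      unfold L at h0' h5'
      rcases h12 with h | h
      · have h' := key _ h
        unfold L at h'
        exact tri (cr15 hm) (cr50 hm) (cr01 hm) h0' h' h5'
      · have h2 := key _ h
        rcases h34 with h | h
        · have h' := key _ h
          unfold L at h' h2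
          exact tri (cr23 hm) (cr35 hm) (cr52 hm) h5' h2 h'
        · have h' := key _ h
          unfold L at h' h2
          exact tri (cr24 hm) (cr45 hm) (cr52 hm) h5' h2 h'
    exact hz (Complex.ext hz0.1 hz0.2)

theorem ratio_lt {m : ℝ} (hm : 0 ≤ m) (j : Ed) (z : ℂ) :
    L m j z / a m j < 1 ↔ F m j z.re (z.im + (m + 4)) < 0 := by
  rw [div_lt_one (a_pos hm j), L_eq]
  constructor <;> intro h <;> linarith

theorem ratio_le {m : ℝ} (hm : 0 ≤ m) (j : Ed) (z : ℂ) :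
    L m j z / a m j ≤ 1 ↔ F m j z.re (z.im + (m + 4)) ≤ 0 := by
  rw [div_le_one (a_pos hm j), L_eq]
  constructor <;> intro h <;> linarith

theorem gg_lt {m : ℝ} (hm : 0 ≤ m) (z : ℂ) : gg m z < 1 ↔
    (F m .e0 z.re (z.im + (m + 4)) < 0 ∧ F m .e5 z.re (z.im + (m + 4)) < 0) ∧
    (F m .e1 z.re (z.im + (m + 4)) < 0 ∨ F m .e2 z.re (z.im + (m + 4)) < 0) ∧
    (F m .e3 z.re (z.im + (m + 4)) < 0 ∨ F m .e4 z.re (z.im + (m + 4)) < 0) := by
  unfold gg
  rw [max_lt_iff, max_lt_iff, max_lt_iff, min_lt_iff, min_lt_iff]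
  simp only [ratio_lt hm]

theorem gg_le {m : ℝ} (hm : 0 ≤ m) (z : ℂ) : gg m z ≤ 1 ↔
    (F m .e0 z.re (z.im + (m + 4)) ≤ 0 ∧ F m .e5 z.re (z.im + (m + 4)) ≤ 0) ∧
    (F m .e1 z.re (z.im + (m + 4)) ≤ 0 ∨ F m .e2 z.re (z.im + (m + 4)) ≤ 0) ∧
    (F m .e3 z.re (z.im + (m + 4)) ≤ 0 ∨ F m .e4 z.re (z.im + (m + 4)) ≤ 0) := by
  unfold gg
  rw [max_le_iff, max_le_iff, max_le_iff, min_le_iff, min_le_iff]
  simp only [ratio_le hm]

theorem F50 (m t : ℝ) : F m .e5 (px m .e0 + t * dx m .e0) (py m .e0 + t * dy m .e0) =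
    0 + t * (-4*m^6 - 98*m^5 - 1004*m^4 - 5506*m^3 - 17048*m^2 - 28256*m - 19584) := by
  simp only [F, px, py, dx, dy]; ring

theorem F10 (m t : ℝ) : F m .e1 (px m .e0 + t * dx m .e0) (py m .e0 + t * dy m .e0) =
    (-2*m^5 - 40*m^4 - 324*m^3 - 1328*m^2 - 2752*m - 2304) + t * (2*m^5 + 40*m^4 + 324*m^3 + 1328*m^2 + 2752*m + 2304) := by
  simp only [F, px, py, dx, dy]; ring

theorem F30 (m t : ℝ) : F m .e3 (px m .e0 + t * dx m .e0) (py m .e0 + t * dy m .e0) =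
    (-2*m^5 - 40*m^4 - 325*m^3 - 1342*m^2 - 2813*m - 2388) + t * (-4*m^6 - 94*m^5 - 924*m^4 - 4849*m^3 - 14280*m^2 - 22278*m - 14296) := by
  simp only [F, px, py, dx, dy]; ring

theorem F20 (m t : ℝ) : F m .e2 (px m .e0 + t * dx m .e0) (py m .e0 + t * dy m .e0) =
    (2*m^5 + 36*m^4 + 259*m^3 + 928*m^2 + 1648*m + 1152) + t * (4*m^6 + 94*m^5 + 928*m^4 + 4923*m^3 + 14792*m^2 + 23856*m + 16128) := by
  simp only [F, px, py, dx, dy]; ring

theorem F21 (m t : ℝ) : F m .e2 (px m .e1 + t * dx m .e1) (py m .e1 + t * dy m .e1) =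
    (4*m^6 + 96*m^5 + 964*m^4 + 5182*m^3 + 15720*m^2 + 25504*m + 17280) + t * (-4*m^6 - 96*m^5 - 964*m^4 - 5182*m^3 - 15720*m^2 - 25504*m - 17280) := by
  simp only [F, px, py, dx, dy]; ring

theorem F01 (m t : ℝ) : F m .e0 (px m .e1 + t * dx m .e1) (py m .e1 + t * dy m .e1) =
    0 + t * (-2*m^5 - 40*m^4 - 324*m^3 - 1328*m^2 - 2752*m - 2304) := by
  simp only [F, px, py, dx, dy]; ring

theorem F51 (m t : ℝ) : F m .e5 (px m .e1 + t * dx m .e1) (py m .e1 + t * dy m .e1) =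
    (-4*m^6 - 98*m^5 - 1004*m^4 - 5506*m^3 - 17048*m^2 - 28256*m - 19584) + t * (4*m^6 + 98*m^5 + 1000*m^4 + 5440*m^3 + 16640*m^2 + 27136*m + 18432) := by
  simp only [F, px, py, dx, dy]; ring

theorem F31 (m t : ℝ) : F m .e3 (px m .e1 + t * dx m .e1) (py m .e1 + t * dy m .e1) =
    (-4*m^6 - 96*m^5 - 964*m^4 - 5174*m^3 - 15622*m^2 - 25091*m - 16684) + t * (4*m^6 + 96*m^5 + 960*m^4 + 5108*m^3 + 15208*m^2 + 23936*m + 15488) := by
  simp only [F, px, py, dx, dy]; ring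

theorem F12 (m t : ℝ) : F m .e1 (px m .e2 + t * dx m .e2) (py m .e2 + t * dy m .e2) =
    0 + t * (4*m^6 + 96*m^5 + 964*m^4 + 5182*m^3 + 15720*m^2 + 25504*m + 17280) := by
  simp only [F, px, py, dx, dy]; ring

theorem F02 (m t : ℝ) : F m .e0 (px m .e2 + t * dx m .e2) (py m .e2 + t * dy m .e2) =
    (-2*m^5 - 40*m^4 - 324*m^3 - 1328*m^2 - 2752*m - 2304) + t * (-4*m^6 - 94*m^5 - 928*m^4 - 4923*m^3 - 14792*m^2 - 23856*m - 16128) := by
  simp only [F, px, py, dx, dy]; ring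

theorem F52 (m t : ℝ) : F m .e5 (px m .e2 + t * dx m .e2) (py m .e2 + t * dy m .e2) =
    (-4*m^4 - 66*m^3 - 408*m^2 - 1120*m - 1152) + t * (-4*m^6 - 98*m^5 - 998*m^4 - 5407*m^3 - 16436*m^2 - 26576*m - 17856) := by
  simp only [F, px, py, dx, dy]; ring

theorem F32 (m t : ℝ) : F m .e3 (px m .e2 + t * dx m .e2) (py m .e2 + t * dy m .e2) =
    (-4*m^4 - 66*m^3 - 414*m^2 - 1155*m - 1196) + t * (4*m^4 + 66*m^3 + 414*m^2 + 1155*m + 1196) := by
  simp only [F, px, py, dx, dy]; ring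

theorem F42 (m t : ℝ) : F m .e4 (px m .e2 + t * dx m .e2) (py m .e2 + t * dy m .e2) =
    (-8*m^3 - 100*m^2 - 426*m - 616) + t * (4*m^6 + 96*m^5 + 958*m^4 + 5082*m^3 + 15094*m^2 + 23773*m + 15508) := by
  simp only [F, px, py, dx, dy]; ring

theorem F43 (m t : ℝ) : F m .e4 (px m .e3 + t * dx m .e3) (py m .e3 + t * dy m .e3) =
    (4*m^6 + 96*m^5 + 958*m^4 + 5074*m^3 + 14994*m^2 + 23347*m + 14892) + t * (-4*m^6 - 96*m^5 - 958*m^4 - 5074*m^3 - 14994*m^2 - 23347*m - 14892) := by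
  simp only [F, px, py, dx, dy]; ring

theorem F03 (m t : ℝ) : F m .e0 (px m .e3 + t * dx m .e3) (py m .e3 + t * dy m .e3) =
    (-4*m^6 - 96*m^5 - 968*m^4 - 5247*m^3 - 16120*m^2 - 26608*m - 18432) + t * (4*m^6 + 94*m^5 + 924*m^4 + 4849*m^3 + 14280*m^2 + 22278*m + 14296) := by
  simp only [F, px, py, dx, dy]; ring

theorem F53 (m t : ℝ) : F m .e5 (px m .e3 + t * dx m .e3) (py m .e3 + t * dy m .e3) =
    (-4*m^6 - 98*m^5 - 1002*m^4 - 5473*m^3 - 16844*m^2 - 27696*m - 19008) + t * (4*m^6 + 98*m^5 + 998*m^4 + 5399*m^3 + 16336*m^2 + 26160*m + 17280) := by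
  simp only [F, px, py, dx, dy]; ring

theorem F23 (m t : ℝ) : F m .e2 (px m .e3 + t * dx m .e3) (py m .e3 + t * dy m .e3) =
    0 + t * (-4*m^4 - 66*m^3 - 414*m^2 - 1155*m - 1196) := by
  simp only [F, px, py, dx, dy]; ring

theorem F13 (m t : ℝ) : F m .e1 (px m .e3 + t * dx m .e3) (py m .e3 + t * dy m .e3) =
    (4*m^6 + 96*m^5 + 964*m^4 + 5182*m^3 + 15720*m^2 + 25504*m + 17280) + t * (-4*m^6 - 96*m^5 - 960*m^4 - 5108*m^3 - 15208*m^2 - 23936*m - 15488) := by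
  simp only [F, px, py, dx, dy]; ring

theorem F34 (m t : ℝ) : F m .e3 (px m .e4 + t * dx m .e4) (py m .e4 + t * dy m .e4) =
    0 + t * (4*m^6 + 96*m^5 + 958*m^4 + 5074*m^3 + 14994*m^2 + 23347*m + 14892) := by
  simp only [F, px, py, dx, dy]; ring

theorem F04 (m t : ℝ) : F m .e0 (px m .e4 + t * dx m .e4) (py m .e4 + t * dy m .e4) =
    (-2*m^5 - 44*m^4 - 398*m^3 - 1840*m^2 - 4330*m - 4136) + t * (-4*m^6 - 96*m^5 - 960*m^4 - 5108*m^3 - 15208*m^2 - 23926*m - 15448) := by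
  simp only [F, px, py, dx, dy]; ring

theorem F54 (m t : ℝ) : F m .e5 (px m .e4 + t * dx m .e4) (py m .e4 + t * dy m .e4) =
    (-4*m^4 - 74*m^3 - 508*m^2 - 1536*m - 1728) + t * (4*m^4 + 74*m^3 + 508*m^2 + 1536*m + 1728) := by
  simp only [F, px, py, dx, dy]; ring

theorem F24 (m t : ℝ) : F m .e2 (px m .e4 + t * dx m .e4) (py m .e4 + t * dy m .e4) =
    (-4*m^4 - 66*m^3 - 414*m^2 - 1155*m - 1196) + t * (-4*m^6 - 96*m^5 - 958*m^4 - 5082*m^3 - 15094*m^2 - 23773*m - 15508) := by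
  simp only [F, px, py, dx, dy]; ring

theorem F05 (m t : ℝ) : F m .e0 (px m .e5 + t * dx m .e5) (py m .e5 + t * dy m .e5) =
    (-4*m^6 - 98*m^5 - 1004*m^4 - 5506*m^3 - 17048*m^2 - 28256*m - 19584) + t * (4*m^6 + 98*m^5 + 1004*m^4 + 5506*m^3 + 17048*m^2 + 28256*m + 19584) := by
  simp only [F, px, py, dx, dy]; ring

theorem F45 (m t : ℝ) : F m .e4 (px m .e5 + t * dx m .e5) (py m .e5 + t * dy m .e5) =
    0 + t * (-4*m^4 - 74*m^3 - 508*m^2 - 1536*m - 1728) := by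
  simp only [F, px, py, dx, dy]; ring

theorem F15 (m t : ℝ) : F m .e1 (px m .e5 + t * dx m .e5) (py m .e5 + t * dy m .e5) =
    (4*m^6 + 96*m^5 + 960*m^4 + 5116*m^3 + 15312*m^2 + 24384*m + 16128) + t * (-4*m^6 - 98*m^5 - 1000*m^4 - 5440*m^3 - 16640*m^2 - 27136*m - 18432) := by
  simp only [F, px, py, dx, dy]; ring

theorem F25 (m t : ℝ) : F m .e2 (px m .e5 + t * dx m .e5) (py m .e5 + t * dy m .e5) =
    (-4*m^6 - 96*m^5 - 962*m^4 - 5148*m^3 - 15508*m^2 - 24928*m - 16704) + t * (4*m^6 + 98*m^5 + 998*m^4 + 5407*m^3 + 16436*m^2 + 26576*m + 17856) := by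
  simp only [F, px, py, dx, dy]; ring

theorem F35 (m t : ℝ) : F m .e3 (px m .e5 + t * dx m .e5) (py m .e5 + t * dy m .e5) =
    (4*m^6 + 96*m^5 + 958*m^4 + 5074*m^3 + 14994*m^2 + 23347*m + 14892) + t * (-4*m^6 - 98*m^5 - 998*m^4 - 5399*m^3 - 16336*m^2 - 26160*m - 17280) := by
  simp only [F, px, py, dx, dy]; ring

theorem F00 (m t : ℝ) : F m .e0 (px m .e0 + t * dx m .e0) (py m .e0 + t * dy m .e0) =
    0 + t * 0 := by
  simp only [F, px, py, dx, dy]; ring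

theorem F11 (m t : ℝ) : F m .e1 (px m .e1 + t * dx m .e1) (py m .e1 + t * dy m .e1) =
    0 + t * 0 := by
  simp only [F, px, py, dx, dy]; ring

theorem F22 (m t : ℝ) : F m .e2 (px m .e2 + t * dx m .e2) (py m .e2 + t * dy m .e2) =
    0 + t * 0 := by
  simp only [F, px, py, dx, dy]; ring

theorem F33 (m t : ℝ) : F m .e3 (px m .e3 + t * dx m .e3) (py m .e3 + t * dy m .e3) =
    0 + t * 0 := by
  simp only [F, px, py, dx, dy]; ring

theorem F44 (m t : ℝ) : F m .e4 (px m .e4 + t * dx m .e4) (py m .e4 + t * dy m .e4) =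
    0 + t * 0 := by
  simp only [F, px, py, dx, dy]; ring

theorem F55 (m t : ℝ) : F m .e5 (px m .e5 + t * dx m .e5) (py m .e5 + t * dy m .e5) =
    0 + t * 0 := by
  simp only [F, px, py, dx, dy]; ring

theorem le50 {m t : ℝ} (hm : 0 ≤ m) (h0 : 0 ≤ t) (h1 : t ≤ 1) :
    F m .e5 (px m .e0 + t * dx m .e0) (py m .e0 + t * dy m .e0) ≤ 0 := by
  have h : F m .e5 (px m .e0 + t * dx m .e0) (py m .e0 + t * dy m .e0) =
      -((1 - t) * 0 + t * (4*m^6 + 98*m^5 + 1004*m^4 + 5506*m^3 + 17048*m^2 + 28256*m + 19584)) := by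
    rw [F50]; ring
  have ht : 0 ≤ 1 - t := by linarith
  rw [h, neg_nonpos]; positivity

theorem le10 {m t : ℝ} (hm : 0 ≤ m) (h0 : 0 ≤ t) (h1 : t ≤ 1) :
    F m .e1 (px m .e0 + t * dx m .e0) (py m .e0 + t * dy m .e0) ≤ 0 := by
  have h : F m .e1 (px m .e0 + t * dx m .e0) (py m .e0 + t * dy m .e0) =
      -((1 - t) * (2*m^5 + 40*m^4 + 324*m^3 + 1328*m^2 + 2752*m + 2304) + t * 0) := by
    rw [F10]; ring
  have ht : 0 ≤ 1 - t := by linarith
  rw [h, neg_nonpos]; positivity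

theorem le30 {m t : ℝ} (hm : 0 ≤ m) (h0 : 0 ≤ t) (h1 : t ≤ 1) :
    F m .e3 (px m .e0 + t * dx m .e0) (py m .e0 + t * dy m .e0) ≤ 0 := by
  have h : F m .e3 (px m .e0 + t * dx m .e0) (py m .e0 + t * dy m .e0) =
      -((1 - t) * (2*m^5 + 40*m^4 + 325*m^3 + 1342*m^2 + 2813*m + 2388) + t * (4*m^6 + 96*m^5 + 964*m^4 + 5174*m^3 + 15622*m^2 + 25091*m + 16684)) := by
    rw [F30]; ring
  have ht : 0 ≤ 1 - t := by linarith
  rw [h, neg_nonpos]; positivity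

theorem le01 {m t : ℝ} (hm : 0 ≤ m) (h0 : 0 ≤ t) (h1 : t ≤ 1) :
    F m .e0 (px m .e1 + t * dx m .e1) (py m .e1 + t * dy m .e1) ≤ 0 := by
  have h : F m .e0 (px m .e1 + t * dx m .e1) (py m .e1 + t * dy m .e1) =
      -((1 - t) * 0 + t * (2*m^5 + 40*m^4 + 324*m^3 + 1328*m^2 + 2752*m + 2304)) := by
    rw [F01]; ring
  have ht : 0 ≤ 1 - t := by linarith
  rw [h, neg_nonpos]; positivity

theorem le51 {m t : ℝ} (hm : 0 ≤ m) (h0 : 0 ≤ t) (h1 : t ≤ 1) :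
    F m .e5 (px m .e1 + t * dx m .e1) (py m .e1 + t * dy m .e1) ≤ 0 := by
  have h : F m .e5 (px m .e1 + t * dx m .e1) (py m .e1 + t * dy m .e1) =
      -((1 - t) * (4*m^6 + 98*m^5 + 1004*m^4 + 5506*m^3 + 17048*m^2 + 28256*m + 19584) + t * (4*m^4 + 66*m^3 + 408*m^2 + 1120*m + 1152)) := by
    rw [F51]; ring
  have ht : 0 ≤ 1 - t := by linarith
  rw [h, neg_nonpos]; positivity

theorem le31 {m t : ℝ} (hm : 0 ≤ m) (h0 : 0 ≤ t) (h1 : t ≤ 1) :
    F m .e3 (px m .e1 + t * dx m .e1) (py m .e1 + t * dy m .e1) ≤ 0 := by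
  have h : F m .e3 (px m .e1 + t * dx m .e1) (py m .e1 + t * dy m .e1) =
      -((1 - t) * (4*m^6 + 96*m^5 + 964*m^4 + 5174*m^3 + 15622*m^2 + 25091*m + 16684) + t * (4*m^4 + 66*m^3 + 414*m^2 + 1155*m + 1196)) := by
    rw [F31]; ring
  have ht : 0 ≤ 1 - t := by linarith
  rw [h, neg_nonpos]; positivity

theorem ge21 {m t : ℝ} (hm : 0 ≤ m) (h0 : 0 ≤ t) (h1 : t ≤ 1) :
    0 ≤ F m .e2 (px m .e1 + t * dx m .e1) (py m .e1 + t * dy m .e1) := by
  have h : F m .e2 (px m .e1 + t * dx m .e1) (py m .e1 + t * dy m .e1) =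
      (1 - t) * (4*m^6 + 96*m^5 + 964*m^4 + 5182*m^3 + 15720*m^2 + 25504*m + 17280) + t * 0 := by
    rw [F21]; ring
  have ht : 0 ≤ 1 - t := by linarith
  rw [h]; positivity

theorem le02 {m t : ℝ} (hm : 0 ≤ m) (h0 : 0 ≤ t) (h1 : t ≤ 1) :
    F m .e0 (px m .e2 + t * dx m .e2) (py m .e2 + t * dy m .e2) ≤ 0 := by
  have h : F m .e0 (px m .e2 + t * dx m .e2) (py m .e2 + t * dy m .e2) =
      -((1 - t) * (2*m^5 + 40*m^4 + 324*m^3 + 1328*m^2 + 2752*m + 2304) + t * (4*m^6 + 96*m^5 + 968*m^4 + 5247*m^3 + 16120*m^2 + 26608*m + 18432)) := by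
    rw [F02]; ring
  have ht : 0 ≤ 1 - t := by linarith
  rw [h, neg_nonpos]; positivity

theorem le52 {m t : ℝ} (hm : 0 ≤ m) (h0 : 0 ≤ t) (h1 : t ≤ 1) :
    F m .e5 (px m .e2 + t * dx m .e2) (py m .e2 + t * dy m .e2) ≤ 0 := by
  have h : F m .e5 (px m .e2 + t * dx m .e2) (py m .e2 + t * dy m .e2) =
      -((1 - t) * (4*m^4 + 66*m^3 + 408*m^2 + 1120*m + 1152) + t * (4*m^6 + 98*m^5 + 1002*m^4 + 5473*m^3 + 16844*m^2 + 27696*m + 19008)) := by
    rw [F52]; ring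
  have ht : 0 ≤ 1 - t := by linarith
  rw [h, neg_nonpos]; positivity

theorem le32 {m t : ℝ} (hm : 0 ≤ m) (h0 : 0 ≤ t) (h1 : t ≤ 1) :
    F m .e3 (px m .e2 + t * dx m .e2) (py m .e2 + t * dy m .e2) ≤ 0 := by
  have h : F m .e3 (px m .e2 + t * dx m .e2) (py m .e2 + t * dy m .e2) =
      -((1 - t) * (4*m^4 + 66*m^3 + 414*m^2 + 1155*m + 1196) + t * 0) := by
    rw [F32]; ring
  have ht : 0 ≤ 1 - t := by linarith
  rw [h, neg_nonpos]; positivity

theorem ge12 {m t : ℝ} (hm : 0 ≤ m) (h0 : 0 ≤ t) (h1 : t ≤ 1) :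
    0 ≤ F m .e1 (px m .e2 + t * dx m .e2) (py m .e2 + t * dy m .e2) := by
  have h : F m .e1 (px m .e2 + t * dx m .e2) (py m .e2 + t * dy m .e2) =
      (1 - t) * 0 + t * (4*m^6 + 96*m^5 + 964*m^4 + 5182*m^3 + 15720*m^2 + 25504*m + 17280) := by
    rw [F12]; ring
  have ht : 0 ≤ 1 - t := by linarith
  rw [h]; positivity

theorem le03 {m t : ℝ} (hm : 0 ≤ m) (h0 : 0 ≤ t) (h1 : t ≤ 1) :
    F m .e0 (px m .e3 + t * dx m .e3) (py m .e3 + t * dy m .e3) ≤ 0 := by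
  have h : F m .e0 (px m .e3 + t * dx m .e3) (py m .e3 + t * dy m .e3) =
      -((1 - t) * (4*m^6 + 96*m^5 + 968*m^4 + 5247*m^3 + 16120*m^2 + 26608*m + 18432) + t * (2*m^5 + 44*m^4 + 398*m^3 + 1840*m^2 + 4330*m + 4136)) := by
    rw [F03]; ring
  have ht : 0 ≤ 1 - t := by linarith
  rw [h, neg_nonpos]; positivity

theorem le53 {m t : ℝ} (hm : 0 ≤ m) (h0 : 0 ≤ t) (h1 : t ≤ 1) :
    F m .e5 (px m .e3 + t * dx m .e3) (py m .e3 + t * dy m .e3) ≤ 0 := by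
  have h : F m .e5 (px m .e3 + t * dx m .e3) (py m .e3 + t * dy m .e3) =
      -((1 - t) * (4*m^6 + 98*m^5 + 1002*m^4 + 5473*m^3 + 16844*m^2 + 27696*m + 19008) + t * (4*m^4 + 74*m^3 + 508*m^2 + 1536*m + 1728)) := by
    rw [F53]; ring
  have ht : 0 ≤ 1 - t := by linarith
  rw [h, neg_nonpos]; positivity

theorem le23 {m t : ℝ} (hm : 0 ≤ m) (h0 : 0 ≤ t) (h1 : t ≤ 1) :
    F m .e2 (px m .e3 + t * dx m .e3) (py m .e3 + t * dy m .e3) ≤ 0 := by
  have h : F m .e2 (px m .e3 + t * dx m .e3) (py m .e3 + t * dy m .e3) =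
      -((1 - t) * 0 + t * (4*m^4 + 66*m^3 + 414*m^2 + 1155*m + 1196)) := by
    rw [F23]; ring
  have ht : 0 ≤ 1 - t := by linarith
  rw [h, neg_nonpos]; positivity

theorem ge43 {m t : ℝ} (hm : 0 ≤ m) (h0 : 0 ≤ t) (h1 : t ≤ 1) :
    0 ≤ F m .e4 (px m .e3 + t * dx m .e3) (py m .e3 + t * dy m .e3) := by
  have h : F m .e4 (px m .e3 + t * dx m .e3) (py m .e3 + t * dy m .e3) =
      (1 - t) * (4*m^6 + 96*m^5 + 958*m^4 + 5074*m^3 + 14994*m^2 + 23347*m + 14892) + t * 0 := by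
    rw [F43]; ring
  have ht : 0 ≤ 1 - t := by linarith
  rw [h]; positivity

theorem le04 {m t : ℝ} (hm : 0 ≤ m) (h0 : 0 ≤ t) (h1 : t ≤ 1) :
    F m .e0 (px m .e4 + t * dx m .e4) (py m .e4 + t * dy m .e4) ≤ 0 := by
  have h : F m .e0 (px m .e4 + t * dx m .e4) (py m .e4 + t * dy m .e4) =
      -((1 - t) * (2*m^5 + 44*m^4 + 398*m^3 + 1840*m^2 + 4330*m + 4136) + t * (4*m^6 + 98*m^5 + 1004*m^4 + 5506*m^3 + 17048*m^2 + 28256*m + 19584)) := by
    rw [F04]; ring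
  have ht : 0 ≤ 1 - t := by linarith
  rw [h, neg_nonpos]; positivity

theorem le54 {m t : ℝ} (hm : 0 ≤ m) (h0 : 0 ≤ t) (h1 : t ≤ 1) :
    F m .e5 (px m .e4 + t * dx m .e4) (py m .e4 + t * dy m .e4) ≤ 0 := by
  have h : F m .e5 (px m .e4 + t * dx m .e4) (py m .e4 + t * dy m .e4) =
      -((1 - t) * (4*m^4 + 74*m^3 + 508*m^2 + 1536*m + 1728) + t * 0) := by
    rw [F54]; ring
  have ht : 0 ≤ 1 - t := by linarith
  rw [h, neg_nonpos]; positivity

theorem le24 {m t : ℝ} (hm : 0 ≤ m) (h0 : 0 ≤ t) (h1 : t ≤ 1) :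
    F m .e2 (px m .e4 + t * dx m .e4) (py m .e4 + t * dy m .e4) ≤ 0 := by
  have h : F m .e2 (px m .e4 + t * dx m .e4) (py m .e4 + t * dy m .e4) =
      -((1 - t) * (4*m^4 + 66*m^3 + 414*m^2 + 1155*m + 1196) + t * (4*m^6 + 96*m^5 + 962*m^4 + 5148*m^3 + 15508*m^2 + 24928*m + 16704)) := by
    rw [F24]; ring
  have ht : 0 ≤ 1 - t := by linarith
  rw [h, neg_nonpos]; positivity

theorem ge34 {m t : ℝ} (hm : 0 ≤ m) (h0 : 0 ≤ t) (h1 : t ≤ 1) :
    0 ≤ F m .e3 (px m .e4 + t * dx m .e4) (py m .e4 + t * dy m .e4) := by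
  have h : F m .e3 (px m .e4 + t * dx m .e4) (py m .e4 + t * dy m .e4) =
      (1 - t) * 0 + t * (4*m^6 + 96*m^5 + 958*m^4 + 5074*m^3 + 14994*m^2 + 23347*m + 14892) := by
    rw [F34]; ring
  have ht : 0 ≤ 1 - t := by linarith
  rw [h]; positivity

theorem le05 {m t : ℝ} (hm : 0 ≤ m) (h0 : 0 ≤ t) (h1 : t ≤ 1) :
    F m .e0 (px m .e5 + t * dx m .e5) (py m .e5 + t * dy m .e5) ≤ 0 := by
  have h : F m .e0 (px m .e5 + t * dx m .e5) (py m .e5 + t * dy m .e5) =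
      -((1 - t) * (4*m^6 + 98*m^5 + 1004*m^4 + 5506*m^3 + 17048*m^2 + 28256*m + 19584) + t * 0) := by
    rw [F05]; ring
  have ht : 0 ≤ 1 - t := by linarith
  rw [h, neg_nonpos]; positivity

theorem le45 {m t : ℝ} (hm : 0 ≤ m) (h0 : 0 ≤ t) (h1 : t ≤ 1) :
    F m .e4 (px m .e5 + t * dx m .e5) (py m .e5 + t * dy m .e5) ≤ 0 := by
  have h : F m .e4 (px m .e5 + t * dx m .e5) (py m .e5 + t * dy m .e5) =
      -((1 - t) * 0 + t * (4*m^4 + 74*m^3 + 508*m^2 + 1536*m + 1728)) := by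
    rw [F45]; ring
  have ht : 0 ≤ 1 - t := by linarith
  rw [h, neg_nonpos]; positivity

theorem or5 {m t : ℝ} (hm : 0 ≤ m) :
    F m .e1 (px m .e5 + t * dx m .e5) (py m .e5 + t * dy m .e5) ≤ 0 ∨
    F m .e2 (px m .e5 + t * dx m .e5) (py m .e5 + t * dy m .e5) ≤ 0 := by
  by_contra hcon
  rw [not_or, not_le, not_le] at hcon
  obtain ⟨h1, h2⟩ := hcon
  have k1 : 0 < (4*m^6 + 98*m^5 + 998*m^4 + 5407*m^3 + 16436*m^2 + 26576*m + 17856) * F m .e1 (px m .e5 + t * dx m .e5) (py m .e5 + t * dy m .e5) := mul_pos (by positivity) h1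
  have k2 : 0 < (4*m^6 + 98*m^5 + 1000*m^4 + 5440*m^3 + 16640*m^2 + 27136*m + 18432) * F m .e2 (px m .e5 + t * dx m .e5) (py m .e5 + t * dy m .e5) := mul_pos (by positivity) h2
  rw [F15] at k1
  rw [F25] at k2
  have k3 : 0 < (16*m^10 + 648*m^9 + 11824*m^8 + 128000*m^7 + 910332*m^6 + 4444064*m^5 + 15080512*m^4 + 35122176*m^3 + 53724160*m^2 + 48734208*m + 19906560) := by positivity
  linarith

theorem blt50 {m t : ℝ} (hm : 0 ≤ m) (ht : t < 0) :
    0 < F m .e5 (px m .e0 + t * dx m .e0) (py m .e0 + t * dy m .e0) := by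
  have h : F m .e5 (px m .e0 + t * dx m .e0) (py m .e0 + t * dy m .e0) =
      (0 + (-t) * (4*m^6 + 98*m^5 + 1004*m^4 + 5506*m^3 + 17048*m^2 + 28256*m + 19584)) := by
    rw [F50]; ring
  have hs : 0 < -t := by linarith
  rw [h]; positivity

theorem bgt10 {m t : ℝ} (hm : 0 ≤ m) (ht : 1 < t) :
    0 < F m .e1 (px m .e0 + t * dx m .e0) (py m .e0 + t * dy m .e0) := by
  have h : F m .e1 (px m .e0 + t * dx m .e0) (py m .e0 + t * dy m .e0) =
      (0 + ((t - 1)) * (2*m^5 + 40*m^4 + 324*m^3 + 1328*m^2 + 2752*m + 2304)) := by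
    rw [F10]; ring
  have hs : 0 < t - 1 := by linarith
  rw [h]; positivity

theorem bgt20 {m t : ℝ} (hm : 0 ≤ m) (ht : 1 < t) :
    0 < F m .e2 (px m .e0 + t * dx m .e0) (py m .e0 + t * dy m .e0) := by
  have h : F m .e2 (px m .e0 + t * dx m .e0) (py m .e0 + t * dy m .e0) =
      ((4*m^6 + 96*m^5 + 964*m^4 + 5182*m^3 + 15720*m^2 + 25504*m + 17280) + ((t - 1)) * (4*m^6 + 94*m^5 + 928*m^4 + 4923*m^3 + 14792*m^2 + 23856*m + 16128)) := by
    rw [F20]; ring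
  have hs : 0 < t - 1 := by linarith
  rw [h]; positivity

theorem bgt05 {m t : ℝ} (hm : 0 ≤ m) (ht : 1 < t) :
    0 < F m .e0 (px m .e5 + t * dx m .e5) (py m .e5 + t * dy m .e5) := by
  have h : F m .e0 (px m .e5 + t * dx m .e5) (py m .e5 + t * dy m .e5) =
      (0 + ((t - 1)) * (4*m^6 + 98*m^5 + 1004*m^4 + 5506*m^3 + 17048*m^2 + 28256*m + 19584)) := by
    rw [F05]; ring
  have hs : 0 < t - 1 := by linarith
  rw [h]; positivity

theorem blt35 {m t : ℝ} (hm : 0 ≤ m) (ht : t < 0) :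
    0 < F m .e3 (px m .e5 + t * dx m .e5) (py m .e5 + t * dy m .e5) := by
  have h : F m .e3 (px m .e5 + t * dx m .e5) (py m .e5 + t * dy m .e5) =
      ((4*m^6 + 96*m^5 + 958*m^4 + 5074*m^3 + 14994*m^2 + 23347*m + 14892) + (-t) * (4*m^6 + 98*m^5 + 998*m^4 + 5399*m^3 + 16336*m^2 + 26160*m + 17280)) := by
    rw [F35]; ring
  have hs : 0 < -t := by linarith
  rw [h]; positivity

theorem blt45 {m t : ℝ} (hm : 0 ≤ m) (ht : t < 0) :
    0 < F m .e4 (px m .e5 + t * dx m .e5) (py m .e5 + t * dy m .e5) := by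
  have h : F m .e4 (px m .e5 + t * dx m .e5) (py m .e5 + t * dy m .e5) =
      (0 + (-t) * (4*m^4 + 74*m^3 + 508*m^2 + 1536*m + 1728)) := by
    rw [F45]; ring
  have hs : 0 < -t := by linarith
  rw [h]; positivity

theorem blt01 {m t : ℝ} (hm : 0 ≤ m) (ht : t < 0) :
    0 < F m .e0 (px m .e1 + t * dx m .e1) (py m .e1 + t * dy m .e1) := by
  have h : F m .e0 (px m .e1 + t * dx m .e1) (py m .e1 + t * dy m .e1) =
      (0 + (-t) * (2*m^5 + 40*m^4 + 324*m^3 + 1328*m^2 + 2752*m + 2304)) := by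
    rw [F01]; ring
  have hs : 0 < -t := by linarith
  rw [h]; positivity

theorem bgt21 {m t : ℝ} (hm : 0 ≤ m) (ht : 1 < t) :
    F m .e2 (px m .e1 + t * dx m .e1) (py m .e1 + t * dy m .e1) < 0 := by
  have h : F m .e2 (px m .e1 + t * dx m .e1) (py m .e1 + t * dy m .e1) =
      -(0 + ((t - 1)) * (4*m^6 + 96*m^5 + 964*m^4 + 5182*m^3 + 15720*m^2 + 25504*m + 17280)) := by
    rw [F21]; ring
  have hs : 0 < t - 1 := by linarith
  rw [h, neg_lt_zero]; positivity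

theorem blt12 {m t : ℝ} (hm : 0 ≤ m) (ht : t < 0) :
    F m .e1 (px m .e2 + t * dx m .e2) (py m .e2 + t * dy m .e2) < 0 := by
  have h : F m .e1 (px m .e2 + t * dx m .e2) (py m .e2 + t * dy m .e2) =
      -(0 + (-t) * (4*m^6 + 96*m^5 + 964*m^4 + 5182*m^3 + 15720*m^2 + 25504*m + 17280)) := by
    rw [F12]; ring
  have hs : 0 < -t := by linarith
  rw [h, neg_lt_zero]; positivity

theorem bgt32 {m t : ℝ} (hm : 0 ≤ m) (ht : 1 < t) :
    0 < F m .e3 (px m .e2 + t * dx m .e2) (py m .e2 + t * dy m .e2) := by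
  have h : F m .e3 (px m .e2 + t * dx m .e2) (py m .e2 + t * dy m .e2) =
      (0 + ((t - 1)) * (4*m^4 + 66*m^3 + 414*m^2 + 1155*m + 1196)) := by
    rw [F32]; ring
  have hs : 0 < t - 1 := by linarith
  rw [h]; positivity

theorem bgt42 {m t : ℝ} (hm : 0 ≤ m) (ht : 1 < t) :
    0 < F m .e4 (px m .e2 + t * dx m .e2) (py m .e2 + t * dy m .e2) := by
  have h : F m .e4 (px m .e2 + t * dx m .e2) (py m .e2 + t * dy m .e2) =
      ((4*m^6 + 96*m^5 + 958*m^4 + 5074*m^3 + 14994*m^2 + 23347*m + 14892) + ((t - 1)) * (4*m^6 + 96*m^5 + 958*m^4 + 5082*m^3 + 15094*m^2 + 23773*m + 15508)) := by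
    rw [F42]; ring
  have hs : 0 < t - 1 := by linarith
  rw [h]; positivity

theorem blt13 {m t : ℝ} (hm : 0 ≤ m) (ht : t < 0) :
    0 < F m .e1 (px m .e3 + t * dx m .e3) (py m .e3 + t * dy m .e3) := by
  have h : F m .e1 (px m .e3 + t * dx m .e3) (py m .e3 + t * dy m .e3) =
      ((4*m^6 + 96*m^5 + 964*m^4 + 5182*m^3 + 15720*m^2 + 25504*m + 17280) + (-t) * (4*m^6 + 96*m^5 + 960*m^4 + 5108*m^3 + 15208*m^2 + 23936*m + 15488)) := by
    rw [F13]; ring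
  have hs : 0 < -t := by linarith
  rw [h]; positivity

theorem blt23 {m t : ℝ} (hm : 0 ≤ m) (ht : t < 0) :
    0 < F m .e2 (px m .e3 + t * dx m .e3) (py m .e3 + t * dy m .e3) := by
  have h : F m .e2 (px m .e3 + t * dx m .e3) (py m .e3 + t * dy m .e3) =
      (0 + (-t) * (4*m^4 + 66*m^3 + 414*m^2 + 1155*m + 1196)) := by
    rw [F23]; ring
  have hs : 0 < -t := by linarith
  rw [h]; positivity

theorem bgt43 {m t : ℝ} (hm : 0 ≤ m) (ht : 1 < t) :
    F m .e4 (px m .e3 + t * dx m .e3) (py m .e3 + t * dy m .e3) < 0 := by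
  have h : F m .e4 (px m .e3 + t * dx m .e3) (py m .e3 + t * dy m .e3) =
      -(0 + ((t - 1)) * (4*m^6 + 96*m^5 + 958*m^4 + 5074*m^3 + 14994*m^2 + 23347*m + 14892)) := by
    rw [F43]; ring
  have hs : 0 < t - 1 := by linarith
  rw [h, neg_lt_zero]; positivity

theorem blt34 {m t : ℝ} (hm : 0 ≤ m) (ht : t < 0) :
    F m .e3 (px m .e4 + t * dx m .e4) (py m .e4 + t * dy m .e4) < 0 := by
  have h : F m .e3 (px m .e4 + t * dx m .e4) (py m .e4 + t * dy m .e4) =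
      -(0 + (-t) * (4*m^6 + 96*m^5 + 958*m^4 + 5074*m^3 + 14994*m^2 + 23347*m + 14892)) := by
    rw [F34]; ring
  have hs : 0 < -t := by linarith
  rw [h, neg_lt_zero]; positivity

theorem bgt54 {m t : ℝ} (hm : 0 ≤ m) (ht : 1 < t) :
    0 < F m .e5 (px m .e4 + t * dx m .e4) (py m .e4 + t * dy m .e4) := by
  have h : F m .e5 (px m .e4 + t * dx m .e4) (py m .e4 + t * dy m .e4) =
      (0 + ((t - 1)) * (4*m^4 + 74*m^3 + 508*m^2 + 1536*m + 1728)) := by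
    rw [F54]; ring
  have hs : 0 < t - 1 := by linarith
  rw [h]; positivity

/-- a point on the line through edge `i` -/
theorem onLine {m : ℝ} {i : Ed} {x y : ℝ} (hd : dx m i ^ 2 + dy m i ^ 2 ≠ 0) (h : F m i x y = 0) :
    ∃ t : ℝ, x = px m i + t * dx m i ∧ y = py m i + t * dy m i := by
  unfold F at h
  refine ⟨((x - px m i) * dx m i + (y - py m i) * dy m i) / (dx m i ^ 2 + dy m i ^ 2), ?_, ?_⟩
  · have : ((x - px m i) * dx m i + (y - py m i) * dy m i) * dx m i =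
        (x - px m i) * (dx m i ^ 2 + dy m i ^ 2) := by linear_combination (dy m i) * h
    rw [div_mul_eq_mul_div, this, mul_div_assoc, div_self hd]; ring
  · have : ((x - px m i) * dx m i + (y - py m i) * dy m i) * dy m i =
        (y - py m i) * (dx m i ^ 2 + dy m i ^ 2) := by linear_combination -(dx m i) * h
    rw [div_mul_eq_mul_div, this, mul_div_assoc, div_self hd]; ring

theorem dd_ne {m : ℝ} (hm : 0 ≤ m) (i : Ed) : dx m i ^ 2 + dy m i ^ 2 ≠ 0 := by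
  apply ne_of_gt
  cases i
  · have h : dx m .e0 ^ 2 + dy m .e0 ^ 2 = (m^2 + 8*m + 16)^2 + (2*m^3 + 24*m^2 + 98*m + 136)^2 := by
      simp only [dx, dy] <;> ring
    rw [h]; positivity
  · have h : dx m .e1 ^ 2 + dy m .e1 ^ 2 = (2*m^2 + 16*m + 32)^2 + (-2*m^3 - 24*m^2 - 96*m - 128)^2 := by
      simp only [dx, dy] <;> ring
    rw [h]; positivity
  · have h : dx m .e2 ^ 2 + dy m .e2 ^ 2 = (2*m^3 + 22*m^2 + 82*m + 104)^2 + (2*m^3 + 24*m^2 + 95*m + 124)^2 := by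
      simp only [dx, dy] <;> ring
    rw [h]; positivity
  · have h : dx m .e3 ^ 2 + dy m .e3 ^ 2 = (2*m^3 + 22*m^2 + 80*m + 91)^2 + (-2*m^3 - 24*m^2 - 95*m - 120)^2 := by
      simp only [dx, dy] <;> ring
    rw [h]; positivity
  · have h : dx m .e4 ^ 2 + dy m .e4 ^ 2 = (2*m^3 + 24*m^2 + 94*m + 115)^2 + (-2*m - 12)^2 := by
      simp only [dx, dy] <;> ring
    rw [h]; positivity
  · have h : dx m .e5 ^ 2 + dy m .e5 ^ 2 = (2*m^3 + 25*m^2 + 104*m + 144)^2 + (0)^2 := by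
      simp only [dx, dy] <;> ring
    rw [h]; positivity

/-- the hexagon, shifted so that `(0, m + 4)` becomes the origin, is the level set `{gg = 1}` -/
theorem gg_eq_one {m : ℝ} (hm : 0 ≤ m) (z : ℂ) : gg m z = 1 ↔
    ∃ i : Ed, ∃ t : ℝ, 0 ≤ t ∧ t ≤ 1 ∧ z.re = px m i + t * dx m i ∧
      z.im + (m + 4) = py m i + t * dy m i := by
  constructor
  · intro h
    have hle := (gg_le hm z).mp h.le
    have hlt : ¬ gg m z < 1 := not_lt.mpr h.ge
    rw [gg_lt hm] at hlt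
    generalize z.re = x at *
    generalize z.im + (m + 4) = y at *
    obtain ⟨⟨h0, h5⟩, h12, h34⟩ := hle
    have hcases : F m .e0 x y = 0 ∨ F m .e5 x y = 0 ∨ (F m .e1 x y = 0 ∧ 0 ≤ F m .e2 x y) ∨
        (F m .e2 x y = 0 ∧ 0 ≤ F m .e1 x y) ∨ (F m .e3 x y = 0 ∧ 0 ≤ F m .e4 x y) ∨
        (F m .e4 x y = 0 ∧ 0 ≤ F m .e3 x y) := by
      by_contra hc
      simp only [not_or, not_and, not_le] at hc
      obtain ⟨c0, c5, c1, c2, c3, c4⟩ := hc
      refine hlt ⟨⟨lt_of_le_of_ne h0 c0, lt_of_le_of_ne h5 c5⟩, ?_, ?_⟩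
      · rcases h12 with h | h
        · rcases h.lt_or_eq with h' | h'
          · exact Or.inl h'
          · exact Or.inr (c1 h')
        · rcases h.lt_or_eq with h' | h'
          · exact Or.inr h'
          · exact Or.inl (c2 h')
      · rcases h34 with h | h
        · rcases h.lt_or_eq with h' | h'
          · exact Or.inl h'
          · exact Or.inr (c3 h')
        · rcases h.lt_or_eq with h' | h'
          · exact Or.inr h'
          · exact Or.inl (c4 h')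
    rcases hcases with e | e | ⟨e, e'⟩ | ⟨e, e'⟩ | ⟨e, e'⟩ | ⟨e, e'⟩
    · obtain ⟨t, rfl, rfl⟩ := onLine (dd_ne hm _) e
      refine ⟨.e0, t, ?_, ?_, rfl, rfl⟩
      · by_contra hc
        exact absurd h5 (not_le.mpr (blt50 hm (not_le.mp hc)))
      · by_contra hc
        rcases h12 with h | h
        · exact absurd h (not_le.mpr (bgt10 hm (not_le.mp hc)))
        · exact absurd h (not_le.mpr (bgt20 hm (not_le.mp hc)))
    · obtain ⟨t, rfl, rfl⟩ := onLine (dd_ne hm _) e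
      refine ⟨.e5, t, ?_, ?_, rfl, rfl⟩
      · by_contra hc
        rcases h34 with h | h
        · exact absurd h (not_le.mpr (blt35 hm (not_le.mp hc)))
        · exact absurd h (not_le.mpr (blt45 hm (not_le.mp hc)))
      · by_contra hc
        exact absurd h0 (not_le.mpr (bgt05 hm (not_le.mp hc)))
    · obtain ⟨t, rfl, rfl⟩ := onLine (dd_ne hm _) e
      refine ⟨.e1, t, ?_, ?_, rfl, rfl⟩
      · by_contra hc
        exact absurd h0 (not_le.mpr (blt01 hm (not_le.mp hc)))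
      · by_contra hc
        exact absurd e' (not_le.mpr (bgt21 hm (not_le.mp hc)))
    · obtain ⟨t, rfl, rfl⟩ := onLine (dd_ne hm _) e
      refine ⟨.e2, t, ?_, ?_, rfl, rfl⟩
      · by_contra hc
        exact absurd e' (not_le.mpr (blt12 hm (not_le.mp hc)))
      · by_contra hc
        rcases h34 with h | h
        · exact absurd h (not_le.mpr (bgt32 hm (not_le.mp hc)))
        · exact absurd h (not_le.mpr (bgt42 hm (not_le.mp hc)))
    · obtain ⟨t, rfl, rfl⟩ := onLine (dd_ne hm _) e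
      refine ⟨.e3, t, ?_, ?_, rfl, rfl⟩
      · by_contra hc
        rcases h12 with h | h
        · exact absurd h (not_le.mpr (blt13 hm (not_le.mp hc)))
        · exact absurd h (not_le.mpr (blt23 hm (not_le.mp hc)))
      · by_contra hc
        exact absurd e' (not_le.mpr (bgt43 hm (not_le.mp hc)))
    · obtain ⟨t, rfl, rfl⟩ := onLine (dd_ne hm _) e
      refine ⟨.e4, t, ?_, ?_, rfl, rfl⟩
      · by_contra hc
        exact absurd e' (not_le.mpr (blt34 hm (not_le.mp hc)))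
      · by_contra hc
        exact absurd h5 (not_le.mpr (bgt54 hm (not_le.mp hc)))
  · rintro ⟨i, t, h0, h1, hx, hy⟩
    refine le_antisymm ((gg_le hm z).mpr ?_) (not_lt.mp fun hlt => ?_)
    · rw [hx, hy]
      cases i
      · exact ⟨⟨(by rw [F00]; simp), le50 hm h0 h1⟩, Or.inl (le10 hm h0 h1), Or.inl (le30 hm h0 h1)⟩
      · exact ⟨⟨le01 hm h0 h1, le51 hm h0 h1⟩, Or.inl (by rw [F11]; simp), Or.inl (le31 hm h0 h1)⟩
      · exact ⟨⟨le02 hm h0 h1, le52 hm h0 h1⟩, Or.inr (by rw [F22]; simp), Or.inl (le32 hm h0 h1)⟩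
      · exact ⟨⟨le03 hm h0 h1, le53 hm h0 h1⟩, Or.inr (le23 hm h0 h1), Or.inl (by rw [F33]; simp)⟩
      · exact ⟨⟨le04 hm h0 h1, le54 hm h0 h1⟩, Or.inr (le24 hm h0 h1), Or.inr (by rw [F44]; simp)⟩
      · exact ⟨⟨le05 hm h0 h1, (by rw [F55]; simp)⟩, or5 hm, Or.inr (le45 hm h0 h1)⟩
    · rw [gg_lt hm, hx, hy] at hlt
      obtain ⟨⟨k0, k5⟩, k12, k34⟩ := hlt
      cases i
      · rw [F00] at k0; simp at k0
      · rcases k12 with k | k
        · rw [F11] at k; simp at k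
        · exact absurd k (not_lt.mpr (ge21 hm h0 h1))
      · rcases k12 with k | k
        · exact absurd k (not_lt.mpr (ge12 hm h0 h1))
        · rw [F22] at k; simp at k
      · rcases k34 with k | k
        · rw [F33] at k; simp at k
        · exact absurd k (not_lt.mpr (ge43 hm h0 h1))
      · rcases k34 with k | k
        · exact absurd k (not_lt.mpr (ge34 hm h0 h1))
        · rw [F44] at k; simp at k
      · rw [F55] at k5; simp at k5

end Hex
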