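import Pool.Agent.helper91.HX.All
import Pool.Agent.helper91.HX.Gauge

/-!
# Hexagons around the unit disc all of whose inscribed squares are small
-/

namespace Hex

open Set Metric Complex

theorem small_square {m : ℝ} (hm : 0 ≤ m) {z v : ℂ} (h0 : gg m (z + v) = 1)
    (h1 : gg m (z + I * v) = 1) (h2 : gg m (z - v) = 1) (h3 : gg m (z - I * v) = 1) :
    ‖v‖ ≤ 5 * (m + 4) := by
  obtain ⟨i, t0, a0, b0, x0, y0⟩ := (gg_eq_one hm _).mp h0
  obtain ⟨j, t1, a1, b1, x1, y1⟩ := (gg_eq_one hm _).mp h1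
  obtain ⟨k, t2, a2, b2, x2, y2⟩ := (gg_eq_one hm _).mp h2
  obtain ⟨l, t3, a3, b3, x3, y3⟩ := (gg_eq_one hm _).mp h3
  simp only [add_re, add_im, sub_re, sub_im, mul_re, mul_im, I_re, I_im, zero_mul, one_mul,
    zero_sub, zero_add] at x0 x1 x2 x3 y0 y1 y2 y3
  have H := allQ hm i j k l t0 t1 t2 t3 a0 b0 a1 b1 a2 b2 a3 b3
    (by rw [← x0, ← x1, ← x2, ← x3]; ring) (by rw [← y0, ← y1, ← y2, ← y3]; ring)
    (by rw [← x0, ← x3, ← y0, ← y1]; ring) (by rw [← x0, ← x1, ← y0, ← y3]; ring)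
  rw [← x0, ← x1, ← y0, ← y1] at H
  obtain ⟨Hx, Hy⟩ := H
  rw [abs_le] at Hx Hy
  have hB : 0 ≤ 5 * (m + 4) := by linarith
  have hsq : ‖v‖ ^ 2 ≤ (5 * (m + 4)) ^ 2 := by
    rw [← Complex.normSq_eq_norm_sq, Complex.normSq_apply]
    have e1 : (-v.im - v.re) ^ 2 ≤ (5 * (m + 4)) ^ 2 := by
      apply sq_le_sq' <;> linarith [Hx.1, Hx.2]
    have e2 : (v.re - v.im) ^ 2 ≤ (5 * (m + 4)) ^ 2 := by
      apply sq_le_sq' <;> linarith [Hy.1, Hy.2]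
    nlinarith
  exact (sq_le_sq₀ (norm_nonneg _) hB).mp hsq

theorem disc_lt {m : ℝ} (hm : 0 ≤ m) {z : ℂ}
    (hz : z ∈ closedBall (⟨-(m + 4) ^ 2 / 2, (m + 4) ^ 2 / 2 - (m + 4)⟩ : ℂ) ((m + 4) ^ 2 / 4)) :
    gg m z < 1 := by
  have hre := (abs_re_le_norm (z - ⟨-(m + 4) ^ 2 / 2, (m + 4) ^ 2 / 2 - (m + 4)⟩)).trans
    (mem_closedBall_iff_norm.mp hz)
  have him := (abs_im_le_norm (z - ⟨-(m + 4) ^ 2 / 2, (m + 4) ^ 2 / 2 - (m + 4)⟩)).trans
    (mem_closedBall_iff_norm.mp hz)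
  simp only [sub_re, sub_im] at hre him
  rw [abs_le] at hre him
  rw [gg_lt hm]
  obtain ⟨r1, r2⟩ := hre
  obtain ⟨i1, i2⟩ := him
  generalize z.re = x at *
  have hy1 : (m + 4) ^ 2 / 4 ≤ z.im + (m + 4) := by linarith
  have hy2 : z.im + (m + 4) ≤ 3 * (m + 4) ^ 2 / 4 := by linarith
  generalize z.im + (m + 4) = y at *
  have hx1 : -(3 * (m + 4) ^ 2 / 4) ≤ x := by linarith
  have hx2 : x ≤ -((m + 4) ^ 2 / 4) := by linarith
  refine ⟨⟨?_, ?_⟩, Or.inl ?_, Or.inl ?_⟩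
  · have h : F m .e0 x y = -(608 + 728*m + 350*m^2 + 169/2*m^3 + 41/4*m^4 + 1/2*m^5) + dx m .e0 * (y - (1/4 * (m + 4)^2)) - dy m .e0 * (x - (-3/4 * (m + 4)^2)) := by
      simp only [F, px, py, dx, dy]; ring
    have hv : 0 < 608 + 728*m + 350*m^2 + 169/2*m^3 + 41/4*m^4 + 1/2*m^5 := by positivity
    have k1 : 0 ≤ (m^2 + 8*m + 16) * (y - (1/4 * (m + 4)^2)) := mul_nonneg (by positivity) (by linarith)
    have k2 : 0 ≤ (2*m^3 + 24*m^2 + 98*m + 136) * (x - (-3/4 * (m + 4)^2)) := mul_nonneg (by positivity) (by linarith)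
    rw [h]
    simp only [dx, dy]
    linarith
  · have h : F m .e5 x y = -(576 + 704*m + 344*m^2 + 84*m^3 + 41/4*m^4 + 1/2*m^5) + dx m .e5 * (y - (1/4 * (m + 4)^2)) - dy m .e5 * (x - (-3/4 * (m + 4)^2)) := by
      simp only [F, px, py, dx, dy]; ring
    have hv : 0 < 576 + 704*m + 344*m^2 + 84*m^3 + 41/4*m^4 + 1/2*m^5 := by positivity
    have k1 : 0 ≤ (2*m^3 + 25*m^2 + 104*m + 144) * (y - (1/4 * (m + 4)^2)) := mul_nonneg (by positivity) (by linarith)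
    rw [h]
    simp only [dx, dy]
    linarith
  · have h : F m .e1 x y = -(384 + 448*m + 224*m^2 + 60*m^3 + 17/2*m^4 + 1/2*m^5) + dx m .e1 * (y - (3/4 * (m + 4)^2)) - dy m .e1 * (x - (-1/4 * (m + 4)^2)) := by
      simp only [F, px, py, dx, dy]; ring
    have hv : 0 < 384 + 448*m + 224*m^2 + 60*m^3 + 17/2*m^4 + 1/2*m^5 := by positivity
    have k1 : 0 ≤ (2*m^2 + 16*m + 32) * ((3/4 * (m + 4)^2) - y) := mul_nonneg (by positivity) (by linarith)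
    have k2 : 0 ≤ (2*m^3 + 24*m^2 + 96*m + 128) * ((-1/4 * (m + 4)^2) - x) := mul_nonneg (by positivity) (by linarith)
    rw [h]
    simp only [dx, dy]
    linarith
  · have h : F m .e3 x y = -(1312 + 1455*m + 2659/4*m^2 + 631/4*m^3 + 39/2*m^4 + 1*m^5) + dx m .e3 * (y - (1/4 * (m + 4)^2)) - dy m .e3 * (x - (-1/4 * (m + 4)^2)) := by
      simp only [F, px, py, dx, dy]; ring
    have hv : 0 < 1312 + 1455*m + 2659/4*m^2 + 631/4*m^3 + 39/2*m^4 + 1*m^5 := by positivity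
    have k1 : 0 ≤ (2*m^3 + 22*m^2 + 80*m + 91) * (y - (1/4 * (m + 4)^2)) := mul_nonneg (by positivity) (by linarith)
    have k2 : 0 ≤ (2*m^3 + 24*m^2 + 95*m + 120) * ((-1/4 * (m + 4)^2) - x) := mul_nonneg (by positivity) (by linarith)
    rw [h]
    simp only [dx, dy]
    linarith

/-- rescaling a star gauge -/
theorem StarGauge.scale {g : ℂ → ℝ} (h : StarGauge g) {κ : ℝ} (hκ : 0 < κ) :
    StarGauge fun z => g z / κ := by
  refine ⟨h.cont.div_const κ, fun r z hr => ?_, fun z hz => div_pos (h.pos z hz) hκ⟩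
  simp only [h.hom r z hr]
  ring

theorem gg_scale {m κ : ℝ} (hm : 0 ≤ m) (hκ : 0 < κ) (z : ℂ) :
    gg m z / κ = gg m (((κ⁻¹ : ℝ) : ℂ) * z) := by
  rw [(gg_star hm).hom _ _ (inv_nonneg.mpr hκ.le)]
  field_simp

/-- the edges in cyclic order -/
def ed : Fin 6 → Ed := ![.e0, .e1, .e2, .e3, .e4, .e5]

/-- the vertices of the rescaled hexagon -/
noncomputable def vert (m κ : ℝ) (i : Fin 6) : ℂ :=
  (κ : ℂ) * ⟨px m (ed i), py m (ed i) - (m + 4)⟩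

theorem next_px (m : ℝ) (i : Fin 6) : px m (ed (i + 1)) = px m (ed i) + dx m (ed i) := by
  fin_cases i <;> simp [ed, px, dx] <;> ring

theorem next_py (m : ℝ) (i : Fin 6) : py m (ed (i + 1)) = py m (ed i) + dy m (ed i) := by
  fin_cases i <;> simp [ed, py, dy] <;> ring

theorem ed_surj (e : Ed) : ∃ i : Fin 6, ed i = e := by
  cases e
  · exact ⟨0, rfl⟩
  · exact ⟨1, rfl⟩
  · exact ⟨2, rfl⟩
  · exact ⟨3, rfl⟩
  · exact ⟨4, rfl⟩
  · exact ⟨5, rfl⟩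

theorem level_eq {m κ : ℝ} (hm : 0 ≤ m) (hκ : 0 < κ) :
    {z | gg m z / κ = 1} = ⋃ i : Fin 6, segment ℝ (vert m κ i) (vert m κ (i + 1)) := by
  have hκ' : (κ : ℂ) ≠ 0 := by exact_mod_cast hκ.ne'
  ext z
  simp only [mem_ofPred_eq, mem_iUnion, segment_eq_image', mem_image, mem_Icc]
  rw [gg_scale hm hκ, gg_eq_one hm]
  have key : ∀ (i : Fin 6) (t : ℝ), vert m κ i + t • (vert m κ (i + 1) - vert m κ i) =
      (κ : ℂ) * ⟨px m (ed i) + t * dx m (ed i), py m (ed i) + t * dy m (ed i) - (m + 4)⟩ := by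
    intro i t
    apply Complex.ext
    · simp only [vert, next_px, next_py, add_re, mul_re, sub_re, ofReal_re, ofReal_im, smul_re,
        smul_eq_mul, zero_mul, sub_zero, mul_im, add_zero]
      ring
    · simp only [vert, next_px, next_py, add_im, mul_re, sub_im, ofReal_re, ofReal_im, smul_im,
        smul_eq_mul, zero_mul, sub_zero, mul_im, add_zero]
      ring
  constructor
  · rintro ⟨e, t, h0, h1, hx, hy⟩
    obtain ⟨i, rfl⟩ := ed_surj e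
    refine ⟨i, t, ⟨h0, h1⟩, ?_⟩
    rw [key]
    have : (⟨px m (ed i) + t * dx m (ed i), py m (ed i) + t * dy m (ed i) - (m + 4)⟩ : ℂ) =
        ((κ⁻¹ : ℝ) : ℂ) * z := by
      apply Complex.ext
      · exact hx.symm
      · show py m (ed i) + t * dy m (ed i) - (m + 4) = _
        linarith
    rw [this, ← mul_assoc]
    push_cast
    rw [mul_inv_cancel₀ hκ', one_mul]
  · rintro ⟨i, t, ⟨h0, h1⟩, hz⟩
    rw [key] at hz
    have : ((κ⁻¹ : ℝ) : ℂ) * z =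
        ⟨px m (ed i) + t * dx m (ed i), py m (ed i) + t * dy m (ed i) - (m + 4)⟩ := by
      rw [← hz, ← mul_assoc]
      push_cast
      rw [inv_mul_cancel₀ hκ', one_mul]
    refine ⟨ed i, t, h0, h1, ?_, ?_⟩
    · rw [this]
    · rw [this]
      show py m (ed i) + t * dy m (ed i) - (m + 4) + (m + 4) = _
      ring

theorem main {ε : ℝ} (hε : 0 < ε) : ∃ P : Fin 6 → ℂ, ∃ K : Set ℂ,
    K = (⋃ i : Fin 6, segment ℝ (P i) (P (i + 1))) ∧
    (∃ γ : Circle → ℂ, Continuous γ ∧ Function.Injective γ ∧ Set.range γ = K) ∧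
    IsCompact K ∧ IsConnected K ∧ ¬ IsConnected Kᶜ ∧
    (∃ c : ℂ, Metric.closedBall c 1 ⊆ connectedComponentIn Kᶜ c ∧
      Bornology.IsBounded (connectedComponentIn Kᶜ c)) ∧
    ∀ z v : ℂ, z + v ∈ K → z + Complex.I * v ∈ K → z - v ∈ K → z - Complex.I * v ∈ K →
      ‖v‖ < ε := by
  set m : ℝ := 20 / ε with hmdef
  have hm : 0 ≤ m := by positivity
  have hn : 0 < m + 4 := by linarith
  set κ : ℝ := 4 / (m + 4) ^ 2 with hκdef
  have hκ : 0 < κ := by positivity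
  have hκn : κ * ((m + 4) ^ 2 / 4) = 1 := by
    rw [hκdef]; field_simp
  have hS := (gg_star hm).scale hκ
  have hdisc : ∀ z ∈ closedBall ((κ : ℂ) *
      (⟨-(m + 4) ^ 2 / 2, (m + 4) ^ 2 / 2 - (m + 4)⟩ : ℂ)) 1, gg m z / κ < 1 := by
    intro z hz
    rw [gg_scale hm hκ]
    apply disc_lt hm
    rw [mem_closedBall_iff_norm] at hz ⊢
    have hκ' : (κ : ℂ) ≠ 0 := by exact_mod_cast hκ.ne'
    have e : ((κ⁻¹ : ℝ) : ℂ) * z - (⟨-(m + 4) ^ 2 / 2, (m + 4) ^ 2 / 2 - (m + 4)⟩ : ℂ) =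
        ((κ⁻¹ : ℝ) : ℂ) * (z - (κ : ℂ) *
          (⟨-(m + 4) ^ 2 / 2, (m + 4) ^ 2 / 2 - (m + 4)⟩ : ℂ)) := by
      rw [mul_sub, ← mul_assoc]
      push_cast
      rw [inv_mul_cancel₀ hκ', one_mul]
    rw [e, norm_mul, Complex.norm_real, Real.norm_of_nonneg (inv_nonneg.mpr hκ.le)]
    calc κ⁻¹ * ‖z - (κ : ℂ) * (⟨-(m + 4) ^ 2 / 2, (m + 4) ^ 2 / 2 - (m + 4)⟩ : ℂ)‖
        ≤ κ⁻¹ * 1 := mul_le_mul_of_nonneg_left hz (inv_nonneg.mpr hκ.le)
      _ = (m + 4) ^ 2 / 4 := by rw [hκdef]; field_simp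
  obtain ⟨hj, hc, hcon, hcc, hb, hbd⟩ := hS.facts zero_le_one hdisc
  refine ⟨vert m κ, {z | gg m z / κ = 1}, level_eq hm hκ, hj, hc, hcon, hcc, ⟨_, hb, hbd⟩, ?_⟩
  intro z v h0 h1 h2 h3
  simp only [mem_ofPred_eq] at h0 h1 h2 h3
  rw [gg_scale hm hκ] at h0 h1 h2 h3
  have hsq := small_square hm (z := ((κ⁻¹ : ℝ) : ℂ) * z) (v := ((κ⁻¹ : ℝ) : ℂ) * v)
    (by rw [← mul_add]; exact h0)
    (by rw [mul_left_comm, ← mul_add]; exact h1)
    (by rw [← mul_sub]; exact h2)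
    (by rw [mul_left_comm, ← mul_sub]; exact h3)
  rw [norm_mul, Complex.norm_real, Real.norm_of_nonneg (inv_nonneg.mpr hκ.le),
    inv_mul_le_iff₀ hκ] at hsq
  refine lt_of_le_of_lt hsq ?_
  have h1 : κ * (5 * (m + 4)) = 20 / (m + 4) := by
    rw [hκdef]; field_simp; norm_num
  rw [h1, div_lt_iff₀ hn, hmdef]
  have : ε * (20 / ε + 4) = 20 + 4 * ε := by field_simp
  linarith

end Hex
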